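import Pool.Agent.Baz16.Radial

/-! # From monotone boundary functions to measures.

Proof: extend `X` to a bounded monotone function `Y` on `ℝ` (constant `inf X` on `(-∞, 0]`,
constant `sup X` on `[2 pi, ∞)`), let `mu` be its Stieltjes measure (`Monotone.stieltjesFunction`),
carried by `[0, 2 pi)` (after moving, if there is any, the mass at `2 pi`, there is none in fact:
`Y` is continuous from the left at `2 pi`), with total mass `sup X - inf X ≤ 2 pi rho(univ)`, and
`mu [0, theta) = X(theta-) - inf X`.  Put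
`nu' = (nu - rho) + (2 pi)^{-1} mu + c dirac 0`, `c = rho(univ) - (2 pi)^{-1} mu(univ) ≥ 0`.
Then `bA nu' theta - bA nu theta = X(theta) - 2 pi rho[0, theta) + const` for a.e. `theta`
(a monotone function is a.e. continuous), and the constant is `0` because both sides have mean
zero (`bA_mean`, `hmean`). -/

namespace Baz16
open Complex Metric MeasureTheory Set Filter Topology

private theorem arcM_finite : IsFiniteMeasure arcM := by
  unfold arcM
  infer_instance

private theorem arcM_real_univ : arcM.real univ = 2 * Real.pi := by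
  unfold arcM
  rw [Measure.real, Measure.restrict_apply_univ, Real.volume_Ioo, sub_zero,
    ENNReal.toReal_ofReal (by positivity)]

private theorem bA_integrable (ν : Measure ℝ) [IsFiniteMeasure ν] (hν : Supp ν) :
    Integrable (bA ν) arcM := by
  haveI := arcM_finite
  refine Integrable.of_bound (bA_measurable ν).aestronglyMeasurable
    (7 * Real.pi * ν.real univ) ?_
  unfold arcM
  refine (ae_restrict_iff' measurableSet_Ioo).2 (ae_of_all _ fun θ hθ => ?_)
  rw [Real.norm_eq_abs]
  exact abs_bA_le ν hν hθ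

/-- the Stieltjes measure of a bounded monotone function on `(0, 2 pi)`. -/
private theorem exists_stieltjes (R : ℝ) (X : ℝ → ℝ) (hX : MonotoneOn X (Ioo 0 (2 * Real.pi)))
    (hbd : ∀ a ∈ Ioo 0 (2 * Real.pi), ∀ b ∈ Ioo 0 (2 * Real.pi), X b - X a ≤ 2 * Real.pi * R) :
    ∃ (μ : Measure ℝ) (k : ℝ), IsFiniteMeasure μ ∧ μ (Ioo 0 (2 * Real.pi))ᶜ = 0 ∧
      μ.real univ ≤ R ∧ ∀ᵐ θ : ℝ ∂arcM, 2 * Real.pi * μ.real (Ico 0 θ) = X θ - k := by
  have hpi := Real.pi_pos
  have hmid : Real.pi ∈ Ioo 0 (2 * Real.pi) := ⟨hpi, by linarith⟩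
  have hl : BddBelow (X '' Ioo 0 (2 * Real.pi)) := by
    refine ⟨X Real.pi - 2 * Real.pi * R, ?_⟩
    rintro _ ⟨a, ha, rfl⟩
    have := hbd a ha _ hmid
    linarith
  have hu : BddAbove (X '' Ioo 0 (2 * Real.pi)) := by
    refine ⟨X Real.pi + 2 * Real.pi * R, ?_⟩
    rintro _ ⟨a, ha, rfl⟩
    have := hbd _ hmid a ha
    linarith
  obtain ⟨Y, hY, hXY⟩ := hX.exists_monotone_extension hl hu
  set f := hY.stieltjesFunction with hf
  have hfY : ∀ x, f x = Function.rightLim Y x := fun x => hY.stieltjesFunction_eq x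
  have h1 : ∀ b ∈ Ioo 0 (2 * Real.pi), f b ≤ f 0 + 2 * Real.pi * R := by
    intro b hb
    obtain ⟨b', hb1, hb2⟩ := exists_between hb.2
    have hb' : b' ∈ Ioo 0 (2 * Real.pi) := ⟨hb.1.trans hb1, hb2⟩
    have h2 : f b ≤ X b' := by
      rw [hfY, hXY hb']
      exact hY.rightLim_le hb1
    have h3 : X b' - 2 * Real.pi * R ≤ f 0 := by
      rw [hfY]
      refine ge_of_tendsto (hY.tendsto_rightLim 0) ?_
      have : Ioo (0 : ℝ) (2 * Real.pi) ∈ 𝓝[>] (0 : ℝ) := Ioo_mem_nhdsGT (by positivity)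
      filter_upwards [this] with a ha
      rw [← hXY ha]
      have := hbd a ha b' hb'
      linarith
    linarith
  have h2 : Function.leftLim f (2 * Real.pi) - f 0 ≤ 2 * Real.pi * R := by
    have : Function.leftLim f (2 * Real.pi) ≤ f 0 + 2 * Real.pi * R := by
      refine le_of_tendsto (f.mono.tendsto_leftLim (2 * Real.pi)) ?_
      have : Ioo (0 : ℝ) (2 * Real.pi) ∈ 𝓝[<] (2 * Real.pi) := Ioo_mem_nhdsLT (by positivity)
      filter_upwards [this] with b hb
      exact h1 b hb
    linarith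
  have h20 : 0 ≤ Function.leftLim f (2 * Real.pi) - f 0 := by
    have := f.mono.le_leftLim (show (0 : ℝ) < 2 * Real.pi by positivity)
    linarith
  set μ : Measure ℝ := ENNReal.ofReal (1 / (2 * Real.pi)) •
    f.measure.restrict (Ioo 0 (2 * Real.pi)) with hμ
  have hμs : ∀ s : Set ℝ, MeasurableSet s → μ s = ENNReal.ofReal (1 / (2 * Real.pi)) *
      f.measure (s ∩ Ioo 0 (2 * Real.pi)) := by
    intro s hs
    rw [hμ, Measure.smul_apply, Measure.restrict_apply hs, smul_eq_mul]
  have hμu : μ univ = ENNReal.ofReal (1 / (2 * Real.pi)) *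
      ENNReal.ofReal (Function.leftLim f (2 * Real.pi) - f 0) := by
    rw [hμs _ MeasurableSet.univ, univ_inter, StieltjesFunction.measure_Ioo]
  refine ⟨μ, f 0, ?_, ?_, ?_, ?_⟩
  · constructor
    rw [hμu]
    exact ENNReal.mul_lt_top ENNReal.ofReal_lt_top ENNReal.ofReal_lt_top
  · rw [hμs _ measurableSet_Ioo.compl]
    simp
  · rw [Measure.real, hμu, ENNReal.toReal_mul, ENNReal.toReal_ofReal (by positivity),
      ENNReal.toReal_ofReal h20, one_div, inv_mul_le_iff₀ (by positivity)]
    exact h2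
  · have hc : {x | ¬ ContinuousAt Y x}.Countable := hY.countable_not_continuousAt
    have hae : ∀ᵐ θ : ℝ ∂arcM, ContinuousAt Y θ := by
      unfold arcM
      refine ae_restrict_of_ae ?_
      rw [ae_iff]
      exact hc.measure_zero _
    have hae2 : ∀ᵐ θ : ℝ ∂arcM, θ ∈ Ioo 0 (2 * Real.pi) := by
      unfold arcM
      exact ae_restrict_mem measurableSet_Ioo
    filter_upwards [hae, hae2] with θ hθ hmem
    have hlim : Function.leftLim f θ = X θ := by
      have ht : Tendsto f (𝓝[<] θ) (𝓝 (Y θ)) := by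
        refine tendsto_of_tendsto_of_tendsto_of_le_of_le' (hθ.tendsto.mono_left
          nhdsWithin_le_nhds) tendsto_const_nhds ?_ ?_
        · exact Eventually.of_forall fun b => by
            rw [hfY]
            exact hY.le_rightLim le_rfl
        · filter_upwards [self_mem_nhdsWithin] with b hb
          rw [hfY]
          exact hY.rightLim_le hb
      rw [hXY hmem]
      exact tendsto_nhds_unique (f.mono.tendsto_leftLim θ) ht
    have hset : Ico 0 θ ∩ Ioo 0 (2 * Real.pi) = Ioo 0 θ := by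
      ext x
      simp only [mem_inter_iff, mem_Ico, mem_Ioo]
      constructor
      · rintro ⟨⟨-, h⟩, ⟨h', -⟩⟩
        exact ⟨h', h⟩
      · rintro ⟨h, h'⟩
        exact ⟨⟨h.le, h'⟩, ⟨h, h'.trans hmem.2⟩⟩
    have h30 : 0 ≤ Function.leftLim f θ - f 0 := by
      have := f.mono.le_leftLim hmem.1
      linarith
    rw [Measure.real, hμs _ measurableSet_Ico, hset, StieltjesFunction.measure_Ioo,
      ENNReal.toReal_mul, ENNReal.toReal_ofReal (by positivity), ENNReal.toReal_ofReal h30, hlim]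
    field_simp


theorem exists_measure (ν ρ : Measure ℝ) [IsProbabilityMeasure ν] (hν : Supp ν) (hρ : ρ ≤ ν)
    (X : ℝ → ℝ) (hX : MonotoneOn X (Ioo 0 (2 * Real.pi)))
    (hbd : ∀ a ∈ Ioo 0 (2 * Real.pi), ∀ b ∈ Ioo 0 (2 * Real.pi),
      X b - X a ≤ 2 * Real.pi * ρ.real univ)
    (hmean : ∫ θ : ℝ, (X θ - 2 * Real.pi * ρ.real (Ico 0 θ)) ∂arcM = 0) :
    ∃ ν' : Measure ℝ, IsProbabilityMeasure ν' ∧ Supp ν' ∧
      ∀ᵐ θ : ℝ ∂arcM,
        bA ν' θ - bA ν θ = X θ - 2 * Real.pi * ρ.real (Ico 0 θ) := by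
  have hpi := Real.pi_pos
  haveI hρf : IsFiniteMeasure ρ := isFiniteMeasure_of_le ν hρ
  haveI hcf := arcM_finite
  obtain ⟨μ, k, hμf, hμ0, hμR, hμk⟩ := exists_stieltjes (ρ.real univ) X hX hbd
  set c : ℝ := ρ.real univ - μ.real univ with hc
  have hc0 : 0 ≤ c := by linarith
  set ν' : Measure ℝ := (ν - ρ) + μ + ENNReal.ofReal c • Measure.dirac 0 with hν'
  have hsub : ∀ s : Set ℝ, (ν - ρ).real s = ν.real s - ρ.real s := by
    intro s
    have h := Measure.sub_add_cancel_of_le hρ
    have h2 : (ν - ρ).real s + ρ.real s = ν.real s := by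
      rw [← measureReal_add_apply, h]
    linarith
  haveI hdf : IsFiniteMeasure (ENNReal.ofReal c • Measure.dirac (0 : ℝ)) :=
    Measure.smul_finite _ ENNReal.ofReal_ne_top
  haveI hνf : IsFiniteMeasure ν' := by
    rw [hν']
    infer_instance
  have hreal : ∀ s : Set ℝ, MeasurableSet s → (0 : ℝ) ∈ s →
      ν'.real s = ν.real s - ρ.real s + μ.real s + c := by
    intro s hs h0
    rw [hν', measureReal_add_apply, measureReal_add_apply, hsub]
    congr 1
    rw [Measure.real, Measure.smul_apply, Measure.dirac_apply' _ hs, indicator_of_mem h0]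
    simp [hc0]
  have hνu : ν'.real univ = 1 := by
    rw [hreal _ MeasurableSet.univ (mem_univ _), probReal_univ]
    linarith
  have hprob : IsProbabilityMeasure ν' := by
    constructor
    rw [← ENNReal.toReal_eq_one_iff]
    exact hνu
  have hsupp : Supp ν' := by
    unfold Supp
    rw [hν', Measure.add_apply, Measure.add_apply]
    have h1 : (ν - ρ) (Ico 0 (2 * Real.pi))ᶜ = 0 :=
      le_antisymm ((Measure.sub_le _).trans hν.le) bot_le
    have h2 : μ (Ico 0 (2 * Real.pi))ᶜ = 0 := by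
      refine measure_mono_null ?_ hμ0
      exact compl_subset_compl.2 Ioo_subset_Ico_self
    have h3 : (ENNReal.ofReal c • Measure.dirac (0 : ℝ)) (Ico 0 (2 * Real.pi))ᶜ = 0 := by
      rw [Measure.smul_apply, Measure.dirac_apply' _ measurableSet_Ico.compl,
        indicator_of_notMem (by simp [hpi])]
      simp
    rw [h1, h2, h3]
    simp
  refine ⟨ν', hprob, hsupp, ?_⟩
  set K : ℝ := 2 * Real.pi * c + (∫ t, t ∂ν') - (∫ t, t ∂ν) - k with hK
  have hae2 : ∀ᵐ θ : ℝ ∂arcM, θ ∈ Ioo 0 (2 * Real.pi) := by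
    unfold arcM
    exact ae_restrict_mem measurableSet_Ioo
  have hmain : ∀ᵐ θ : ℝ ∂arcM,
      bA ν' θ - bA ν θ = X θ - 2 * Real.pi * ρ.real (Ico 0 θ) + K := by
    filter_upwards [hμk, hae2] with θ hθ hmem
    unfold bA
    rw [hνu, probReal_univ, hreal _ measurableSet_Ico ⟨le_rfl, hmem.1⟩, hK]
    have e : 2 * Real.pi * (ν.real (Ico 0 θ) - ρ.real (Ico 0 θ) + μ.real (Ico 0 θ) + c) =
      2 * Real.pi * ν.real (Ico 0 θ) - 2 * Real.pi * ρ.real (Ico 0 θ) +
        2 * Real.pi * μ.real (Ico 0 θ) + 2 * Real.pi * c := by ring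
    rw [e, hθ]
    ring
  have hI' := bA_integrable ν' hsupp
  have hI := bA_integrable ν hν
  have hint : ∫ θ : ℝ, (X θ - 2 * Real.pi * ρ.real (Ico 0 θ)) ∂arcM =
      ∫ θ : ℝ, ((bA ν' θ - bA ν θ) - K) ∂arcM := by
    refine integral_congr_ae ?_
    filter_upwards [hmain] with θ hθ
    rw [hθ]
    ring
  have hJ : Integrable (fun θ : ℝ => bA ν' θ - bA ν θ) arcM := hI'.sub hI
  rw [hmean, integral_sub hJ (integrable_const _), integral_sub hI' hI,
    bA_mean ν' hsupp, bA_mean ν hν, integral_const, arcM_real_univ, smul_eq_mul] at hint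
  have hK0 : K = 0 := by
    have h : 2 * Real.pi * K = 0 := by linarith
    rcases mul_eq_zero.1 h with h | h
    · exfalso
      linarith
    · exact h
  filter_upwards [hmain] with θ hθ
  rw [hθ, hK0, add_zero]

end Baz16
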