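import Pool.Agent.Baz16.Defs

/-! # Monotonicity of `rr` off the two arcs.

`μ2` is carried by `[p2, q2]`, `μ1` by `[p1, q1]`, with the same mass `m`, and
`0 < p2 ≤ q2 < p1 ≤ q1 < pi`.  Put `h_t(θ) = log |sin((θ - t)/2)|`; `log rr θ` is
`2 ∫ h_t(θ) dμ2 - 2 ∫ h_t(θ) dμ1` (the constants `log 2` cancel).
For `θ ≤ θ'` on the same side of `[p2, q1]` (both `< p2`, or both `> q1`), `t ↦ h_t(θ') - h_t(θ)`
is nondecreasing on `[p2, q1]` (its derivative is `(1/2)(cot((θ-t)/2) - cot((θ'-t)/2)) ≥ 0`), so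
`∫ (h_t(θ')-h_t(θ)) dμ2 ≤ m (h_c(θ')-h_c(θ)) ≤ ∫ (h_t(θ')-h_t(θ)) dμ1` with `c = q2`.
The other statements are termwise: all angles are at distance at most `pi`. -/

namespace Baz16
open Complex Metric MeasureTheory Set Filter Topology

variable (μ2 μ1 : Measure ℝ) [IsFiniteMeasure μ2] [IsFiniteMeasure μ1] (p2 q2 p1 q1 : ℝ)

private theorem ae_mem_Icc {μ : Measure ℝ} {a b : ℝ} (h : μ (Icc a b)ᶜ = 0) :
    ∀ᵐ t ∂μ, t ∈ Icc a b := by
  rw [ae_iff]
  exact h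

private theorem integrable_carried {μ : Measure ℝ} [IsFiniteMeasure μ] {a b : ℝ}
    (h : μ (Icc a b)ᶜ = 0) {f : ℝ → ℝ} (hf : ContinuousOn f (Icc a b)) : Integrable f μ := by
  have h1 : IntegrableOn f (Icc a b) μ := hf.integrableOn_compact isCompact_Icc
  have h2 : μ.restrict (Icc a b) = μ := Measure.restrict_eq_self_of_ae_mem (ae_mem_Icc h)
  rwa [IntegrableOn, h2] at h1

private theorem goodAt_gen {μ : Measure ℝ} [IsFiniteMeasure μ] {a b : ℝ}
    (h : μ (Icc a b)ᶜ = 0) {θ : ℝ} (hn : ∀ t ∈ Icc a b, Real.sin ((θ - t) / 2) ≠ 0) :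
    GoodAt μ θ := by
  unfold GoodAt
  refine integrable_carried h ?_
  refine ContinuousOn.log (by fun_prop) ?_
  intro t ht
  have := hn t ht
  positivity

private theorem sin_half_pos {x : ℝ} (h0 : 0 < x) (h1 : x < 2 * Real.pi) :
    0 < Real.sin (x / 2) :=
  Real.sin_pos_of_pos_of_lt_pi (by linarith) (by linarith)

private theorem sin_half_ne {x : ℝ} (h0 : x ≠ 0) (h1 : |x| < 2 * Real.pi) :
    Real.sin (x / 2) ≠ 0 := by
  rcases abs_lt.1 h1 with ⟨ha, hb⟩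
  rcases lt_or_gt_of_ne h0 with h | h
  · have := sin_half_pos (x := -x) (by linarith) (by linarith)
    rw [neg_div, Real.sin_neg] at this
    linarith
  · exact (sin_half_pos h hb).ne'

/-- Ptolemy -/
private theorem ptolemy (a b c d : ℝ) :
    Real.sin (b - d) * Real.sin (a - c) - Real.sin (a - d) * Real.sin (b - c) =
      Real.sin (b - a) * Real.sin (d - c) := by
  simp only [Real.sin_sub]
  have h1 := Real.sin_sq_add_cos_sq a
  have h2 := Real.sin_sq_add_cos_sq b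
  have h3 := Real.sin_sq_add_cos_sq c
  have h4 := Real.sin_sq_add_cos_sq d
  ring_nf
  
/-- off a compact interval carrying `μ` the potential converges. -/
theorem goodAt_off (μ : Measure ℝ) [IsFiniteMeasure μ] (a b : ℝ) (h : μ (Icc a b)ᶜ = 0)
    (ha : 0 ≤ a) (hb : b < 2 * Real.pi) {θ : ℝ} (hθ : θ ∈ Ioo 0 (2 * Real.pi))
    (hn : θ ∉ Icc a b) : GoodAt μ θ := by
  refine goodAt_gen h fun t ht => sin_half_ne ?_ ?_
  · intro h0
    exact hn (by rwa [sub_eq_zero.1 h0])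
  · rw [abs_lt]
    constructor <;> linarith [ht.1, ht.2, hθ.1, hθ.2]

/-- the kernel -/
private noncomputable def hh (θ t : ℝ) : ℝ := Real.log (2 * |Real.sin ((θ - t) / 2)|)

private theorem int_compare {μ2 μ1 : Measure ℝ} [IsFiniteMeasure μ2] [IsFiniteMeasure μ1]
    {p2 q2 p1 q1 : ℝ} (h2 : μ2 (Icc p2 q2)ᶜ = 0) (h1 : μ1 (Icc p1 q1)ᶜ = 0)
    (hm : μ2.real univ = μ1.real univ) {k : ℝ → ℝ} (i2 : Integrable k μ2)
    (i1 : Integrable k μ1) {c : ℝ} (hk2 : ∀ t ∈ Icc p2 q2, k t ≤ c)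
    (hk1 : ∀ t ∈ Icc p1 q1, c ≤ k t) : ∫ t, k t ∂μ2 ≤ ∫ t, k t ∂μ1 := by
  calc ∫ t, k t ∂μ2 ≤ ∫ _t, c ∂μ2 :=
        integral_mono_ae i2 (integrable_const c) ((ae_mem_Icc h2).mono hk2)
    _ = ∫ _t, c ∂μ1 := by simp [hm]
    _ ≤ ∫ t, k t ∂μ1 :=
        integral_mono_ae (integrable_const c) i1 ((ae_mem_Icc h1).mono hk1)

private theorem rr_le_of {μ2 μ1 : Measure ℝ} {θ θ' : ℝ} (g2 : GoodAt μ2 θ) (g2' : GoodAt μ2 θ')
    (g1 : GoodAt μ1 θ) (g1' : GoodAt μ1 θ')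
    (h : ∫ t, (hh θ' t - hh θ t) ∂μ2 ≤ ∫ t, (hh θ' t - hh θ t) ∂μ1) :
    rr μ2 μ1 θ' ≤ rr μ2 μ1 θ := by
  unfold rr
  rw [if_pos g2, if_pos g2', Real.exp_le_exp]
  unfold pot
  unfold GoodAt at g2 g2' g1 g1'
  simp only [hh] at h
  rw [integral_sub g2' g2, integral_sub g1' g1] at h
  linarith

private theorem rr_le_of_ge {μ2 μ1 : Measure ℝ} {θ θ' : ℝ} (g2 : GoodAt μ2 θ)
    (g2' : GoodAt μ2 θ') (g1 : GoodAt μ1 θ) (g1' : GoodAt μ1 θ')
    (ha : ∀ᵐ t ∂μ2, hh θ' t ≤ hh θ t) (hb : ∀ᵐ t ∂μ1, hh θ t ≤ hh θ' t) :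
    rr μ2 μ1 θ' ≤ rr μ2 μ1 θ := by
  unfold rr
  rw [if_pos g2, if_pos g2', Real.exp_le_exp]
  unfold pot
  have e1 := integral_mono_ae g2' g2 ha
  have e2 := integral_mono_ae g1 g1' hb
  linarith

theorem rr_anti_left (h2 : μ2 (Icc p2 q2)ᶜ = 0) (h1 : μ1 (Icc p1 q1)ᶜ = 0)
    (hm : μ2.real univ = μ1.real univ) (h0 : 0 < p2) (h02 : p2 ≤ q2) (h21 : q2 < p1)
    (h11 : p1 ≤ q1) (h1π : q1 < Real.pi) {θ θ' : ℝ} (hθ : 0 ≤ θ) (hle : θ ≤ θ')
    (hθ' : θ' < p2) : rr μ2 μ1 θ' ≤ rr μ2 μ1 θ := by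
  have hpi := Real.pi_pos
  have good : ∀ {x t : ℝ}, 0 ≤ x → x < p2 → p2 ≤ t → t ≤ q1 → Real.sin ((x - t) / 2) ≠ 0 := by
    intro x t hx hx' ht ht'
    refine sin_half_ne (by linarith) ?_
    rw [abs_lt]
    constructor <;> linarith
  have G2 : ∀ {x : ℝ}, 0 ≤ x → x < p2 → GoodAt μ2 x := fun hx hx' =>
    goodAt_gen h2 fun t ht => good hx hx' ht.1 (by linarith [ht.2])
  have G1 : ∀ {x : ℝ}, 0 ≤ x → x < p2 → GoodAt μ1 x := fun hx hx' =>
    goodAt_gen h1 fun t ht => good hx hx' (by linarith [ht.1]) ht.2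
  have key : ∀ t t' : ℝ, p2 ≤ t → t ≤ t' → t' ≤ q1 → hh θ' t - hh θ t ≤ hh θ' t' - hh θ t' := by
    intro t t' ht htt ht'
    have a1 : 0 < Real.sin ((t - θ) / 2) := sin_half_pos (by linarith) (by linarith)
    have a2 : 0 < Real.sin ((t' - θ) / 2) := sin_half_pos (by linarith) (by linarith)
    have a3 : 0 < Real.sin ((t - θ') / 2) := sin_half_pos (by linarith) (by linarith)
    have a4 : 0 < Real.sin ((t' - θ') / 2) := sin_half_pos (by linarith) (by linarith)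
    have e : ∀ x s : ℝ, |Real.sin ((x - s) / 2)| = |Real.sin ((s - x) / 2)| := by
      intro x s
      rw [← abs_neg, ← Real.sin_neg]
      ring_nf
    unfold hh
    rw [e θ' t, e θ t, e θ' t', e θ t', abs_of_pos a1, abs_of_pos a2, abs_of_pos a3, abs_of_pos a4]
    rw [sub_le_sub_iff, ← Real.log_mul (by positivity) (by positivity),
      ← Real.log_mul (by positivity) (by positivity)]
    refine Real.log_le_log (by positivity) ?_
    have hp := ptolemy (t / 2) (t' / 2) (θ / 2) (θ' / 2)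
    have hs : 0 ≤ Real.sin (t' / 2 - t / 2) * Real.sin (θ' / 2 - θ / 2) :=
      mul_nonneg (Real.sin_nonneg_of_nonneg_of_le_pi (by linarith) (by linarith))
        (Real.sin_nonneg_of_nonneg_of_le_pi (by linarith) (by linarith))
    rw [show (t - θ') / 2 = t / 2 - θ' / 2 by ring, show (t' - θ) / 2 = t' / 2 - θ / 2 by ring,
      show (t' - θ') / 2 = t' / 2 - θ' / 2 by ring, show (t - θ) / 2 = t / 2 - θ / 2 by ring]
    linarith
  have g2 := G2 hθ (by linarith)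
  have g2' := G2 (hθ.trans hle) hθ'
  have g1 := G1 hθ (by linarith)
  have g1' := G1 (hθ.trans hle) hθ'
  refine rr_le_of g2 g2' g1 g1' (int_compare h2 h1 hm (g2'.sub g2) (g1'.sub g1)
    (c := hh θ' q2 - hh θ q2) ?_ ?_)
  · intro t ht
    exact key t q2 ht.1 ht.2 (by linarith)
  · intro t ht
    exact key q2 t h02 (by linarith [ht.1]) ht.2

theorem rr_anti_right (h2 : μ2 (Icc p2 q2)ᶜ = 0) (h1 : μ1 (Icc p1 q1)ᶜ = 0)
    (hm : μ2.real univ = μ1.real univ) (h0 : 0 < p2) (h02 : p2 ≤ q2) (h21 : q2 < p1)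
    (h11 : p1 ≤ q1) (h1π : q1 < Real.pi) {θ θ' : ℝ} (hθ : q1 < θ) (hle : θ ≤ θ')
    (hθ' : θ' ≤ 2 * Real.pi) : rr μ2 μ1 θ' ≤ rr μ2 μ1 θ := by
  have hpi := Real.pi_pos
  have pos : ∀ {x t : ℝ}, q1 < x → x ≤ 2 * Real.pi → p2 ≤ t → t ≤ q1 →
      0 < Real.sin ((x - t) / 2) := by
    intro x t hx hx' ht ht'
    exact sin_half_pos (by linarith) (by linarith)
  have G2 : ∀ {x : ℝ}, q1 < x → x ≤ 2 * Real.pi → GoodAt μ2 x := fun hx hx' =>
    goodAt_gen h2 fun t ht => (pos hx hx' ht.1 (by linarith [ht.2])).ne'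
  have G1 : ∀ {x : ℝ}, q1 < x → x ≤ 2 * Real.pi → GoodAt μ1 x := fun hx hx' =>
    goodAt_gen h1 fun t ht => (pos hx hx' (by linarith [ht.1]) ht.2).ne'
  have key : ∀ t t' : ℝ, p2 ≤ t → t ≤ t' → t' ≤ q1 → hh θ' t - hh θ t ≤ hh θ' t' - hh θ t' := by
    intro t t' ht htt ht'
    have a1 : 0 < Real.sin ((θ - t) / 2) := pos hθ (by linarith) ht (by linarith)
    have a2 : 0 < Real.sin ((θ - t') / 2) := pos hθ (by linarith) (by linarith) ht'
    have a3 : 0 < Real.sin ((θ' - t) / 2) := pos (by linarith) hθ' ht (by linarith)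
    have a4 : 0 < Real.sin ((θ' - t') / 2) := pos (by linarith) hθ' (by linarith) ht'
    unfold hh
    rw [abs_of_pos a1, abs_of_pos a2, abs_of_pos a3, abs_of_pos a4]
    rw [sub_le_sub_iff, ← Real.log_mul (by positivity) (by positivity),
      ← Real.log_mul (by positivity) (by positivity)]
    refine Real.log_le_log (by positivity) ?_
    have hp := ptolemy (θ / 2) (θ' / 2) (t / 2) (t' / 2)
    have hs : 0 ≤ Real.sin (θ' / 2 - θ / 2) * Real.sin (t' / 2 - t / 2) :=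
      mul_nonneg (Real.sin_nonneg_of_nonneg_of_le_pi (by linarith) (by linarith))
        (Real.sin_nonneg_of_nonneg_of_le_pi (by linarith) (by linarith))
    rw [show (θ' - t) / 2 = θ' / 2 - t / 2 by ring, show (θ - t') / 2 = θ / 2 - t' / 2 by ring,
      show (θ' - t') / 2 = θ' / 2 - t' / 2 by ring, show (θ - t) / 2 = θ / 2 - t / 2 by ring]
    linarith
  have g2 := G2 hθ (by linarith)
  have g2' := G2 (lt_of_lt_of_le hθ hle) hθ'
  have g1 := G1 hθ (by linarith)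
  have g1' := G1 (lt_of_lt_of_le hθ hle) hθ'
  refine rr_le_of g2 g2' g1 g1' (int_compare h2 h1 hm (g2'.sub g2) (g1'.sub g1)
    (c := hh θ' q2 - hh θ q2) ?_ ?_)
  · intro t ht
    exact key t q2 ht.1 ht.2 (by linarith)
  · intro t ht
    exact key q2 t h02 (by linarith [ht.1]) ht.2

theorem rr_cross (h2 : μ2 (Icc p2 q2)ᶜ = 0) (h1 : μ1 (Icc p1 q1)ᶜ = 0)
    (hm : μ2.real univ = μ1.real univ) (h0 : 0 < p2) (h02 : p2 ≤ q2) (h21 : q2 < p1)
    (h11 : p1 ≤ q1) (h1π : q1 < Real.pi) {a b : ℝ} (ha : 0 < a) (ha' : a < p2)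
    (hb : q1 < b) (hb' : b < 2 * Real.pi) : rr μ2 μ1 a ≤ rr μ2 μ1 b := by
  have hpi := Real.pi_pos
  have posb : ∀ {t : ℝ}, p2 ≤ t → t ≤ q1 → 0 < Real.sin ((b - t) / 2) := by
    intro t ht ht'
    exact sin_half_pos (by linarith) (by linarith)
  have posa : ∀ {t : ℝ}, p2 ≤ t → t ≤ q1 → 0 < Real.sin ((t - a) / 2) := by
    intro t ht ht'
    exact sin_half_pos (by linarith) (by linarith)
  have e : ∀ x s : ℝ, Real.sin ((x - s) / 2) = -Real.sin ((s - x) / 2) := by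
    intro x s
    rw [← Real.sin_neg]
    ring_nf
  have g2b : GoodAt μ2 b := goodAt_gen h2 fun t ht => (posb ht.1 (by linarith [ht.2])).ne'
  have g1b : GoodAt μ1 b := goodAt_gen h1 fun t ht => (posb (by linarith [ht.1]) ht.2).ne'
  have g2a : GoodAt μ2 a := goodAt_gen h2 fun t ht => by
    rw [e]
    exact (neg_neg_of_pos (posa ht.1 (by linarith [ht.2]))).ne
  have g1a : GoodAt μ1 a := goodAt_gen h1 fun t ht => by
    rw [e]
    exact (neg_neg_of_pos (posa (by linarith [ht.1]) ht.2)).ne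
  have key : ∀ t t' : ℝ, p2 ≤ t → t ≤ t' → t' ≤ q1 → hh a t - hh b t ≤ hh a t' - hh b t' := by
    intro t t' ht htt ht'
    have a1 : 0 < Real.sin ((b - t) / 2) := posb ht (by linarith)
    have a2 : 0 < Real.sin ((b - t') / 2) := posb (by linarith) ht'
    have a3 : 0 < Real.sin ((t - a) / 2) := posa ht (by linarith)
    have a4 : 0 < Real.sin ((t' - a) / 2) := posa (by linarith) ht'
    unfold hh
    rw [e a t, e a t', abs_neg, abs_neg, abs_of_pos a1, abs_of_pos a2, abs_of_pos a3,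
      abs_of_pos a4]
    rw [sub_le_sub_iff, ← Real.log_mul (by positivity) (by positivity),
      ← Real.log_mul (by positivity) (by positivity)]
    refine Real.log_le_log (by positivity) ?_
    have hp := ptolemy (t / 2) (t' / 2) (a / 2) (b / 2)
    have hs : 0 ≤ Real.sin (t' / 2 - t / 2) * Real.sin (b / 2 - a / 2) :=
      mul_nonneg (Real.sin_nonneg_of_nonneg_of_le_pi (by linarith) (by linarith))
        (Real.sin_nonneg_of_nonneg_of_le_pi (by linarith) (by linarith))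
    have e1 : Real.sin (t' / 2 - b / 2) = -Real.sin ((b - t') / 2) := by
      rw [← Real.sin_neg]; ring_nf
    have e2 : Real.sin (t / 2 - b / 2) = -Real.sin ((b - t) / 2) := by
      rw [← Real.sin_neg]; ring_nf
    rw [e1, e2, show t / 2 - a / 2 = (t - a) / 2 by ring,
      show t' / 2 - a / 2 = (t' - a) / 2 by ring] at hp
    nlinarith
  refine rr_le_of g2b g2a g1b g1a (int_compare h2 h1 hm (g2a.sub g2b) (g1a.sub g1b)
    (c := hh a q2 - hh b q2) ?_ ?_)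
  · intro t ht
    exact key t q2 ht.1 ht.2 (by linarith)
  · intro t ht
    exact key q2 t h02 (by linarith [ht.1]) ht.2

/-- the kernel is nondecreasing in the distance, up to distance `pi`. -/
private theorem hh_le {x y t s : ℝ} (h0 : x - t ≠ 0) (hle : |x - t| ≤ |y - s|)
    (hπ : |y - s| ≤ Real.pi) : hh x t ≤ hh y s := by
  have hpi := Real.pi_pos
  have e : ∀ u : ℝ, |u| ≤ Real.pi → |Real.sin (u / 2)| = Real.sin (|u| / 2) := by
    intro u hu
    have h3 : |u / 2| = |u| / 2 := by rw [abs_div, abs_two]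
    rw [← h3, Real.abs_sin_eq_sin_abs_of_abs_le_pi]
    rw [h3]
    linarith
  have hx : 0 < |x - t| := abs_pos.2 h0
  unfold hh
  rw [e _ (hle.trans hπ), e _ hπ]
  have hs : 0 < Real.sin (|x - t| / 2) := sin_half_pos hx (by linarith)
  refine Real.log_le_log (by positivity) ?_
  have := Real.sin_le_sin_of_le_of_le_pi_div_two (x := |x - t| / 2) (y := |y - s| / 2)
    (by linarith) (by linarith) (by linarith)
  linarith

theorem rr_mono_mid (h2 : μ2 (Icc p2 q2)ᶜ = 0) (h1 : μ1 (Icc p1 q1)ᶜ = 0)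
    (hm : μ2.real univ = μ1.real univ) (h0 : 0 < p2) (h02 : p2 ≤ q2) (h21 : q2 < p1)
    (h11 : p1 ≤ q1) (h1π : q1 < Real.pi) {θ θ' : ℝ} (hθ : q2 < θ) (hle : θ ≤ θ')
    (hθ' : θ' < p1) : rr μ2 μ1 θ ≤ rr μ2 μ1 θ' := by
  have hpi := Real.pi_pos
  have G2 : ∀ {x : ℝ}, q2 < x → x < p1 → GoodAt μ2 x := fun hx hx' =>
    goodAt_gen h2 fun t ht => by
      refine sin_half_ne (by linarith [ht.2]) ?_
      rw [abs_lt]
      constructor <;> linarith [ht.1, ht.2]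
  have G1 : ∀ {x : ℝ}, q2 < x → x < p1 → GoodAt μ1 x := fun hx hx' =>
    goodAt_gen h1 fun t ht => by
      refine sin_half_ne (by linarith [ht.1]) ?_
      rw [abs_lt]
      constructor <;> linarith [ht.1, ht.2]
  refine rr_le_of_ge (G2 (by linarith) (by linarith)) (G2 (by linarith) (by linarith))
    (G1 (by linarith) (by linarith)) (G1 (by linarith) (by linarith)) ?_ ?_
  · filter_upwards [ae_mem_Icc h2] with t ht
    refine hh_le (by linarith [ht.2]) ?_ ?_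
    · rw [abs_of_pos (by linarith [ht.2]), abs_of_pos (by linarith [ht.2])]
      linarith
    · rw [abs_of_pos (by linarith [ht.2])]
      linarith [ht.1]
  · filter_upwards [ae_mem_Icc h1] with t ht
    refine hh_le (by linarith [ht.1]) ?_ ?_
    · rw [abs_of_neg (by linarith [ht.1]), abs_of_neg (by linarith [ht.1])]
      linarith
    · rw [abs_of_neg (by linarith [ht.1])]
      linarith [ht.2]

/-- points near `[p2, q2]` against points at distance at least `2 (q2 - p2)` to its right.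
(If `θ'` is not good then `rr μ2 μ1 θ' = 0`.)  `hat` : no atom of `μ2` at `θ'`. -/
theorem rr_compare (h2 : μ2 (Icc p2 q2)ᶜ = 0) (h1 : μ1 (Icc p1 q1)ᶜ = 0)
    (hm : μ2.real univ = μ1.real univ) (h02 : p2 < q2)
    (h0 : 0 < p2 - (q2 - p2)) (h21 : q2 + 2 * (q2 - p2) < p1)
    (h11 : p1 ≤ q1) (h1π : q1 < Real.pi) {θ θ' : ℝ} (hθ' : θ' ∈ Icc (p2 - (q2 - p2)) q2)
    (hat : μ2 {θ'} = 0)
    (hθ : q2 + 2 * (q2 - p2) ≤ θ) (hθ1 : θ < p1) : rr μ2 μ1 θ' ≤ rr μ2 μ1 θ := by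
  have hpi := Real.pi_pos
  by_cases hg : GoodAt μ2 θ'
  · have G1 : ∀ {x : ℝ}, 0 < x → x < p1 → GoodAt μ1 x := fun hx hx' =>
      goodAt_gen h1 fun t ht => by
        refine sin_half_ne (by linarith [ht.1]) ?_
        rw [abs_lt]
        constructor <;> linarith [ht.1, ht.2]
    have g2 : GoodAt μ2 θ := goodAt_gen h2 fun t ht => by
        refine sin_half_ne (by linarith [ht.2]) ?_
        rw [abs_lt]
        constructor <;> linarith [ht.1, ht.2]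
    refine rr_le_of_ge g2 hg (G1 (by linarith) (by linarith))
      (G1 (by linarith [hθ'.1]) (by linarith [hθ'.2])) ?_ ?_
    · have hne : ∀ᵐ t ∂μ2, t ≠ θ' := by
        rw [ae_iff]
        simpa using hat
      filter_upwards [ae_mem_Icc h2, hne] with t ht hn
      refine hh_le (sub_ne_zero.2 (Ne.symm hn)) ?_ ?_
      · rw [abs_of_pos (a := θ - t) (by linarith [ht.2]), abs_le]
        constructor <;> linarith [ht.1, ht.2, hθ'.1, hθ'.2]
      · rw [abs_of_pos (by linarith [ht.2])]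
        linarith [ht.1]
    · filter_upwards [ae_mem_Icc h1] with t ht
      refine hh_le (by linarith [ht.1]) ?_ ?_
      · rw [abs_of_neg (by linarith [ht.1]), abs_of_neg (by linarith [ht.1, hθ'.2])]
        linarith [hθ'.2]
      · rw [abs_of_neg (by linarith [ht.1, hθ'.2])]
        linarith [ht.2, hθ'.1]
  · unfold rr
    rw [if_neg hg]
    split_ifs
    · exact (Real.exp_pos _).le
    · exact le_rfl

/-! The argument. -/

private theorem bA_sub {μ2 μ1 : Measure ℝ} (hm : μ2.real univ = μ1.real univ) (θ : ℝ) :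
    bA μ1 θ - bA μ2 θ = (∫ t, t ∂μ1) - (∫ t, t ∂μ2) +
      2 * Real.pi * (μ1.real (Ico 0 θ) - μ2.real (Ico 0 θ)) := by
  unfold bA
  rw [hm]
  ring

private theorem real_zero {μ : Measure ℝ} {a b : ℝ} (h : μ (Icc a b)ᶜ = 0) {s : Set ℝ}
    (hs : ∀ t ∈ s, t ∉ Icc a b) : μ.real s = 0 := by
  rw [measureReal_def, measure_mono_null (t := (Icc a b)ᶜ) hs h]
  simp

private theorem real_full {μ : Measure ℝ} [IsFiniteMeasure μ] {a b : ℝ}
    (h : μ (Icc a b)ᶜ = 0) {s : Set ℝ} (hs : ∀ t ∈ Icc a b, t ∈ s) :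
    μ.real s = μ.real univ := by
  rw [measureReal_def, measureReal_def]
  congr 1
  refine measure_congr ?_
  filter_upwards [ae_mem_Icc h] with t ht
  exact propext ⟨fun _ => trivial, fun _ => hs t ht⟩

theorem bA_left (h2 : μ2 (Icc p2 q2)ᶜ = 0) (h1 : μ1 (Icc p1 q1)ᶜ = 0)
    (hm : μ2.real univ = μ1.real univ) (h02 : p2 ≤ q2) (h21 : q2 < p1) (h11 : p1 ≤ q1)
    {θ : ℝ} (hθ : θ ≤ p2) :
    bA μ1 θ - bA μ2 θ = (∫ t, t ∂μ1) - (∫ t, t ∂μ2) := by
  rw [bA_sub hm, real_zero h2 (s := Ico 0 θ), real_zero h1 (s := Ico 0 θ)]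
  · ring
  · intro t ht h
    linarith [ht.2, h.1]
  · intro t ht h
    linarith [ht.2, h.1]

theorem bA_mid (h2 : μ2 (Icc p2 q2)ᶜ = 0) (h1 : μ1 (Icc p1 q1)ᶜ = 0)
    (hm : μ2.real univ = μ1.real univ) (h0 : 0 ≤ p2) (h02 : p2 ≤ q2) (h21 : q2 < p1)
    (h11 : p1 ≤ q1) {θ : ℝ} (hθ : q2 < θ) (hθ' : θ ≤ p1) :
    bA μ1 θ - bA μ2 θ = (∫ t, t ∂μ1) - (∫ t, t ∂μ2) - 2 * Real.pi * μ2.real univ := by
  rw [bA_sub hm, real_full h2 (s := Ico 0 θ), real_zero h1 (s := Ico 0 θ)]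
  · ring
  · intro t ht h
    linarith [ht.2, h.1]
  · intro t ht
    exact ⟨h0.trans ht.1, lt_of_le_of_lt ht.2 hθ⟩

theorem bA_right (h2 : μ2 (Icc p2 q2)ᶜ = 0) (h1 : μ1 (Icc p1 q1)ᶜ = 0)
    (hm : μ2.real univ = μ1.real univ) (h0 : 0 ≤ p2) (h02 : p2 ≤ q2) (h21 : q2 < p1)
    (h11 : p1 ≤ q1) {θ : ℝ} (hθ : q1 < θ) :
    bA μ1 θ - bA μ2 θ = (∫ t, t ∂μ1) - (∫ t, t ∂μ2) := by
  rw [bA_sub hm, real_full h2 (s := Ico 0 θ), real_full h1 (s := Ico 0 θ), hm]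
  · ring
  · intro t ht
    exact ⟨by linarith [ht.1], lt_of_le_of_lt ht.2 hθ⟩
  · intro t ht
    exact ⟨h0.trans ht.1, by linarith [ht.2]⟩

/-- left of `p1`, `bA μ1 - bA μ2` is nonincreasing. -/
theorem bA_anti (h2 : μ2 (Icc p2 q2)ᶜ = 0) (h1 : μ1 (Icc p1 q1)ᶜ = 0)
    (hm : μ2.real univ = μ1.real univ) (h0 : 0 ≤ p2) (h02 : p2 ≤ q2) (h21 : q2 < p1)
    (h11 : p1 ≤ q1) {θ θ' : ℝ} (hle : θ ≤ θ') (hθ' : θ' ≤ p1) :
    bA μ1 θ' - bA μ2 θ' ≤ bA μ1 θ - bA μ2 θ := by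
  rw [bA_sub hm, bA_sub hm, real_zero h1 (s := Ico 0 θ), real_zero h1 (s := Ico 0 θ')]
  · have hs : μ2.real (Ico 0 θ) ≤ μ2.real (Ico 0 θ') :=
      measureReal_mono (Ico_subset_Ico_right hle)
    have hpi := Real.pi_pos
    nlinarith
  · intro t ht h
    linarith [ht.2, h.1]
  · intro t ht h
    linarith [ht.2, h.1]

/-- all values lie between `b - 2 pi m` and `b`, `m (p1 - q2) ≤ b ≤ m pi`. -/
theorem bA_bounds (h2 : μ2 (Icc p2 q2)ᶜ = 0) (h1 : μ1 (Icc p1 q1)ᶜ = 0)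
    (hm : μ2.real univ = μ1.real univ) (h0 : 0 ≤ p2) (h02 : p2 ≤ q2) (h21 : q2 < p1)
    (h11 : p1 ≤ q1) (θ : ℝ) :
    bA μ1 θ - bA μ2 θ ≤ (∫ t, t ∂μ1) - (∫ t, t ∂μ2) ∧
      (∫ t, t ∂μ1) - (∫ t, t ∂μ2) - 2 * Real.pi * μ2.real univ ≤ bA μ1 θ - bA μ2 θ := by
  have hpi := Real.pi_pos
  have hb2 : μ2.real (Ico 0 θ) ≤ μ2.real univ := measureReal_mono (subset_univ _)
  have hb1 : μ1.real (Ico 0 θ) ≤ μ1.real univ := measureReal_mono (subset_univ _)
  have hn2 : 0 ≤ μ2.real (Ico 0 θ) := measureReal_nonneg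
  have hn1 : 0 ≤ μ1.real (Ico 0 θ) := measureReal_nonneg
  rw [bA_sub hm]
  constructor
  · rcases le_or_gt θ p1 with h | h
    · rw [real_zero h1 (s := Ico 0 θ)]
      · nlinarith
      · intro t ht h'
        linarith [ht.2, h'.1]
    · rw [real_full h2 (s := Ico 0 θ)]
      · nlinarith
      · intro t ht
        exact ⟨h0.trans ht.1, by linarith [ht.2]⟩
  · nlinarith

theorem mean_bounds (h2 : μ2 (Icc p2 q2)ᶜ = 0) (h1 : μ1 (Icc p1 q1)ᶜ = 0)
    (hm : μ2.real univ = μ1.real univ) (h0 : 0 ≤ p2) (h02 : p2 ≤ q2) (h21 : q2 < p1)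
    (h11 : p1 ≤ q1) :
    μ2.real univ * (p1 - q2) ≤ (∫ t, t ∂μ1) - (∫ t, t ∂μ2) ∧
      (∫ t, t ∂μ1) - (∫ t, t ∂μ2) ≤ μ2.real univ * (q1 - p2) := by
  have i2 : Integrable (fun t : ℝ => t) μ2 := integrable_carried h2 continuousOn_id
  have i1 : Integrable (fun t : ℝ => t) μ1 := integrable_carried h1 continuousOn_id
  have a1 : ∫ t, t ∂μ2 ≤ ∫ _t, q2 ∂μ2 :=
    integral_mono_ae i2 (integrable_const _) ((ae_mem_Icc h2).mono fun t ht => ht.2)
  have a2 : ∫ _t, p2 ∂μ2 ≤ ∫ t, t ∂μ2 :=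
    integral_mono_ae (integrable_const _) i2 ((ae_mem_Icc h2).mono fun t ht => ht.1)
  have a3 : ∫ t, t ∂μ1 ≤ ∫ _t, q1 ∂μ1 :=
    integral_mono_ae i1 (integrable_const _) ((ae_mem_Icc h1).mono fun t ht => ht.2)
  have a4 : ∫ _t, p1 ∂μ1 ≤ ∫ t, t ∂μ1 :=
    integral_mono_ae (integrable_const _) i1 ((ae_mem_Icc h1).mono fun t ht => ht.1)
  rw [integral_const, smul_eq_mul] at a1 a2 a3 a4
  rw [← hm] at a3 a4
  constructor <;> linarith

end Baz16
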