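import Pool.Agent.Baz16.Defs

/-! # Elementary facts on `Lm`, `Sm`.
For `z` in the disc `|yy t * z| < 1`, so `1 - yy t * z` has positive real part and `log` is the
principal one; the integrand is bounded and continuous in `t`, and analytic in `z`
(`hasDerivAt_integral_of_dominated_loc_of_deriv_le` or `DifferentiableOn` of parametric integrals).
-/

namespace Baz16
open Complex Metric MeasureTheory Set Filter Topology

theorem norm_yy (t : ℝ) : ‖yy t‖ = 1 := by
  unfold yy
  rw [Complex.norm_exp]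
  simp

theorem yy_ne_zero (t : ℝ) : yy t ≠ 0 := Complex.exp_ne_zero _

theorem yy_zero : yy 0 = 1 := by simp [yy]

theorem yy_add (s t : ℝ) : yy (s + t) = yy s * yy t := by
  unfold yy
  rw [← Complex.exp_add]
  push_cast
  ring_nf

theorem continuous_yy : Continuous yy := by
  unfold yy
  fun_prop

theorem norm_yy_mul_lt {z : ℂ} (hz : z ∈ ball (0 : ℂ) 1) (t : ℝ) : ‖yy t * z‖ < 1 := by
  rw [norm_mul, norm_yy, one_mul]
  simpa using hz

theorem ker_re_pos {z : ℂ} (hz : z ∈ ball (0 : ℂ) 1) (t : ℝ) : 0 < (1 - yy t * z).re := by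
  have h := norm_yy_mul_lt hz t
  have h2 := Complex.re_le_norm (yy t * z)
  simp only [Complex.sub_re, Complex.one_re]
  linarith

theorem ker_slit {z : ℂ} (hz : z ∈ ball (0 : ℂ) 1) (t : ℝ) :
    (1 - yy t * z) ∈ Complex.slitPlane := Or.inl (ker_re_pos hz t)

theorem ker_ne_zero {z : ℂ} (hz : z ∈ ball (0 : ℂ) 1) (t : ℝ) : 1 - yy t * z ≠ 0 :=
  Complex.slitPlane_ne_zero (ker_slit hz t)

theorem abs_arg_ker {z : ℂ} (hz : z ∈ ball (0 : ℂ) 1) (t : ℝ) :
    |(1 - yy t * z).arg| < Real.pi / 2 := by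
  rw [Complex.abs_arg_lt_pi_div_two_iff]
  exact Or.inl (ker_re_pos hz t)

theorem integrable_log_ker (ν : Measure ℝ) [IsFiniteMeasure ν] {z : ℂ}
    (hz : z ∈ ball (0 : ℂ) 1) : Integrable (fun t => Complex.log (1 - yy t * z)) ν := by
  have hcont : Continuous (fun t => Complex.log (1 - yy t * z)) :=
    Continuous.clog (continuous_const.sub (continuous_yy.mul continuous_const))
      (fun t => ker_slit hz t)
  have hz1 : ‖z‖ < 1 := by simpa using hz
  have hon : ContinuousOn (fun w : ℂ => Complex.log (1 - w)) (closedBall 0 ‖z‖) := by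
    refine ContinuousOn.clog (continuousOn_const.sub continuousOn_id) (fun w hw => ?_)
    have hw1 : ‖w‖ ≤ ‖z‖ := by simpa using hw
    refine Or.inl ?_
    have h2 := Complex.re_le_norm w
    simp only [Complex.sub_re, Complex.one_re]
    linarith
  obtain ⟨C, hC⟩ := (isCompact_closedBall (0 : ℂ) ‖z‖).exists_bound_of_continuousOn hon
  refine Integrable.of_bound hcont.aestronglyMeasurable C (Eventually.of_forall fun t => ?_)
  refine hC (yy t * z) ?_
  rw [mem_closedBall_zero_iff, norm_mul, norm_yy, one_mul]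

private theorem basic_hasDerivAt (ν : Measure ℝ) [IsFiniteMeasure ν] {z : ℂ}
    (hz : z ∈ ball (0 : ℂ) 1) :
    HasDerivAt (Lm ν) (∫ t, -(yy t) / (1 - yy t * z) ∂ν) z := by
  have hz1 : ‖z‖ < 1 := by simpa using hz
  set r : ℝ := (1 + ‖z‖) / 2 with hr
  have hr1 : r < 1 := by rw [hr]; linarith
  have hr0 : 0 < r := by rw [hr]; linarith [norm_nonneg z]
  have hzr : z ∈ ball (0 : ℂ) r := by
    rw [mem_ball_zero_iff, hr]; linarith
  have hsub : ball (0 : ℂ) r ⊆ ball 0 1 := ball_subset_ball hr1.le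
  have key := hasDerivAt_integral_of_dominated_loc_of_deriv_le
    (F := fun (w : ℂ) (t : ℝ) => Complex.log (1 - yy t * w))
    (F' := fun (w : ℂ) (t : ℝ) => -(yy t) / (1 - yy t * w))
    (x₀ := z) (μ := ν) (s := ball (0 : ℂ) r) (bound := fun _ => 1 / (1 - r))
    (isOpen_ball.mem_nhds hzr) ?_ (integrable_log_ker ν hz) ?_ ?_ (integrable_const _) ?_
  · exact key.2
  · filter_upwards [isOpen_ball.mem_nhds hz] with w hw
    exact (integrable_log_ker ν hw).aestronglyMeasurable
  · have hc : Continuous (fun t => -(yy t) / (1 - yy t * z)) :=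
      Continuous.div continuous_yy.neg (continuous_const.sub (continuous_yy.mul continuous_const))
        (fun t => ker_ne_zero hz t)
    exact hc.aestronglyMeasurable
  · refine Eventually.of_forall fun t w hw => ?_
    have hw1 : ‖w‖ < r := by simpa using hw
    rw [norm_div, norm_neg, norm_yy]
    have h1 : 1 - r ≤ ‖1 - yy t * w‖ := by
      have h2 := norm_sub_norm_le (1 : ℂ) (yy t * w)
      rw [norm_one, norm_mul, norm_yy, one_mul] at h2
      linarith
    exact one_div_le_one_div_of_le (by linarith) h1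
  · refine Eventually.of_forall fun t w hw => ?_
    have h1 : HasDerivAt (fun w : ℂ => 1 - yy t * w) (-(yy t)) w := by
      have h2 := ((hasDerivAt_id w).const_mul (yy t)).const_sub 1
      simpa using h2
    exact h1.clog (ker_slit (hsub hw) t)

theorem Lm_differentiableOn (ν : Measure ℝ) [IsFiniteMeasure ν] :
    DifferentiableOn ℂ (Lm ν) (ball 0 1) := fun _ hz =>
  (basic_hasDerivAt ν hz).differentiableAt.differentiableWithinAt

/-- derivative of `Lm` -/
theorem deriv_Lm (ν : Measure ℝ) [IsFiniteMeasure ν] {z : ℂ} (hz : z ∈ ball (0 : ℂ) 1) :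
    deriv (Lm ν) z = ∫ t, -(yy t) / (1 - yy t * z) ∂ν :=
  (basic_hasDerivAt ν hz).deriv

theorem Lm_apply_zero (ν : Measure ℝ) : Lm ν 0 = 0 := by simp [Lm]

theorem Lm_im (ν : Measure ℝ) [IsFiniteMeasure ν] {z : ℂ} (hz : z ∈ ball (0 : ℂ) 1) :
    (Lm ν z).im = ∫ t, (1 - yy t * z).arg ∂ν := by
  have h := integral_im (𝕜 := ℂ) (integrable_log_ker ν hz)
  have h2 : (Lm ν z).im = RCLike.im (∫ t, Complex.log (1 - yy t * z) ∂ν) := rfl
  rw [h2, ← h]
  refine integral_congr_ae (Eventually.of_forall fun t => ?_)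
  exact Complex.log_im _

theorem Lm_re (ν : Measure ℝ) [IsFiniteMeasure ν] {z : ℂ} (hz : z ∈ ball (0 : ℂ) 1) :
    (Lm ν z).re = ∫ t, Real.log ‖1 - yy t * z‖ ∂ν := by
  have h := integral_re (𝕜 := ℂ) (integrable_log_ker ν hz)
  have h2 : (Lm ν z).re = RCLike.re (∫ t, Complex.log (1 - yy t * z) ∂ν) := rfl
  rw [h2, ← h]
  refine integral_congr_ae (Eventually.of_forall fun t => ?_)
  exact Complex.log_re _

theorem abs_Lm_im_le (ν : Measure ℝ) [IsFiniteMeasure ν] {z : ℂ} (hz : z ∈ ball (0 : ℂ) 1) :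
    |(Lm ν z).im| ≤ Real.pi / 2 * ν.real univ := by
  rw [Lm_im ν hz, ← Real.norm_eq_abs]
  refine norm_integral_le_of_norm_le_const (Eventually.of_forall fun t => ?_)
  rw [Real.norm_eq_abs]
  exact (abs_arg_ker hz t).le

theorem Lm_add (μ ν : Measure ℝ) [IsFiniteMeasure μ] [IsFiniteMeasure ν] {z : ℂ}
    (hz : z ∈ ball (0 : ℂ) 1) : Lm (μ + ν) z = Lm μ z + Lm ν z := by
  unfold Lm
  exact integral_add_measure (integrable_log_ker μ hz) (integrable_log_ker ν hz)

theorem Lm_smul (c : ENNReal) (ν : Measure ℝ) (z : ℂ) :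
    Lm (c • ν) z = (c.toReal : ℂ) * Lm ν z := by
  unfold Lm
  rw [integral_smul_measure, Complex.real_smul]

theorem Lm_dirac (t : ℝ) (z : ℂ) : Lm (Measure.dirac t) z = Complex.log (1 - yy t * z) := by
  unfold Lm
  exact integral_dirac _ _

theorem Sm_ne_zero (ν : Measure ℝ) (z : ℂ) : Sm ν z ≠ 0 := Complex.exp_ne_zero _

theorem Sm_apply_zero (ν : Measure ℝ) : Sm ν 0 = 1 := by simp [Sm, Lm_apply_zero]

theorem Sm_differentiableOn (ν : Measure ℝ) [IsFiniteMeasure ν] :
    DifferentiableOn ℂ (Sm ν) (ball 0 1) := by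
  unfold Sm
  exact ((Lm_differentiableOn ν).const_mul (-2)).cexp

theorem Sm_dirac (t : ℝ) {z : ℂ} (hz : z ∈ ball (0 : ℂ) 1) :
    Sm (Measure.dirac t) z = 1 / (1 - yy t * z) ^ 2 := by
  unfold Sm
  rw [Lm_dirac, show -2 * Complex.log (1 - yy t * z) =
    -(((2 : ℕ) : ℂ) * Complex.log (1 - yy t * z)) by push_cast; ring, Complex.exp_neg,
    Complex.exp_nat_mul, Complex.exp_log (ker_ne_zero hz t), one_div]

theorem Sm_add (μ ν : Measure ℝ) [IsFiniteMeasure μ] [IsFiniteMeasure ν] {z : ℂ}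
    (hz : z ∈ ball (0 : ℂ) 1) : Sm (μ + ν) z = Sm μ z * Sm ν z := by
  unfold Sm
  rw [Lm_add μ ν hz, mul_add, Complex.exp_add]

end Baz16
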