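import Pool.Agent.Baz16.Radial
import Pool.Agent.Baz16.Basic

/-! # Radial limits of `Re Lm` and of `g0`.

`ae_goodAt`: Tonelli: `∫_0^{2pi} |log (2 |sin((θ - t)/2)|)| dθ` is finite and independent of `t`.
`radial_Lm_re`: for `1/4 ≤ r < 1`, `|1 - r e^{iφ}| ≥ (1/2) |1 - e^{iφ}|`
(since `|1 - r e^{iφ}|^2 = (1-r)^2 + 4 r sin^2(φ/2)`), so
`|log |1 - r e^{iφ}|| ≤ |log |1 - e^{iφ}|| + log 2` and dominated convergence applies at good
points (`μ {θ} = 0` is needed, it excludes countably many `θ`). -/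

namespace Baz16
open Complex Metric MeasureTheory Set Filter Topology

private theorem rad0_meas : Measurable (fun p : ℝ × ℝ =>
    Real.log (2 * |Real.sin ((p.1 - p.2) / 2)|)) := by
  have hc : Continuous (fun p : ℝ × ℝ => 2 * |Real.sin ((p.1 - p.2) / 2)|) := by fun_prop
  exact Real.measurable_log.comp hc.measurable

private theorem rad0_log (x : ℝ) : Real.log (2 * |Real.sin x|) = Real.log (2 * Real.sin x) := by
  rw [← Real.log_abs (2 * Real.sin x), abs_mul, abs_of_pos (two_pos : (0:ℝ) < 2)]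

private theorem rad0_int (t a b : ℝ) :
    IntervalIntegrable (fun θ : ℝ => Real.log (2 * |Real.sin ((θ - t) / 2)|)) volume a b := by
  have h : MeromorphicOn (fun θ : ℝ => 2 * Real.sin ((θ - t) / 2)) (uIcc a b) := by
    have h1 : AnalyticOnNhd ℝ (fun θ : ℝ => 2 * Real.sin ((θ - t) / 2)) univ := by
      intro x _
      have h2 : AnalyticAt ℝ (fun θ : ℝ => (θ - t) / 2) x := by fun_prop
      exact analyticAt_const.mul (Real.analyticAt_sin.fun_comp_of_eq h2 rfl)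
    exact (h1.mono (subset_univ _)).meromorphicOn
  have h3 := h.intervalIntegrable_log
  refine h3.congr_ae (ae_restrict_of_ae (Eventually.of_forall fun θ => ?_))
  exact (rad0_log _).symm

private theorem rad0_const (t : ℝ) :
    ∫ θ : ℝ, ‖Real.log (2 * |Real.sin ((θ - t) / 2)|)‖ ∂arcM =
      ∫ u in (0 : ℝ)..(0 + 2 * Real.pi), ‖Real.log (2 * |Real.sin (u / 2)|)‖ := by
  have hpi := Real.pi_pos
  have hper : Function.Periodic (fun u : ℝ => ‖Real.log (2 * |Real.sin (u / 2)|)‖)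
      (2 * Real.pi) := by
    intro u
    have : (u + 2 * Real.pi) / 2 = u / 2 + Real.pi := by ring
    simp only [this, Real.sin_add_pi, abs_neg]
  unfold arcM
  rw [← integral_Ioc_eq_integral_Ioo, ← intervalIntegral.integral_of_le (by linarith),
    intervalIntegral.integral_comp_sub_right (fun u => ‖Real.log (2 * |Real.sin (u / 2)|)‖) t,
    show 2 * Real.pi - t = (0 - t) + 2 * Real.pi by ring]
  exact hper.intervalIntegral_add_eq _ _

theorem ae_goodAt (μ : Measure ℝ) [IsFiniteMeasure μ] (hμ : Supp μ) :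
    ∀ᵐ θ : ℝ ∂arcM, GoodAt μ θ := by
  have hpi := Real.pi_pos
  have hfin : IsFiniteMeasure arcM := by
    unfold arcM
    refine ⟨?_⟩
    rw [Measure.restrict_apply_univ, Real.volume_Ioo]
    exact ENNReal.ofReal_lt_top
  have key : Integrable (fun p : ℝ × ℝ => Real.log (2 * |Real.sin ((p.1 - p.2) / 2)|))
      (arcM.prod μ) := by
    rw [integrable_prod_iff' rad0_meas.aestronglyMeasurable]
    refine ⟨Eventually.of_forall fun t => ?_, ?_⟩
    · have h := rad0_int t 0 (2 * Real.pi)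
      rw [intervalIntegrable_iff_integrableOn_Ioo_of_le (by linarith)] at h
      exact h
    · simp only [rad0_const]
      exact integrable_const _
  exact key.prod_right_ae

private theorem rad0_normSq (r φ : ℝ) :
    ‖1 - pt r φ‖ ^ 2 = (1 - r) ^ 2 + 4 * r * Real.sin (φ / 2) ^ 2 := by
  have h1 : Real.cos φ = 1 - 2 * Real.sin (φ / 2) ^ 2 := by
    have := Real.cos_two_mul (φ / 2)
    rw [show 2 * (φ / 2) = φ by ring] at this
    have h2 := Real.sin_sq_add_cos_sq (φ / 2)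
    nlinarith
  have h2 := Real.sin_sq_add_cos_sq φ
  have hre : (1 - pt r φ).re = 1 - r * Real.cos φ := by
    simp [pt, Complex.exp_ofReal_mul_I_re]
  have him : (1 - pt r φ).im = -(r * Real.sin φ) := by
    simp [pt, Complex.exp_ofReal_mul_I_im]
  rw [Complex.sq_norm, Complex.normSq_apply, hre, him]
  have h3 : Real.sin φ ^ 2 = 1 - Real.cos φ ^ 2 := by linarith
  have h4 : (1 - r * Real.cos φ) * (1 - r * Real.cos φ) + -(r * Real.sin φ) * -(r * Real.sin φ) =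
      (1 - r) ^ 2 + 2 * r * (1 - Real.cos φ) + r ^ 2 * (Real.sin φ ^ 2 + Real.cos φ ^ 2 - 1) := by
    ring
  rw [h4, h2, h1]
  ring

private theorem rad0_lower {r φ : ℝ} (hr : 1 / 4 ≤ r) :
    |Real.sin (φ / 2)| ≤ ‖1 - pt r φ‖ := by
  have h := rad0_normSq r φ
  have h1 : Real.sin (φ / 2) ^ 2 ≤ ‖1 - pt r φ‖ ^ 2 := by
    rw [h]
    nlinarith [sq_nonneg (1 - r), sq_nonneg (Real.sin (φ / 2))]
  exact abs_le_of_sq_le_sq h1 (norm_nonneg _)

private theorem rad0_bound {r φ : ℝ} (hr : 1 / 4 ≤ r) (hr1 : r < 1) (hs : Real.sin (φ / 2) ≠ 0) :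
    |Real.log ‖1 - pt r φ‖| ≤ |Real.log (2 * |Real.sin (φ / 2)|)| + Real.log 2 := by
  have hpos : 0 < |Real.sin (φ / 2)| := abs_pos.mpr hs
  have h1 := rad0_lower (φ := φ) hr
  have h2 : ‖1 - pt r φ‖ ≤ 2 := by
    have h3 := norm_sub_le (1 : ℂ) (pt r φ)
    have h4 : ‖pt r φ‖ = r := by
      rw [pt, norm_mul, Complex.norm_exp_ofReal_mul_I, mul_one, Complex.norm_real,
        Real.norm_eq_abs, abs_of_nonneg (by linarith)]
    rw [norm_one, h4] at h3
    linarith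
  have h0 : 0 < ‖1 - pt r φ‖ := lt_of_lt_of_le hpos h1
  have h5 : Real.log ‖1 - pt r φ‖ ≤ Real.log 2 := Real.log_le_log h0 h2
  have h6 : Real.log |Real.sin (φ / 2)| ≤ Real.log ‖1 - pt r φ‖ := Real.log_le_log hpos h1
  have h7 : Real.log (2 * |Real.sin (φ / 2)|) = Real.log 2 + Real.log |Real.sin (φ / 2)| :=
    Real.log_mul two_ne_zero hpos.ne'
  have h8 := neg_abs_le (Real.log (2 * |Real.sin (φ / 2)|))
  have h9 := abs_nonneg (Real.log (2 * |Real.sin (φ / 2)|))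
  rw [abs_le]
  constructor <;> linarith

private theorem rad0_mem (μ : Measure ℝ) (hμ : Supp μ) :
    ∀ᵐ t ∂μ, t ∈ Ico 0 (2 * Real.pi) := by
  rw [ae_iff]
  exact hμ

private theorem rad0_sin {θ t : ℝ} (hθ : θ ∈ Ioo 0 (2 * Real.pi)) (ht : t ∈ Ico 0 (2 * Real.pi))
    (hne : t ≠ θ) : Real.sin ((θ - t) / 2) ≠ 0 := by
  have hpi := Real.pi_pos
  have hθ0 := hθ.1
  have hθ1 := hθ.2
  have ht0 := ht.1
  have ht1 := ht.2
  rcases lt_or_gt_of_ne hne with h | h
  · exact (Real.sin_pos_of_pos_of_lt_pi (by linarith) (by linarith)).ne'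
  · exact (Real.sin_neg_of_neg_of_neg_pi_lt (by linarith) (by linarith)).ne

private theorem rad0_ev : ∀ᶠ r : ℝ in 𝓝[<] 1, 1 / 4 ≤ r ∧ r < 1 := by
  have h : ∀ᶠ r : ℝ in 𝓝[<] 1, r ∈ Ioo (1 / 4 : ℝ) 1 := Ioo_mem_nhdsLT (by norm_num)
  filter_upwards [h] with r hr
  exact ⟨hr.1.le, hr.2⟩

private theorem rad0_ball {r θ : ℝ} (h0 : 0 ≤ r) (h1 : r < 1) : pt r θ ∈ ball (0 : ℂ) 1 := by
  rw [mem_ball_zero_iff, pt, norm_mul, Complex.norm_exp_ofReal_mul_I, mul_one, Complex.norm_real,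
    Real.norm_eq_abs, abs_of_nonneg h0]
  exact h1

private theorem rad0_ae (μ : Measure ℝ) [IsFiniteMeasure μ] :
    ∀ᵐ θ : ℝ ∂arcM, μ {θ} = 0 := by
  have hc : Set.Countable {θ : ℝ | μ {θ} ≠ 0} := by
    have := Measure.countable_meas_pos_of_disjoint_iUnion (μ := μ) (As := fun θ : ℝ => ({θ} : Set ℝ))
      (fun θ => measurableSet_singleton θ) (fun a b hab => by
        simpa [Function.onFun] using hab)
    refine this.mono ?_
    intro θ hθ
    exact pos_iff_ne_zero.mpr hθ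
  have h1 : ∀ᵐ θ : ℝ ∂arcM, θ ∉ {θ : ℝ | μ {θ} ≠ 0} := by
    refine ae_restrict_of_ae ?_
    exact hc.ae_notMem volume
  filter_upwards [h1] with θ h1
  simpa using h1

theorem radial_Lm_re (μ : Measure ℝ) [IsFiniteMeasure μ] (hμ : Supp μ) :
    RadLim (fun z => (Lm μ z).re) (pot μ) := by
  unfold RadLim
  have h2 : ∀ᵐ θ : ℝ ∂arcM, θ ∈ Ioo 0 (2 * Real.pi) := ae_restrict_mem measurableSet_Ioo
  filter_upwards [ae_goodAt μ hμ, h2, rad0_ae μ] with θ hg hθ h0
  have hne : ∀ᵐ t ∂μ, t ≠ θ := by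
    rw [ae_iff]
    simpa using h0
  have hmain : Tendsto (fun r : ℝ => ∫ t, Real.log ‖1 - pt r (θ - t)‖ ∂μ) (𝓝[<] 1)
      (𝓝 (pot μ θ)) := by
    unfold pot
    refine tendsto_integral_filter_of_dominated_convergence
      (fun t => |Real.log (2 * |Real.sin ((θ - t) / 2)|)| + Real.log 2) ?_ ?_ ?_ ?_
    · refine Eventually.of_forall fun r => ?_
      have hc : Continuous (fun t : ℝ => ‖1 - pt r (θ - t)‖) := by
        unfold pt
        fun_prop
      exact (Real.measurable_log.comp hc.measurable).aestronglyMeasurable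
    · filter_upwards [rad0_ev] with r hr
      filter_upwards [rad0_mem μ hμ, hne] with t ht hne
      rw [Real.norm_eq_abs]
      exact rad0_bound hr.1 hr.2 (rad0_sin hθ ht hne)
    · exact (Integrable.abs hg).add (integrable_const _)
    · filter_upwards [rad0_mem μ hμ, hne] with t ht hne
      have hs := rad0_sin hθ ht hne
      have hc : Continuous (fun r : ℝ => ‖1 - pt r (θ - t)‖) := by
        unfold pt
        fun_prop
      have hlim := hc.tendsto 1
      have h1 : ‖1 - pt 1 (θ - t)‖ = 2 * |Real.sin ((θ - t) / 2)| := by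
        rw [← norm_one_sub_exp]
        simp [pt]
      rw [h1] at hlim
      have hpos : 2 * |Real.sin ((θ - t) / 2)| ≠ 0 := by
        have := abs_pos.mpr hs
        positivity
      exact (((Real.continuousAt_log hpos).tendsto.comp hlim)).mono_left nhdsWithin_le_nhds
  refine hmain.congr' ?_
  filter_upwards [rad0_ev] with r hr
  rw [Lm_re μ (rad0_ball (by linarith [hr.1]) hr.2)]
  simp only [yy_mul_pt]

theorem g0_differentiableOn (μ2 μ1 : Measure ℝ) [IsFiniteMeasure μ2] [IsFiniteMeasure μ1] :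
    DifferentiableOn ℂ (g0 μ2 μ1) (ball 0 1) := by
  unfold g0
  exact (((Lm_differentiableOn μ2).const_mul 2).sub ((Lm_differentiableOn μ1).const_mul 2)).cexp

theorem g0_apply_zero (μ2 μ1 : Measure ℝ) : g0 μ2 μ1 0 = 1 := by
  simp [g0, Lm_apply_zero]

private theorem rad0_lim {u : ℝ → ℂ} {l : Filter ℝ} {a b : ℝ}
    (h1 : Tendsto (fun r => (u r).re) l (𝓝 a)) (h2 : Tendsto (fun r => (u r).im) l (𝓝 b)) :
    Tendsto u l (𝓝 ((a : ℂ) + (b : ℂ) * I)) := by
  have h3 := (Complex.continuous_ofReal.tendsto a).comp h1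
  have h4 := ((Complex.continuous_ofReal.tendsto b).comp h2).mul_const I
  refine (h3.add h4).congr fun r => ?_
  exact Complex.re_add_im (u r)

theorem radial_g0 (μ2 μ1 : Measure ℝ) [IsFiniteMeasure μ2] [IsFiniteMeasure μ1]
    (h2 : Supp μ2) (h1 : Supp μ1) :
    ∀ᵐ θ : ℝ ∂arcM, Tendsto (fun r : ℝ => g0 μ2 μ1 (pt r θ)) (𝓝[<] 1)
      (𝓝 ((rr μ2 μ1 θ : ℂ) * cexp (((bA μ1 θ - bA μ2 θ : ℝ) : ℂ) * I))) := by
  filter_upwards [ae_goodAt μ2 h2, radial_Lm_re μ2 h2, radial_Lm_re μ1 h1, ae_radial_Lm μ2 h2,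
    ae_radial_Lm μ1 h1] with θ hg a2 a1 b2 b1
  have c2 := rad0_lim a2 b2
  have c1 := rad0_lim a1 b1
  have hr : rr μ2 μ1 θ = Real.exp (2 * pot μ2 θ - 2 * pot μ1 θ) := by
    unfold rr
    rw [if_pos hg]
  have h3 := (Complex.continuous_exp.tendsto _).comp ((c2.const_mul 2).sub (c1.const_mul 2))
  have e : (rr μ2 μ1 θ : ℂ) * cexp (((bA μ1 θ - bA μ2 θ : ℝ) : ℂ) * I) =
      cexp (2 * ((pot μ2 θ : ℂ) + ((-(1 / 2) * bA μ2 θ : ℝ) : ℂ) * I) -
        2 * ((pot μ1 θ : ℂ) + ((-(1 / 2) * bA μ1 θ : ℝ) : ℂ) * I)) := by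
    rw [hr, Complex.ofReal_exp, ← Complex.exp_add]
    congr 1
    push_cast
    ring
  rw [e]
  exact h3

/-- radial limit of `arg (1 - ε g0)`. -/
theorem radial_logH (μ2 μ1 : Measure ℝ) [IsFiniteMeasure μ2] [IsFiniteMeasure μ1]
    (h2 : Supp μ2) (h1 : Supp μ1) (ε rb : ℝ) (hε : 0 ≤ ε) (hεr : ε * rb ≤ 1 / 4)
    (hrb : ∀ z ∈ ball (0 : ℂ) 1, ‖g0 μ2 μ1 z‖ ≤ rb) :
    RadLim (fun z => (Complex.log (1 - ε * g0 μ2 μ1 z)).im)
      (fun θ => Ph (ε * rr μ2 μ1 θ) (bA μ1 θ - bA μ2 θ)) := by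
  unfold RadLim
  filter_upwards [radial_g0 μ2 μ1 h2 h1] with θ hθ
  have hn : ‖(rr μ2 μ1 θ : ℂ) * cexp (((bA μ1 θ - bA μ2 θ : ℝ) : ℂ) * I)‖ ≤ rb := by
    refine le_of_tendsto hθ.norm ?_
    filter_upwards [rad0_ev] with r hr
    exact hrb _ (rad0_ball (by linarith [hr.1]) hr.2)
  have hn2 : ‖(ε : ℂ) * ((rr μ2 μ1 θ : ℂ) * cexp (((bA μ1 θ - bA μ2 θ : ℝ) : ℂ) * I))‖ ≤ 1 / 4 := by
    rw [norm_mul, Complex.norm_real, Real.norm_eq_abs, abs_of_nonneg hε]
    exact (mul_le_mul_of_nonneg_left hn hε).trans hεr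
  have hslit : (1 - (ε : ℂ) * ((rr μ2 μ1 θ : ℂ) * cexp (((bA μ1 θ - bA μ2 θ : ℝ) : ℂ) * I))) ∈
      Complex.slitPlane := by
    refine Or.inl ?_
    have h3 := Complex.re_le_norm
      ((ε : ℂ) * ((rr μ2 μ1 θ : ℂ) * cexp (((bA μ1 θ - bA μ2 θ : ℝ) : ℂ) * I)))
    rw [Complex.sub_re, Complex.one_re]
    linarith
  have h4 := (Complex.continuousAt_arg hslit).tendsto.comp ((hθ.const_mul (ε : ℂ)).const_sub 1)
  have e : Ph (ε * rr μ2 μ1 θ) (bA μ1 θ - bA μ2 θ) =
      (1 - (ε : ℂ) * ((rr μ2 μ1 θ : ℂ) * cexp (((bA μ1 θ - bA μ2 θ : ℝ) : ℂ) * I))).arg := by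
    unfold Ph
    congr 1
    push_cast
    ring
  rw [e]
  refine h4.congr fun r => ?_
  exact (Complex.log_im _).symm

/-- radial limit of `arg (1 + g0)`, when `|arg g0|` is at most `pi/3`. -/
theorem radial_logA (μ2 μ1 : Measure ℝ) [IsFiniteMeasure μ2] [IsFiniteMeasure μ1]
    (h2 : Supp μ2) (h1 : Supp μ1) (hm2 : μ2.real univ ≤ 1 / 6) (hm1 : μ1.real univ ≤ 1 / 6) :
    RadLim (fun z => (Complex.log (1 + g0 μ2 μ1 z)).im)
      (fun θ => (1 + (rr μ2 μ1 θ : ℂ) * cexp (((bA μ1 θ - bA μ2 θ : ℝ) : ℂ) * I)).arg) := by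
  unfold RadLim
  have hpi := Real.pi_pos
  filter_upwards [radial_g0 μ2 μ1 h2 h1] with θ hθ
  have hre : 0 ≤ ((rr μ2 μ1 θ : ℂ) * cexp (((bA μ1 θ - bA μ2 θ : ℝ) : ℂ) * I)).re := by
    refine ge_of_tendsto ((Complex.continuous_re.tendsto _).comp hθ) ?_
    filter_upwards [rad0_ev] with r hr
    have hz : pt r θ ∈ ball (0 : ℂ) 1 := rad0_ball (by linarith [hr.1]) hr.2
    have e2 := abs_Lm_im_le μ2 hz
    have e1 := abs_Lm_im_le μ1 hz
    rw [abs_le] at e2 e1
    have f2 : Real.pi / 2 * μ2.real univ ≤ Real.pi / 12 := by nlinarith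
    have f1 : Real.pi / 2 * μ1.real univ ≤ Real.pi / 12 := by nlinarith
    show 0 ≤ (g0 μ2 μ1 (pt r θ)).re
    unfold g0
    rw [Complex.exp_re]
    refine mul_nonneg (Real.exp_pos _).le (Real.cos_nonneg_of_mem_Icc ⟨?_, ?_⟩)
    · simp only [Complex.sub_im, Complex.mul_im, Complex.re_ofNat, Complex.im_ofNat]
      linarith [e2.1, e2.2, e1.1, e1.2]
    · simp only [Complex.sub_im, Complex.mul_im, Complex.re_ofNat, Complex.im_ofNat]
      linarith [e2.1, e2.2, e1.1, e1.2]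
  have hslit : (1 + (rr μ2 μ1 θ : ℂ) * cexp (((bA μ1 θ - bA μ2 θ : ℝ) : ℂ) * I)) ∈
      Complex.slitPlane := by
    refine Or.inl ?_
    rw [Complex.add_re, Complex.one_re]
    linarith
  have h4 := (Complex.continuousAt_arg hslit).tendsto.comp (hθ.const_add 1)
  refine h4.congr fun r => ?_
  exact (Complex.log_im _).symm

theorem measurable_rr (μ2 μ1 : Measure ℝ) [IsFiniteMeasure μ2] [IsFiniteMeasure μ1] :
    Measurable (rr μ2 μ1) := by
  have hm : StronglyMeasurable (Function.uncurry fun (θ t : ℝ) =>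
      Real.log (2 * |Real.sin ((θ - t) / 2)|)) := rad0_meas.stronglyMeasurable
  have h2 : Measurable (pot μ2) :=
    (StronglyMeasurable.integral_prod_right (ν := μ2) hm).measurable
  have h1 : Measurable (pot μ1) :=
    (StronglyMeasurable.integral_prod_right (ν := μ1) hm).measurable
  have hs : MeasurableSet {θ : ℝ | GoodAt μ2 θ} := _root_.measurableSet_integrable hm
  unfold rr
  refine Measurable.ite hs ?_ measurable_const
  exact Real.measurable_exp.comp ((h2.const_mul 2).sub (h1.const_mul 2))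

end Baz16
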