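import Pool.Agent.Baz16.Crit
import Pool.Agent.Baz16.Meas
import Pool.Agent.Baz16.Rad0
import Pool.Agent.Baz16.RMono

/-! # Splitting `Sm ν` when `ν` has two atoms.

Rotate so that both atoms `t2 < t1` are in `(0, 2 pi)` (statement `split_atoms_aux`), let
`m = min (ν{t1}) (ν{t2}) (1/8)`, `g = ((1 - yy t2 z)/(1 - yy t1 z))^{2m}`
(`= g0 (m δ_{t2}) (m δ_{t1})`), `Sm ν = (1/2) Sm ν · 2g/(1+g) + (1/2) Sm ν · 2/(1+g)`.
Boundary: `|g(θ)| = r(θ) = (|sin((θ-t2)/2)|/|sin((θ-t1)/2)|)^{2m}`, `arg g = b` on `(0,t2)` and on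
`(t1, 2 pi)`, `arg g = a = b - 2 pi m` on `(t2,t1)`, `b = m (t1 - t2)`; `r` is decreasing on
`(t1, 2pi)` and on `(0, t2)` with `r(0+) = r(2pi-)`, increasing on `(t2, t1)` (ratio of sines is
`cos(Δ) + cot((θ-t1)/2) sin(Δ)`, `Δ = (t1-t2)/2`).
`arg (2g/(1+g)) = b' - arg(1 + r e^{ib'})` (`b' = arg g`) plus `2 pi m` on `θ > t2` is nondecreasing
on `(0,2pi)`, of total increase `≤ 2 pi m`; `exists_measure` with `ρ = m δ_{t2}` and `crit_eq` give
`ν1`.  `arg (2/(1+g)) = - arg (1 + r e^{ib'})` plus `2 pi m` on `θ > t1`: same with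
`ρ = m δ_{t1}`, giving `ν2`.  Monotonicity of `r ↦ arg (1 + r e^{ib})`: increasing from `0` to `b`
for `b ≥ 0`, decreasing from `0` to `b` for `b ≤ 0`. -/

namespace Baz16
open Complex Metric MeasureTheory Set Filter Topology

/-- `arg (1 + r e^{ib})` -/
private noncomputable def AA (r b : ℝ) : ℝ := (1 + (r : ℂ) * cexp ((b : ℂ) * I)).arg

private theorem AA_re (r b : ℝ) :
    (1 + (r : ℂ) * cexp ((b : ℂ) * I)).re = 1 + r * Real.cos b := by
  rw [Complex.add_re, Complex.re_ofReal_mul, Complex.exp_ofReal_mul_I_re]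
  simp

private theorem AA_im (r b : ℝ) :
    (1 + (r : ℂ) * cexp ((b : ℂ) * I)).im = r * Real.sin b := by
  rw [Complex.add_im, Complex.im_ofReal_mul, Complex.exp_ofReal_mul_I_im]
  simp

private theorem AA_tan (r b : ℝ) :
    Real.tan (AA r b) = (r * Real.sin b) / (1 + r * Real.cos b) := by
  unfold AA
  rw [Complex.tan_arg, AA_re, AA_im]

private theorem AA_mem {r b : ℝ} (hr : 0 ≤ r) (hb : 0 < Real.cos b) :
    AA r b ∈ Ioo (-(Real.pi / 2)) (Real.pi / 2) := by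
  have h : |AA r b| < Real.pi / 2 := by
    unfold AA
    rw [Complex.abs_arg_lt_pi_div_two_iff, AA_re]
    left
    have := mul_nonneg hr hb.le
    linarith
  exact abs_lt.mp h

private theorem AA_le_of {r b c : ℝ} (hr : 0 ≤ r) (hb : 0 < Real.cos b)
    (hc : c ∈ Ioo (-(Real.pi / 2)) (Real.pi / 2))
    (h : (r * Real.sin b) / (1 + r * Real.cos b) ≤ Real.tan c) : AA r b ≤ c := by
  rw [← AA_tan] at h
  exact (Real.strictMonoOn_tan.le_iff_le (AA_mem hr hb) hc).mp h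

private theorem le_AA_of {r b c : ℝ} (hr : 0 ≤ r) (hb : 0 < Real.cos b)
    (hc : c ∈ Ioo (-(Real.pi / 2)) (Real.pi / 2))
    (h : Real.tan c ≤ (r * Real.sin b) / (1 + r * Real.cos b)) : c ≤ AA r b := by
  rw [← AA_tan] at h
  exact (Real.strictMonoOn_tan.le_iff_le hc (AA_mem hr hb)).mp h

private theorem den_pos {r b : ℝ} (hr : 0 ≤ r) (hb : 0 < Real.cos b) :
    0 < 1 + r * Real.cos b := by
  have := mul_nonneg hr hb.le
  linarith

private theorem AA_mono {r r' b : ℝ} (hr : 0 ≤ r) (hrr : r ≤ r') (hb : 0 ≤ b)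
    (hb2 : b < Real.pi / 2) : AA r b ≤ AA r' b := by
  have hc : 0 < Real.cos b := Real.cos_pos_of_mem_Ioo ⟨by linarith, hb2⟩
  have hs : 0 ≤ Real.sin b := Real.sin_nonneg_of_nonneg_of_le_pi hb (by linarith)
  refine AA_le_of hr hc (AA_mem (hr.trans hrr) hc) ?_
  rw [AA_tan, div_le_div_iff₀ (den_pos hr hc) (den_pos (hr.trans hrr) hc)]
  have := mul_le_mul_of_nonneg_right hrr hs
  nlinarith

private theorem AA_anti {r r' b : ℝ} (hr : 0 ≤ r) (hrr : r ≤ r') (hb : b ≤ 0)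
    (hb2 : -(Real.pi / 2) < b) : AA r' b ≤ AA r b := by
  have hc : 0 < Real.cos b := Real.cos_pos_of_mem_Ioo ⟨hb2, by linarith [Real.pi_pos]⟩
  have hs : Real.sin b ≤ 0 := Real.sin_nonpos_of_nonpos_of_neg_pi_le hb (by linarith)
  refine AA_le_of (hr.trans hrr) hc (AA_mem hr hc) ?_
  rw [AA_tan, div_le_div_iff₀ (den_pos (hr.trans hrr) hc) (den_pos hr hc)]
  have := mul_le_mul_of_nonpos_right hrr hs
  nlinarith

private theorem AA_nonneg {r b : ℝ} (hr : 0 ≤ r) (hb : 0 ≤ b)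
    (hb2 : b < Real.pi / 2) : 0 ≤ AA r b := by
  have hc : 0 < Real.cos b := Real.cos_pos_of_mem_Ioo ⟨by linarith, hb2⟩
  have hs : 0 ≤ Real.sin b := Real.sin_nonneg_of_nonneg_of_le_pi hb (by linarith)
  refine le_AA_of hr hc ⟨by linarith, by linarith⟩ ?_
  rw [Real.tan_zero]
  exact div_nonneg (mul_nonneg hr hs) (den_pos hr hc).le

private theorem AA_nonpos {r b : ℝ} (hr : 0 ≤ r) (hb : b ≤ 0)
    (hb2 : -(Real.pi / 2) < b) : AA r b ≤ 0 := by
  have hc : 0 < Real.cos b := Real.cos_pos_of_mem_Ioo ⟨hb2, by linarith [Real.pi_pos]⟩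
  have hs : Real.sin b ≤ 0 := Real.sin_nonpos_of_nonpos_of_neg_pi_le hb (by linarith)
  refine AA_le_of hr hc ⟨by linarith, by linarith [Real.pi_pos]⟩ ?_
  rw [Real.tan_zero]
  exact div_nonpos_of_nonpos_of_nonneg (mul_nonpos_of_nonneg_of_nonpos hr hs) (den_pos hr hc).le

private theorem AA_le {r b : ℝ} (hr : 0 ≤ r) (hb : 0 ≤ b)
    (hb2 : b < Real.pi / 2) : AA r b ≤ b := by
  have hc : 0 < Real.cos b := Real.cos_pos_of_mem_Ioo ⟨by linarith, hb2⟩
  have hs : 0 ≤ Real.sin b := Real.sin_nonneg_of_nonneg_of_le_pi hb (by linarith)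
  refine AA_le_of hr hc ⟨by linarith, hb2⟩ ?_
  rw [Real.tan_eq_sin_div_cos, div_le_div_iff₀ (den_pos hr hc) hc]
  nlinarith

private theorem le_AA {r b : ℝ} (hr : 0 ≤ r) (hb : b ≤ 0)
    (hb2 : -(Real.pi / 2) < b) : b ≤ AA r b := by
  have hc : 0 < Real.cos b := Real.cos_pos_of_mem_Ioo ⟨hb2, by linarith [Real.pi_pos]⟩
  have hs : Real.sin b ≤ 0 := Real.sin_nonpos_of_nonpos_of_neg_pi_le hb (by linarith)
  refine le_AA_of hr hc ⟨hb2, by linarith [Real.pi_pos]⟩ ?_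
  rw [Real.tan_eq_sin_div_cos, div_le_div_iff₀ hc (den_pos hr hc)]
  nlinarith

/-! ### ratio of sines -/

private theorem ptolemy (t2 t1 θ θ' : ℝ) :
    Real.sin ((θ - t2) / 2) * Real.sin ((θ' - t1) / 2) -
      Real.sin ((θ' - t2) / 2) * Real.sin ((θ - t1) / 2) =
      Real.sin ((θ' - θ) / 2) * Real.sin ((t1 - t2) / 2) := by
  have e1 : (θ - t2) / 2 = θ / 2 - t2 / 2 := by ring
  have e2 : (θ' - t1) / 2 = θ' / 2 - t1 / 2 := by ring
  have e3 : (θ' - t2) / 2 = θ' / 2 - t2 / 2 := by ring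
  have e4 : (θ - t1) / 2 = θ / 2 - t1 / 2 := by ring
  have e5 : (θ' - θ) / 2 = θ' / 2 - θ / 2 := by ring
  have e6 : (t1 - t2) / 2 = t1 / 2 - t2 / 2 := by ring
  rw [e1, e2, e3, e4, e5, e6]
  simp only [Real.sin_sub]
  ring

private theorem sin_half_pos {x : ℝ} (h0 : 0 < x) (h1 : x < 2 * Real.pi) :
    0 < Real.sin (x / 2) := Real.sin_pos_of_pos_of_lt_pi (by linarith) (by linarith)

private theorem sin_half_neg {x : ℝ} (h0 : x < 0) (h1 : -(2 * Real.pi) < x) :
    Real.sin (x / 2) < 0 := Real.sin_neg_of_neg_of_neg_pi_lt (by linarith) (by linarith)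

/-- modulus in closed form -/
private noncomputable def RR (m t2 t1 θ : ℝ) : ℝ :=
  Real.exp (2 * (m * Real.log (2 * |Real.sin ((θ - t2) / 2)|)) -
    2 * (m * Real.log (2 * |Real.sin ((θ - t1) / 2)|)))

private theorem RR_le_of {m t2 t1 θ θ' : ℝ} (hm : 0 ≤ m)
    (a : 0 < |Real.sin ((θ - t2) / 2)|) (b : 0 < |Real.sin ((θ - t1) / 2)|)
    (c : 0 < |Real.sin ((θ' - t2) / 2)|) (d : 0 < |Real.sin ((θ' - t1) / 2)|)
    (h : |Real.sin ((θ - t2) / 2)| * |Real.sin ((θ' - t1) / 2)| ≤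
      |Real.sin ((θ' - t2) / 2)| * |Real.sin ((θ - t1) / 2)|) :
    RR m t2 t1 θ ≤ RR m t2 t1 θ' := by
  unfold RR
  rw [Real.exp_le_exp]
  have h2 := Real.log_le_log (mul_pos a d) h
  rw [Real.log_mul a.ne' d.ne', Real.log_mul c.ne' b.ne'] at h2
  rw [Real.log_mul two_ne_zero a.ne', Real.log_mul two_ne_zero b.ne',
    Real.log_mul two_ne_zero c.ne', Real.log_mul two_ne_zero d.ne']
  nlinarith

private theorem RR_left {m t2 t1 θ θ' : ℝ} (hm : 0 ≤ m) (h21 : t2 < t1)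
    (h1 : t1 < 2 * Real.pi) (hθ : 0 < θ) (hle : θ ≤ θ') (hθ' : θ' < t2) :
    RR m t2 t1 θ' ≤ RR m t2 t1 θ := by
  have s1 := sin_half_neg (x := θ - t2) (by linarith) (by linarith)
  have s2 := sin_half_neg (x := θ - t1) (by linarith) (by linarith)
  have s3 := sin_half_neg (x := θ' - t2) (by linarith) (by linarith)
  have s4 := sin_half_neg (x := θ' - t1) (by linarith) (by linarith)
  have hp := ptolemy t2 t1 θ θ'
  have h5 : 0 ≤ Real.sin ((θ' - θ) / 2) :=
    Real.sin_nonneg_of_nonneg_of_le_pi (by linarith) (by linarith)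
  have h6 := sin_half_pos (x := t1 - t2) (by linarith) (by linarith)
  have h7 := mul_nonneg h5 h6.le
  refine RR_le_of hm (abs_pos.mpr s3.ne) (abs_pos.mpr s4.ne) (abs_pos.mpr s1.ne)
    (abs_pos.mpr s2.ne) ?_
  rw [abs_of_neg s1, abs_of_neg s2, abs_of_neg s3, abs_of_neg s4]
  linarith

private theorem RR_right {m t2 t1 θ θ' : ℝ} (hm : 0 ≤ m) (h0 : 0 < t2) (h21 : t2 < t1)
    (h1 : t1 < 2 * Real.pi) (hθ : t1 < θ) (hle : θ ≤ θ') (hθ' : θ' < 2 * Real.pi) :
    RR m t2 t1 θ' ≤ RR m t2 t1 θ := by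
  have s1 := sin_half_pos (x := θ - t2) (by linarith) (by linarith)
  have s2 := sin_half_pos (x := θ - t1) (by linarith) (by linarith)
  have s3 := sin_half_pos (x := θ' - t2) (by linarith) (by linarith)
  have s4 := sin_half_pos (x := θ' - t1) (by linarith) (by linarith)
  have hp := ptolemy t2 t1 θ θ'
  have h5 : 0 ≤ Real.sin ((θ' - θ) / 2) :=
    Real.sin_nonneg_of_nonneg_of_le_pi (by linarith) (by linarith)
  have h6 := sin_half_pos (x := t1 - t2) (by linarith) (by linarith)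
  have h7 := mul_nonneg h5 h6.le
  refine RR_le_of hm (abs_pos.mpr s3.ne') (abs_pos.mpr s4.ne') (abs_pos.mpr s1.ne')
    (abs_pos.mpr s2.ne') ?_
  rw [abs_of_pos s1, abs_of_pos s2, abs_of_pos s3, abs_of_pos s4]
  linarith

private theorem RR_mid {m t2 t1 θ θ' : ℝ} (hm : 0 ≤ m) (h0 : 0 < t2) (h21 : t2 < t1)
    (h1 : t1 < 2 * Real.pi) (hθ : t2 < θ) (hle : θ ≤ θ') (hθ' : θ' < t1) :
    RR m t2 t1 θ ≤ RR m t2 t1 θ' := by
  have s1 := sin_half_pos (x := θ - t2) (by linarith) (by linarith)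
  have s2 := sin_half_neg (x := θ - t1) (by linarith) (by linarith)
  have s3 := sin_half_pos (x := θ' - t2) (by linarith) (by linarith)
  have s4 := sin_half_neg (x := θ' - t1) (by linarith) (by linarith)
  have hp := ptolemy t2 t1 θ θ'
  have h5 : 0 ≤ Real.sin ((θ' - θ) / 2) :=
    Real.sin_nonneg_of_nonneg_of_le_pi (by linarith) (by linarith)
  have h6 := sin_half_pos (x := t1 - t2) (by linarith) (by linarith)
  have h7 := mul_nonneg h5 h6.le
  refine RR_le_of hm (abs_pos.mpr s1.ne') (abs_pos.mpr s2.ne) (abs_pos.mpr s3.ne')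
    (abs_pos.mpr s4.ne) ?_
  rw [abs_of_pos s1, abs_of_neg s2, abs_of_pos s3, abs_of_neg s4]
  linarith

private theorem RR_cross {m t2 t1 θ θ' : ℝ} (hm : 0 ≤ m) (h0 : 0 < t2) (h21 : t2 < t1)
    (h1 : t1 < 2 * Real.pi) (hθ0 : 0 < θ) (hθ : θ < t2) (hθ' : t1 < θ')
    (hθ2 : θ' < 2 * Real.pi) :
    RR m t2 t1 θ ≤ RR m t2 t1 θ' := by
  have s1 := sin_half_neg (x := θ - t2) (by linarith) (by linarith)
  have s2 := sin_half_neg (x := θ - t1) (by linarith) (by linarith)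
  have s3 := sin_half_pos (x := θ' - t2) (by linarith) (by linarith)
  have s4 := sin_half_pos (x := θ' - t1) (by linarith) (by linarith)
  have hp := ptolemy t2 t1 θ θ'
  have h5 := sin_half_pos (x := θ' - θ) (by linarith) (by linarith)
  have h6 := sin_half_pos (x := t1 - t2) (by linarith) (by linarith)
  have h7 := mul_pos h5 h6
  refine RR_le_of hm (abs_pos.mpr s1.ne) (abs_pos.mpr s2.ne) (abs_pos.mpr s3.ne')
    (abs_pos.mpr s4.ne') ?_
  rw [abs_of_neg s1, abs_of_neg s2, abs_of_pos s3, abs_of_pos s4]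
  linarith

/-! ### the monotone boundary function -/

private theorem RR_pos (m t2 t1 θ : ℝ) : 0 ≤ RR m t2 t1 θ := (Real.exp_pos _).le

/-- the common monotone boundary function -/
private noncomputable def XX (m t2 t1 b θ : ℝ) : ℝ :=
  if θ < t2 then -AA (RR m t2 t1 θ) b
  else if θ = t2 then 0
  else if θ < t1 then -AA (RR m t2 t1 θ) (b - 2 * Real.pi * m)
  else if θ = t1 then 2 * Real.pi * m - b
  else 2 * Real.pi * m - AA (RR m t2 t1 θ) b

private theorem XX_one {m t2 t1 b θ : ℝ} (h : θ < t2) :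
    XX m t2 t1 b θ = -AA (RR m t2 t1 θ) b := by
  unfold XX
  rw [if_pos h]

private theorem XX_two (m t2 t1 b : ℝ) : XX m t2 t1 b t2 = 0 := by
  unfold XX
  rw [if_neg (lt_irrefl _), if_pos rfl]

private theorem XX_three {m t2 t1 b θ : ℝ} (h : t2 < θ) (h' : θ < t1) :
    XX m t2 t1 b θ = -AA (RR m t2 t1 θ) (b - 2 * Real.pi * m) := by
  unfold XX
  rw [if_neg (not_lt.mpr h.le), if_neg h.ne', if_pos h']

private theorem XX_four {m t2 t1 b : ℝ} (h : t2 < t1) :
    XX m t2 t1 b t1 = 2 * Real.pi * m - b := by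
  unfold XX
  rw [if_neg (not_lt.mpr h.le), if_neg h.ne', if_neg (lt_irrefl _), if_pos rfl]

private theorem XX_five {m t2 t1 b θ : ℝ} (h21 : t2 < t1) (h : t1 < θ) :
    XX m t2 t1 b θ = 2 * Real.pi * m - AA (RR m t2 t1 θ) b := by
  unfold XX
  rw [if_neg (not_lt.mpr (h21.trans h).le), if_neg (h21.trans h).ne',
    if_neg (not_lt.mpr h.le), if_neg h.ne']

section
variable {m t2 t1 b : ℝ} (hm : 0 ≤ m) (h0 : 0 < t2) (h21 : t2 < t1) (h1 : t1 < 2 * Real.pi)
  (hb : 0 ≤ b) (hb2 : b < Real.pi / 2) (ha : b ≤ 2 * Real.pi * m)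
  (ha2 : -(Real.pi / 2) < b - 2 * Real.pi * m)

include hb hb2 in
private theorem XX_low_left {θ : ℝ} (h : θ < t2) :
    -b ≤ XX m t2 t1 b θ ∧ XX m t2 t1 b θ ≤ 0 := by
  rw [XX_one h]
  have e1 := AA_nonneg (RR_pos m t2 t1 θ) hb hb2
  have e2 := AA_le (RR_pos m t2 t1 θ) hb hb2
  exact ⟨by linarith, by linarith⟩

include ha ha2 in
private theorem XX_mid_bd {θ : ℝ} (h : t2 < θ) (h' : θ < t1) :
    0 ≤ XX m t2 t1 b θ ∧ XX m t2 t1 b θ ≤ 2 * Real.pi * m - b := by
  rw [XX_three h h']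
  have e1 := AA_nonpos (RR_pos m t2 t1 θ) (b := b - 2 * Real.pi * m) (by linarith) ha2
  have e2 := le_AA (RR_pos m t2 t1 θ) (b := b - 2 * Real.pi * m) (by linarith) ha2
  exact ⟨by linarith, by linarith⟩

include h21 hb hb2 in
private theorem XX_right_bd {θ : ℝ} (h : t1 < θ) :
    2 * Real.pi * m - b ≤ XX m t2 t1 b θ ∧ XX m t2 t1 b θ ≤ 2 * Real.pi * m := by
  rw [XX_five h21 h]
  have e1 := AA_nonneg (RR_pos m t2 t1 θ) hb hb2
  have e2 := AA_le (RR_pos m t2 t1 θ) hb hb2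
  exact ⟨by linarith, by linarith⟩

include h21 hb hb2 ha ha2 in
private theorem XX_nonneg {θ : ℝ} (h : t2 ≤ θ) : 0 ≤ XX m t2 t1 b θ := by
  rcases h.eq_or_lt with rfl | h
  · rw [XX_two]
  · rcases lt_trichotomy θ t1 with h' | rfl | h'
    · exact (XX_mid_bd ha ha2 h h').1
    · rw [XX_four h21]; linarith
    · have := (XX_right_bd (m := m) h21 hb hb2 h').1
      linarith

include h21 hb hb2 ha ha2 in
private theorem XX_le_mid {θ : ℝ} (h : θ ≤ t1) : XX m t2 t1 b θ ≤ 2 * Real.pi * m - b := by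
  rcases lt_trichotomy θ t2 with h' | rfl | h'
  · have := (XX_low_left (m := m) (t1 := t1) hb hb2 h').2
    linarith
  · rw [XX_two]; linarith
  · rcases h.eq_or_lt with rfl | h
    · rw [XX_four h21]
    · exact (XX_mid_bd ha ha2 h' h).2

include h21 hb hb2 in
private theorem mid_le_XX {θ : ℝ} (h : t1 ≤ θ) : 2 * Real.pi * m - b ≤ XX m t2 t1 b θ := by
  rcases h.eq_or_lt with rfl | h
  · rw [XX_four h21]
  · exact (XX_right_bd h21 hb hb2 h).1

include hm h0 h21 h1 hb hb2 ha ha2 in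
private theorem XX_mono : MonotoneOn (XX m t2 t1 b) (Ioo 0 (2 * Real.pi)) := by
  intro θ hθ θ' hθ' hle
  by_cases c1 : θ' < t2
  · rw [XX_one c1, XX_one (lt_of_le_of_lt hle c1)]
    have := AA_mono (RR_pos m t2 t1 θ') (RR_left hm h21 h1 hθ.1 hle c1) hb hb2
    linarith
  rw [not_lt] at c1
  by_cases c2 : θ ≤ t2
  · have e1 : XX m t2 t1 b θ ≤ 0 := by
      rcases c2.eq_or_lt with rfl | c2
      · rw [XX_two]
      · exact (XX_low_left hb hb2 c2).2
    exact e1.trans (XX_nonneg h21 hb hb2 ha ha2 c1)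
  rw [not_le] at c2
  by_cases c3 : θ' < t1
  · rw [XX_three c2 (lt_of_le_of_lt hle c3), XX_three (lt_of_lt_of_le c2 hle) c3]
    have := AA_anti (b := b - 2 * Real.pi * m) (RR_pos m t2 t1 θ)
      (RR_mid hm h0 h21 h1 c2 hle c3) (by linarith) ha2
    linarith
  rw [not_lt] at c3
  by_cases c4 : θ ≤ t1
  · exact (XX_le_mid h21 hb hb2 ha ha2 c4).trans (mid_le_XX h21 hb hb2 c3)
  rw [not_le] at c4
  rw [XX_five h21 c4, XX_five h21 (lt_of_lt_of_le c4 hle)]
  have := AA_mono (RR_pos m t2 t1 θ') (RR_right hm h0 h21 h1 c4 hle hθ'.2) hb hb2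
  linarith

include hm h0 h21 h1 hb hb2 ha ha2 in
private theorem XX_osc {θ θ' : ℝ} (hθ : θ ∈ Ioo 0 (2 * Real.pi))
    (hθ' : θ' ∈ Ioo 0 (2 * Real.pi)) :
    XX m t2 t1 b θ' - XX m t2 t1 b θ ≤ 2 * Real.pi * m := by
  by_cases c1 : θ' ≤ t1
  · have e1 := XX_le_mid h21 hb hb2 ha ha2 c1
    by_cases c2 : θ < t2
    · have e2 := (XX_low_left (m := m) (t1 := t1) hb hb2 c2).1
      linarith
    · have e2 := XX_nonneg h21 hb hb2 ha ha2 (not_lt.mp c2)
      linarith
  rw [not_le] at c1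
  have e1 := (XX_right_bd (m := m) h21 hb hb2 c1).2
  by_cases c2 : θ < t2
  · rw [XX_five h21 c1, XX_one c2]
    have := AA_mono (RR_pos m t2 t1 θ) (RR_cross hm h0 h21 h1 hθ.1 c2 c1 hθ'.2) hb hb2
    linarith
  · have e2 := XX_nonneg h21 hb hb2 ha ha2 (not_lt.mp c2)
    linarith

end

/-! ### point masses -/

private noncomputable def dm (m t : ℝ) : Measure ℝ := ENNReal.ofReal m • Measure.dirac t

private instance dm_finite (m t : ℝ) : IsFiniteMeasure (dm m t) := by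
  unfold dm
  exact Measure.smul_finite _ ENNReal.ofReal_ne_top

private theorem dm_apply (m t : ℝ) {s : Set ℝ} (hs : MeasurableSet s) :
    dm m t s = ENNReal.ofReal m * s.indicator 1 t := by
  unfold dm
  rw [Measure.smul_apply, Measure.dirac_apply' _ hs, smul_eq_mul]

private theorem dm_real_mem {m t : ℝ} (hm : 0 ≤ m) {s : Set ℝ} (hs : MeasurableSet s)
    (ht : t ∈ s) : (dm m t).real s = m := by
  rw [Measure.real, dm_apply m t hs, Set.indicator_of_mem ht, Pi.one_apply, mul_one,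
    ENNReal.toReal_ofReal hm]

private theorem dm_zero {m t : ℝ} {s : Set ℝ} (hs : MeasurableSet s)
    (ht : t ∉ s) : dm m t s = 0 := by
  rw [dm_apply m t hs, Set.indicator_of_notMem ht, mul_zero]

private theorem dm_real_notMem {m t : ℝ} {s : Set ℝ} (hs : MeasurableSet s)
    (ht : t ∉ s) : (dm m t).real s = 0 := by
  rw [Measure.real, dm_zero hs ht, ENNReal.toReal_zero]

private theorem dm_compl (m t : ℝ) : dm m t (Icc t t)ᶜ = 0 :=
  dm_zero measurableSet_Icc.compl (by simp)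

private theorem dm_supp {m t : ℝ} (h0 : 0 < t) (h1 : t < 2 * Real.pi) : Supp (dm m t) :=
  dm_zero measurableSet_Ico.compl (fun h => h ⟨h0.le, h1⟩)

private theorem dm_int {m t : ℝ} (hm : 0 ≤ m) : ∫ x, x ∂(dm m t) = m * t := by
  unfold dm
  rw [integral_smul_measure, integral_dirac, ENNReal.toReal_ofReal hm, smul_eq_mul]

private theorem dm_le {m t : ℝ} {ν : Measure ℝ} (h : ENNReal.ofReal m ≤ ν {t}) :
    dm m t ≤ ν := by
  refine Measure.le_iff.mpr (fun s hs => ?_)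
  by_cases ht : t ∈ s
  · rw [dm_apply m t hs, Set.indicator_of_mem ht, Pi.one_apply, mul_one]
    exact h.trans (measure_mono (by simpa using ht))
  · rw [dm_zero hs ht]
    exact bot_le

private theorem dm_pot {m : ℝ} (hm : 0 ≤ m) (t θ : ℝ) :
    pot (dm m t) θ = m * Real.log (2 * |Real.sin ((θ - t) / 2)|) := by
  unfold pot dm
  rw [integral_smul_measure, integral_dirac, ENNReal.toReal_ofReal hm, smul_eq_mul]

private theorem dm_Lm {m : ℝ} (hm : 0 ≤ m) (t : ℝ) (z : ℂ) :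
    Lm (dm m t) z = (m : ℂ) * Complex.log (1 - yy t * z) := by
  unfold dm
  rw [Lm_smul, Lm_dirac, ENNReal.toReal_ofReal hm]

private theorem ae_ne_arc (t : ℝ) : ∀ᵐ θ : ℝ ∂arcM, θ ≠ t := by
  unfold arcM
  rw [ae_iff]
  simp

private theorem yy_ne {t2 t1 : ℝ} (h21 : t2 < t1) (h : t1 - t2 < 2 * Real.pi) :
    yy t2 ≠ yy t1 := by
  intro he
  unfold yy at he
  obtain ⟨n, hn⟩ := Complex.exp_eq_exp_iff_exists_int.mp he
  have h1 := congrArg Complex.im hn
  have e1 : (-(t2 : ℂ) * I).im = -t2 := by simp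
  have e2 : (-(t1 : ℂ) * I + (n : ℂ) * (2 * (Real.pi : ℂ) * I)).im = -t1 + n * (2 * Real.pi) := by
    simp
  rw [e1, e2] at h1
  have hpi := Real.pi_pos
  have hn0 : (0 : ℝ) < n := by
    by_contra hc
    rw [not_lt] at hc
    nlinarith
  have hn1 : (n : ℝ) < 1 := by
    by_contra hc
    rw [not_lt] at hc
    nlinarith
  have hn2 : (0 : ℤ) < n := by exact_mod_cast hn0
  have hn3 : n < (1 : ℤ) := by exact_mod_cast hn1
  omega

private theorem exp_re_pos {w : ℂ} (h : |w.im| < Real.pi / 2) : 0 < (cexp w).re := by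
  rw [Complex.exp_re]
  exact mul_pos (Real.exp_pos _) (Real.cos_pos_of_mem_Ioo (abs_lt.mp h))

private theorem eq_zero_of_exp {w : ℂ} (h : |w.im| < Real.pi) (he : cexp w = 1) : w = 0 := by
  obtain ⟨n, hn⟩ := Complex.exp_eq_one_iff.mp he
  have h1 : w.im = n * (2 * Real.pi) := by
    rw [hn]
    simp
  rw [h1] at h
  have hpi := Real.pi_pos
  rw [abs_lt] at h
  have hn0 : (-1 : ℝ) < n := by
    by_contra hc
    rw [not_lt] at hc
    nlinarith
  have hn1 : (n : ℝ) < 1 := by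
    by_contra hc
    rw [not_lt] at hc
    nlinarith
  have hn2 : (-1 : ℤ) < n := by exact_mod_cast hn0
  have hn3 : n < (1 : ℤ) := by exact_mod_cast hn1
  have hn4 : n = 0 := by omega
  rw [hn, hn4]
  simp

theorem split_atoms_aux (ν : Measure ℝ) [IsProbabilityMeasure ν] (hν : Supp ν) {t2 t1 : ℝ}
    (h0 : 0 < t2) (h21 : t2 < t1) (h1 : t1 < 2 * Real.pi) (hp2 : 0 < ν {t2})
    (hp1 : 0 < ν {t1}) :
    ∃ ν1 ν2 : Measure ℝ, IsProbabilityMeasure ν1 ∧ IsProbabilityMeasure ν2 ∧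
      (∀ z ∈ ball (0 : ℂ) 1, Sm ν z = (1 / 2) * Sm ν1 z + (1 / 2) * Sm ν2 z) ∧
      ∃ z ∈ ball (0 : ℂ) 1, Sm ν1 z ≠ Sm ν2 z := by
  have hpi := Real.pi_pos
  obtain ⟨m, hm0, hm8, hm1, hm2⟩ : ∃ m : ℝ, 0 < m ∧ m ≤ 1 / 8 ∧ ENNReal.ofReal m ≤ ν {t1} ∧
      ENNReal.ofReal m ≤ ν {t2} := by
    have g1 : 0 < (ν {t1}).toReal := ENNReal.toReal_pos hp1.ne' (measure_ne_top _ _)
    have g2 : 0 < (ν {t2}).toReal := ENNReal.toReal_pos hp2.ne' (measure_ne_top _ _)
    refine ⟨min (min (ν {t1}).toReal (ν {t2}).toReal) (1 / 8),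
      lt_min (lt_min g1 g2) (by norm_num), min_le_right _ _, ?_, ?_⟩
    · exact ENNReal.ofReal_le_of_le_toReal ((min_le_left _ _).trans (min_le_left _ _))
    · exact ENNReal.ofReal_le_of_le_toReal ((min_le_left _ _).trans (min_le_right _ _))
  have hmn : 0 ≤ m := hm0.le
  -- the two masses
  have u2 : (dm m t2).real univ = m := dm_real_mem hmn MeasurableSet.univ (mem_univ _)
  have u1 : (dm m t1).real univ = m := dm_real_mem hmn MeasurableSet.univ (mem_univ _)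
  have hS2 : Supp (dm m t2) := dm_supp h0 (h21.trans h1)
  have hS1 : Supp (dm m t1) := dm_supp (h0.trans h21) h1
  set b : ℝ := m * (t1 - t2) with hbdef
  have hb0 : 0 < b := mul_pos hm0 (by linarith)
  have hba : b ≤ 2 * Real.pi * m := by
    have : m * (t1 - t2) ≤ m * (2 * Real.pi) := mul_le_mul_of_nonneg_left (by linarith) hmn
    linarith
  have hma : 2 * Real.pi * m ≤ Real.pi / 4 := by nlinarith
  have hb2 : b < Real.pi / 2 := by linarith
  have ha2 : -(Real.pi / 2) < b - 2 * Real.pi * m := by linarith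
  have hint : (∫ t, t ∂(dm m t1)) - (∫ t, t ∂(dm m t2)) = b := by
    rw [dm_int hmn, dm_int hmn, hbdef]
    ring
  have hu : (dm m t2).real univ = (dm m t1).real univ := by rw [u2, u1]
  -- the function
  have hw : ∀ z ∈ ball (0 : ℂ) 1,
      |(2 * Lm (dm m t2) z - 2 * Lm (dm m t1) z).im| ≤ 2 * Real.pi * m := by
    intro z hz
    have e1 := abs_Lm_im_le (dm m t2) hz
    have e2 := abs_Lm_im_le (dm m t1) hz
    rw [u2, abs_le] at e1
    rw [u1, abs_le] at e2
    have e3 : (2 * Lm (dm m t2) z - 2 * Lm (dm m t1) z).im =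
        2 * (Lm (dm m t2) z).im - 2 * (Lm (dm m t1) z).im := by simp
    rw [e3, abs_le]
    constructor <;> linarith [e1.1, e1.2, e2.1, e2.2]
  have hgre : ∀ z ∈ ball (0 : ℂ) 1, 0 < (g0 (dm m t2) (dm m t1) z).re := by
    intro z hz
    exact exp_re_pos (lt_of_le_of_lt (hw z hz) (by linarith))
  have hre : ∀ z ∈ ball (0 : ℂ) 1, 0 < (1 + g0 (dm m t2) (dm m t1) z).re := by
    intro z hz
    rw [Complex.add_re, Complex.one_re]
    linarith [hgre z hz]
  have hslit : ∀ z ∈ ball (0 : ℂ) 1, 1 + g0 (dm m t2) (dm m t1) z ∈ Complex.slitPlane :=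
    fun z hz => Or.inl (hre z hz)
  have hne : ∀ z ∈ ball (0 : ℂ) 1, 1 + g0 (dm m t2) (dm m t1) z ≠ 0 :=
    fun z hz => Complex.slitPlane_ne_zero (hslit z hz)
  have hdlog : DifferentiableOn ℂ
      (fun z => Complex.log (1 + g0 (dm m t2) (dm m t1) z)) (ball 0 1) :=
    DifferentiableOn.clog ((g0_differentiableOn (dm m t2) (dm m t1)).const_add 1) hslit
  have hdw : DifferentiableOn ℂ
      (fun z => 2 * Lm (dm m t2) z - 2 * Lm (dm m t1) z) (ball 0 1) :=
    ((Lm_differentiableOn (dm m t2)).const_mul 2).sub ((Lm_differentiableOn (dm m t1)).const_mul 2)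
  have hlog2 : (Complex.log 2).im = 0 := by
    rw [Complex.log_im]
    simp
  set l2 : ℂ → ℂ := fun z => -(Complex.log (1 + g0 (dm m t2) (dm m t1) z) - Complex.log 2)
    with hl2
  set l1 : ℂ → ℂ := fun z => (2 * Lm (dm m t2) z - 2 * Lm (dm m t1) z) -
    (Complex.log (1 + g0 (dm m t2) (dm m t1) z) - Complex.log 2) with hl1
  have hl2d : DifferentiableOn ℂ l2 (ball 0 1) := (hdlog.sub_const _).neg
  have hl1d : DifferentiableOn ℂ l1 (ball 0 1) := hdw.sub (hdlog.sub_const _)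
  have hl20 : l2 0 = 0 := by
    rw [hl2]
    simp only [g0_apply_zero]
    norm_num
  have hl10 : l1 0 = 0 := by
    rw [hl1]
    simp only [g0_apply_zero, Lm_apply_zero]
    norm_num
  have him2 : ∀ z, (l2 z).im = -(Complex.log (1 + g0 (dm m t2) (dm m t1) z)).im := by
    intro z
    rw [hl2]
    simp only [Complex.neg_im, Complex.sub_im, hlog2, sub_zero]
  have him1 : ∀ z, (l1 z).im = (2 * (Lm (dm m t2) z).im - 2 * (Lm (dm m t1) z).im) -
      (Complex.log (1 + g0 (dm m t2) (dm m t1) z)).im := by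
    intro z
    have e3 : (2 * Lm (dm m t2) z - 2 * Lm (dm m t1) z).im =
        2 * (Lm (dm m t2) z).im - 2 * (Lm (dm m t1) z).im := by simp
    rw [hl1]
    simp only [Complex.sub_im, hlog2, sub_zero]
    rw [← e3]
    simp only [Complex.sub_im]
  have hM2 : ∀ z ∈ ball (0 : ℂ) 1, |(l2 z).im| ≤ 2 * Real.pi := by
    intro z _
    rw [him2 z, abs_neg, Complex.log_im]
    exact (Complex.abs_arg_le_pi _).trans (by linarith)
  have hM1 : ∀ z ∈ ball (0 : ℂ) 1, |(l1 z).im| ≤ 2 * Real.pi := by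
    intro z hz
    have e3 : (2 * Lm (dm m t2) z - 2 * Lm (dm m t1) z).im =
        2 * (Lm (dm m t2) z).im - 2 * (Lm (dm m t1) z).im := by simp
    have e4 := hw z hz
    rw [e3] at e4
    rw [him1 z, Complex.log_im]
    have e5 := Complex.abs_arg_le_pi (1 + g0 (dm m t2) (dm m t1) z)
    rw [abs_le] at e4 e5 ⊢
    constructor <;> linarith [e4.1, e4.2, e5.1, e5.2]
  -- radial limits
  have hrad := radial_logA (dm m t2) (dm m t1) hS2 hS1 (by rw [u2]; linarith)
    (by rw [u1]; linarith)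
  set D2 : ℝ → ℝ := fun θ => -AA (rr (dm m t2) (dm m t1) θ)
    (bA (dm m t1) θ - bA (dm m t2) θ) with hD2
  set D1 : ℝ → ℝ := fun θ => (bA (dm m t1) θ - bA (dm m t2) θ) -
    AA (rr (dm m t2) (dm m t1) θ) (bA (dm m t1) θ - bA (dm m t2) θ) with hD1
  have hR2 : RadLim (fun z => (l2 z).im) D2 := by
    unfold RadLim at hrad ⊢
    filter_upwards [hrad] with θ hθ
    have := hθ.neg
    refine this.congr (fun r => ?_)
    rw [him2]
  have hR1 : RadLim (fun z => (l1 z).im) D1 := by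
    have q2 := ae_radial_Lm (dm m t2) hS2
    have q1 := ae_radial_Lm (dm m t1) hS1
    unfold RadLim at hrad q2 q1 ⊢
    filter_upwards [hrad, q2, q1] with θ hθ hq2 hq1
    have := ((hq2.const_mul 2).sub (hq1.const_mul 2)).sub hθ
    have e : D1 θ = 2 * (-(1 / 2) * bA (dm m t2) θ) - 2 * (-(1 / 2) * bA (dm m t1) θ) -
        (1 + (rr (dm m t2) (dm m t1) θ : ℂ) *
          cexp (((bA (dm m t1) θ - bA (dm m t2) θ : ℝ) : ℂ) * I)).arg := by
      rw [hD1]
      unfold AA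
      ring
    rw [e]
    refine this.congr (fun r => ?_)
    rw [him1]
  -- comparison
  have hmem : ∀ᵐ θ : ℝ ∂arcM, θ ∈ Ioo 0 (2 * Real.pi) := by
    unfold arcM
    exact ae_restrict_mem measurableSet_Ioo
  have hkey : ∀ᵐ θ : ℝ ∂arcM,
      XX m t2 t1 b θ - 2 * Real.pi * (dm m t1).real (Ico 0 θ) = D2 θ ∧
      (XX m t2 t1 b θ + b) - 2 * Real.pi * (dm m t2).real (Ico 0 θ) = D1 θ := by
    filter_upwards [hmem, ae_ne_arc t2, ae_ne_arc t1] with θ hθ hn2 hn1
    have hgood : GoodAt (dm m t2) θ := goodAt_off (dm m t2) t2 t2 (dm_compl m t2) h0.le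
      (h21.trans h1) hθ (by
        rw [Icc_self, mem_singleton_iff]
        exact hn2)
    have hrr : rr (dm m t2) (dm m t1) θ = RR m t2 t1 θ := by
      unfold rr RR
      rw [if_pos hgood, dm_pot hmn, dm_pot hmn]
    have hD2' : D2 θ = -AA (RR m t2 t1 θ) (bA (dm m t1) θ - bA (dm m t2) θ) := by
      rw [hD2]
      simp only [hrr]
    have hD1' : D1 θ = (bA (dm m t1) θ - bA (dm m t2) θ) -
        AA (RR m t2 t1 θ) (bA (dm m t1) θ - bA (dm m t2) θ) := by
      rw [hD1]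
      simp only [hrr]
    rw [hD2', hD1']
    rcases lt_or_gt_of_ne hn2 with c2 | c2
    · have hβ := bA_left (dm m t2) (dm m t1) t2 t2 t1 t1 (dm_compl m t2) (dm_compl m t1) hu
        le_rfl h21 le_rfl (θ := θ) c2.le
      rw [hint] at hβ
      rw [hβ, XX_one c2, dm_real_notMem measurableSet_Ico (fun h => by linarith [h.2]),
        dm_real_notMem measurableSet_Ico (fun h => by linarith [h.2])]
      constructor <;> ring
    · rcases lt_or_gt_of_ne hn1 with c1 | c1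
      · have hβ := bA_mid (dm m t2) (dm m t1) t2 t2 t1 t1 (dm_compl m t2) (dm_compl m t1) hu
          h0.le le_rfl h21 le_rfl (θ := θ) c2 c1.le
        rw [hint, u2] at hβ
        rw [hβ, XX_three c2 c1, dm_real_notMem measurableSet_Ico (fun h => by linarith [h.2]),
          dm_real_mem hmn measurableSet_Ico ⟨h0.le, c2⟩]
        constructor <;> ring
      · have hβ := bA_right (dm m t2) (dm m t1) t2 t2 t1 t1 (dm_compl m t2) (dm_compl m t1) hu
          h0.le le_rfl h21 le_rfl (θ := θ) c1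
        rw [hint] at hβ
        rw [hβ, XX_five h21 c1, dm_real_mem hmn measurableSet_Ico ⟨(h0.trans h21).le, c1⟩,
          dm_real_mem hmn measurableSet_Ico ⟨h0.le, c2⟩]
        constructor <;> ring
  have hmono := XX_mono hmn h0 h21 h1 hb0.le hb2 hba ha2
  -- second measure
  obtain ⟨ν2, hP2, hSν2, hν2⟩ := exists_measure ν (dm m t1) hν (dm_le hm1) (XX m t2 t1 b) hmono
    (by
      intro x hx y hy
      rw [u1]
      exact XX_osc hmn h0 h21 h1 hb0.le hb2 hba ha2 hx hy)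
    (by
      rw [integral_congr_ae (hkey.mono fun θ h => h.1),
        integral_radial l2 hl2d (2 * Real.pi) hM2 D2 hR2, hl20]
      simp)
  obtain ⟨ν1, hP1, hSν1, hν1⟩ := exists_measure ν (dm m t2) hν (dm_le hm2)
    (fun θ => XX m t2 t1 b θ + b)
    (by
      intro x hx y hy hxy
      exact add_le_add_left (hmono hx hy hxy) b)
    (by
      intro x hx y hy
      rw [u2]
      have := XX_osc hmn h0 h21 h1 hb0.le hb2 hba ha2 hx hy
      linarith)
    (by
      rw [integral_congr_ae (hkey.mono fun θ h => h.2),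
        integral_radial l1 hl1d (2 * Real.pi) hM1 D1 hR1, hl10]
      simp)
  have c2 := crit_eq ν ν2 hν hSν2 l2 hl2d hl20 (2 * Real.pi) hM2 D2 hR2 (by
    filter_upwards [hν2, hkey] with θ e1 e2
    rw [← e2.1, ← e1]
    ring)
  have c1 := crit_eq ν ν1 hν hSν1 l1 hl1d hl10 (2 * Real.pi) hM1 D1 hR1 (by
    filter_upwards [hν1, hkey] with θ e1 e2
    rw [← e2.2, ← e1]
    ring)
  have hexp2 : ∀ z ∈ ball (0 : ℂ) 1, cexp (l2 z) = 2 / (1 + g0 (dm m t2) (dm m t1) z) := by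
    intro z hz
    rw [hl2]
    simp only
    rw [neg_sub, Complex.exp_sub, Complex.exp_log two_ne_zero, Complex.exp_log (hne z hz)]
  have hexp1 : ∀ z ∈ ball (0 : ℂ) 1, cexp (l1 z) =
      g0 (dm m t2) (dm m t1) z * (2 / (1 + g0 (dm m t2) (dm m t1) z)) := by
    intro z hz
    rw [← hexp2 z hz, hl1, hl2, g0, ← Complex.exp_add]
    congr 1
  refine ⟨ν1, ν2, hP1, hP2, ?_, ?_⟩
  · intro z hz
    rw [← c1 z hz, ← c2 z hz, hexp1 z hz, hexp2 z hz]
    field_simp [hne z hz]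
    ring
  · have hz : (1 / 2 : ℂ) ∈ ball (0 : ℂ) 1 := by
      rw [mem_ball_zero_iff]
      norm_num
    refine ⟨1 / 2, hz, fun he => ?_⟩
    rw [← c1 _ hz, ← c2 _ hz] at he
    have h3 := mul_right_cancel₀ (Sm_ne_zero ν _) he
    rw [hexp1 _ hz, hexp2 _ hz] at h3
    have h4 : (2 : ℂ) / (1 + g0 (dm m t2) (dm m t1) (1 / 2)) ≠ 0 :=
      div_ne_zero two_ne_zero (hne _ hz)
    have h5 : g0 (dm m t2) (dm m t1) (1 / 2) = 1 := by
      have := mul_right_cancel₀ h4 (h3.trans (one_mul _).symm)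
      exact this
    have h6 : 2 * Lm (dm m t2) (1 / 2) - 2 * Lm (dm m t1) (1 / 2) = 0 :=
      eq_zero_of_exp (lt_of_le_of_lt (hw _ hz) (by linarith)) h5
    rw [dm_Lm hmn, dm_Lm hmn] at h6
    have hmC : (m : ℂ) ≠ 0 := by exact_mod_cast hm0.ne'
    have h7 : Complex.log (1 - yy t2 * (1 / 2)) = Complex.log (1 - yy t1 * (1 / 2)) := by
      have : (2 * (m : ℂ)) * (Complex.log (1 - yy t2 * (1 / 2)) -
          Complex.log (1 - yy t1 * (1 / 2))) = 0 := by linear_combination h6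
      have h8 := (mul_eq_zero.mp this).resolve_left (mul_ne_zero two_ne_zero hmC)
      exact sub_eq_zero.mp h8
    have h8 := congrArg cexp h7
    rw [Complex.exp_log (ker_ne_zero hz t2), Complex.exp_log (ker_ne_zero hz t1)] at h8
    have h9 : yy t2 = yy t1 := by linear_combination (-2 : ℂ) * h8
    exact yy_ne h21 (by linarith) h9

end Baz16
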