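import Pool.Agent.Baz16.Basic

/-! # Herglotz representation.

For `0 < R < 1` let `μ_R` be the probability measure on `Circle` (or on the compact `[0, 2 pi]`)
with density `Re q (R e^{iθ})/(2 pi)` (`q 0 = 1`, mean value property).  Poisson's formula
(Mathlib `Analysis/Complex/Poisson.lean`): `Re q (R z) = Re ∫ (e^{iθ} + z)/(e^{iθ} - z) dμ_R`, and
both sides being real parts of analytic functions with value `1` at `0`,
`q (R z) = ∫ (1 + e^{-iθ} z)/(1 - e^{-iθ} z) dμ_R`.  Let `R → 1` along a sequence for which `μ_R`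
converges weakly (`ProbabilityMeasure` of a compact metrisable space is compact,
`Mathlib/MeasureTheory/Measure/Prokhorov.lean`, and metrisable (Lévy-Prokhorov), or use ultrafilters:
a cluster point along `atTop` is enough).  Push forward to `[0, 2 pi)`. -/

namespace Baz16
open Complex Metric MeasureTheory Set Filter Topology

/-- An analytic function on the disc with vanishing real part is constant. -/
private theorem herglotz_const {D : ℂ → ℂ} (hD : DifferentiableOn ℂ D (ball 0 1))
    (hre : ∀ z ∈ ball (0 : ℂ) 1, (D z).re = 0) (h0 : D 0 = 0) :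
    ∀ z ∈ ball (0 : ℂ) 1, D z = 0 := by
  have han : AnalyticOnNhd ℂ D (ball 0 1) := hD.analyticOnNhd isOpen_ball
  rcases han.is_constant_or_isOpen (convex_ball (0 : ℂ) 1).isPreconnected with ⟨w, hw⟩ | h
  · intro z hz
    rw [hw z hz, ← hw 0 (mem_ball_self one_pos), h0]
  · exfalso
    have ho := h _ subset_rfl isOpen_ball
    have hm : D 0 ∈ D '' ball 0 1 := ⟨0, mem_ball_self one_pos, rfl⟩
    obtain ⟨ε, hε, hb⟩ := Metric.isOpen_iff.1 ho _ hm
    have h1 : D 0 + ((ε / 2 : ℝ) : ℂ) ∈ ball (D 0) ε := by
      rw [mem_ball, dist_eq_norm, add_sub_cancel_left, Complex.norm_real, Real.norm_eq_abs,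
        abs_of_pos (by linarith)]
      linarith
    obtain ⟨z, hz, hz'⟩ := hb h1
    have h2 := hre z hz
    rw [hz', add_re, h0, ofReal_re, zero_re] at h2
    linarith

/-- The Herglotz formula for functions that are continuous on the closed disc. -/
private theorem herglotz_rep {g : ℂ → ℂ} (hg : DiffContOnCl ℂ g (ball 0 1)) (h0 : g 0 = 1)
    {w : ℂ} (hw : w ∈ ball (0 : ℂ) 1) :
    Real.circleAverage (fun ζ => herglotzRieszKernel 0 w ζ • (((g ζ).re : ℝ) : ℂ)) 0 1 = g w := by
  have hcont : ContinuousOn g (sphere (0 : ℂ) |1|) := by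
    refine hg.continuousOn.mono ?_
    rw [abs_one, closure_ball _ one_ne_zero]
    exact sphere_subset_closedBall
  have hcr : ContinuousOn (fun ζ => (g ζ).re) (sphere (0 : ℂ) |1|) :=
    Complex.continuous_re.comp_continuousOn hcont
  have hcc : ContinuousOn (fun ζ => (((g ζ).re : ℝ) : ℂ)) (sphere (0 : ℂ) |1|) :=
    Complex.continuous_ofReal.comp_continuousOn hcr
  have hir : CircleIntegrable (fun ζ => (g ζ).re) 0 1 := hcr.circleIntegrable'
  have hic : CircleIntegrable (fun ζ => (((g ζ).re : ℝ) : ℂ)) 0 1 := hcc.circleIntegrable'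
  set H : ℂ → ℂ := fun w =>
    Real.circleAverage (fun ζ => herglotzRieszKernel 0 w ζ • (((g ζ).re : ℝ) : ℂ)) 0 1 with hH
  have hHd : DifferentiableOn ℂ H (ball 0 1) :=
    differentiableOn_circleAverage_herglotzRieszKernel_smul hic
  have hre : ∀ z ∈ ball (0 : ℂ) 1, (H z).re = (g z).re := by
    intro z hz
    rw [hH]
    simp only
    rw [re_circleAverage_herglotzRieszKernel_smul hir hz]
    rw [← hg.circleAverage_re_herglotzRieszKernel_smul hz]
    have hint : CircleIntegrable ((re ∘ herglotzRieszKernel 0 z) • g) 0 1 := by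
      refine ContinuousOn.circleIntegrable' ?_
      refine ContinuousOn.smul ?_ hcont
      exact Complex.continuous_re.comp_continuousOn (continuousOn_herglotzRieszKernel_sphere hz)
    rw [← Complex.reCLM_apply, ← Complex.reCLM.circleAverage_comp_comm hint]
    congr 1
    funext ζ
    simp
  have hz0 : (0 : ℂ) ∈ ball (0 : ℂ) 1 := mem_ball_self one_pos
  have hH0 : H 0 = 1 := by
    have h1 := hre 0 hz0
    rw [h0, one_re] at h1
    refine Complex.ext h1 ?_
    have hint : CircleIntegrable
        (fun ζ => herglotzRieszKernel 0 0 ζ • (((g ζ).re : ℝ) : ℂ)) 0 1 :=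
      ContinuousOn.circleIntegrable'
        ((continuousOn_herglotzRieszKernel_sphere hz0).smul hcc)
    rw [hH]
    simp only
    rw [← Complex.imCLM_apply, ← Complex.imCLM.circleAverage_comp_comm hint]
    have h2 : Real.circleAverage (Complex.imCLM ∘
        fun ζ => herglotzRieszKernel 0 0 ζ • (((g ζ).re : ℝ) : ℂ)) 0 1 =
        Real.circleAverage (fun _ => (0 : ℝ)) 0 1 := by
      refine Real.circleAverage_congr_sphere ?_
      intro ζ hζ
      have h3 : ζ ≠ 0 := by
        rintro rfl
        simp at hζ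
      simp [herglotzRieszKernel_def, div_self h3]
    rw [h2, Real.circleAverage_const]
    simp
  have hD : DifferentiableOn ℂ (fun z => H z - g z) (ball 0 1) := hHd.sub hg.differentiableOn
  have := herglotz_const hD (fun z hz => by simp [hre z hz]) (by simp [hH0, h0]) w hw
  exact sub_eq_zero.1 this


private theorem herglotz_kernel (w : ℂ) (θ : ℝ) :
    herglotzRieszKernel 0 w (circleMap 0 1 θ) = (1 + yy θ * w) / (1 - yy θ * w) := by
  have h1 : yy θ * circleMap 0 1 θ = 1 := by
    rw [yy, circleMap]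
    simp only [ofReal_one, one_mul, zero_add]
    rw [← Complex.exp_add, neg_mul, neg_add_cancel, Complex.exp_zero]
  have h2 := yy_ne_zero θ
  rw [herglotzRieszKernel_def, sub_zero, sub_zero, ← mul_div_mul_left _ _ h2, mul_add, mul_sub, h1]

/-- The measure with density `Re q (R e^{iθ}) / (2 pi)`. -/
private theorem herglotz_R {q : ℂ → ℂ} (hq : IsCara q) {R : ℝ} (hR0 : 0 < R) (hR1 : R < 1) :
    ∃ μ : ProbabilityMeasure (Icc (0 : ℝ) (2 * Real.pi)), ∀ w ∈ ball (0 : ℂ) 1,
      ∫ t : Icc (0 : ℝ) (2 * Real.pi), (1 + yy t * w) / (1 - yy t * w)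
        ∂(μ : Measure (Icc (0 : ℝ) (2 * Real.pi))) = q (R * w) := by
  have hpi : (0 : ℝ) < 2 * Real.pi := by positivity
  have hmaps : ∀ w ∈ closedBall (0 : ℂ) 1, (R : ℂ) * w ∈ ball (0 : ℂ) 1 := by
    intro w hw
    rw [mem_closedBall_zero_iff] at hw
    rw [mem_ball_zero_iff, norm_mul, Complex.norm_real, Real.norm_eq_abs, abs_of_pos hR0]
    nlinarith [norm_nonneg w]
  set g : ℂ → ℂ := fun z => q (R * z) with hg
  have hgc : ContinuousOn g (closedBall 0 1) :=
    hq.1.continuousOn.comp (by fun_prop) hmaps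
  have hgd : DifferentiableOn ℂ g (ball 0 1) :=
    hq.1.comp (by fun_prop) fun w hw => hmaps w (ball_subset_closedBall hw)
  have hgD : DiffContOnCl ℂ g (ball 0 1) :=
    ⟨hgd, by rwa [closure_ball _ one_ne_zero]⟩
  have hg0 : g 0 = 1 := by simp [hg, hq.2.1]
  have hcm : ∀ θ : ℝ, circleMap 0 1 θ ∈ closedBall (0 : ℂ) 1 := fun θ =>
    circleMap_mem_closedBall 0 zero_le_one θ
  have hpos : ∀ θ : ℝ, 0 < (g (circleMap 0 1 θ)).re := fun θ => hq.2.2 _ (hmaps _ (hcm θ))
  have hcont : Continuous fun θ : ℝ => (g (circleMap 0 1 θ)).re := by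
    refine Complex.continuous_re.comp ?_
    exact hgc.comp_continuous (continuous_circleMap 0 1) hcm
  set D : ℝ → NNReal := fun θ => Real.toNNReal ((2 * Real.pi)⁻¹ * (g (circleMap 0 1 θ)).re)
    with hD
  have hDm : Measurable D := (continuous_real_toNNReal.comp (hcont.const_mul _)).measurable
  set μ0 : Measure ℝ :=
    (volume.restrict (Ioc 0 (2 * Real.pi))).withDensity (fun θ => (D θ : ENNReal)) with hμ0
  have hint : ∀ w ∈ ball (0 : ℂ) 1, ∀ f : ℝ → ℂ,
      (∀ θ ∈ Ioc 0 (2 * Real.pi), f θ = (1 + yy θ * w) / (1 - yy θ * w)) →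
      ∫ θ, f θ ∂μ0 = g w := by
    intro w hw f hf
    rw [hμ0, integral_withDensity_eq_integral_smul hDm, ← herglotz_rep hgD hg0 hw,
      Real.circleAverage_def, intervalIntegral.integral_of_le hpi.le, ← integral_smul]
    refine setIntegral_congr_fun measurableSet_Ioc ?_
    intro θ hθ
    simp only
    rw [hf θ hθ, herglotz_kernel, NNReal.smul_def, hD]
    simp only
    rw [Real.coe_toNNReal _ (by have := hpos θ; positivity)]
    simp only [Complex.real_smul, smul_eq_mul]
    push_cast
    ring
  have h1 : μ0.real univ = 1 := by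
    have h := hint 0 (mem_ball_self one_pos) (fun _ => 1) (fun θ _ => by simp)
    rw [integral_const, hg0] at h
    have h' := congrArg Complex.re h
    simpa using h'
  have hprob : IsProbabilityMeasure μ0 := by
    constructor
    rw [Measure.real] at h1
    exact (ENNReal.toReal_eq_one_iff _).1 h1
  have hproj : Measurable (projIcc 0 (2 * Real.pi) hpi.le) := continuous_projIcc.measurable
  refine ⟨⟨μ0.map (projIcc 0 (2 * Real.pi) hpi.le),
    Measure.isProbabilityMeasure_map hproj.aemeasurable⟩, ?_⟩
  intro w hw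
  have hK : Continuous fun t : Icc (0 : ℝ) (2 * Real.pi) => (1 + yy t * w) / (1 - yy t * w) := by
    have hy : Continuous fun t : Icc (0 : ℝ) (2 * Real.pi) => yy t :=
      continuous_yy.comp continuous_subtype_val
    exact (continuous_const.add (hy.mul continuous_const)).div
      (continuous_const.sub (hy.mul continuous_const)) fun t => ker_ne_zero hw t
  simp only [ProbabilityMeasure.coe_mk]
  rw [integral_map hproj.aemeasurable hK.aestronglyMeasurable]
  refine hint w hw _ ?_
  intro θ hθ
  rw [projIcc_of_mem hpi.le ⟨hθ.1.le, hθ.2⟩]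

theorem herglotz {q : ℂ → ℂ} (hq : IsCara q) :
    ∃ ν : Measure ℝ, IsProbabilityMeasure ν ∧ Supp ν ∧
      ∀ z ∈ ball (0 : ℂ) 1, q z = ∫ t, (1 + yy t * z) / (1 - yy t * z) ∂ν := by
  have hpi : (0 : ℝ) < 2 * Real.pi := by positivity
  set R : ℕ → ℝ := fun n => 1 - 1 / ((n : ℝ) + 2) with hR
  have hR0 : ∀ n, 0 < R n := by
    intro n
    have h : (0 : ℝ) < (n : ℝ) + 2 := by positivity
    have h2 : 1 / ((n : ℝ) + 2) < 1 := by
      rw [div_lt_one h]
      have : (0 : ℝ) ≤ n := n.cast_nonneg
      linarith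
    simp only [hR]
    linarith
  have hR1 : ∀ n, R n < 1 := by
    intro n
    have h : (0 : ℝ) < 1 / ((n : ℝ) + 2) := by positivity
    simp only [hR]
    linarith
  have hRlim : Tendsto R atTop (𝓝 1) := by
    have h : Tendsto (fun n : ℕ => 1 / ((n : ℝ) + 2)) atTop (𝓝 0) := by
      have h2 : Tendsto (fun n : ℕ => (n : ℝ) + 2) atTop atTop :=
        tendsto_atTop_add_const_right _ _ tendsto_natCast_atTop_atTop
      refine h2.inv_tendsto_atTop.congr fun n => ?_
      simp
    have h3 := (tendsto_const_nhds (x := (1 : ℝ))).sub h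
    simpa [hR] using h3
  choose μ hμ using fun n => herglotz_R hq (hR0 n) (hR1 n)
  -- a cluster point
  set U : Ultrafilter (ProbabilityMeasure (Icc (0 : ℝ) (2 * Real.pi))) :=
    (hyperfilter ℕ).map μ with hU
  have hUlim : Tendsto μ (hyperfilter ℕ : Filter ℕ) (𝓝 U.lim) := by
    have h := Ultrafilter.le_nhds_lim U
    rwa [hU, Ultrafilter.coe_map] at h
  set ν := U.lim with hν
  have hrep : ∀ w ∈ ball (0 : ℂ) 1,
      q w = ∫ t : Icc (0 : ℝ) (2 * Real.pi), (1 + yy t * w) / (1 - yy t * w)
        ∂(ν : Measure (Icc (0 : ℝ) (2 * Real.pi))) := by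
    intro w hw
    have hK : Continuous fun t : Icc (0 : ℝ) (2 * Real.pi) =>
        (1 + yy t * w) / (1 - yy t * w) := by
      have hy : Continuous fun t : Icc (0 : ℝ) (2 * Real.pi) => yy t :=
        continuous_yy.comp continuous_subtype_val
      exact (continuous_const.add (hy.mul continuous_const)).div
        (continuous_const.sub (hy.mul continuous_const)) fun t => ker_ne_zero hw t
    have h1 := (ProbabilityMeasure.tendsto_iff_forall_integral_rclike_tendsto ℂ).1 hUlim
      (BoundedContinuousFunction.mkOfCompact ⟨_, hK⟩)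
    simp only [BoundedContinuousFunction.mkOfCompact_apply, ContinuousMap.coe_mk] at h1
    simp only [hμ _ w hw] at h1
    have h2 : Tendsto (fun n => q (R n * w)) (hyperfilter ℕ : Filter ℕ) (𝓝 (q w)) := by
      have hc : ContinuousAt q w :=
        (hq.1.continuousOn).continuousAt (isOpen_ball.mem_nhds hw)
      have h3 : Tendsto (fun n => (R n : ℂ) * w) atTop (𝓝 w) := by
        have := ((Complex.continuous_ofReal.tendsto 1).comp hRlim).mul_const w
        simpa using this
      exact (hc.tendsto.comp h3).mono_left Nat.hyperfilter_le_atTop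
    exact tendsto_nhds_unique h2 h1
  -- push forward to `[0, 2 pi)`
  set s : Icc (0 : ℝ) (2 * Real.pi) → ℝ := fun t => if (t : ℝ) = 2 * Real.pi then 0 else t
    with hs
  have hsm : Measurable s := by
    refine Measurable.ite ?_ measurable_const measurable_subtype_coe
    exact measurable_subtype_coe (measurableSet_singleton _)
  have hyy : ∀ t, yy (s t) = yy t := by
    intro t
    simp only [hs]
    split_ifs with h
    · rw [h, yy_zero, yy]
      have : -((2 * Real.pi : ℝ) : ℂ) * I = -(2 * Real.pi * I) := by push_cast; ring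
      rw [this, Complex.exp_neg, Complex.exp_two_pi_mul_I, inv_one]
    · rfl
  refine ⟨(ν : Measure (Icc (0 : ℝ) (2 * Real.pi))).map s,
    Measure.isProbabilityMeasure_map hsm.aemeasurable, ?_, ?_⟩
  · rw [Supp, Measure.map_apply hsm measurableSet_Ico.compl]
    have : s ⁻¹' (Ico 0 (2 * Real.pi))ᶜ = ∅ := by
      ext t
      simp only [mem_preimage, mem_compl_iff, mem_empty_iff_false, iff_false, not_not, hs]
      split_ifs with h
      · exact ⟨le_rfl, hpi⟩
      · exact ⟨t.2.1, lt_of_le_of_ne t.2.2 h⟩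
    rw [this, measure_empty]
  · intro z hz
    have hK : Continuous fun t : ℝ => (1 + yy t * z) / (1 - yy t * z) :=
      (continuous_const.add (continuous_yy.mul continuous_const)).div
        (continuous_const.sub (continuous_yy.mul continuous_const)) fun t => ker_ne_zero hz t
    rw [integral_map hsm.aemeasurable hK.aestronglyMeasurable, hrep z hz]
    simp only [hyy]

end Baz16
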