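import Pool.Agent.Baz16.Defs

/-! # `Re (z s'/s) > 0` implies starlike.

`s z = z h z` with `h = exp H`, `H' = (q-1)/z` (`HasPrimitives` on the disc), because
`z h' = (q - 1) h` and `h 0 = 1`.
Injectivity: on the half plane `Re ζ < 0`, `φ ζ = ζ + H (e^ζ)` satisfies `s (e^ζ) = exp (φ ζ)`,
`φ' ζ = q (e^ζ)` has positive real part, so `φ` is injective on the (convex) half plane
(Noshiro-Warschawski: integrate `φ'` over the segment), `φ (ζ + 2 pi i) = φ ζ + 2 pi i`.  If
`s z1 = s z2 ≠ 0`, `z_i = e^{ζ_i}`, then `φ ζ1 = φ ζ2 + 2 pi i k = φ (ζ2 + 2 pi i k)`.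
Starlikeness: fix `z0 ≠ 0`, `ρ = |z0|`, `w = s z0`, `T = {t ∈ [0,1] : t w ∈ s (closedBall 0 ρ)}` is
closed, contains `0, 1`; if `0 < b ∈ T`, `b w = s z_b`, then `(b - δ, b] ⊆ T` for some `δ > 0`:
use the local inverse of `s` at `z_b`:
`(b - x) w = s (z_b + η)`, `η = -(x/b) s z_b/s' z_b + o(x)`,
`Re (conj z_b * η) = -(x/b) |z_b|^2 Re (1/q z_b) + o(x) < 0`.  Hence `T = [0,1]`. -/

namespace Baz16
open Complex Metric MeasureTheory Set Filter Topology

/-- a function on the disc whose derivative vanishes off the origin is constant. -/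
private theorem const_of_deriv_zero {k : ℂ → ℂ} (hk : DifferentiableOn ℂ k (ball 0 1))
    (h : ∀ z ∈ ball (0 : ℂ) 1, z ≠ 0 → deriv k z = 0) :
    ∀ z ∈ ball (0 : ℂ) 1, k z = k 0 := by
  have h00 : (0 : ℂ) ∈ ball (0 : ℂ) 1 := by simp
  have hd0 : deriv k 0 = 0 := by
    have hc : ContinuousAt (deriv k) 0 :=
      ((hk.deriv isOpen_ball).continuousOn).continuousAt (isOpen_ball.mem_nhds h00)
    have h1 : Tendsto (deriv k) (𝓝[≠] 0) (𝓝 (deriv k 0)) := hc.tendsto.mono_left nhdsWithin_le_nhds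
    have h2 : Tendsto (deriv k) (𝓝[≠] 0) (𝓝 0) := by
      refine (tendsto_const_nhds (x := (0 : ℂ))).congr' ?_
      have hb : ∀ᶠ z in 𝓝[≠] (0 : ℂ), z ∈ ball (0 : ℂ) 1 :=
        nhdsWithin_le_nhds (isOpen_ball.mem_nhds h00)
      filter_upwards [hb, self_mem_nhdsWithin] with z hz hz0
      exact (h z hz hz0).symm
    exact tendsto_nhds_unique h1 h2
  intro z hz
  refine (convex_ball (0 : ℂ) 1).is_const_of_fderivWithin_eq_zero hk ?_ hz h00
  intro x hx
  rw [fderivWithin_of_isOpen isOpen_ball hx]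
  have hdx : deriv k x = 0 := by
    by_cases hx0 : x = 0
    · rw [hx0]; exact hd0
    · exact h x hx hx0
  ext
  simp [hdx]

/-- factorisation -/
theorem exists_factor {s q : ℂ → ℂ} (hs : DifferentiableOn ℂ s (ball 0 1)) (h0 : s 0 = 0)
    (h1 : deriv s 0 = 1) (hq : IsCara q)
    (h : ∀ z ∈ ball (0 : ℂ) 1, z * deriv s z = q z * s z) :
    ∃ H : ℂ → ℂ, DifferentiableOn ℂ H (ball 0 1) ∧ H 0 = 0 ∧
      (∀ z ∈ ball (0 : ℂ) 1, z * deriv H z = q z - 1) ∧
      ∀ z ∈ ball (0 : ℂ) 1, s z = z * cexp (H z) := by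
  have h00 : (0 : ℂ) ∈ ball (0 : ℂ) 1 := by simp
  have hb : ball (0 : ℂ) 1 ∈ 𝓝 (0 : ℂ) := isOpen_ball.mem_nhds h00
  have hdq : DifferentiableOn ℂ (dslope q 0) (ball 0 1) := (Complex.differentiableOn_dslope hb).2 hq.1
  have hds : DifferentiableOn ℂ (dslope s 0) (ball 0 1) := (Complex.differentiableOn_dslope hb).2 hs
  obtain ⟨H, hH0, hH⟩ := (hdq.isExactOn_ball).with_val_at 0 0
  have hHd : DifferentiableOn ℂ H (ball 0 1) := fun z hz =>
    (hH z hz).differentiableAt.differentiableWithinAt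
  have hHz : ∀ z ∈ ball (0 : ℂ) 1, z * deriv H z = q z - 1 := by
    intro z hz
    rw [(hH z hz).deriv]
    have := sub_smul_dslope q 0 z
    rw [sub_zero, smul_eq_mul, hq.2.1] at this
    exact this
  refine ⟨H, hHd, hH0, hHz, ?_⟩
  have hkey : ∀ z ∈ ball (0 : ℂ) 1, dslope s 0 z * cexp (-H z) = dslope s 0 0 * cexp (-H 0) := by
    refine const_of_deriv_zero (k := fun z => dslope s 0 z * cexp (-H z)) ?_ ?_
    · exact hds.mul hHd.neg.cexp
    · intro z hz hz0
      have hsz : HasDerivAt s (deriv s z) z :=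
        (hs.differentiableAt (isOpen_ball.mem_nhds hz)).hasDerivAt
      have hHz' : HasDerivAt H (deriv H z) z :=
        (hHd.differentiableAt (isOpen_ball.mem_nhds hz)).hasDerivAt
      have hdz : HasDerivAt (fun z => s z / z) ((deriv s z * z - s z * 1) / z ^ 2) z :=
        hsz.div (hasDerivAt_id z) hz0
      have hE : HasDerivAt (fun z => cexp (-H z)) (cexp (-H z) * (-deriv H z)) z := hHz'.neg.cexp
      have hprod := hdz.mul hE
      have heq : (fun z => dslope s 0 z * cexp (-H z)) =ᶠ[𝓝 z] (fun z => s z / z * cexp (-H z)) := by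
        filter_upwards [isOpen_ne.mem_nhds hz0] with y hy
        rw [dslope_of_ne _ hy, slope_def_field, h0, sub_zero, sub_zero]
      have hD : deriv (fun z => dslope s 0 z * cexp (-H z)) z =
          (deriv s z * z - s z * 1) / z ^ 2 * cexp (-H z) + s z / z * (cexp (-H z) * (-deriv H z)) := by
        rw [heq.deriv_eq]
        exact hprod.deriv
      rw [hD]
      have e1 := h z hz
      have e2 := hHz z hz
      have e3 : deriv s z = q z * s z / z := by
        field_simp
        linear_combination e1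
      have e4 : deriv H z = (q z - 1) / z := by
        field_simp
        linear_combination e2
      rw [e3, e4]
      field_simp
      ring
  intro z hz
  have hk := hkey z hz
  rw [dslope_same, h1, hH0, neg_zero, Complex.exp_zero, mul_one] at hk
  have hsl := sub_smul_dslope s 0 z
  rw [sub_zero, smul_eq_mul, h0, sub_zero] at hsl
  rw [← hsl]
  congr 1
  have : cexp (-H z) * cexp (H z) = 1 := by rw [← Complex.exp_add]; simp
  calc dslope s 0 z = dslope s 0 z * (cexp (-H z) * cexp (H z)) := by rw [this, mul_one]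
    _ = (dslope s 0 z * cexp (-H z)) * cexp (H z) := by ring
    _ = cexp (H z) := by rw [hk, one_mul]

/-- Noshiro-Warschawski on the left half plane. -/
private theorem nw {φ φ' : ℂ → ℂ} (hφ : ∀ ζ : ℂ, ζ.re < 0 → HasDerivAt φ (φ' ζ) ζ)
    (hre : ∀ ζ : ℂ, ζ.re < 0 → 0 < (φ' ζ).re) {a b : ℂ} (ha : a.re < 0) (hb : b.re < 0)
    (hab : φ a = φ b) : a = b := by
  by_contra hne
  have hd : b - a ≠ 0 := sub_ne_zero.2 (Ne.symm hne)
  -- real function
  have hseg : ∀ t ∈ Icc (0 : ℝ) 1, (a + t * (b - a)).re < 0 := by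
    intro t ht
    have : (a + t * (b - a)).re = (1 - t) * a.re + t * b.re := by
      simp; ring
    rw [this]
    rcases eq_or_lt_of_le ht.1 with h0 | h0
    · rw [← h0]; simpa using ha
    · nlinarith [ht.2, mul_pos h0 (neg_pos.2 hb), mul_nonneg (sub_nonneg.2 ht.2) (neg_pos.2 ha).le]
  have hder : ∀ t ∈ Icc (0 : ℝ) 1, HasDerivAt (fun t : ℝ => (φ (a + t * (b - a)) / (b - a)).re)
      ((φ' (a + t * (b - a))).re) t := by
    intro t ht
    have h1 : HasDerivAt (fun t : ℂ => a + t * (b - a)) (b - a) (t : ℂ) := by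
      simpa using ((hasDerivAt_id (t : ℂ)).mul_const (b - a)).const_add a
    have h2 : HasDerivAt (fun t : ℂ => φ (a + t * (b - a)) / (b - a))
        (φ' (a + t * (b - a))) (t : ℂ) := by
      have := ((hφ _ (hseg t ht)).comp (t : ℂ) h1).div_const (b - a)
      rw [mul_div_assoc, div_self hd, mul_one] at this
      exact this
    exact h2.real_of_complex
  have hmono : StrictMonoOn (fun t : ℝ => (φ (a + t * (b - a)) / (b - a)).re) (Icc 0 1) := by
    refine strictMonoOn_of_deriv_pos (convex_Icc 0 1) ?_ ?_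
    · intro t ht
      exact (hder t ht).continuousAt.continuousWithinAt
    · intro t ht
      rw [interior_Icc] at ht
      rw [(hder t (Ioo_subset_Icc_self ht)).deriv]
      exact hre _ (hseg t (Ioo_subset_Icc_self ht))
  have h01 := hmono (left_mem_Icc.2 zero_le_one) (right_mem_Icc.2 zero_le_one) zero_lt_one
  simp [hab] at h01

theorem injOn_of_re {s q : ℂ → ℂ} (hs : DifferentiableOn ℂ s (ball 0 1)) (h0 : s 0 = 0)
    (h1 : deriv s 0 = 1) (hq : IsCara q)
    (h : ∀ z ∈ ball (0 : ℂ) 1, z * deriv s z = q z * s z) : InjOn s (ball 0 1) := by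
  obtain ⟨H, hHd, hH0, hHz, hsH⟩ := exists_factor hs h0 h1 hq h
  have hexp : ∀ ζ : ℂ, ζ.re < 0 → cexp ζ ∈ ball (0 : ℂ) 1 := by
    intro ζ hζ
    rw [mem_ball_zero_iff, Complex.norm_exp]
    exact (Real.exp_lt_exp.2 hζ).trans_eq Real.exp_zero
  have hφ : ∀ ζ : ℂ, ζ.re < 0 → HasDerivAt (fun ζ => ζ + H (cexp ζ)) (q (cexp ζ)) ζ := by
    intro ζ hζ
    have hH : HasDerivAt H (deriv H (cexp ζ)) (cexp ζ) :=
      (hHd.differentiableAt (isOpen_ball.mem_nhds (hexp ζ hζ))).hasDerivAt
    have h2 := (hasDerivAt_id ζ).add (hH.comp ζ (Complex.hasDerivAt_exp ζ))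
    have e : 1 + deriv H (cexp ζ) * cexp ζ = q (cexp ζ) := by
      linear_combination hHz _ (hexp ζ hζ)
    rw [e] at h2
    exact h2
  have hre : ∀ ζ : ℂ, ζ.re < 0 → 0 < (q (cexp ζ)).re := fun ζ hζ => hq.2.2 _ (hexp ζ hζ)
  intro z1 hz1 z2 hz2 hz
  have hz1' := hsH z1 hz1
  have hz2' := hsH z2 hz2
  by_cases c1 : z1 = 0
  · rw [c1] at hz ⊢
    rw [h0, hz2'] at hz
    rcases mul_eq_zero.1 hz.symm with h' | h'
    · exact h'.symm
    · exact absurd h' (Complex.exp_ne_zero _)
  by_cases c2 : z2 = 0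
  · rw [c2] at hz ⊢
    rw [h0, hz1'] at hz
    rcases mul_eq_zero.1 hz with h' | h'
    · exact h'
    · exact absurd h' (Complex.exp_ne_zero _)
  have r1 : (Complex.log z1).re < 0 := by
    rw [Complex.log_re]
    exact Real.log_neg (norm_pos_iff.2 c1) (mem_ball_zero_iff.1 hz1)
  have r2 : (Complex.log z2).re < 0 := by
    rw [Complex.log_re]
    exact Real.log_neg (norm_pos_iff.2 c2) (mem_ball_zero_iff.1 hz2)
  have e1 : cexp (Complex.log z1 + H (cexp (Complex.log z1))) = s z1 := by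
    rw [Complex.exp_add, Complex.exp_log c1, hz1']
  have e2 : cexp (Complex.log z2 + H (cexp (Complex.log z2))) = s z2 := by
    rw [Complex.exp_add, Complex.exp_log c2, hz2']
  have e3 : cexp (Complex.log z1 + H (cexp (Complex.log z1))) =
      cexp (Complex.log z2 + H (cexp (Complex.log z2))) := by rw [e1, e2, hz]
  obtain ⟨n, hn⟩ := Complex.exp_eq_exp_iff_exists_int.1 e3
  have e4 : cexp (Complex.log z2 + n * (2 * Real.pi * I)) = cexp (Complex.log z2) := by
    exact Complex.exp_eq_exp_iff_exists_int.2 ⟨n, rfl⟩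
  have r3 : (Complex.log z2 + n * (2 * Real.pi * I)).re < 0 := by
    have : (Complex.log z2 + n * (2 * Real.pi * I)).re = (Complex.log z2).re := by
      simp
    rw [this]; exact r2
  have e5 := nw hφ hre (a := Complex.log z1) (b := Complex.log z2 + n * (2 * Real.pi * I)) r1 r3
    (by rw [e4, hn]; ring)
  rw [← Complex.exp_log c1, ← Complex.exp_log c2, e5, e4]

theorem starConvex_of_re {s q : ℂ → ℂ} (hs : DifferentiableOn ℂ s (ball 0 1)) (h0 : s 0 = 0)
    (h1 : deriv s 0 = 1) (hq : IsCara q)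
    (h : ∀ z ∈ ball (0 : ℂ) 1, z * deriv s z = q z * s z) :
    StarConvex ℝ 0 (s '' ball 0 1) := by
  obtain ⟨H, hHd, hH0, hHz, hsH⟩ := exists_factor hs h0 h1 hq h
  rintro _ ⟨z0, hz0, rfl⟩ a b ha hb hab
  rw [smul_zero, zero_add]
  have h00 : (0 : ℂ) ∈ ball (0 : ℂ) 1 := by simp
  by_cases c0 : z0 = 0
  · rw [c0, h0, smul_zero]
    exact ⟨0, h00, h0⟩
  set ρ : ℝ := ‖z0‖ with hρ
  have hρ1 : ρ < 1 := mem_ball_zero_iff.1 hz0
  have hcb : closedBall (0 : ℂ) ρ ⊆ ball 0 1 := closedBall_subset_ball hρ1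
  have hw : s z0 ≠ 0 := by
    rw [hsH z0 hz0]
    exact mul_ne_zero c0 (Complex.exp_ne_zero _)
  set w : ℂ := s z0 with hwdef
  set T : Set ℝ := {x : ℝ | (((1 - x : ℝ) : ℂ)) * w ∈ s '' closedBall 0 ρ} with hT
  have hcomp : IsClosed (s '' closedBall 0 ρ) :=
    ((isCompact_closedBall (0 : ℂ) ρ).image_of_continuousOn (hs.continuousOn.mono hcb)).isClosed
  have hTc : IsClosed T := by
    refine hcomp.preimage (f := fun x : ℝ => (((1 - x : ℝ) : ℂ)) * w) ?_
    fun_prop
  have hTI : Icc (0 : ℝ) 1 ⊆ T := by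
    refine IsClosed.Icc_subset_of_forall_mem_nhdsWithin (hTc.inter isClosed_Icc) ?_ ?_
    · refine ⟨z0, ?_, ?_⟩
      · simp [hρ]
      · simp [hwdef]
    · rintro x ⟨⟨zb, hzb, hsb⟩, hx0, hx1⟩
      have hzb1 : zb ∈ ball (0 : ℂ) 1 := hcb hzb
      have hb0 : (0 : ℝ) < 1 - x := sub_pos.2 hx1
      have hbC : (((1 - x : ℝ) : ℂ)) ≠ 0 := by
        exact_mod_cast hb0.ne'
      have hszb : s zb ≠ 0 := by
        rw [hsb]; exact mul_ne_zero hbC hw
      have hzbne : zb ≠ 0 := by
        rintro rfl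
        exact hszb h0
      have hqre := hq.2.2 zb hzb1
      have hqne : q zb ≠ 0 := by
        intro hq0
        rw [hq0] at hqre
        simp at hqre
      have hsd : HasStrictDerivAt s (deriv s zb) zb :=
        (hs.analyticAt (isOpen_ball.mem_nhds hzb1)).hasStrictDerivAt
      have hsd0 : deriv s zb ≠ 0 := by
        intro hd
        have := h zb hzb1
        rw [hd, mul_zero] at this
        exact mul_ne_zero hqne hszb this.symm
      -- local inverse
      set g := hsd.localInverse s (deriv s zb) zb hsd0 with hg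
      have hgr : ∀ᶠ y in 𝓝 (s zb), s (g y) = y := hsd.eventually_right_inverse hsd0
      have hgd : HasDerivAt g (deriv s zb)⁻¹ (s zb) := (hsd.to_localInverse hsd0).hasDerivAt
      have hgz : g (s zb) = zb := (hsd.eventually_left_inverse hsd0).self_of_nhds
      -- the curve
      have hcurve : HasDerivAt (fun y : ℝ => (((1 - y : ℝ) : ℂ)) * w) (-w) x := by
        have e : HasDerivAt (fun y : ℝ => ((y : ℝ) : ℂ)) 1 x := Complex.ofRealCLM.hasDerivAt
        have e2 := (e.const_sub (1 : ℂ)).mul_const w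
        have e3 : (fun y : ℝ => (((1 - y : ℝ) : ℂ)) * w) = fun y : ℝ => ((1 : ℂ) - (y : ℂ)) * w := by
          funext y; push_cast; ring
        rw [e3]
        simpa using e2
      have hgd' : HasDerivAt g (deriv s zb)⁻¹ ((fun y : ℝ => (((1 - y : ℝ) : ℂ)) * w) x) := by
        simp only
        rw [← hsb]; exact hgd
      have hγ : HasDerivAt (fun y : ℝ => g ((((1 - y : ℝ) : ℂ)) * w)) ((deriv s zb)⁻¹ * (-w)) x :=
        hgd'.comp_of_eq x hcurve rfl
      have hγx : g ((((1 - x : ℝ) : ℂ)) * w) = zb := by rw [← hsb, hgz]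
      have hN := hγ.norm_sq
      rw [hγx] at hN
      have hval : (deriv s zb)⁻¹ * (-w) = -(zb / q zb) / (((1 - x : ℝ) : ℂ)) := by
        have e1 := h zb hzb1
        have e2 : w = s zb / (((1 - x : ℝ) : ℂ)) := by
          rw [hsb]; field_simp
        rw [e2]
        have e3 : deriv s zb = q zb * s zb / zb := by
          field_simp
          linear_combination e1
        rw [e3]
        field_simp
      have hneg : 2 * inner ℝ zb ((deriv s zb)⁻¹ * (-w)) < 0 := by
        rw [hval, Complex.inner, mul_comm (-(zb / q zb) / (((1 - x : ℝ) : ℂ)))]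
        have e1 : (starRingEnd ℂ) zb * (-(zb / q zb) / (((1 - x : ℝ) : ℂ))) =
            -((Complex.normSq zb / (1 - x) / Complex.normSq (q zb) : ℝ) : ℂ) *
              (starRingEnd ℂ) (q zb) := by
          have e2 : (Complex.normSq zb : ℂ) = (starRingEnd ℂ) zb * zb := by
            rw [mul_comm, Complex.mul_conj]
          have e3 : (Complex.normSq (q zb) : ℂ) = q zb * (starRingEnd ℂ) (q zb) := by
            rw [Complex.mul_conj]
          have hqc : (starRingEnd ℂ) (q zb) ≠ 0 := by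
            rwa [Ne, map_eq_zero]
          rw [Complex.ofReal_div, Complex.ofReal_div, e2, e3]
          field_simp
        rw [e1]
        have e4 : (-((Complex.normSq zb / (1 - x) / Complex.normSq (q zb) : ℝ) : ℂ) *
              (starRingEnd ℂ) (q zb)).re =
            -(Complex.normSq zb / (1 - x) / Complex.normSq (q zb)) * (q zb).re := by
          rw [← Complex.ofReal_neg, Complex.re_ofReal_mul, Complex.conj_re]
        rw [e4]
        have p1 : 0 < Complex.normSq zb := Complex.normSq_pos.2 hzbne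
        have p2 : 0 < Complex.normSq (q zb) := Complex.normSq_pos.2 hqne
        have p3 : 0 < Complex.normSq zb / (1 - x) / Complex.normSq (q zb) := by positivity
        nlinarith [mul_pos p3 hqre]
      have hslope := hasDerivAt_iff_tendsto_slope.1 hN
      have hev : ∀ᶠ y in 𝓝[≠] x,
          slope (fun y : ℝ => ‖g ((((1 - y : ℝ) : ℂ)) * w)‖ ^ 2) x y < 0 :=
        hslope.eventually (gt_mem_nhds hneg)
      have hev' : ∀ᶠ y in 𝓝[>] x,
          slope (fun y : ℝ => ‖g ((((1 - y : ℝ) : ℂ)) * w)‖ ^ 2) x y < 0 :=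
        hev.filter_mono (nhdsWithin_mono x (fun y hy => ne_of_gt hy))
      have hgr' : ∀ᶠ y in 𝓝[>] x, s (g ((((1 - y : ℝ) : ℂ)) * w)) = (((1 - y : ℝ) : ℂ)) * w := by
        have hc : Tendsto (fun y : ℝ => (((1 - y : ℝ) : ℂ)) * w) (𝓝 x) (𝓝 (s zb)) := by
          rw [hsb]; exact hcurve.continuousAt
        exact (hc.eventually hgr).filter_mono nhdsWithin_le_nhds
      filter_upwards [hev', hgr', self_mem_nhdsWithin] with y hy1 hy2 hy3
      refine ⟨g ((((1 - y : ℝ) : ℂ)) * w), ?_, hy2⟩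
      rw [mem_closedBall_zero_iff]
      have hyx : 0 < y - x := sub_pos.2 hy3
      rw [slope_def_field, hγx] at hy1
      have hlt : ‖g ((((1 - y : ℝ) : ℂ)) * w)‖ ^ 2 < ‖zb‖ ^ 2 := by
        have := (div_neg_iff.1 hy1).resolve_left (fun hh => absurd hh.2 (not_lt.2 hyx.le))
        linarith [this.1]
      have hzbρ : ‖zb‖ ≤ ρ := mem_closedBall_zero_iff.1 hzb
      have hlt2 := lt_of_pow_lt_pow_left₀ 2 (norm_nonneg _) hlt
      exact hlt2.le.trans hzbρ
  have hmem : (1 - b) ∈ T := hTI ⟨by linarith, by linarith⟩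
  obtain ⟨z, hz, hsz⟩ := hmem
  refine ⟨z, hcb hz, ?_⟩
  rw [hsz, Complex.real_smul]
  simp

theorem re_star {s q : ℂ → ℂ} (hs : DifferentiableOn ℂ s (ball 0 1)) (h0 : s 0 = 0)
    (h1 : deriv s 0 = 1) (hq : IsCara q)
    (h : ∀ z ∈ ball (0 : ℂ) 1, z * deriv s z = q z * s z) : IsStarlike s :=
  ⟨⟨hs, injOn_of_re hs h0 h1 hq h, h0, h1⟩, starConvex_of_re hs h0 h1 hq h⟩

end Baz16
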