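import Pool.Agent.Baz16.Basic

/-! # Normalisation, rotations, conjugation.

`exists_normal`: push forward under `toIcoMod` (`2 pi`-periodicity of `yy`).
`Sm_rot`: push forward under `t ↦ t + a`: `yy (t + a) z = yy t (yy a z)`.
`Sm_conj`: push forward under `t ↦ -t`: `conj (1 - yy t (conj z)) = 1 - yy (-t) z`. -/

namespace Baz16
open Complex Metric MeasureTheory Set Filter Topology
open scoped ComplexConjugate

theorem yy_eq_iff (s t : ℝ) : yy s = yy t ↔ ∃ n : ℤ, s = t + n * (2 * Real.pi) := by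
  unfold yy
  rw [Complex.exp_eq_exp_iff_exists_int]
  constructor
  · rintro ⟨n, hn⟩
    refine ⟨-n, ?_⟩
    have h := congrArg Complex.im hn
    simp at h
    push_cast
    linarith
  · rintro ⟨n, hn⟩
    refine ⟨-n, ?_⟩
    rw [hn]
    push_cast
    ring

theorem measurable_yy : Measurable yy := continuous_yy.measurable

theorem yy_neg (t : ℝ) : yy (-t) = conj (yy t) := by
  unfold yy
  rw [← Complex.exp_conj]
  simp

/-- reduction modulo `2 pi` -/
noncomputable def red (t : ℝ) : ℝ := Int.fract (t / (2 * Real.pi)) * (2 * Real.pi)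

theorem red_mem (t : ℝ) : red t ∈ Ico 0 (2 * Real.pi) := by
  unfold red
  have h1 := Int.fract_nonneg (t / (2 * Real.pi))
  have h2 := Int.fract_lt_one (t / (2 * Real.pi))
  have hpi := Real.pi_pos
  constructor
  · positivity
  · nlinarith

theorem yy_red (t : ℝ) : yy (red t) = yy t := by
  rw [yy_eq_iff]
  refine ⟨-⌊t / (2 * Real.pi)⌋, ?_⟩
  unfold red
  rw [Int.fract]
  push_cast
  have hpi := Real.pi_pos
  field_simp
  ring

theorem measurable_red : Measurable red := by
  unfold red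
  exact (measurable_fract.comp (measurable_id.div_const _)).mul_const _

theorem exists_yy {c : ℂ} (hc : ‖c‖ = 1) : ∃ a ∈ Ico 0 (2 * Real.pi), yy a = c := by
  refine ⟨red (-c.arg), red_mem _, ?_⟩
  rw [yy_red]
  have h := Complex.norm_mul_exp_arg_mul_I c
  rw [hc] at h
  unfold yy
  push_cast
  simpa using h

theorem measurable_logker (z : ℂ) : Measurable fun t : ℝ => Complex.log (1 - yy t * z) :=
  Complex.measurable_log.comp (measurable_const.sub (measurable_yy.mul_const z))

theorem Lm_map (ν : Measure ℝ) {f : ℝ → ℝ} (hf : Measurable f) (z : ℂ) :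
    Lm (ν.map f) z = ∫ t, Complex.log (1 - yy (f t) * z) ∂ν := by
  unfold Lm
  rw [integral_map hf.aemeasurable (measurable_logker z).aestronglyMeasurable]

theorem exists_normal (ν : Measure ℝ) [IsProbabilityMeasure ν] :
    ∃ ν' : Measure ℝ, IsProbabilityMeasure ν' ∧ Supp ν' ∧ ∀ z, Sm ν' z = Sm ν z := by
  refine ⟨ν.map red, Measure.isProbabilityMeasure_map measurable_red.aemeasurable, ?_, ?_⟩
  · unfold Supp
    rw [Measure.map_apply measurable_red measurableSet_Ico.compl]
    have : red ⁻¹' (Ico 0 (2 * Real.pi))ᶜ = ∅ := by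
      ext t
      simpa using red_mem t
    rw [this, measure_empty]
  · intro z
    unfold Sm
    rw [Lm_map ν measurable_red z]
    simp only [yy_red]
    rfl

theorem Sm_rot (ν : Measure ℝ) (a : ℝ) (z : ℂ) :
    Sm (ν.map (fun t => t + a)) z = Sm ν (yy a * z) := by
  unfold Sm
  rw [Lm_map ν (measurable_add_const a) z]
  simp only [yy_add, mul_assoc]
  rfl

theorem conj_mem {z : ℂ} (hz : z ∈ ball (0 : ℂ) 1) : conj z ∈ ball (0 : ℂ) 1 := by
  simpa using hz

theorem Sm_conj (ν : Measure ℝ) [IsFiniteMeasure ν] {z : ℂ} (hz : z ∈ ball (0 : ℂ) 1) :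
    Sm (ν.map (fun t => -t)) z = conj (Sm ν (conj z)) := by
  unfold Sm
  rw [Lm_map ν measurable_neg z, ← Complex.exp_conj]
  congr 1
  rw [map_mul]
  have h2 : conj (-2 : ℂ) = -2 := by
    rw [map_neg, Complex.conj_ofNat]
  rw [h2]
  congr 1
  unfold Lm
  rw [← integral_conj]
  refine integral_congr_ae (Eventually.of_forall fun t => ?_)
  simp only
  rw [← Complex.log_conj _ (Complex.slitPlane_arg_ne_pi (ker_slit (conj_mem hz) t))]
  congr 1
  rw [yy_neg]
  simp

theorem InD_congr {F F' : ℂ → ℂ} (h : ∀ z ∈ ball (0 : ℂ) 1, F z = F' z) (hF : InD F) :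
    InD F' := by
  obtain ⟨p, ν, hp, hν, hpn⟩ := hF
  exact ⟨p, ν, hp, hν, fun z hz => by rw [← h z hz, hpn z hz]⟩

theorem ExtD_congr {F F' : ℂ → ℂ} (h : ∀ z ∈ ball (0 : ℂ) 1, F z = F' z) (hF : ExtD F) :
    ExtD F' :=
  ⟨InD_congr h hF.1, fun G H hG hH l h0 h1 hl =>
    hF.2 G H hG hH l h0 h1 fun z hz => by rw [h z hz, hl z hz]⟩

theorem rot_mem {c z : ℂ} (hc : ‖c‖ = 1) (hz : z ∈ ball (0 : ℂ) 1) : c * z ∈ ball (0 : ℂ) 1 := by
  rw [mem_ball_zero_iff] at hz ⊢
  rw [norm_mul, hc, one_mul]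
  exact hz

theorem InD_rot {F : ℂ → ℂ} (hF : InD F) {c : ℂ} (hc : ‖c‖ = 1) : InD (fun z => F (c * z)) := by
  obtain ⟨p, ν, ⟨hpd, hp0, hpr⟩, hν, hpn⟩ := hF
  obtain ⟨a, -, ha⟩ := exists_yy hc
  refine ⟨fun z => p (c * z), ν.map (fun t => t + a), ⟨?_, ?_, ?_⟩,
    Measure.isProbabilityMeasure_map (measurable_add_const a).aemeasurable, ?_⟩
  · exact hpd.comp (differentiableOn_id.const_mul c) fun z hz => rot_mem hc hz
  · simp only [mul_zero]
    exact hp0
  · intro z hz
    exact hpr _ (rot_mem hc hz)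
  · intro z hz
    simp only
    rw [hpn _ (rot_mem hc hz), Sm_rot, ha]

theorem InD_conj {F : ℂ → ℂ} (hF : InD F) : InD (fun z => conj (F (conj z))) := by
  obtain ⟨p, ν, ⟨hpd, hp0, hpr⟩, hν, hpn⟩ := hF
  refine ⟨fun z => conj (p (conj z)), ν.map (fun t => -t), ⟨?_, ?_, ?_⟩,
    Measure.isProbabilityMeasure_map measurable_neg.aemeasurable, ?_⟩
  · intro z hz
    have hd : DifferentiableAt ℂ p (conj z) :=
      (hpd _ (conj_mem hz)).differentiableAt (isOpen_ball.mem_nhds (conj_mem hz))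
    have h2 : DifferentiableAt ℂ (conj ∘ p ∘ conj) z := by
      have := hd.hasDerivAt.conj_conj
      simpa using this.differentiableAt
    exact h2.differentiableWithinAt
  · simp [hp0]
  · intro z hz
    rw [Complex.conj_re]
    exact hpr _ (conj_mem hz)
  · intro z hz
    simp only
    rw [hpn _ (conj_mem hz), map_mul, Sm_conj ν hz]

theorem ExtD_rot {F : ℂ → ℂ} (hF : ExtD F) {c : ℂ} (hc : ‖c‖ = 1) :
    ExtD (fun z => F (c * z)) := by
  have hc0 : c ≠ 0 := by
    intro h
    rw [h, norm_zero] at hc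
    exact zero_ne_one hc
  have hci : ‖c⁻¹‖ = 1 := by rw [norm_inv, hc, inv_one]
  refine ⟨InD_rot hF.1 hc, fun G H hG hH l h0 h1 hl z hz => ?_⟩
  have key := hF.2 _ _ (InD_rot hG hci) (InD_rot hH hci) l h0 h1 (by
    intro w hw
    have := hl _ (rot_mem hci hw)
    simp only at this ⊢
    rw [← this, ← mul_assoc, mul_inv_cancel₀ hc0, one_mul]) (c * z) (rot_mem hc hz)
  rwa [← mul_assoc, inv_mul_cancel₀ hc0, one_mul] at key

theorem ExtD_conj {F : ℂ → ℂ} (hF : ExtD F) : ExtD (fun z => conj (F (conj z))) := by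
  refine ⟨InD_conj hF.1, fun G H hG hH l h0 h1 hl z hz => ?_⟩
  have key := hF.2 _ _ (InD_conj hG) (InD_conj hH) l h0 h1 (by
    intro w hw
    have := hl _ (conj_mem hw)
    simp only [Complex.conj_conj] at this ⊢
    have h2 := congrArg conj this
    rw [Complex.conj_conj] at h2
    rw [h2]
    simp) (conj z) (conj_mem hz)
  simp only [Complex.conj_conj] at key
  have h2 := congrArg conj key
  simpa using h2

end Baz16
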