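import Pool.Agent.Baz16.StarRe
import Pool.Agent.Baz16.ReStar
import Pool.Agent.Baz16.Herglotz
import Pool.Agent.Baz16.Sym

/-! # From the class `B(1)` to the model.

`star_rep`: `star_q`, `herglotz`; `(log (s/z))' = (q-1)/z = ∫ 2 yy t/(1 - yy t z) dν = (-2 Lm ν)'`
(`exists_factor`, `deriv_Lm`).  `star_Sm`: `z (z Sm ν)' = q (z Sm ν)` with
`q = ∫ (1 + yy t z)/(1 - yy t z) dν` Caratheodory, `re_star`.
`inB1_iff`: at `z = 0` use continuity of `deriv f`.  `ext_iff`: primitives exist on the disc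
(`Complex.IsExactOn`/`HasPrimitives` on balls), and two functions with the same derivative and the
same value at `0` agree. -/

namespace Baz16
open Complex Metric MeasureTheory Set Filter Topology

private theorem bridge_zero_mem : (0 : ℂ) ∈ ball (0 : ℂ) 1 := mem_ball_self one_pos

/-- Division by `z`. -/
private theorem bridge_div {K : ℂ → ℂ} (hK : DifferentiableOn ℂ K (ball 0 1))
    (h : ∀ z ∈ ball (0 : ℂ) 1, z * K z = 0) : ∀ z ∈ ball (0 : ℂ) 1, K z = 0 := by
  intro z hz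
  by_cases h0 : z = 0
  · subst h0
    have h1 : HasDerivAt K (deriv K 0) 0 :=
      (hK.differentiableAt (isOpen_ball.mem_nhds hz)).hasDerivAt
    have h2 : HasDerivAt (fun w : ℂ => w * K w) (1 * K 0 + 0 * deriv K 0) 0 :=
      (hasDerivAt_id (0 : ℂ)).mul h1
    have h3 : (fun w : ℂ => w * K w) =ᶠ[𝓝 0] fun _ => (0 : ℂ) :=
      Filter.eventuallyEq_of_mem (isOpen_ball.mem_nhds hz) h
    have h4 : HasDerivAt (fun w : ℂ => w * K w) 0 0 := (hasDerivAt_const 0 (0 : ℂ)).congr_of_eventuallyEq h3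
    have h5 := h2.unique h4
    simpa using h5
  · exact (mul_eq_zero.1 (h z hz)).resolve_left h0

private theorem bridge_eqOn {f g : ℂ → ℂ} (hf : DifferentiableOn ℂ f (ball 0 1))
    (hg : DifferentiableOn ℂ g (ball 0 1)) (h0 : f 0 = g 0)
    (h : ∀ z ∈ ball (0 : ℂ) 1, deriv f z = deriv g z) : ∀ z ∈ ball (0 : ℂ) 1, f z = g z :=
  IsOpen.eqOn_of_deriv_eq isOpen_ball (convex_ball (0 : ℂ) 1).isPreconnected hf hg h
    bridge_zero_mem h0

private theorem bridge_deriv_eq {f g : ℂ → ℂ} (h : ∀ z ∈ ball (0 : ℂ) 1, f z = g z) :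
    ∀ z ∈ ball (0 : ℂ) 1, deriv f z = deriv g z := by
  intro z hz
  exact (Filter.eventuallyEq_of_mem (isOpen_ball.mem_nhds hz) h).deriv_eq

private theorem bridge_ker_norm (z : ℂ) (t : ℝ) :
    1 - ‖z‖ ≤ ‖1 - yy t * z‖ := by
  have h1 := norm_sub_norm_le (1 : ℂ) (yy t * z)
  rw [norm_one, norm_mul, norm_yy, one_mul] at h1
  exact h1

private theorem bridge_norm_lt {z : ℂ} (hz : z ∈ ball (0 : ℂ) 1) : 0 < 1 - ‖z‖ := by
  have : ‖z‖ < 1 := by simpa using hz
  linarith

private theorem bridge_int (ν : Measure ℝ) [IsFiniteMeasure ν] {z : ℂ}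
    (hz : z ∈ ball (0 : ℂ) 1) : Integrable (fun t => -(yy t) / (1 - yy t * z)) ν := by
  have hc : Continuous (fun t => -(yy t) / (1 - yy t * z)) :=
    continuous_yy.neg.div (continuous_const.sub (continuous_yy.mul continuous_const))
      fun t => ker_ne_zero hz t
  refine (integrable_const ((1 - ‖z‖)⁻¹ : ℝ)).mono' hc.aestronglyMeasurable ?_
  refine Filter.Eventually.of_forall fun t => ?_
  rw [norm_div, norm_neg, norm_yy, one_div]
  exact inv_anti₀ (bridge_norm_lt hz) (bridge_ker_norm z t)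

private theorem bridge_q (ν : Measure ℝ) [IsProbabilityMeasure ν] {z : ℂ}
    (hz : z ∈ ball (0 : ℂ) 1) :
    1 - 2 * z * deriv (Lm ν) z = ∫ t, (1 + yy t * z) / (1 - yy t * z) ∂ν := by
  have h1 : ∀ t, (1 + yy t * z) / (1 - yy t * z) =
      1 - 2 * z * (-(yy t) / (1 - yy t * z)) := by
    intro t
    have h2 := ker_ne_zero hz t
    field_simp
    ring
  simp_rw [h1]
  rw [integral_sub (integrable_const _) ((bridge_int ν hz).const_mul _), integral_const_mul,
    deriv_Lm ν hz]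
  simp

private theorem bridge_ker_re {w : ℂ} (hw : ‖w‖ < 1) : 0 ≤ ((1 + w) / (1 - w)).re := by
  have h1 : ((1 + w) / (1 - w)).re = (1 - ‖w‖ ^ 2) / normSq (1 - w) := by
    rw [Complex.div_re, ← Complex.normSq_eq_norm_sq, ← add_div]
    congr 1
    simp only [Complex.add_re, Complex.sub_re, Complex.add_im, Complex.sub_im, Complex.one_re,
      Complex.one_im, Complex.normSq_apply]
    ring
  rw [h1]
  apply div_nonneg _ (normSq_nonneg _)
  have := norm_nonneg w
  nlinarith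

private theorem bridge_cara (ν : Measure ℝ) [IsProbabilityMeasure ν] :
    IsCara (fun z => 1 - 2 * z * deriv (Lm ν) z) := by
  have hL := Lm_differentiableOn ν
  refine isCara_of_nonneg ?_ (by simp) ?_
  · exact (differentiableOn_const _).sub
      (((differentiableOn_const (2 : ℂ)).mul differentiableOn_id).mul (hL.deriv isOpen_ball))
  · intro z hz
    show 0 ≤ (1 - 2 * z * deriv (Lm ν) z).re
    rw [bridge_q ν hz]
    have hint : Integrable (fun t => (1 + yy t * z) / (1 - yy t * z)) ν := by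
      have h1 : ∀ t, (1 + yy t * z) / (1 - yy t * z) =
          1 - 2 * z * (-(yy t) / (1 - yy t * z)) := by
        intro t
        have h2 := ker_ne_zero hz t
        field_simp
        ring
      simp_rw [h1]
      exact (integrable_const _).sub ((bridge_int ν hz).const_mul _)
    have h3 := reCLM.integral_comp_comm hint
    simp only [reCLM_apply] at h3
    rw [← h3]
    exact integral_nonneg fun t => bridge_ker_re (norm_yy_mul_lt hz t)

theorem star_rep {s : ℂ → ℂ} (hs : IsStarlike s) :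
    ∃ ν : Measure ℝ, IsProbabilityMeasure ν ∧ Supp ν ∧ ∀ z ∈ ball (0 : ℂ) 1, s z = z * Sm ν z := by
  obtain ⟨q, hq, h⟩ := star_q hs
  obtain ⟨H, hH, hH0, hHd, hHs⟩ := exists_factor hs.1.1 hs.1.2.2.1 hs.1.2.2.2 hq h
  obtain ⟨ν, hν, hsupp, hνq⟩ := herglotz hq
  refine ⟨ν, hν, hsupp, ?_⟩
  have hL := Lm_differentiableOn ν
  have hd : ∀ z ∈ ball (0 : ℂ) 1, deriv H z - -2 * deriv (Lm ν) z = 0 := by
    apply bridge_div ((hH.deriv isOpen_ball).sub
      ((differentiableOn_const (-2 : ℂ)).mul (hL.deriv isOpen_ball)))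
    intro z hz
    have h1 := hHd z hz
    have h2 := bridge_q ν hz
    have h3 := hνq z hz
    show z * (deriv H z - -2 * deriv (Lm ν) z) = 0
    rw [mul_sub, h1, h3, ← h2]
    ring
  have hEq : ∀ z ∈ ball (0 : ℂ) 1, H z = (fun w => -2 * Lm ν w) z := by
    apply bridge_eqOn hH ((differentiableOn_const (-2 : ℂ)).mul hL)
    · show H 0 = -2 * Lm ν 0
      rw [hH0, Lm_apply_zero, mul_zero]
    · intro z hz
      have h1 := hd z hz
      have h2 : deriv (fun w => -2 * Lm ν w) z = -2 * deriv (Lm ν) z :=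
        deriv_const_mul _ (hL.differentiableAt (isOpen_ball.mem_nhds hz))
      show deriv H z = deriv (fun w => -2 * Lm ν w) z
      rw [h2]
      exact sub_eq_zero.1 h1
  intro z hz
  rw [hHs z hz, hEq z hz]
  rfl

theorem star_Sm (ν : Measure ℝ) [IsProbabilityMeasure ν] : IsStarlike (fun z => z * Sm ν z) := by
  have hL := Lm_differentiableOn ν
  have hS := Sm_differentiableOn ν
  have hd : ∀ z ∈ ball (0 : ℂ) 1, HasDerivAt (fun w => w * Sm ν w)
      (Sm ν z + z * (Sm ν z * (-2 * deriv (Lm ν) z))) z := by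
    intro z hz
    have h1 : HasDerivAt (Lm ν) (deriv (Lm ν) z) z :=
      (hL.differentiableAt (isOpen_ball.mem_nhds hz)).hasDerivAt
    have h2 : HasDerivAt (Sm ν) (Sm ν z * (-2 * deriv (Lm ν) z)) z := by
      have := (h1.const_mul (-2 : ℂ)).cexp
      exact this
    have h3 := (hasDerivAt_id z).mul h2
    have h4 : Sm ν z + z * (Sm ν z * (-2 * deriv (Lm ν) z)) =
        1 * Sm ν z + id z * (Sm ν z * (-2 * deriv (Lm ν) z)) := by
      rw [one_mul]
      rfl
    rw [h4]
    exact h3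
  apply re_star (q := fun z => 1 - 2 * z * deriv (Lm ν) z)
  · exact differentiableOn_id.mul hS
  · simp
  · rw [(hd 0 bridge_zero_mem).deriv, Sm_apply_zero]
    simp
  · exact bridge_cara ν
  · intro z hz
    rw [(hd z hz).deriv]
    ring

theorem inB1_iff (f : ℂ → ℂ) :
    InB1 f ↔ DifferentiableOn ℂ f (ball 0 1) ∧ f 0 = 0 ∧ InD (deriv f) := by
  constructor
  · rintro ⟨hf, h0, p, s, hp, hs, h⟩
    obtain ⟨ν, hν, -, hsν⟩ := star_rep hs
    refine ⟨hf, h0, p, ν, hp, hν, ?_⟩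
    have h1 : ∀ z ∈ ball (0 : ℂ) 1, deriv f z - p z * Sm ν z = 0 := by
      apply bridge_div ((hf.deriv isOpen_ball).sub (hp.1.mul (Sm_differentiableOn ν)))
      intro z hz
      have h2 := h z hz
      rw [hsν z hz] at h2
      show z * (deriv f z - p z * Sm ν z) = 0
      rw [mul_sub, h2]
      ring
    intro z hz
    exact sub_eq_zero.1 (h1 z hz)
  · rintro ⟨hf, h0, p, ν, hp, hν, h⟩
    refine ⟨hf, h0, p, fun z => z * Sm ν z, hp, star_Sm ν, ?_⟩
    intro z hz
    rw [h z hz]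
    ring

private theorem bridge_inD_diff {G : ℂ → ℂ} (hG : InD G) : DifferentiableOn ℂ G (ball 0 1) := by
  obtain ⟨p, ν, hp, hν, h⟩ := hG
  exact (hp.1.mul (Sm_differentiableOn ν)).congr h

theorem exists_primitive {G : ℂ → ℂ} (hG : InD G) :
    ∃ g : ℂ → ℂ, InB1 g ∧ ∀ z ∈ ball (0 : ℂ) 1, deriv g z = G z := by
  obtain ⟨g, hg0, hg⟩ := (bridge_inD_diff hG).isExactOn_ball.with_val_at 0 0
  have hd : ∀ z ∈ ball (0 : ℂ) 1, deriv g z = G z := fun z hz => (hg z hz).deriv
  refine ⟨g, (inB1_iff g).2 ⟨fun z hz => (hg z hz).differentiableAt.differentiableWithinAt, hg0,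
    InD_congr (fun z hz => (hd z hz).symm) hG⟩, hd⟩

private theorem bridge_comb {g h : ℂ → ℂ} (hg : DifferentiableOn ℂ g (ball 0 1))
    (hh : DifferentiableOn ℂ h (ball 0 1)) (l : ℝ) :
    DifferentiableOn ℂ (fun z => l * g z + (1 - l) * h z) (ball 0 1) ∧
    ∀ z ∈ ball (0 : ℂ) 1, deriv (fun z => l * g z + (1 - l) * h z) z =
      l * deriv g z + (1 - l) * deriv h z := by
  refine ⟨((differentiableOn_const _).mul hg).add ((differentiableOn_const _).mul hh), ?_⟩
  intro z hz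
  have h1 := (hg.differentiableAt (isOpen_ball.mem_nhds hz)).hasDerivAt
  have h2 := (hh.differentiableAt (isOpen_ball.mem_nhds hz)).hasDerivAt
  exact ((h1.const_mul (l : ℂ)).add (h2.const_mul (1 - (l : ℂ)))).deriv

theorem extB1_iff (f : ℂ → ℂ) :
    IsExtremeB1 f ↔ DifferentiableOn ℂ f (ball 0 1) ∧ f 0 = 0 ∧ ExtD (deriv f) := by
  constructor
  · rintro ⟨hf, hext⟩
    obtain ⟨hd, h0, hD⟩ := (inB1_iff f).1 hf
    refine ⟨hd, h0, hD, ?_⟩
    intro G H hG hH l hl0 hl1 hl
    obtain ⟨g, hg, hgd⟩ := exists_primitive hG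
    obtain ⟨h, hh, hhd⟩ := exists_primitive hH
    obtain ⟨hc1, hc2⟩ := bridge_comb hg.1 hh.1 l
    have h1 : ∀ z ∈ ball (0 : ℂ) 1, f z = (fun z => l * g z + (1 - l) * h z) z := by
      apply bridge_eqOn hd hc1
      · show f 0 = l * g 0 + (1 - l) * h 0
        rw [h0, hg.2.1, hh.2.1]
        ring
      · intro z hz
        rw [hc2 z hz, hl z hz, hgd z hz, hhd z hz]
    have h2 := hext g h hg hh l hl0 hl1 h1
    intro z hz
    rw [← hgd z hz, ← hhd z hz]
    exact bridge_deriv_eq h2 z hz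
  · rintro ⟨hd, h0, hD, hext⟩
    refine ⟨(inB1_iff f).2 ⟨hd, h0, hD⟩, ?_⟩
    intro g h hg hh l hl0 hl1 hl
    obtain ⟨hgd, hg0, hgD⟩ := (inB1_iff g).1 hg
    obtain ⟨hhd, hh0, hhD⟩ := (inB1_iff h).1 hh
    obtain ⟨-, hc2⟩ := bridge_comb hgd hhd l
    apply bridge_eqOn hgd hhd (by rw [hg0, hh0])
    apply hext _ _ hgD hhD l hl0 hl1
    intro z hz
    rw [← hc2 z hz]
    exact bridge_deriv_eq hl z hz

end Baz16
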