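import Pool.Agent.Baz16.Crit

/-! # The remaining cases of extremality.

`mob_ext`: on the radius ending at the pole `conj x`, `|p_i (r conj x)| ≤ (1+r)/(1-r) =
mob x (r conj x)`, so `Re p_i = mob x` there, and `|p_i| ≤ Re p_i` forces `p_i = mob x` on the
radius, hence everywhere (identity theorem).
`koebe_case`: same on `(0,1)` with `|p_i Sm ν_i (r)| ≤ (1+r)/(1-r) * (1-r)^{-2}`,
`|Sm ν (r)| = exp (-2 ∫ log |1 - e^{-it} r|) ≤ (1-r)^{-2}`. -/

namespace Baz16
open Complex Metric MeasureTheory Set Filter Topology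

/-- growth of Caratheodory functions -/
theorem cara_norm_le {p : ℂ → ℂ} (hp : IsCara p) {z : ℂ} (hz : z ∈ ball (0 : ℂ) 1) :
    ‖p z‖ ≤ (1 + ‖z‖) / (1 - ‖z‖) := by
  obtain ⟨hd, h0, hre⟩ := hp
  have hz1 : ‖z‖ < 1 := by simpa using hz
  have hne : ∀ w ∈ ball (0 : ℂ) 1, p w + 1 ≠ 0 := by
    intro w hw h
    have h1 := hre w hw
    have h2 : (p w + 1).re = 0 := by rw [h]; simp
    simp only [Complex.add_re, Complex.one_re] at h2
    linarith
  have hwd : DifferentiableOn ℂ (fun w => (p w - 1) / (p w + 1)) (ball 0 1) :=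
    (hd.sub_const 1).div (hd.add_const 1) hne
  have hmaps : MapsTo (fun w => (p w - 1) / (p w + 1)) (ball 0 1) (closedBall 0 1) := by
    intro w hw
    rw [mem_closedBall_zero_iff, norm_div, div_le_one (norm_pos_iff.mpr (hne w hw))]
    have h1 := hre w hw
    rw [← abs_of_nonneg (norm_nonneg (p w - 1)), ← abs_of_nonneg (norm_nonneg (p w + 1)),
      ← sq_le_sq, ← Complex.normSq_eq_norm_sq, ← Complex.normSq_eq_norm_sq,
      Complex.normSq_apply, Complex.normSq_apply]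
    simp only [Complex.add_re, Complex.one_re, Complex.add_im, Complex.one_im, Complex.sub_re,
      Complex.sub_im]
    nlinarith
  have hs := Complex.norm_le_norm_of_mapsTo_ball hwd hmaps (by simp [h0]) hz1
  set w : ℂ := (p z - 1) / (p z + 1) with hw
  have hs' : ‖w‖ ≤ ‖z‖ := hs
  have hw1 : ‖w‖ < 1 := lt_of_le_of_lt hs' hz1
  have hw1' : 1 - w ≠ 0 := by
    intro h
    have h1 : w = 1 := by linear_combination -h
    rw [h1, norm_one] at hw1
    exact lt_irrefl _ hw1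
  have hpz : p z = (1 + w) / (1 - w) := by
    rw [eq_div_iff hw1', hw]
    have := hne z hz
    field_simp
    ring
  rw [hpz, norm_div]
  have ha : ‖1 + w‖ ≤ 1 + ‖z‖ := by
    have h1 := norm_add_le (1 : ℂ) w
    rw [norm_one] at h1
    linarith
  have hb : 1 - ‖z‖ ≤ ‖1 - w‖ := by
    have h1 := norm_sub_norm_le (1 : ℂ) w
    rw [norm_one] at h1
    linarith
  exact div_le_div₀ (by positivity) ha (by linarith) hb

theorem Sm_norm_le (ν : Measure ℝ) [IsProbabilityMeasure ν] {z : ℂ}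
    (hz : z ∈ ball (0 : ℂ) 1) : ‖Sm ν z‖ ≤ 1 / (1 - ‖z‖) ^ 2 := by
  have hz1 : ‖z‖ < 1 := by simpa using hz
  have hpos : 0 < 1 - ‖z‖ := by linarith
  unfold Sm
  rw [Complex.norm_exp]
  have hre : (-2 * Lm ν z).re = -2 * (Lm ν z).re := by
    simp [Complex.mul_re]
  rw [hre]
  have hlog : Real.log (1 - ‖z‖) ≤ (Lm ν z).re := by
    rw [Lm_re ν hz]
    have hi : Integrable (fun t => Real.log ‖1 - yy t * z‖) ν := by
      have h1 := (integrable_log_ker ν hz).re
      refine h1.congr (Eventually.of_forall fun t => ?_)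
      exact Complex.log_re _
    have h2 : ∫ _t : ℝ, Real.log (1 - ‖z‖) ∂ν ≤ ∫ t, Real.log ‖1 - yy t * z‖ ∂ν := by
      refine integral_mono (integrable_const _) hi (fun t => ?_)
      refine Real.log_le_log hpos ?_
      have h3 := norm_sub_norm_le (1 : ℂ) (yy t * z)
      rw [norm_one, norm_mul, norm_yy, one_mul] at h3
      exact h3
    simpa using h2
  have h4 : 1 / (1 - ‖z‖) ^ 2 = Real.exp (-2 * Real.log (1 - ‖z‖)) := by
    rw [show -2 * Real.log (1 - ‖z‖) = -(((2 : ℕ) : ℝ) * Real.log (1 - ‖z‖)) by push_cast; ring,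
      Real.exp_neg, Real.exp_nat_mul, Real.exp_log hpos, one_div]
  rw [h4]
  exact Real.exp_le_exp.mpr (by linarith)

private theorem case0_convex {A B : ℂ} {R l : ℝ} (hl0 : 0 < l) (hl1 : l < 1)
    (hA : ‖A‖ ≤ R) (hB : ‖B‖ ≤ R) (h : (R : ℂ) = l * A + (1 - l) * B) :
    A = R ∧ B = R := by
  have h1 := congrArg Complex.re h
  simp only [Complex.ofReal_re, Complex.add_re, Complex.mul_re, Complex.ofReal_im, zero_mul,
    sub_zero, Complex.sub_re, Complex.one_re, Complex.sub_im, Complex.one_im] at h1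
  have hAr : A.re ≤ R := le_trans (Complex.re_le_norm A) hA
  have hBr : B.re ≤ R := le_trans (Complex.re_le_norm B) hB
  have hA0 : A.re = R := by nlinarith
  have hB0 : B.re = R := by nlinarith
  have him : ∀ C : ℂ, ‖C‖ ≤ R → C.re = R → C = R := by
    intro C hC hr
    have hR : 0 ≤ R := le_trans (norm_nonneg _) hC
    have h2 : Complex.normSq C ≤ R ^ 2 := by
      rw [Complex.normSq_eq_norm_sq]
      exact pow_le_pow_left₀ (norm_nonneg _) hC 2
    rw [Complex.normSq_apply, hr] at h2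
    have h3 : C.im = 0 := by nlinarith
    apply Complex.ext
    · simpa using hr
    · simpa using h3
  exact ⟨him A hA hA0, him B hB hB0⟩

private theorem case0_identity {f g : ℂ → ℂ} (hf : DifferentiableOn ℂ f (ball 0 1))
    (hg : DifferentiableOn ℂ g (ball 0 1)) {c : ℂ} (hc : ‖c‖ = 1)
    (h : ∀ r : ℝ, 0 < r → r < 1 → f (r * c) = g (r * c)) :
    ∀ z ∈ ball (0 : ℂ) 1, f z = g z := by
  have hfa : AnalyticOnNhd ℂ f (ball 0 1) := hf.analyticOnNhd isOpen_ball
  have hga : AnalyticOnNhd ℂ g (ball 0 1) := hg.analyticOnNhd isOpen_ball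
  have hpre : IsPreconnected (ball (0 : ℂ) 1) := (convex_ball 0 1).isPreconnected
  have h0 : (0 : ℂ) ∈ ball (0 : ℂ) 1 := by simp
  have hc0 : c ≠ 0 := by
    intro h
    rw [h, norm_zero] at hc
    exact zero_ne_one hc
  have ht : Tendsto (fun r : ℝ => (r : ℂ) * c) (𝓝[>] 0) (𝓝[≠] 0) := by
    rw [tendsto_nhdsWithin_iff]
    constructor
    · have hcont : Continuous (fun r : ℝ => (r : ℂ) * c) := by fun_prop
      have h1 := hcont.tendsto 0
      simp only [Complex.ofReal_zero, zero_mul] at h1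
      exact h1.mono_left nhdsWithin_le_nhds
    · filter_upwards [self_mem_nhdsWithin] with r hr
      have hr0 : (0 : ℝ) < r := hr
      simp only [mem_compl_iff, mem_singleton_iff, mul_eq_zero, not_or]
      exact ⟨by exact_mod_cast hr0.ne', hc0⟩
  have hfreq : ∃ᶠ r : ℝ in 𝓝[>] (0 : ℝ), f ((r : ℂ) * c) = g ((r : ℂ) * c) := by
    apply Eventually.frequently
    filter_upwards [Ioo_mem_nhdsGT (zero_lt_one : (0 : ℝ) < 1)] with r hr
    exact h r hr.1 hr.2
  have hfr : ∃ᶠ z : ℂ in 𝓝[≠] (0 : ℂ), f z = g z := ht.frequently (p := fun z => f z = g z) hfreq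
  intro z hz
  exact hfa.eqOn_of_preconnected_of_frequently_eq hga hpre h0 hfr hz

theorem mob_ext {x : ℂ} (hx : ‖x‖ = 1) {p1 p2 : ℂ → ℂ} (hp1 : IsCara p1) (hp2 : IsCara p2)
    {l : ℝ} (hl0 : 0 < l) (hl1 : l < 1)
    (h : ∀ z ∈ ball (0 : ℂ) 1, mob x z = l * p1 z + (1 - l) * p2 z) :
    ∀ z ∈ ball (0 : ℂ) 1, p1 z = mob x z ∧ p2 z = mob x z := by
  have hc : ‖(starRingEnd ℂ) x‖ = 1 := by rw [Complex.norm_conj, hx]
  have hxc : x * (starRingEnd ℂ) x = 1 := by
    rw [Complex.mul_conj, Complex.normSq_eq_norm_sq, hx]; norm_num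
  have hmd : DifferentiableOn ℂ (mob x) (ball 0 1) := (isCara_mob hx).1
  have key : ∀ r : ℝ, 0 < r → r < 1 →
      p1 (r * (starRingEnd ℂ) x) = mob x (r * (starRingEnd ℂ) x) ∧
      p2 (r * (starRingEnd ℂ) x) = mob x (r * (starRingEnd ℂ) x) := by
    intro r hr0 hr1
    have hn : ‖(r : ℂ) * (starRingEnd ℂ) x‖ = r := by
      rw [norm_mul, hc, mul_one, Complex.norm_real, Real.norm_eq_abs, abs_of_pos hr0]
    have hz : (r : ℂ) * (starRingEnd ℂ) x ∈ ball (0 : ℂ) 1 := by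
      rw [mem_ball_zero_iff, hn]; exact hr1
    have hm : mob x (r * (starRingEnd ℂ) x) = (((1 + r) / (1 - r) : ℝ) : ℂ) := by
      unfold mob
      rw [show x * ((r : ℂ) * (starRingEnd ℂ) x) = r * (x * (starRingEnd ℂ) x) by ring, hxc,
        mul_one]
      push_cast
      rfl
    have h1 := cara_norm_le hp1 hz
    have h2 := cara_norm_le hp2 hz
    rw [hn] at h1 h2
    have h3 := h _ hz
    rw [hm] at h3
    rw [hm]
    exact case0_convex hl0 hl1 h1 h2 h3
  intro z hz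
  exact ⟨case0_identity hp1.1 hmd hc (fun r h0 h1 => (key r h0 h1).1) z hz,
    case0_identity hp2.1 hmd hc (fun r h0 h1 => (key r h0 h1).2) z hz⟩

theorem koebe_case {p1 p2 : ℂ → ℂ} (hp1 : IsCara p1) (hp2 : IsCara p2) (ν1 ν2 : Measure ℝ)
    [IsProbabilityMeasure ν1] [IsProbabilityMeasure ν2] {l : ℝ} (hl0 : 0 < l) (hl1 : l < 1)
    (h : ∀ z ∈ ball (0 : ℂ) 1,
      Fxy 1 1 z = l * (p1 z * Sm ν1 z) + (1 - l) * (p2 z * Sm ν2 z)) :
    ∀ z ∈ ball (0 : ℂ) 1, p1 z * Sm ν1 z = p2 z * Sm ν2 z := by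
  have key : ∀ r : ℝ, 0 < r → r < 1 →
      p1 (r * 1) * Sm ν1 (r * 1) = p2 (r * 1) * Sm ν2 (r * 1) := by
    intro r hr0 hr1
    have hn : ‖(r : ℂ) * 1‖ = r := by
      rw [mul_one, Complex.norm_real, Real.norm_eq_abs, abs_of_pos hr0]
    have hz : (r : ℂ) * 1 ∈ ball (0 : ℂ) 1 := by
      rw [mem_ball_zero_iff, hn]; exact hr1
    have hr : 0 < 1 - r := by linarith
    have hF : Fxy 1 1 ((r : ℂ) * 1) = (((1 + r) / (1 - r) * (1 / (1 - r) ^ 2) : ℝ) : ℂ) := by
      unfold Fxy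
      push_cast
      simp only [mul_one, one_mul]
      rw [div_mul_div_comm, mul_one]
    have hb : ∀ (p : ℂ → ℂ) (ν : Measure ℝ), IsCara p → IsProbabilityMeasure ν →
        ‖p (r * 1) * Sm ν (r * 1)‖ ≤ (1 + r) / (1 - r) * (1 / (1 - r) ^ 2) := by
      intro p ν hp hν
      have h1 := cara_norm_le hp hz
      have h2 := Sm_norm_le ν hz
      rw [hn] at h1 h2
      rw [norm_mul]
      exact mul_le_mul h1 h2 (norm_nonneg _) (by positivity)
    have h3 := h _ hz
    rw [hF] at h3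
    have h4 := case0_convex hl0 hl1 (hb p1 ν1 hp1 inferInstance) (hb p2 ν2 hp2 inferInstance) h3
    rw [h4.1, h4.2]
  exact case0_identity (hp1.1.mul (Sm_differentiableOn ν1)) (hp2.1.mul (Sm_differentiableOn ν2))
    (c := 1) norm_one key

end Baz16
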