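import Pool.Agent.Baz16.Defs

/-! # Schwarz-Pick / Harnack estimates.

`schwarz_pick_re`: compose with the disc automorphism exchanging `0` and `w` and with the Cayley
transform `u ↦ (u - h w)/(u + conj (h w))`, apply the Schwarz lemma.
`osc_log`: apply `ratio_le` to `h = exp (pi/(4M) ℓ)` (`|Im| ≤ pi/4`).
Arc points `apt ρ ω = 1 - ρ e^{iω}`:
`1 - conj w z = ρ e^{iω} + ρ e^{-iω'} - ρ^2 e^{i(ω-ω')}`, of modulus `≤ 3 ρ`, and
`|1 - conj w z|^2 - |z - w|^2 = (1 - |z|^2)(1 - |w|^2) ≥ (ρ cos ω1)^2`. -/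

namespace Baz16
open Complex Metric MeasureTheory Set Filter Topology
open scoped ComplexConjugate

/-- `|1 - conj w z|^2 - |z - w|^2 = (1 - |z|^2)(1 - |w|^2)` -/
private lemma sp_key (z w : ℂ) :
    ‖1 - conj w * z‖ ^ 2 - ‖z - w‖ ^ 2 = (1 - ‖z‖ ^ 2) * (1 - ‖w‖ ^ 2) := by
  rw [← Complex.normSq_eq_norm_sq, ← Complex.normSq_eq_norm_sq, ← Complex.normSq_eq_norm_sq,
    ← Complex.normSq_eq_norm_sq]
  simp only [Complex.normSq_apply, Complex.sub_re, Complex.sub_im, Complex.mul_re, Complex.mul_im,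
    Complex.conj_re, Complex.conj_im, Complex.one_re, Complex.one_im]
  ring

private lemma sp_ne {z w : ℂ} (hz : z ∈ ball (0 : ℂ) 1) (hw : w ∈ ball (0 : ℂ) 1) :
    0 < ‖1 - conj w * z‖ := by
  rw [mem_ball_zero_iff] at hz hw
  have h1 : ‖conj w * z‖ < 1 := by
    rw [norm_mul, Complex.norm_conj]
    calc ‖w‖ * ‖z‖ ≤ 1 * ‖z‖ := mul_le_mul_of_nonneg_right hw.le (norm_nonneg _)
      _ < 1 := by linarith
  apply norm_pos_iff.2
  intro h0
  have h2 : conj w * z = 1 := (sub_eq_zero.1 h0).symm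
  rw [h2, norm_one] at h1
  exact lt_irrefl _ h1

private lemma sp_lt {z w : ℂ} (hz : z ∈ ball (0 : ℂ) 1) (hw : w ∈ ball (0 : ℂ) 1) :
    ‖z - w‖ < ‖1 - conj w * z‖ := by
  have h1 := sp_key z w
  rw [mem_ball_zero_iff] at hz hw
  have h2 : 0 < (1 - ‖z‖ ^ 2) * (1 - ‖w‖ ^ 2) := by
    apply mul_pos
    · nlinarith [norm_nonneg z]
    · nlinarith [norm_nonneg w]
  exact lt_of_pow_lt_pow_left₀ 2 (norm_nonneg _) (by linarith)

private lemma sp_cay {a b : ℂ} (ha : 0 < a.re) (hb : 0 < b.re) : ‖a - b‖ < ‖a + conj b‖ := by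
  apply lt_of_pow_lt_pow_left₀ 2 (norm_nonneg _)
  rw [← Complex.normSq_eq_norm_sq, ← Complex.normSq_eq_norm_sq]
  simp only [Complex.normSq_apply, Complex.sub_re, Complex.sub_im, Complex.add_re, Complex.add_im,
    Complex.conj_re, Complex.conj_im]
  nlinarith [mul_pos ha hb]

theorem schwarz_pick_re (h : ℂ → ℂ) (hd : DifferentiableOn ℂ h (ball 0 1))
    (hpos : ∀ z ∈ ball (0 : ℂ) 1, 0 < (h z).re) {z w : ℂ} (hz : z ∈ ball (0 : ℂ) 1)
    (hw : w ∈ ball (0 : ℂ) 1) :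
    ‖h z - h w‖ * ‖1 - conj w * z‖ ≤ ‖z - w‖ * ‖h z + conj (h w)‖ := by
  have hne : ∀ u ∈ ball (0 : ℂ) 1, 1 - conj w * u ≠ 0 := fun u hu => norm_pos_iff.1 (sp_ne hu hw)
  have hψ : ∀ u ∈ ball (0 : ℂ) 1, (w - u) / (1 - conj w * u) ∈ ball (0 : ℂ) 1 := by
    intro u hu
    rw [mem_ball_zero_iff, norm_div, div_lt_one (sp_ne hu hw), norm_sub_rev]
    exact sp_lt hu hw
  have hφ : ∀ a : ℂ, 0 < a.re → a + conj (h w) ≠ 0 := by
    intro a ha
    exact norm_pos_iff.1 (lt_of_le_of_lt (norm_nonneg _) (sp_cay ha (hpos w hw)))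
  have hdψ : DifferentiableOn ℂ (fun u => (w - u) / (1 - conj w * u)) (ball 0 1) := by
    apply DifferentiableOn.div
    · exact (differentiableOn_const _).sub differentiableOn_id
    · exact (differentiableOn_const _).sub ((differentiableOn_const _).mul differentiableOn_id)
    · exact hne
  have hdh : DifferentiableOn ℂ (fun u => h ((w - u) / (1 - conj w * u))) (ball 0 1) :=
    hd.comp hdψ hψ
  have hdf : DifferentiableOn ℂ (fun u => (h ((w - u) / (1 - conj w * u)) - h w) /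
      (h ((w - u) / (1 - conj w * u)) + conj (h w))) (ball 0 1) := by
    apply DifferentiableOn.div
    · exact hdh.sub (differentiableOn_const _)
    · exact hdh.add (differentiableOn_const _)
    · intro u hu
      exact hφ _ (hpos _ (hψ u hu))
  have hmaps : MapsTo (fun u => (h ((w - u) / (1 - conj w * u)) - h w) /
      (h ((w - u) / (1 - conj w * u)) + conj (h w))) (ball 0 1) (closedBall 0 1) := by
    intro u hu
    rw [mem_closedBall_zero_iff, norm_div]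
    exact div_le_one_of_le₀ (sp_cay (hpos _ (hψ u hu)) (hpos w hw)).le (norm_nonneg _)
  have h0 : (fun u => (h ((w - u) / (1 - conj w * u)) - h w) /
      (h ((w - u) / (1 - conj w * u)) + conj (h w))) 0 = 0 := by
    simp
  have hu : ‖(w - z) / (1 - conj w * z)‖ < 1 := mem_ball_zero_iff.1 (hψ z hz)
  have hS := Complex.norm_le_norm_of_mapsTo_ball hdf hmaps h0 hu
  have hinv : (w - (w - z) / (1 - conj w * z)) / (1 - conj w * ((w - z) / (1 - conj w * z))) = z := by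
    have h1 := hne z hz
    have h2 : 1 - conj w * ((w - z) / (1 - conj w * z)) =
        (1 - conj w * w) / (1 - conj w * z) := by
      rw [eq_div_iff h1, sub_mul, mul_assoc, div_mul_cancel₀ _ h1]
      ring
    have h3 : w - (w - z) / (1 - conj w * z) = z * (1 - conj w * w) / (1 - conj w * z) := by
      rw [eq_div_iff h1, sub_mul, div_mul_cancel₀ _ h1]
      ring
    have h4 : 1 - conj w * w ≠ 0 := hne w hw
    rw [h2, h3, div_div_div_cancel_right₀ h1, mul_div_assoc, div_self h4, mul_one]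
  simp only [hinv] at hS
  rw [norm_div, norm_div, div_le_div_iff₀ (lt_of_le_of_lt (norm_nonneg _) (sp_cay (hpos z hz) (hpos w hw)))
    (sp_ne hz hw), norm_sub_rev w z] at hS
  exact hS

theorem ratio_le (h : ℂ → ℂ) (hd : DifferentiableOn ℂ h (ball 0 1))
    (hpos : ∀ z ∈ ball (0 : ℂ) 1, 0 < (h z).re) {z w : ℂ} (hz : z ∈ ball (0 : ℂ) 1)
    (hw : w ∈ ball (0 : ℂ) 1) {δ : ℝ} (h0 : 0 ≤ δ) (h1 : δ < 1)
    (hzw : ‖z - w‖ ≤ δ * ‖1 - conj w * z‖) : ‖h z‖ ≤ (1 + δ) / (1 - δ) * ‖h w‖ := by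
  have h2 := schwarz_pick_re h hd hpos hz hw
  have hD := sp_ne hz hw
  have h3 : ‖h z - h w‖ * ‖1 - conj w * z‖ ≤ (δ * ‖h z + conj (h w)‖) * ‖1 - conj w * z‖ := by
    calc ‖h z - h w‖ * ‖1 - conj w * z‖ ≤ ‖z - w‖ * ‖h z + conj (h w)‖ := h2
      _ ≤ (δ * ‖1 - conj w * z‖) * ‖h z + conj (h w)‖ := mul_le_mul_of_nonneg_right hzw (norm_nonneg _)
      _ = (δ * ‖h z + conj (h w)‖) * ‖1 - conj w * z‖ := by ring
  have h4 := le_of_mul_le_mul_right h3 hD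
  have h5 : ‖h z + conj (h w)‖ ≤ ‖h z‖ + ‖h w‖ := by
    have := norm_add_le (h z) (conj (h w))
    rwa [Complex.norm_conj] at this
  have h6 : ‖h z‖ ≤ ‖h w‖ + ‖h z - h w‖ := by
    have := norm_add_le (h w) (h z - h w)
    rwa [add_sub_cancel] at this
  have h7 : δ * ‖h z + conj (h w)‖ ≤ δ * (‖h z‖ + ‖h w‖) := mul_le_mul_of_nonneg_left h5 h0
  rw [div_mul_eq_mul_div, le_div_iff₀ (by linarith)]
  linarith

theorem osc_log (ℓ : ℂ → ℂ) (hd : DifferentiableOn ℂ ℓ (ball 0 1)) {M : ℝ} (hM0 : 0 < M)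
    (hM : ∀ z ∈ ball (0 : ℂ) 1, |(ℓ z).im| ≤ M) {z w : ℂ} (hz : z ∈ ball (0 : ℂ) 1)
    (hw : w ∈ ball (0 : ℂ) 1) {δ : ℝ} (h0 : 0 ≤ δ) (h1 : δ < 1)
    (hzw : ‖z - w‖ ≤ δ * ‖1 - conj w * z‖) :
    (ℓ z).re - (ℓ w).re ≤ 4 * M / Real.pi * Real.log ((1 + δ) / (1 - δ)) := by
  have hpi := Real.pi_pos
  have hc : 0 < Real.pi / (4 * M) := by positivity
  have him : ∀ u ∈ ball (0 : ℂ) 1, |Real.pi / (4 * M) * (ℓ u).im| ≤ Real.pi / 4 := by
    intro u hu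
    rw [abs_mul, abs_of_pos hc]
    calc Real.pi / (4 * M) * |(ℓ u).im| ≤ Real.pi / (4 * M) * M :=
          mul_le_mul_of_nonneg_left (hM u hu) hc.le
      _ = Real.pi / 4 := by
          field_simp
  have hexp : ∀ u : ℂ, ((Real.pi / (4 * M) : ℝ) * ℓ u).re = Real.pi / (4 * M) * (ℓ u).re ∧
      ((Real.pi / (4 * M) : ℝ) * ℓ u).im = Real.pi / (4 * M) * (ℓ u).im := by
    intro u
    constructor
    · rw [Complex.re_ofReal_mul]
    · rw [Complex.im_ofReal_mul]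
  have hR := ratio_le (fun u => cexp ((Real.pi / (4 * M) : ℝ) * ℓ u))
    (((differentiableOn_const _).mul hd).cexp) (by
      intro u hu
      rw [Complex.exp_re, (hexp u).2]
      apply mul_pos (Real.exp_pos _)
      apply Real.cos_pos_of_mem_Ioo
      have h1 := abs_le.1 (him u hu)
      constructor <;> linarith [h1.1, h1.2]) hz hw h0 h1 hzw
  rw [Complex.norm_exp, Complex.norm_exp, (hexp z).1, (hexp w).1] at hR
  have hq : 0 < (1 + δ) / (1 - δ) := by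
    apply div_pos <;> linarith
  have h2 := Real.log_le_log (Real.exp_pos _) hR
  rw [Real.log_exp, Real.log_mul hq.ne' (Real.exp_pos _).ne', Real.log_exp] at h2
  have h3 : Real.pi / (4 * M) * ((ℓ z).re - (ℓ w).re) ≤ Real.log ((1 + δ) / (1 - δ)) := by
    rw [mul_sub]
    linarith
  have h4 : 4 * M / Real.pi * (Real.pi / (4 * M) * ((ℓ z).re - (ℓ w).re)) = (ℓ z).re - (ℓ w).re := by
    field_simp
  rw [← h4]
  exact mul_le_mul_of_nonneg_left h3 (by positivity)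

/-- `1 - ρ e^{iω}` -/
noncomputable def apt (ρ ω : ℝ) : ℂ := 1 - (ρ : ℂ) * cexp ((ω : ℂ) * I)

theorem one_sub_apt (ρ ω : ℝ) : 1 - apt ρ ω = (ρ : ℂ) * cexp ((ω : ℂ) * I) := by
  simp [apt]

theorem normSq_apt (ρ ω : ℝ) : ‖apt ρ ω‖ ^ 2 = 1 - 2 * ρ * Real.cos ω + ρ ^ 2 := by
  rw [apt, ← Complex.normSq_eq_norm_sq, Complex.exp_mul_I, ← Complex.ofReal_cos, ← Complex.ofReal_sin,
    Complex.normSq_apply]
  simp only [Complex.sub_re, Complex.sub_im, Complex.one_re, Complex.one_im, Complex.mul_re,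
    Complex.mul_im, Complex.add_re, Complex.add_im, Complex.ofReal_re, Complex.ofReal_im,
    Complex.I_re, Complex.I_im]
  have := Real.sin_sq_add_cos_sq ω
  linear_combination ρ ^ 2 * this

private lemma sp_cos {ω ω1 : ℝ} (h1 : ω1 < Real.pi / 2) (hω : |ω| ≤ ω1) :
    Real.cos ω1 ≤ Real.cos ω := by
  rw [← Real.cos_abs ω]
  exact Real.cos_le_cos_of_nonneg_of_le_pi (abs_nonneg _) (by linarith [Real.pi_pos]) hω

theorem apt_mem {ρ ω ω1 : ℝ} (h1 : ω1 < Real.pi / 2) (hω : |ω| ≤ ω1) (hρ : 0 < ρ)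
    (hρ1 : ρ < 2 * Real.cos ω1) : apt ρ ω ∈ ball (0 : ℂ) 1 := by
  have hc := sp_cos h1 hω
  rw [mem_ball_zero_iff]
  apply lt_of_pow_lt_pow_left₀ 2 zero_le_one
  rw [normSq_apt, one_pow]
  nlinarith

theorem arc_dist {ρ ω ω' ω1 : ℝ} (h1 : ω1 < Real.pi / 2) (hω : |ω| ≤ ω1) (hω' : |ω'| ≤ ω1)
    (hρ : 0 < ρ) (hρ1 : ρ ≤ Real.cos ω1) :
    ‖apt ρ ω - apt ρ ω'‖ ≤ Real.sqrt (1 - Real.cos ω1 ^ 2 / 9) *
      ‖1 - conj (apt ρ ω') * apt ρ ω‖ := by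
  have hc := sp_cos h1 hω
  have hc' := sp_cos h1 hω'
  have hc0 : 0 < Real.cos ω1 := by linarith
  have hc1 := Real.cos_le_one ω1
  have hk := sp_key (apt ρ ω) (apt ρ ω')
  rw [normSq_apt, normSq_apt] at hk
  have hD : ‖1 - conj (apt ρ ω') * apt ρ ω‖ ≤ 3 * ρ := by
    have e1 : 1 - conj (apt ρ ω') * apt ρ ω = (ρ : ℂ) * cexp ((ω : ℂ) * I) +
        conj ((ρ : ℂ) * cexp ((ω' : ℂ) * I)) -
        conj ((ρ : ℂ) * cexp ((ω' : ℂ) * I)) * ((ρ : ℂ) * cexp ((ω : ℂ) * I)) := by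
      simp only [apt, map_sub, map_one]
      ring
    have n1 : ∀ θ : ℝ, ‖(ρ : ℂ) * cexp ((θ : ℂ) * I)‖ = ρ := by
      intro θ
      rw [norm_mul, Complex.norm_exp_ofReal_mul_I, mul_one, Complex.norm_real, Real.norm_eq_abs,
        abs_of_pos hρ]
    rw [e1]
    calc ‖(ρ : ℂ) * cexp ((ω : ℂ) * I) + conj ((ρ : ℂ) * cexp ((ω' : ℂ) * I)) -
        conj ((ρ : ℂ) * cexp ((ω' : ℂ) * I)) * ((ρ : ℂ) * cexp ((ω : ℂ) * I))‖
        ≤ ‖(ρ : ℂ) * cexp ((ω : ℂ) * I) + conj ((ρ : ℂ) * cexp ((ω' : ℂ) * I))‖ +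
          ‖conj ((ρ : ℂ) * cexp ((ω' : ℂ) * I)) * ((ρ : ℂ) * cexp ((ω : ℂ) * I))‖ := norm_sub_le _ _
      _ ≤ (‖(ρ : ℂ) * cexp ((ω : ℂ) * I)‖ + ‖conj ((ρ : ℂ) * cexp ((ω' : ℂ) * I))‖) +
          ‖conj ((ρ : ℂ) * cexp ((ω' : ℂ) * I)) * ((ρ : ℂ) * cexp ((ω : ℂ) * I))‖ := by
          gcongr
          exact norm_add_le _ _
      _ = ρ + ρ + ρ * ρ := by
          rw [norm_mul (conj ((ρ : ℂ) * cexp ((ω' : ℂ) * I))), Complex.norm_conj, n1, n1]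
      _ ≤ 3 * ρ := by nlinarith
  have hD0 := norm_nonneg (1 - conj (apt ρ ω') * apt ρ ω)
  have hD2 : ‖1 - conj (apt ρ ω') * apt ρ ω‖ ^ 2 ≤ 9 * ρ ^ 2 := by nlinarith
  have hz : ρ * Real.cos ω1 ≤ 1 - (1 - 2 * ρ * Real.cos ω + ρ ^ 2) := by nlinarith
  have hw : ρ * Real.cos ω1 ≤ 1 - (1 - 2 * ρ * Real.cos ω' + ρ ^ 2) := by nlinarith
  have hp : (ρ * Real.cos ω1) * (ρ * Real.cos ω1) ≤ (1 - (1 - 2 * ρ * Real.cos ω + ρ ^ 2)) *
      (1 - (1 - 2 * ρ * Real.cos ω' + ρ ^ 2)) := by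
    apply mul_le_mul hz hw (by positivity)
    exact le_trans (by positivity) hz
  have hc2 : 0 ≤ 1 - Real.cos ω1 ^ 2 / 9 := by nlinarith
  apply le_of_sq_le_sq _ (by positivity)
  rw [mul_pow, Real.sq_sqrt hc2]
  nlinarith [mul_le_mul_of_nonneg_left hD2 (sq_nonneg (Real.cos ω1))]

/-- On the arcs `{apt ρ ω : |ω| ≤ ω1}`, `ρ ≤ cos ω1`, the real part of a function whose imaginary
part is bounded by `M` oscillates by at most `K M`, `K` depending only on `ω1`. -/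
theorem osc_arc {ω1 : ℝ} (h0 : 0 ≤ ω1) (h1 : ω1 < Real.pi / 2) :
    ∃ K : ℝ, 0 < K ∧ ∀ ℓ : ℂ → ℂ, DifferentiableOn ℂ ℓ (ball 0 1) → ∀ M : ℝ, 0 < M →
      (∀ z ∈ ball (0 : ℂ) 1, |(ℓ z).im| ≤ M) → ∀ ρ : ℝ, 0 < ρ → ρ ≤ Real.cos ω1 →
      ∀ ω ω' : ℝ, |ω| ≤ ω1 → |ω'| ≤ ω1 →
        (ℓ (apt ρ ω)).re - (ℓ (apt ρ ω')).re ≤ K * M := by
  have hc0 : 0 < Real.cos ω1 := Real.cos_pos_of_mem_Ioo ⟨by linarith [Real.pi_pos], h1⟩
  have hc1 := Real.cos_le_one ω1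
  obtain ⟨δ, hδ⟩ : ∃ δ : ℝ, δ = Real.sqrt (1 - Real.cos ω1 ^ 2 / 9) := ⟨_, rfl⟩
  have hδ0 : 0 < δ := by
    rw [hδ]
    apply Real.sqrt_pos.2
    nlinarith
  have hδ1 : δ < 1 := by
    rw [hδ]
    calc Real.sqrt (1 - Real.cos ω1 ^ 2 / 9) < Real.sqrt 1 := by
          apply Real.sqrt_lt_sqrt
          · nlinarith
          · nlinarith
      _ = 1 := Real.sqrt_one
  have hlog : 0 < Real.log ((1 + δ) / (1 - δ)) := by
    apply Real.log_pos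
    rw [one_lt_div (by linarith)]
    linarith
  refine ⟨4 / Real.pi * Real.log ((1 + δ) / (1 - δ)), mul_pos (by positivity) hlog, ?_⟩
  intro ℓ hd M hM0 hM ρ hρ hρ1 ω ω' hω hω'
  have hz := apt_mem h1 hω hρ (by linarith)
  have hw := apt_mem h1 hω' hρ (by linarith)
  have h2 := arc_dist h1 hω hω' hρ hρ1
  rw [← hδ] at h2
  have h3 := osc_log ℓ hd hM0 hM hz hw hδ0.le hδ1 h2
  calc (ℓ (apt ρ ω)).re - (ℓ (apt ρ ω')).re ≤ 4 * M / Real.pi * Real.log ((1 + δ) / (1 - δ)) := h3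
    _ = 4 / Real.pi * Real.log ((1 + δ) / (1 - δ)) * M := by ring


private lemma sp_four (p : ℂ) : 4 * p.re = ‖1 + p‖ ^ 2 - ‖p - 1‖ ^ 2 := by
  rw [← Complex.normSq_eq_norm_sq, ← Complex.normSq_eq_norm_sq]
  simp only [Complex.normSq_apply, Complex.sub_re, Complex.sub_im, Complex.add_re, Complex.add_im,
    Complex.one_re, Complex.one_im]
  ring

/-- Schwarz lemma for Caratheodory functions:
`Re p z ≥ (1 - |z|^2) |1 + p z|^2 / 4`  (`p = (1+u)/(1-u)`, `|u| ≤ |z|`,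
`Re p = (1 - |u|^2)/|1 - u|^2`, `1 + p = 2/(1 - u)`). -/
theorem cara_lower {p : ℂ → ℂ} (hp : IsCara p) {z : ℂ} (hz : z ∈ ball (0 : ℂ) 1) :
    (1 - ‖z‖ ^ 2) * ‖1 + p z‖ ^ 2 / 4 ≤ (p z).re := by
  obtain ⟨hd, h0, hpos⟩ := hp
  have h1 := schwarz_pick_re p hd hpos hz (w := 0) (mem_ball_self one_pos)
  rw [h0, map_zero, zero_mul, sub_zero, norm_one, mul_one, sub_zero, map_one, add_comm (p z) 1] at h1
  have h2 := sp_four (p z)
  have h3 : ‖p z - 1‖ ^ 2 ≤ (‖z‖ * ‖1 + p z‖) ^ 2 := pow_le_pow_left₀ (norm_nonneg _) h1 2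
  rw [mul_pow] at h3
  linarith

/-- equality for Moebius functions. -/
theorem mob_lower {x : ℂ} (hx : ‖x‖ = 1) {z : ℂ} (hz : z ∈ ball (0 : ℂ) 1) :
    (mob x z).re = (1 - ‖z‖ ^ 2) * ‖1 + mob x z‖ ^ 2 / 4 := by
  have h2 := sp_four (mob x z)
  have hne : 1 - x * z ≠ 0 := by
    intro h0
    have h3 : x * z = 1 := (sub_eq_zero.1 h0).symm
    have h4 : ‖x * z‖ = ‖z‖ := by rw [norm_mul, hx, one_mul]
    rw [h3, norm_one] at h4
    rw [mem_ball_zero_iff] at hz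
    linarith
  have h3 : mob x z - 1 = (x * z) * (1 + mob x z) := by
    unfold mob
    field_simp
    ring
  have h4 : ‖mob x z - 1‖ = ‖z‖ * ‖1 + mob x z‖ := by
    rw [h3, norm_mul, norm_mul, hx, one_mul]
  rw [h4, mul_pow] at h2
  linarith

end Baz16

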