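import Pool.Agent.Baz16.Basic
import Pool.Agent.Baz16.SP

/-! # Limits of `arg ((1-z)^2 Sm ν z)` along rays ending at `1`.

For `z = 1 - ρ e^{iω}`, `|ω| < pi/2`: `arg (1 - z) = ω`, and for `t ∈ (0, 2 pi)`,
`arg (1 - e^{-it} z) → arg (1 - e^{-it}) = (pi - t)/2` as `ρ → 0+`; for `t = 0` it is `ω`.
Dominated convergence: `aQ ν z → ∫_{(0,2pi)} (2 ω - pi + t) dν`, an affine function of `ω` which
is `∫ t dν > 0` at `ω = pi/2` and `∫ (t - 2 pi) dν < 0` at `ω = - pi/2`. -/

namespace Baz16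
open Complex Metric MeasureTheory Set Filter Topology

/-- the argument of `(1-z)^2 Sm ν z` -/
noncomputable def aQ (ν : Measure ℝ) (z : ℂ) : ℝ := 2 * (1 - z).arg - 2 * (Lm ν z).im

theorem arg_one_sub_apt {ρ ω : ℝ} (hρ : 0 < ρ) (h1 : |ω| < Real.pi / 2) :
    (1 - apt ρ ω).arg = ω := by
  have hpi := Real.pi_pos
  rw [abs_lt] at h1
  rw [one_sub_apt, Complex.arg_real_mul _ hρ, Complex.arg_exp_mul_I]
  rw [toIocMod_eq_self]
  constructor <;> linarith [h1.1, h1.2]

theorem abs_aQ_le (ν : Measure ℝ) [IsProbabilityMeasure ν] {z : ℂ}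
    (hz : z ∈ ball (0 : ℂ) 1) : |aQ ν z| ≤ 2 * Real.pi := by
  have h1 := abs_arg_ker hz 0
  rw [yy_zero, one_mul] at h1
  have h2 := abs_Lm_im_le ν hz
  rw [probReal_univ, mul_one] at h2
  rw [abs_lt] at h1
  rw [abs_le] at h2
  unfold aQ
  rw [abs_le]
  constructor <;> linarith [h1.1, h1.2, h2.1, h2.2]

/-- `arg (1 - e^{-it}) = (pi - t)/2` -/
private theorem ray_arg {t : ℝ} (h0 : 0 < t) (h1 : t < 2 * Real.pi) :
    (1 - yy t).arg = (Real.pi - t) / 2 := by
  have hs : 0 < Real.sin (t / 2) := Real.sin_pos_of_pos_of_lt_pi (by linarith) (by linarith)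
  have hE : (1 - yy t) = ((2 * Real.sin (t / 2) : ℝ) : ℂ) *
      cexp (((Real.pi - t) / 2 : ℝ) * I) := by
    have hcos : Real.cos t = 1 - 2 * Real.sin (t / 2) ^ 2 := by
      have := Real.cos_two_mul (t / 2)
      have h3 := Real.sin_sq_add_cos_sq (t / 2)
      have h4 : 2 * (t / 2) = t := by ring
      rw [h4] at this
      nlinarith
    have hsin : Real.sin t = 2 * Real.sin (t / 2) * Real.cos (t / 2) := by
      have := Real.sin_two_mul (t / 2)
      have h4 : 2 * (t / 2) = t := by ring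
      rw [h4] at this
      exact this
    have e1 : yy t = ((Real.cos t : ℝ) : ℂ) - ((Real.sin t : ℝ) : ℂ) * I := by
      unfold yy
      have : (-(t : ℂ) * I) = (((-t : ℝ)) : ℂ) * I := by push_cast; ring
      rw [this, Complex.exp_mul_I, ← Complex.ofReal_cos, ← Complex.ofReal_sin, Real.cos_neg,
        Real.sin_neg]
      push_cast
      ring
    have e2 : cexp (((Real.pi - t) / 2 : ℝ) * I) =
        ((Real.sin (t / 2) : ℝ) : ℂ) + ((Real.cos (t / 2) : ℝ) : ℂ) * I := by
      rw [Complex.exp_mul_I, ← Complex.ofReal_cos, ← Complex.ofReal_sin]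
      have h5 : (Real.pi - t) / 2 = Real.pi / 2 - t / 2 := by ring
      rw [h5, Real.cos_pi_div_two_sub, Real.sin_pi_div_two_sub]
    rw [e1, e2, hcos, hsin]
    push_cast
    ring
  rw [hE, Complex.arg_real_mul _ (by positivity), Complex.arg_exp_mul_I]
  rw [toIocMod_eq_self]
  constructor <;> linarith

private theorem ray_re_pos {t : ℝ} (h0 : 0 < t) (h1 : t < 2 * Real.pi) :
    (1 - yy t) ∈ Complex.slitPlane := by
  left
  have e1 : (yy t).re = Real.cos t := by
    unfold yy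
    have : (-(t : ℂ) * I) = (((-t : ℝ)) : ℂ) * I := by push_cast; ring
    rw [this, Complex.exp_ofReal_mul_I_re, Real.cos_neg]
  rw [Complex.sub_re, Complex.one_re, e1]
  have hs : 0 < Real.sin (t / 2) := Real.sin_pos_of_pos_of_lt_pi (by linarith) (by linarith)
  have hcos : Real.cos t = 1 - 2 * Real.sin (t / 2) ^ 2 := by
    have := Real.cos_two_mul (t / 2)
    have h3 := Real.sin_sq_add_cos_sq (t / 2)
    have h4 : 2 * (t / 2) = t := by ring
    rw [h4] at this
    nlinarith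
  rw [hcos]
  nlinarith

private theorem ray_apt_tendsto (ω : ℝ) : Tendsto (fun ρ : ℝ => apt ρ ω) (𝓝[>] 0) (𝓝 1) := by
  have hc : Continuous (fun ρ : ℝ => apt ρ ω) := by
    unfold apt
    fun_prop
  have h := hc.tendsto 0
  have h0 : apt 0 ω = 1 := by simp [apt]
  rw [h0] at h
  exact h.mono_left nhdsWithin_le_nhds

private theorem ray_apt_ball {ω : ℝ} (hω : |ω| < Real.pi / 2) :
    ∀ᶠ ρ : ℝ in 𝓝[>] 0, 0 < ρ ∧ apt ρ ω ∈ ball (0 : ℂ) 1 := by
  have hcos : 0 < Real.cos |ω| := Real.cos_pos_of_mem_Ioo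
    ⟨by linarith [abs_nonneg ω, Real.pi_pos], hω⟩
  have hmem : Ioo (0 : ℝ) (2 * Real.cos |ω|) ∈ 𝓝[>] (0 : ℝ) :=
    Ioo_mem_nhdsGT (by linarith)
  filter_upwards [hmem] with ρ hρ
  exact ⟨hρ.1, apt_mem hω le_rfl hρ.1 hρ.2⟩

private theorem ray_ae (ν : Measure ℝ) (hν : Supp ν) :
    ∀ᵐ t ∂ν, t ∈ Ico 0 (2 * Real.pi) := by
  rw [ae_iff]
  exact hν

theorem ray_limit (ν : Measure ℝ) [IsProbabilityMeasure ν] (hν : Supp ν) {ω : ℝ}
    (hω : |ω| < Real.pi / 2) :
    Tendsto (fun ρ : ℝ => aQ ν (apt ρ ω)) (𝓝[>] 0)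
      (𝓝 (∫ t in Ioo 0 (2 * Real.pi), (2 * ω - Real.pi + t) ∂ν)) := by
  have hball := ray_apt_ball hω
  have hrw : ∀ᶠ ρ : ℝ in 𝓝[>] 0,
      (∫ t, (2 * ω - 2 * (1 - yy t * apt ρ ω).arg) ∂ν) = aQ ν (apt ρ ω) := by
    filter_upwards [hball] with ρ hρ
    have hint : Integrable (fun t => (1 - yy t * apt ρ ω).arg) ν := by
      have := (integrable_log_ker ν hρ.2).im
      simpa [Complex.log_im] using this
    rw [integral_sub (integrable_const _) (hint.const_mul 2), integral_const, probReal_univ,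
      one_smul, integral_const_mul]
    unfold aQ
    rw [arg_one_sub_apt hρ.1 hω, Lm_im ν hρ.2]
  refine Tendsto.congr' hrw ?_
  rw [← integral_indicator measurableSet_Ioo]
  refine tendsto_integral_filter_of_dominated_convergence (fun _ => 2 * Real.pi) ?_ ?_
    (integrable_const _) ?_
  · filter_upwards [hball] with ρ hρ
    have hint : Integrable (fun t => (1 - yy t * apt ρ ω).arg) ν := by
      have := (integrable_log_ker ν hρ.2).im
      simpa [Complex.log_im] using this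
    exact ((integrable_const _).sub (hint.const_mul 2)).aestronglyMeasurable
  · filter_upwards [hball] with ρ hρ
    refine Eventually.of_forall fun t => ?_
    have h1 := abs_arg_ker hρ.2 t
    rw [abs_lt] at h1
    rw [abs_lt] at hω
    rw [Real.norm_eq_abs, abs_le]
    constructor <;> linarith [h1.1, h1.2, hω.1, hω.2]
  · filter_upwards [ray_ae ν hν] with t ht
    rcases eq_or_lt_of_le ht.1 with h0 | h0
    · rw [← h0]
      rw [indicator_of_notMem (by simp)]
      refine Tendsto.congr' (f₁ := fun _ => (0 : ℝ)) ?_ tendsto_const_nhds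
      filter_upwards [hball] with ρ hρ
      rw [yy_zero, one_mul, arg_one_sub_apt hρ.1 hω]
      ring
    · rw [indicator_of_mem (show t ∈ Ioo 0 (2 * Real.pi) from ⟨h0, ht.2⟩)]
      have hlim : Tendsto (fun ρ : ℝ => 1 - yy t * apt ρ ω) (𝓝[>] 0) (𝓝 (1 - yy t)) := by
        have := (ray_apt_tendsto ω).const_mul (yy t)
        rw [mul_one] at this
        exact this.const_sub 1
      have harg := (Complex.continuousAt_arg (ray_re_pos h0 ht.2)).tendsto.comp hlim
      rw [ray_arg h0 ht.2] at harg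
      have h2 := (harg.const_mul 2).const_sub (2 * ω)
      have e : 2 * ω - 2 * ((Real.pi - t) / 2) = 2 * ω - Real.pi + t := by ring
      rw [e] at h2
      exact h2

/-- one measure: all `ω1` close to `pi/2` are fine. -/
theorem exists_ray_one (ν : Measure ℝ) [IsProbabilityMeasure ν] (hν : Supp ν)
    (h : ν {(0 : ℝ)}ᶜ ≠ 0) :
    ∃ ω0 : ℝ, ω0 < Real.pi / 2 ∧ ∀ ω1 : ℝ, ω0 ≤ ω1 → ω1 < Real.pi / 2 →
      ∃ c > 0, ∃ ρ0 > 0, ∀ ρ : ℝ, 0 < ρ → ρ < ρ0 →
        c ≤ aQ ν (apt ρ ω1) ∧ aQ ν (apt ρ (-ω1)) ≤ -c := by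
  have hpi := Real.pi_pos
  set A : Set ℝ := Ioo 0 (2 * Real.pi) with hA
  have hAne : ν A ≠ 0 := by
    intro h0
    apply h
    have hsub : ({(0 : ℝ)}ᶜ : Set ℝ) ⊆ A ∪ (Ico 0 (2 * Real.pi))ᶜ := by
      intro t ht
      by_cases h1 : t ∈ Ico 0 (2 * Real.pi)
      · left
        refine ⟨lt_of_le_of_ne h1.1 (fun h2 => ht ?_), h1.2⟩
        simp [← h2]
      · right
        exact h1
    refine measure_mono_null hsub ?_
    rw [measure_union_null_iff]
    exact ⟨h0, hν⟩
  set m : ℝ := ν.real A with hm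
  have hm0 : 0 < m := by
    rw [hm, measureReal_def]
    exact ENNReal.toReal_pos hAne (measure_ne_top _ _)
  set T : ℝ := ∫ t in A, t ∂ν with hT
  have hbd : ∀ᵐ t ∂(ν.restrict A), ‖t‖ ≤ 2 * Real.pi := by
    rw [ae_restrict_iff' measurableSet_Ioo]
    refine Eventually.of_forall fun t ht => ?_
    rw [Real.norm_eq_abs, abs_of_pos ht.1]
    exact ht.2.le
  have hint : IntegrableOn (fun t : ℝ => t) A ν :=
    Integrable.of_bound measurable_id.aestronglyMeasurable (2 * Real.pi) hbd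
  have hT0 : 0 < T := by
    rw [hT, setIntegral_pos_iff_support_of_nonneg_ae _ hint]
    · refine lt_of_lt_of_le (pos_iff_ne_zero.mpr hAne) (measure_mono ?_)
      intro t ht
      exact ⟨ne_of_gt ht.1, ht⟩
    · rw [EventuallyLE, ae_restrict_iff' measurableSet_Ioo]
      exact Eventually.of_forall fun t ht => ht.1.le
  have hint2 : IntegrableOn (fun t : ℝ => 2 * Real.pi - t) A ν :=
    (integrable_const _).sub hint
  have hT1 : ∫ t in A, (2 * Real.pi - t) ∂ν = 2 * Real.pi * m - T := by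
    rw [integral_sub (integrable_const _) hint, setIntegral_const, smul_eq_mul, mul_comm]
  have hT2 : 0 < 2 * Real.pi * m - T := by
    rw [← hT1, setIntegral_pos_iff_support_of_nonneg_ae _ hint2]
    · refine lt_of_lt_of_le (pos_iff_ne_zero.mpr hAne) (measure_mono ?_)
      intro t ht
      refine ⟨?_, ht⟩
      have := ht.2
      simp only [Function.mem_support]
      linarith
    · rw [EventuallyLE, ae_restrict_iff' measurableSet_Ioo]
      refine Eventually.of_forall fun t ht => ?_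
      have := ht.2
      simp only [Pi.zero_apply]
      linarith
  have hlimv : ∀ ω : ℝ, ∫ t in A, (2 * ω - Real.pi + t) ∂ν = (2 * ω - Real.pi) * m + T := by
    intro ω
    rw [integral_add (integrable_const _) hint, setIntegral_const, smul_eq_mul, mul_comm]
  set δ : ℝ := min T (2 * Real.pi * m - T) with hδ
  have hδ0 : 0 < δ := lt_min hT0 hT2
  have hδ1 : δ ≤ T := min_le_left _ _
  have hδ2 : δ ≤ 2 * Real.pi * m - T := min_le_right _ _
  refine ⟨Real.pi / 2 - δ / (4 * m), ?_, ?_⟩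
  · have : 0 < δ / (4 * m) := by positivity
    linarith
  intro ω1 h1 h2
  have hq : δ / (4 * m) ≤ Real.pi / 4 := by
    rw [div_le_div_iff₀ (by positivity) (by norm_num)]
    nlinarith
  have hω : |ω1| < Real.pi / 2 := by
    rw [abs_lt]
    constructor <;> linarith
  have hω' : |(-ω1)| < Real.pi / 2 := by rwa [abs_neg]
  have hmm : δ / (4 * m) * m = δ / 4 := by field_simp
  have hω1m : (Real.pi / 2 - δ / (4 * m)) * m ≤ ω1 * m :=
    mul_le_mul_of_nonneg_right h1 hm0.le
  have l1 := ray_limit ν hν hω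
  have l2 := ray_limit ν hν hω'
  rw [← hA, hlimv] at l1 l2
  have v1 : δ / 4 < (2 * ω1 - Real.pi) * m + T := by nlinarith
  have v2 : (2 * (-ω1) - Real.pi) * m + T < -(δ / 4) := by nlinarith
  have e1 := l1.eventually (lt_mem_nhds v1)
  have e2 := l2.eventually (gt_mem_nhds v2)
  have e3 := e1.and e2
  rw [eventually_nhdsWithin_iff, Metric.eventually_nhds_iff] at e3
  obtain ⟨ε, hε, hall⟩ := e3
  refine ⟨δ / 4, by positivity, ε, hε, fun ρ hρ hρε => ?_⟩
  have hd : dist ρ 0 < ε := by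
    rw [Real.dist_eq, sub_zero, abs_of_pos hρ]
    exact hρε
  have := hall hd hρ
  exact ⟨this.1.le, this.2.le⟩

end Baz16
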