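import Pool.Agent.Baz16.Crit
import Pool.Agent.Baz16.Ray

/-! # Extremality, case 1: neither `s_1` nor `s_2` is the Koebe function.

`w1 = l p1 (1-z)^2 Sm ν1/mob x0`, `w2 = (1-l) p2 (1-z)^2 Sm ν2/mob x0`, `w1 + w2 = 1`,
`E_i = arg p_i + aQ ν_i - arg (mob x0)` (so `w_i = exp (ℓ_i)`, `Im ℓ_i = E_i`, `|E_i| ≤ 3 pi`).
Take `ω1` good for both measures, `c > 0` with (for `ρ < ρ0`) `aQ ≥ 2c` at `ω1`, `≤ -2c` at
`-ω1`, `arg (mob x0) ∈ (-pi/2, -pi/2 + c)` on the arcs.  Then `E_i(ω1) ≥ c`,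
`E_i(-ω1) ≤ pi - c`, and because `Im w1 = - Im w2`:
`E_1 + E_2 ≥ pi + c` at `ω1` and `≤ pi - c` at `-ω1`.
`F(u) = (ℓ_1 + ℓ_2)(1 - e^u)` on the rectangle `[log ρ1, log ρ2] × [-ω1, ω1]`:
`Complex.integral_boundary_rect_eq_zero_of_differentiableOn` (imaginary part) gives
`∫ Re F(log ρ1 + iω) dω ≤ ∫ Re F(log ρ2 + iω) dω - 2 c (log ρ2 - log ρ1)`, so for `ρ` small there
is a point of the arc with `log |w1 w2| ≤ - N`; as `max |w_i| ≥ 1/2`, one of `|w_i|` is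
`≤ 2 e^{-N}` there, say `w1`, and by `osc_arc` `|w1| ≤ η` on the whole arc, `η` as small as we
want (`< 1/2` and `arcsin`-small against `c`).  Then `|w2 - 1| ≤ η` on the arc, `E_2(ω1) ≥ c`
forces `E_2(ω1) > pi` and with `E_2(-ω1) ≤ pi - c` there is a point with `E_2 = pi`, i.e.
`w2 < 0`: contradiction. -/

namespace Baz16
open Complex Metric MeasureTheory Set Filter Topology

private theorem case1_sum_ge {a b : ℂ} {c : ℝ} (hc : 0 < c) (h : cexp a + cexp b = 1)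
    (ha : c ≤ a.im) (hb : c ≤ b.im) : Real.pi + c ≤ a.im + b.im := by
  by_contra hcon
  push Not at hcon
  have h1 : 0 < Real.sin a.im := Real.sin_pos_of_pos_of_lt_pi (by linarith) (by linarith)
  have h2 : 0 < Real.sin b.im := Real.sin_pos_of_pos_of_lt_pi (by linarith) (by linarith)
  have h3 := congrArg Complex.im h
  rw [Complex.add_im, Complex.exp_im, Complex.exp_im, Complex.one_im] at h3
  have h4 := mul_pos (Real.exp_pos a.re) h1
  have h5 := mul_pos (Real.exp_pos b.re) h2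
  linarith

private theorem case1_sum_le {a b : ℂ} {c : ℝ} (hc : 0 < c) (h : cexp a + cexp b = 1)
    (ha : a.im ≤ Real.pi - c) (hb : b.im ≤ Real.pi - c) : a.im + b.im ≤ Real.pi - c := by
  by_contra hcon
  push Not at hcon
  have h1 : 0 < Real.sin a.im := Real.sin_pos_of_pos_of_lt_pi (by linarith) (by linarith)
  have h2 : 0 < Real.sin b.im := Real.sin_pos_of_pos_of_lt_pi (by linarith) (by linarith)
  have h3 := congrArg Complex.im h
  rw [Complex.add_im, Complex.exp_im, Complex.exp_im, Complex.one_im] at h3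
  have h4 := mul_pos (Real.exp_pos a.re) h1
  have h5 := mul_pos (Real.exp_pos b.re) h2
  linarith

/-- the Cauchy integral over the boundary of the rectangle -/
private theorem case1_rect {ω1 c X T : ℝ} (hω : 0 < ω1) (hT : 0 ≤ T) {f : ℂ → ℂ}
    (hf : DifferentiableOn ℂ f ((uIcc (X - T) (X)) ×ℂ (uIcc (-ω1) (ω1))))
    (h1 : ∀ x ∈ Icc (X - T) X, Real.pi + c ≤ (f ((x : ℂ) + (ω1 : ℂ) * I)).im)
    (h2 : ∀ x ∈ Icc (X - T) X, (f ((x : ℂ) + ((-ω1 : ℝ) : ℂ) * I)).im ≤ Real.pi - c) :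
    ∫ y in (-ω1)..ω1, (f (((X - T : ℝ) : ℂ) + (y : ℂ) * I)).re ≤
      (∫ y in (-ω1)..ω1, (f ((X : ℂ) + (y : ℂ) * I)).re) - 2 * c * T := by
  have hXT : X - T ≤ X := by linarith
  have hωω : -ω1 ≤ ω1 := by linarith
  have hc := hf.continuousOn
  -- continuity on the sides
  have hhor : ∀ y ∈ Icc (-ω1) ω1,
      ContinuousOn (fun x : ℝ => f ((x : ℂ) + (y : ℂ) * I)) (uIcc (X - T) (X)) := by
    intro y hy
    refine hc.comp (by fun_prop) fun x hx => ?_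
    rw [Complex.mem_reProdIm]
    simp only [Complex.add_re, Complex.ofReal_re, Complex.mul_re, Complex.I_re, mul_zero,
      Complex.ofReal_im, Complex.I_im, mul_one, sub_self, add_zero, Complex.add_im,
      Complex.mul_im, zero_add, add_zero]
    exact ⟨hx, by rw [uIcc_of_le hωω]; exact hy⟩
  have hver : ∀ x ∈ Icc (X - T) X,
      ContinuousOn (fun y : ℝ => f ((x : ℂ) + (y : ℂ) * I)) (uIcc (-ω1) (ω1)) := by
    intro x hx
    refine hc.comp (by fun_prop) fun y hy => ?_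
    rw [Complex.mem_reProdIm]
    simp only [Complex.add_re, Complex.ofReal_re, Complex.mul_re, Complex.I_re, mul_zero,
      Complex.ofReal_im, Complex.I_im, mul_one, sub_self, add_zero, Complex.add_im,
      Complex.mul_im, zero_add, add_zero]
    exact ⟨by rw [uIcc_of_le hXT]; exact hx, hy⟩
  have i1 := (hhor (-ω1) ⟨le_rfl, hωω⟩).intervalIntegrable (μ := volume)
  have i2 := (hhor ω1 ⟨hωω, le_rfl⟩).intervalIntegrable (μ := volume)
  have i3 := (hver X ⟨hXT, le_rfl⟩).intervalIntegrable (μ := volume)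
  have i4 := (hver (X - T) ⟨le_rfl, hXT⟩).intervalIntegrable (μ := volume)
  have key := Complex.integral_boundary_rect_eq_zero_of_differentiableOn f
    (⟨X - T, -ω1⟩ : ℂ) (⟨X, ω1⟩ : ℂ) hf
  have key2 := congrArg Complex.im key
  simp only [smul_eq_mul, Complex.sub_im, Complex.add_im, Complex.I_mul_im, Complex.zero_im]
    at key2
  have e1 : (∫ x in (X - T)..X, (f ((x : ℂ) + ((-ω1 : ℝ) : ℂ) * I)).im)
      = (∫ x in (X - T)..X, f ((x : ℂ) + ((-ω1 : ℝ) : ℂ) * I)).im :=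
    Complex.imCLM.intervalIntegral_comp_comm i1
  have e2 : (∫ x in (X - T)..X, (f ((x : ℂ) + ((ω1 : ℝ) : ℂ) * I)).im)
      = (∫ x in (X - T)..X, f ((x : ℂ) + ((ω1 : ℝ) : ℂ) * I)).im :=
    Complex.imCLM.intervalIntegral_comp_comm i2
  have e3 : (∫ y in (-ω1)..ω1, (f ((X : ℂ) + (y : ℂ) * I)).re)
      = (∫ y in (-ω1)..ω1, f ((X : ℂ) + (y : ℂ) * I)).re :=
    Complex.reCLM.intervalIntegral_comp_comm i3
  have e4 : (∫ y in (-ω1)..ω1, (f (((X - T : ℝ) : ℂ) + (y : ℂ) * I)).re)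
      = (∫ y in (-ω1)..ω1, f (((X - T : ℝ) : ℂ) + (y : ℂ) * I)).re :=
    Complex.reCLM.intervalIntegral_comp_comm i4
  have j1 : (∫ x in (X - T)..X, (f ((x : ℂ) + ((-ω1 : ℝ) : ℂ) * I)).im)
      ≤ ∫ x in (X - T)..X, (Real.pi - c) := by
    refine intervalIntegral.integral_mono_on hXT ?_ intervalIntegrable_const fun x hx => ?_
    · exact (Complex.continuous_im.comp_continuousOn (hhor (-ω1) ⟨le_rfl, hωω⟩)).intervalIntegrable
    · exact h2 x hx
  have j2 : ∫ x in (X - T)..X, (Real.pi + c)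
      ≤ (∫ x in (X - T)..X, (f ((x : ℂ) + ((ω1 : ℝ) : ℂ) * I)).im) := by
    refine intervalIntegral.integral_mono_on hXT intervalIntegrable_const ?_ fun x hx => ?_
    · exact (Complex.continuous_im.comp_continuousOn (hhor ω1 ⟨hωω, le_rfl⟩)).intervalIntegrable
    · exact h1 x hx
  rw [intervalIntegral.integral_const, smul_eq_mul] at j1 j2
  rw [e1] at j1
  rw [e2] at j2
  rw [e3, e4]
  have e5 : X - (X - T) = T := by ring
  rw [e5] at j1 j2
  nlinarith [key2, j1, j2]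

/-- if one of the two functions is small on an arc -/
private theorem case1_small {ω1 c ρ η : ℝ} (hω : 0 < ω1) (hω1 : ω1 < Real.pi / 2)
    (hρ : 0 < ρ) (hρ1 : ρ ≤ Real.cos ω1) (hc : 0 < c) (hcπ : c < Real.pi / 2)
    (hη : 0 < η) (hη1 : 3 * η ≤ Real.sin c) {ℓ1 ℓ2 : ℂ → ℂ}
    (hd2 : DifferentiableOn ℂ ℓ2 (ball 0 1))
    (hsum : ∀ z ∈ ball (0 : ℂ) 1, cexp (ℓ1 z) + cexp (ℓ2 z) = 1)
    (hs : ∀ ω, |ω| ≤ ω1 → ‖cexp (ℓ1 (apt ρ ω))‖ ≤ η)
    (h1 : c ≤ (ℓ2 (apt ρ ω1)).im) (h2 : (ℓ2 (apt ρ (-ω1))).im ≤ Real.pi - c) : False := by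
  have hcos : 0 < Real.cos ω1 := Real.cos_pos_of_mem_Ioo ⟨by linarith, hω1⟩
  have hmem : ∀ ω, |ω| ≤ ω1 → apt ρ ω ∈ ball (0 : ℂ) 1 := fun ω h =>
    apt_mem hω1 h hρ (by linarith)
  have hsin1 : Real.sin c ≤ 1 := Real.sin_le_one c
  have hsin0 : 0 < Real.sin c := Real.sin_pos_of_pos_of_lt_pi hc (by linarith)
  have hω0 : |ω1| ≤ ω1 := by rw [abs_of_pos hω]
  have hωm : |(-ω1)| ≤ ω1 := by rw [abs_neg, abs_of_pos hω]
  -- the second function is close to one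
  have hre : ∀ ω, |ω| ≤ ω1 → 1 - η ≤ (cexp (ℓ2 (apt ρ ω))).re ∧
      |(cexp (ℓ2 (apt ρ ω))).im| ≤ η := by
    intro ω h
    have h3 := hsum _ (hmem ω h)
    have h4 : cexp (ℓ2 (apt ρ ω)) = 1 - cexp (ℓ1 (apt ρ ω)) := by
      rw [← h3]; ring
    have h5 := (Complex.abs_re_le_norm (cexp (ℓ1 (apt ρ ω)))).trans (hs ω h)
    have h6 := (Complex.abs_im_le_norm (cexp (ℓ1 (apt ρ ω)))).trans (hs ω h)
    rw [h4, Complex.sub_re, Complex.sub_im, Complex.one_re, Complex.one_im, zero_sub, abs_neg]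
    exact ⟨by linarith [le_abs_self (cexp (ℓ1 (apt ρ ω))).re], h6⟩
  -- the value at the end point
  have hend : Real.pi < (ℓ2 (apt ρ ω1)).im := by
    by_contra hcon
    push Not at hcon
    obtain ⟨h3, h4⟩ := hre ω1 hω0
    rw [Complex.exp_re] at h3
    rw [Complex.exp_im] at h4
    set E := (ℓ2 (apt ρ ω1)).im with hE
    set r := Real.exp (ℓ2 (apt ρ ω1)).re with hr
    have hr0 : 0 < r := Real.exp_pos _
    have hcosE : 0 < Real.cos E := by
      by_contra h5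
      push Not at h5
      have := mul_nonpos_of_nonneg_of_nonpos hr0.le h5
      linarith
    have hE2 : E < Real.pi / 2 := by
      by_contra h5
      push Not at h5
      have := Real.cos_nonpos_of_pi_div_two_le_of_le h5 (by linarith)
      linarith
    have hsinE : Real.sin c ≤ Real.sin E := by
      apply Real.sin_le_sin_of_le_of_le_pi_div_two <;> linarith
    have hr1 : 1 - η ≤ r := h3.trans (by
      have := Real.cos_le_one E
      nlinarith)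
    have h6 : r * Real.sin E ≤ η := (le_abs_self _).trans h4
    have h7 : (1 - η) * Real.sin c ≤ r * Real.sin E :=
      mul_le_mul hr1 hsinE hsin0.le hr0.le
    have h8 : η ≤ 1 / 3 := by linarith
    nlinarith
  -- a point with argument `π`
  have hcont : ContinuousOn (fun ω : ℝ => (ℓ2 (apt ρ ω)).im) (Icc (-ω1) ω1) := by
    refine Complex.continuous_im.comp_continuousOn (hd2.continuousOn.comp ?_ fun ω h => ?_)
    · unfold apt
      fun_prop
    · exact hmem ω (abs_le.2 h)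
  have hiv := intermediate_value_Icc (by linarith : -ω1 ≤ ω1) hcont
  obtain ⟨ω, hωI, hωπ⟩ := hiv ⟨by linarith, hend.le⟩
  have h3 := (hre ω (abs_le.2 hωI)).1
  rw [Complex.exp_re] at h3
  beta_reduce at hωπ
  rw [hωπ, Real.cos_pi] at h3
  have h4 := Real.exp_pos (ℓ2 (apt ρ ω)).re
  linarith

private theorem case1_core {ω1 c ρ0 M : ℝ} (hω : 0 < ω1) (hω1 : ω1 < Real.pi / 2)
    (hc : 0 < c) (hcπ : c < Real.pi / 2) (hρ0 : 0 < ρ0) {ℓ1 ℓ2 : ℂ → ℂ}
    (hd1 : DifferentiableOn ℂ ℓ1 (ball 0 1)) (hd2 : DifferentiableOn ℂ ℓ2 (ball 0 1))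
    (hM0 : 0 < M) (hM1 : ∀ z ∈ ball (0 : ℂ) 1, |(ℓ1 z).im| ≤ M)
    (hM2 : ∀ z ∈ ball (0 : ℂ) 1, |(ℓ2 z).im| ≤ M)
    (hsum : ∀ z ∈ ball (0 : ℂ) 1, cexp (ℓ1 z) + cexp (ℓ2 z) = 1)
    (h1 : ∀ ρ, 0 < ρ → ρ < ρ0 → c ≤ (ℓ1 (apt ρ ω1)).im ∧ (ℓ1 (apt ρ (-ω1))).im ≤ Real.pi - c)
    (h2 : ∀ ρ, 0 < ρ → ρ < ρ0 → c ≤ (ℓ2 (apt ρ ω1)).im ∧ (ℓ2 (apt ρ (-ω1))).im ≤ Real.pi - c) :
    False := by
  have hcos : 0 < Real.cos ω1 := Real.cos_pos_of_mem_Ioo ⟨by linarith, hω1⟩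
  have hω0 : |ω1| ≤ ω1 := by rw [abs_of_pos hω]
  have hωm : |(-ω1)| ≤ ω1 := by rw [abs_neg, abs_of_pos hω]
  have hsin0 : 0 < Real.sin c := Real.sin_pos_of_pos_of_lt_pi hc (by linarith)
  obtain ⟨K, hK, hosc⟩ := osc_arc hω.le hω1
  -- the parameters
  obtain ⟨η, hη, hη1⟩ : ∃ η, 0 < η ∧ 3 * η ≤ Real.sin c :=
    ⟨Real.sin c / 3, by positivity, by linarith⟩
  obtain ⟨ρ2, hρ2, hρ2a, hρ2b⟩ : ∃ ρ2, 0 < ρ2 ∧ ρ2 < ρ0 ∧ ρ2 ≤ Real.cos ω1 :=
    ⟨min (ρ0 / 2) (Real.cos ω1), lt_min (by linarith) hcos,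
      (min_le_left _ _).trans_lt (by linarith), min_le_right _ _⟩
  obtain ⟨N, hN⟩ : ∃ N, N = Real.log 2 + K * M - Real.log η := ⟨_, rfl⟩
  set f : ℂ → ℂ := fun u => ℓ1 (1 - cexp u) + ℓ2 (1 - cexp u) with hf
  have hapt : ∀ x y : ℝ, 1 - cexp ((x : ℂ) + (y : ℂ) * I) = apt (Real.exp x) y := by
    intro x y
    rw [apt, Complex.exp_add, Complex.ofReal_exp]
  obtain ⟨I2, hI2⟩ : ∃ I2, I2 = ∫ y in (-ω1)..ω1, (f ((Real.log ρ2 : ℂ) + (y : ℂ) * I)).re :=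
    ⟨_, rfl⟩
  obtain ⟨T, hT, hT2⟩ : ∃ T : ℝ, 0 ≤ T ∧ I2 - 2 * c * T < -N * (2 * ω1) := by
    obtain ⟨T, hT⟩ : ∃ T : ℝ, T = (|I2 + N * (2 * ω1)| + 1) / (2 * c) := ⟨_, rfl⟩
    refine ⟨T, by rw [hT]; positivity, ?_⟩
    have h3 : 2 * c * T = |I2 + N * (2 * ω1)| + 1 := by
      rw [hT]; field_simp
    rw [h3]
    have := le_abs_self (I2 + N * (2 * ω1))
    linarith
  -- exponentials of the points of the rectangle
  have hexp : ∀ x : ℝ, x ≤ Real.log ρ2 → Real.exp x ≤ ρ2 := by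
    intro x hx
    calc Real.exp x ≤ Real.exp (Real.log ρ2) := Real.exp_le_exp.2 hx
      _ = ρ2 := Real.exp_log hρ2
  have hball : ∀ x y : ℝ, x ≤ Real.log ρ2 → |y| ≤ ω1 → apt (Real.exp x) y ∈ ball (0 : ℂ) 1 := by
    intro x y hx hy
    exact apt_mem hω1 hy (Real.exp_pos x) (by linarith [hexp x hx])
  have hXT : Real.log ρ2 - T ≤ Real.log ρ2 := by linarith
  have hmaps : MapsTo (fun u : ℂ => 1 - cexp u)
      ((uIcc (Real.log ρ2 - T) (Real.log ρ2)) ×ℂ (uIcc (-ω1) (ω1))) (ball 0 1) := by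
    intro u hu
    rw [Complex.mem_reProdIm, uIcc_of_le hXT, uIcc_of_le (by linarith : -ω1 ≤ ω1)] at hu
    have h3 := hapt u.re u.im
    rw [Complex.re_add_im] at h3
    show 1 - cexp u ∈ ball (0 : ℂ) 1
    rw [h3]
    exact hball _ _ hu.1.2 (abs_le.2 hu.2)
  have hfd : DifferentiableOn ℂ f ((uIcc (Real.log ρ2 - T) (Real.log ρ2)) ×ℂ (uIcc (-ω1) (ω1))) := by
    have h3 : DifferentiableOn ℂ (fun u : ℂ => 1 - cexp u)
        ((uIcc (Real.log ρ2 - T) (Real.log ρ2)) ×ℂ (uIcc (-ω1) (ω1))) :=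
      ((differentiable_const 1).sub Complex.differentiable_exp).differentiableOn
    exact (hd1.comp h3 hmaps).add (hd2.comp h3 hmaps)
  have hfval : ∀ x y : ℝ, f ((x : ℂ) + (y : ℂ) * I) =
      ℓ1 (apt (Real.exp x) y) + ℓ2 (apt (Real.exp x) y) := by
    intro x y
    rw [hf]
    beta_reduce
    rw [hapt]
  have hrect := case1_rect (c := c) hω hT hfd
    (fun x hx => by
      rw [hfval, Complex.add_im]
      have h3 := (hexp x hx.2).trans_lt hρ2a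
      exact case1_sum_ge hc (hsum _ (hball x ω1 hx.2 hω0)) (h1 _ (Real.exp_pos x) h3).1
        (h2 _ (Real.exp_pos x) h3).1)
    (fun x hx => by
      rw [hfval, Complex.add_im]
      have h3 := (hexp x hx.2).trans_lt hρ2a
      exact case1_sum_le hc (hsum _ (hball x (-ω1) hx.2 hωm)) (h1 _ (Real.exp_pos x) h3).2
        (h2 _ (Real.exp_pos x) h3).2)
  rw [← hI2] at hrect
  -- a point where the product is small
  obtain ⟨ω, hωI, hωN⟩ : ∃ ω ∈ Icc (-ω1) ω1,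
      (f (((Real.log ρ2 - T : ℝ) : ℂ) + (ω : ℂ) * I)).re ≤ -N := by
    by_contra hcon
    push Not at hcon
    have h3 : ∫ y in (-ω1)..ω1, (-N) ≤
        ∫ y in (-ω1)..ω1, (f (((Real.log ρ2 - T : ℝ) : ℂ) + (y : ℂ) * I)).re := by
      refine intervalIntegral.integral_mono_on (by linarith) intervalIntegrable_const ?_
        fun y hy => (hcon y hy).le
      refine ContinuousOn.intervalIntegrable ?_
      refine Complex.continuous_re.comp_continuousOn (hfd.continuousOn.comp (by fun_prop)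
        fun y hy => ?_)
      rw [Complex.mem_reProdIm]
      simp only [Complex.add_re, Complex.ofReal_re, Complex.mul_re, Complex.I_re, mul_zero,
        Complex.ofReal_im, Complex.I_im, mul_one, sub_self, add_zero, Complex.add_im,
        Complex.mul_im, zero_add, add_zero]
      exact ⟨left_mem_uIcc, hy⟩
    rw [intervalIntegral.integral_const, smul_eq_mul] at h3
    have h4 : (ω1 - -ω1) * -N = -N * (2 * ω1) := by ring
    rw [h4] at h3
    linarith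
  obtain ⟨ρ, hρdef⟩ : ∃ ρ, ρ = Real.exp (Real.log ρ2 - T) := ⟨_, rfl⟩
  have hρ : 0 < ρ := by rw [hρdef]; exact Real.exp_pos _
  have hρle : ρ ≤ ρ2 := by rw [hρdef]; exact hexp _ hXT
  have hρcos : ρ ≤ Real.cos ω1 := hρle.trans hρ2b
  rw [hfval, ← hρdef, Complex.add_re] at hωN
  have hωa := abs_le.2 hωI
  have hmem : apt ρ ω ∈ ball (0 : ℂ) 1 := apt_mem hω1 hωa hρ (by linarith)
  have hρρ0 : ρ < ρ0 := hρle.trans_lt hρ2a
  -- one of the functions is at least `1/2`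
  have hhalf : -Real.log 2 ≤ (ℓ1 (apt ρ ω)).re ∨ -Real.log 2 ≤ (ℓ2 (apt ρ ω)).re := by
    by_contra hcon
    rw [not_or] at hcon
    push Not at hcon
    have h3 : ∀ x : ℝ, x < -Real.log 2 → Real.exp x < 1 / 2 := by
      intro x hx
      calc Real.exp x < Real.exp (-Real.log 2) := Real.exp_lt_exp.2 hx
        _ = 1 / 2 := by rw [Real.exp_neg, Real.exp_log (by norm_num)]; norm_num
    have h4 := h3 _ hcon.1
    have h5 := h3 _ hcon.2
    have h6 : ‖cexp (ℓ1 (apt ρ ω)) + cexp (ℓ2 (apt ρ ω))‖ = 1 := by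
      rw [hsum _ hmem, norm_one]
    have h7 := norm_add_le (cexp (ℓ1 (apt ρ ω))) (cexp (ℓ2 (apt ρ ω)))
    rw [h6, Complex.norm_exp, Complex.norm_exp] at h7
    linarith
  have hfin : ∀ (ℓ : ℂ → ℂ), DifferentiableOn ℂ ℓ (ball 0 1) →
      (∀ z ∈ ball (0 : ℂ) 1, |(ℓ z).im| ≤ M) → (ℓ (apt ρ ω)).re ≤ -N + Real.log 2 →
      ∀ ω', |ω'| ≤ ω1 → ‖cexp (ℓ (apt ρ ω'))‖ ≤ η := by
    intro ℓ hd hM h3 ω' hω'
    have h4 := hosc ℓ hd M hM0 hM ρ hρ hρcos ω' ω hω' hωa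
    rw [Complex.norm_exp]
    have h5 : (ℓ (apt ρ ω')).re ≤ Real.log η := by
      rw [hN] at h3
      linarith
    calc Real.exp (ℓ (apt ρ ω')).re ≤ Real.exp (Real.log η) := Real.exp_le_exp.2 h5
      _ = η := Real.exp_log hη
  rcases hhalf with h3 | h3
  · -- the second function is small
    refine case1_small (ℓ1 := ℓ2) (ℓ2 := ℓ1) hω hω1 hρ hρcos hc hcπ hη hη1 hd1
      (fun z hz => by rw [add_comm]; exact hsum z hz) (hfin ℓ2 hd2 hM2 (by linarith))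
      (h1 ρ hρ hρρ0).1 (h1 ρ hρ hρρ0).2
  · exact case1_small (ℓ1 := ℓ1) (ℓ2 := ℓ2) hω hω1 hρ hρcos hc hcπ hη hη1 hd2 hsum
      (hfin ℓ1 hd1 hM1 (by linarith)) (h2 ρ hρ hρρ0).1 (h2 ρ hρ hρρ0).2

/-- the logarithm -/
private noncomputable def case1_log (l : ℝ) (p : ℂ → ℂ) (ν : Measure ℝ) (x : ℂ) (z : ℂ) : ℂ :=
  (Real.log l : ℂ) + Complex.log (p z) + 2 * Complex.log (1 - z) - 2 * Lm ν z -
    Complex.log (mob x z)

private theorem case1_re_pos {z : ℂ} (hz : z ∈ ball (0 : ℂ) 1) : 0 < (1 - z).re := by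
  have := ker_re_pos hz 0
  rwa [yy_zero, one_mul] at this

private theorem case1_log_diff {l : ℝ} {p : ℂ → ℂ} (hp : IsCara p) (ν : Measure ℝ)
    [IsProbabilityMeasure ν] {x : ℂ} (hx : ‖x‖ = 1) :
    DifferentiableOn ℂ (case1_log l p ν x) (ball 0 1) := by
  have h1 : DifferentiableOn ℂ (fun z => Complex.log (p z)) (ball 0 1) :=
    hp.1.clog fun z hz => Or.inl (hp.2.2 z hz)
  have h2 : DifferentiableOn ℂ (fun z : ℂ => Complex.log (1 - z)) (ball 0 1) :=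
    DifferentiableOn.clog (by fun_prop) fun z hz => Or.inl (case1_re_pos hz)
  have h3 : DifferentiableOn ℂ (fun z => Complex.log (mob x z)) (ball 0 1) :=
    (isCara_mob hx).1.clog fun z hz => Or.inl (mob_re_pos hx hz)
  exact ((((differentiableOn_const _).add h1).add (h2.const_mul 2)).sub
    ((Lm_differentiableOn ν).const_mul 2)).sub h3

private theorem case1_log_im {l : ℝ} {p : ℂ → ℂ} (ν : Measure ℝ) {x : ℂ} (z : ℂ) :
    (case1_log l p ν x z).im = (p z).arg + aQ ν z - (mob x z).arg := by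
  unfold case1_log aQ
  simp only [Complex.sub_im, Complex.add_im, Complex.ofReal_im, Complex.log_im, Complex.mul_im,
    Complex.re_ofNat, Complex.im_ofNat]
  ring

private theorem case1_log_exp {l : ℝ} (hl : 0 < l) {p : ℂ → ℂ} (hp : IsCara p) (ν : Measure ℝ)
    {x : ℂ} (hx : ‖x‖ = 1) {z : ℂ} (hz : z ∈ ball (0 : ℂ) 1) :
    cexp (case1_log l p ν x z) = l * (p z * ((1 - z) ^ 2 * Sm ν z)) / mob x z := by
  have hp0 : p z ≠ 0 := fun h => by
    have := hp.2.2 z hz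
    rw [h] at this
    simp at this
  have hm0 : mob x z ≠ 0 := fun h => by
    have := mob_re_pos hx hz
    rw [h] at this
    simp at this
  have h10 : (1 - z) ≠ 0 := fun h => by
    have := case1_re_pos hz
    rw [h] at this
    simp at this
  unfold case1_log Sm
  rw [Complex.exp_sub, Complex.exp_log hm0]
  congr 1
  rw [sub_eq_add_neg, Complex.exp_add, Complex.exp_add, Complex.exp_add, Complex.exp_log hp0,
    ← Complex.ofReal_exp, Real.exp_log hl, two_mul, Complex.exp_add, Complex.exp_log h10]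
  rw [neg_mul]
  ring

private theorem case1_arg_le {z : ℂ} (hz : 0 < z.re) : |z.arg| < Real.pi / 2 := by
  rw [Complex.abs_arg_lt_pi_div_two_iff]
  exact Or.inl hz

private theorem case1_log_im_le {l : ℝ} {p : ℂ → ℂ} (hp : IsCara p) (ν : Measure ℝ)
    [IsProbabilityMeasure ν] {x : ℂ} (hx : ‖x‖ = 1) {z : ℂ} (hz : z ∈ ball (0 : ℂ) 1) :
    |(case1_log l p ν x z).im| ≤ 3 * Real.pi := by
  rw [case1_log_im]
  have h1 := abs_lt.1 (case1_arg_le (hp.2.2 z hz))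
  have h2 := abs_le.1 (abs_aQ_le ν hz)
  have h3 := abs_lt.1 (case1_arg_le (mob_re_pos hx hz))
  rw [abs_le]
  constructor <;> linarith [h1.1, h1.2, h2.1, h2.2, h3.1, h3.2]

/-- the argument of `mob x0` near `1` -/
private theorem case1_arg_mob {φ0 : ℝ} (hφ0 : 0 < φ0) (hφ1 : φ0 ≤ Real.pi / 2) (ω1 : ℝ)
    {c : ℝ} (hc : 0 < c) :
    ∃ ρ0 > 0, ∀ ρ : ℝ, 0 < ρ → ρ < ρ0 →
      (mob (yy φ0) (apt ρ ω1)).arg ≤ -(Real.pi / 2) + c := by
  have hs : 0 < Real.sin φ0 := Real.sin_pos_of_pos_of_lt_pi hφ0 (by linarith [Real.pi_pos])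
  have hyre : (yy φ0).re = Real.cos φ0 := by
    have : yy φ0 = cexp (((-φ0 : ℝ) : ℂ) * I) := by unfold yy; push_cast; rfl
    rw [this, Complex.exp_ofReal_mul_I_re, Real.cos_neg]
  have hyim : (yy φ0).im = -Real.sin φ0 := by
    have : yy φ0 = cexp (((-φ0 : ℝ) : ℂ) * I) := by unfold yy; push_cast; rfl
    rw [this, Complex.exp_ofReal_mul_I_im, Real.sin_neg]
  have hne : 1 - yy φ0 * 1 ≠ 0 := by
    intro h
    have := congrArg Complex.im h
    rw [mul_one, Complex.sub_im, Complex.one_im, hyim, Complex.zero_im] at this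
    linarith
  have hcs : Real.cos φ0 < 1 := by
    have := Real.sin_sq_add_cos_sq φ0
    nlinarith [Real.cos_le_one φ0]
  obtain ⟨c0, hc0, hmob⟩ : ∃ c0 : ℝ, 0 < c0 ∧ mob (yy φ0) 1 = ((-c0 : ℝ) : ℂ) * I := by
    refine ⟨Real.sin φ0 / (1 - Real.cos φ0), div_pos hs (by linarith), ?_⟩
    unfold mob
    rw [div_eq_iff hne]
    have hsc := Real.sin_sq_add_cos_sq φ0
    have h0 : (1 - Real.cos φ0) ≠ 0 := by linarith
    apply Complex.ext
    · simp only [Complex.add_re, Complex.one_re, mul_one, hyre, Complex.mul_re,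
        Complex.ofReal_re, Complex.I_re, mul_zero, Complex.ofReal_im, Complex.I_im,
        sub_self, Complex.sub_re, zero_mul, Complex.mul_im, add_zero, Complex.sub_im,
        Complex.one_im, hyim]
      field_simp
      nlinarith
    · simp only [Complex.add_im, Complex.one_im, mul_one, hyim, Complex.mul_im,
        Complex.ofReal_re, Complex.I_im, Complex.ofReal_im, Complex.I_re, mul_zero, add_zero,
        Complex.sub_re, Complex.one_re, hyre, Complex.mul_re, sub_self, zero_mul]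
      field_simp
  have harg : (mob (yy φ0) 1).arg = -(Real.pi / 2) := by
    rw [hmob, Complex.arg_eq_neg_pi_div_two_iff]
    constructor
    · simp
    · simp [hc0]
  have hslit : mob (yy φ0) 1 ∈ Complex.slitPlane := by
    rw [hmob]
    right
    simp [hc0.ne']
  have hcm : ContinuousAt (mob (yy φ0)) 1 := by
    unfold mob
    exact ContinuousAt.div (by fun_prop) (by fun_prop) hne
  have hca : ContinuousAt (fun z => (mob (yy φ0) z).arg) 1 :=
    ContinuousAt.comp (g := Complex.arg) (Complex.continuousAt_arg hslit) hcm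
  have hap : Tendsto (fun ρ : ℝ => apt ρ ω1) (𝓝 0) (𝓝 1) := by
    have h1 : Continuous fun ρ : ℝ => apt ρ ω1 := by
      unfold apt
      fun_prop
    have h2 := h1.tendsto 0
    simpa [apt] using h2
  have hlim : Tendsto (fun ρ : ℝ => (mob (yy φ0) (apt ρ ω1)).arg) (𝓝 0)
      (𝓝 (-(Real.pi / 2))) := by
    rw [← harg]
    exact hca.tendsto.comp hap
  have hev := hlim.eventually (gt_mem_nhds (show -(Real.pi / 2) < -(Real.pi / 2) + c by linarith))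
  rw [Metric.eventually_nhds_iff] at hev
  obtain ⟨ε, hε, h⟩ := hev
  refine ⟨ε, hε, fun ρ h1 h2 => (h ?_).le⟩
  rw [Real.dist_eq, sub_zero, abs_of_pos h1]
  exact h2

theorem case1 {φ0 : ℝ} (hφ0 : 0 < φ0) (hφ1 : φ0 ≤ Real.pi / 2) {l : ℝ} (hl0 : 0 < l)
    (hl1 : l < 1) {p1 p2 : ℂ → ℂ} (hp1 : IsCara p1) (hp2 : IsCara p2) (ν1 ν2 : Measure ℝ)
    [IsProbabilityMeasure ν1] [IsProbabilityMeasure ν2] (hν1 : Supp ν1) (hν2 : Supp ν2)
    (hne1 : ν1 {(0 : ℝ)}ᶜ ≠ 0) (hne2 : ν2 {(0 : ℝ)}ᶜ ≠ 0)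
    (h : ∀ z ∈ ball (0 : ℂ) 1,
      mob (yy φ0) z = l * (p1 z * ((1 - z) ^ 2 * Sm ν1 z)) +
        (1 - l) * (p2 z * ((1 - z) ^ 2 * Sm ν2 z))) : False := by
  have hpi := Real.pi_pos
  have hx : ‖yy φ0‖ = 1 := norm_yy φ0
  obtain ⟨w1, hw1, hr1⟩ := exists_ray_one ν1 hν1 hne1
  obtain ⟨w2, hw2, hr2⟩ := exists_ray_one ν2 hν2 hne2
  obtain ⟨ω1, hω0, hω1, ha, hb⟩ : ∃ ω1 : ℝ, 0 < ω1 ∧ ω1 < Real.pi / 2 ∧ w1 ≤ ω1 ∧ w2 ≤ ω1 := by
    refine ⟨max (Real.pi / 4) (max w1 w2), ?_, ?_, ?_, ?_⟩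
    · exact lt_of_lt_of_le (by linarith) (le_max_left _ _)
    · exact max_lt (by linarith) (max_lt hw1 hw2)
    · exact (le_max_left _ _).trans (le_max_right _ _)
    · exact (le_max_right _ _).trans (le_max_right _ _)
  obtain ⟨c1, hc1, ρ1, hρ1, hq1⟩ := hr1 ω1 ha hω1
  obtain ⟨c2, hc2, ρ2, hρ2, hq2⟩ := hr2 ω1 hb hω1
  obtain ⟨c, hc, hcπ, hcc1, hcc2⟩ : ∃ c : ℝ, 0 < c ∧ c < Real.pi / 2 ∧ 2 * c ≤ c1 ∧
      2 * c ≤ c2 := by
    refine ⟨min (Real.pi / 4) (min (c1 / 2) (c2 / 2)), ?_, ?_, ?_, ?_⟩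
    · exact lt_min (by linarith) (lt_min (by linarith) (by linarith))
    · exact (min_le_left _ _).trans_lt (by linarith)
    · have : min (Real.pi / 4) (min (c1 / 2) (c2 / 2)) ≤ c1 / 2 :=
        (min_le_right _ _).trans (min_le_left _ _)
      linarith
    · have : min (Real.pi / 4) (min (c1 / 2) (c2 / 2)) ≤ c2 / 2 :=
        (min_le_right _ _).trans (min_le_right _ _)
      linarith
  obtain ⟨ρ3, hρ3, hq3⟩ := case1_arg_mob hφ0 hφ1 ω1 hc
  have hcos : 0 < Real.cos ω1 := Real.cos_pos_of_mem_Ioo ⟨by linarith, hω1⟩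
  obtain ⟨ρ0, hρ0, hk1, hk2, hk3, hk4⟩ : ∃ ρ0 : ℝ, 0 < ρ0 ∧ ρ0 ≤ ρ1 ∧ ρ0 ≤ ρ2 ∧ ρ0 ≤ ρ3 ∧
      ρ0 ≤ Real.cos ω1 := by
    refine ⟨min (min ρ1 ρ2) (min ρ3 (Real.cos ω1)), ?_, ?_, ?_, ?_, ?_⟩
    · exact lt_min (lt_min hρ1 hρ2) (lt_min hρ3 hcos)
    · exact (min_le_left _ _).trans (min_le_left _ _)
    · exact (min_le_left _ _).trans (min_le_right _ _)
    · exact (min_le_right _ _).trans (min_le_left _ _)
    · exact (min_le_right _ _).trans (min_le_right _ _)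
  have hω0a : |ω1| ≤ ω1 := by rw [abs_of_pos hω0]
  have hωma : |(-ω1)| ≤ ω1 := by rw [abs_neg, abs_of_pos hω0]
  have hang : ∀ (l' : ℝ) (p : ℂ → ℂ) (ν : Measure ℝ) (c' : ℝ), IsCara p → 2 * c ≤ c' →
      ∀ ρ : ℝ, 0 < ρ → ρ < ρ0 → c' ≤ aQ ν (apt ρ ω1) ∧ aQ ν (apt ρ (-ω1)) ≤ -c' →
      c ≤ (case1_log l' p ν (yy φ0) (apt ρ ω1)).im ∧
        (case1_log l' p ν (yy φ0) (apt ρ (-ω1))).im ≤ Real.pi - c := by
    intro l' p ν c' hp hcc ρ h1 h2 h3
    have m1 : apt ρ ω1 ∈ ball (0 : ℂ) 1 := apt_mem hω1 hω0a h1 (by linarith)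
    have m2 : apt ρ (-ω1) ∈ ball (0 : ℂ) 1 := apt_mem hω1 hωma h1 (by linarith)
    have a1 := abs_lt.1 (case1_arg_le (hp.2.2 _ m1))
    have a2 := abs_lt.1 (case1_arg_le (hp.2.2 _ m2))
    have b2 := abs_lt.1 (case1_arg_le (mob_re_pos hx m2))
    have b1 := hq3 ρ h1 (by linarith)
    rw [case1_log_im, case1_log_im]
    constructor <;> linarith [a1.1, a1.2, a2.1, a2.2, b2.1, b2.2, h3.1, h3.2]
  have hl1' : 0 < 1 - l := by linarith
  refine case1_core (M := 3 * Real.pi) (ℓ1 := case1_log l p1 ν1 (yy φ0))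
    (ℓ2 := case1_log (1 - l) p2 ν2 (yy φ0)) hω0 hω1 hc hcπ hρ0 (case1_log_diff hp1 ν1 hx)
    (case1_log_diff hp2 ν2 hx) (by positivity)
    (fun z hz => case1_log_im_le hp1 ν1 hx hz) (fun z hz => case1_log_im_le hp2 ν2 hx hz)
    (fun z hz => ?_)
    (fun ρ h1 h2 => hang _ _ _ c1 hp1 hcc1 ρ h1 h2 (hq1 ρ h1 (by linarith)))
    (fun ρ h1 h2 => hang _ _ _ c2 hp2 hcc2 ρ h1 h2 (hq2 ρ h1 (by linarith)))
  have hm0 : mob (yy φ0) z ≠ 0 := fun h0 => by
    have := mob_re_pos hx hz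
    rw [h0] at this
    simp at this
  rw [case1_log_exp hl0 hp1 ν1 hx hz, case1_log_exp hl1' hp2 ν2 hx hz, ← add_div,
    div_eq_one_iff_eq hm0, h z hz]
  push_cast
  ring

end Baz16
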