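import Pool.Agent.Baz16.Crit
import Pool.Agent.Baz16.Ray

/-! # Extremality, case 2: `s_1` is the Koebe function, `s_2` is not.

Write `B = p2 (1-z)^2 Sm ν`, `(1-l) B = mob x0 - l p1`, `x0 = yy φ0`, `c0 = cot(φ0/2) ≥ 1`,
`mob x0 1 = - i c0`.  `B = exp ℓ_B`, `Im ℓ_B = arg p2 + aQ ν` (bounded by `5 pi/2`).
`exists_ray_one` gives `ω1, c, ρ0` (decrease `c` so that `c ≤ pi/4`): for `ρ < ρ0`
`Im ℓ_B (apt ρ ω1) ≥ c - pi/2`, `Im ℓ_B (apt ρ (-ω1)) ≤ pi/2 - c`.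
On each arc `|ω| ≤ ω1` there is a point with
`|Im ℓ_B| ≤ pi/2 - c/2` (the end point `ω1`, or a point with `Im ℓ_B = pi/2 - c/2` by the
intermediate value theorem), there `|B| sin(c/2) ≤ Re B` and `(1-l) Re B ≤ Re mob x0 → 0`.
Hence `B → 0`, `p1 → - i c0/l` along these points and (`cara_lower`, `mob_lower`)
`(1-l) Re B ≤ (1-|z|^2)/4 (|1 + mob x0|^2 - l |1 + p1|^2) < 0` for `ρ` small,
since `1 + c0^2 - l (1 + c0^2/l^2) = (1-l)(1 - c0^2/l) < 0`: contradiction. -/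

namespace Baz16
open Complex Metric MeasureTheory Set Filter Topology

/-- the logarithm of `p2 (1-z)^2 Sm ν` -/
private noncomputable def case2L (p2 : ℂ → ℂ) (ν : Measure ℝ) (z : ℂ) : ℂ :=
  Complex.log (p2 z) + 2 * Complex.log (1 - z) - 2 * Lm ν z

private theorem case2_one_sub_re {z : ℂ} (hz : z ∈ ball (0 : ℂ) 1) : 0 < (1 - z).re := by
  have h := ker_re_pos hz 0
  rwa [yy_zero, one_mul] at h

private theorem case2L_exp {p2 : ℂ → ℂ} (hp2 : IsCara p2) (ν : Measure ℝ) {z : ℂ}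
    (hz : z ∈ ball (0 : ℂ) 1) :
    cexp (case2L p2 ν z) = p2 z * ((1 - z) ^ 2 * Sm ν z) := by
  have h1 : p2 z ≠ 0 := by
    intro h
    have := hp2.2.2 z hz
    rw [h] at this
    simp at this
  have h2 : (1 - z) ≠ 0 := by
    intro h
    have := case2_one_sub_re hz
    rw [h] at this
    simp at this
  unfold case2L Sm
  rw [sub_eq_add_neg, Complex.exp_add, Complex.exp_add, Complex.exp_log h1,
    show (2 : ℂ) * Complex.log (1 - z) = ((2 : ℕ) : ℂ) * Complex.log (1 - z) by norm_num,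
    Complex.exp_nat_mul, Complex.exp_log h2, show -(2 * Lm ν z) = -2 * Lm ν z by ring]
  ring

private theorem case2L_im (p2 : ℂ → ℂ) (ν : Measure ℝ) (z : ℂ) :
    (case2L p2 ν z).im = (p2 z).arg + aQ ν z := by
  unfold case2L aQ
  simp only [Complex.add_im, Complex.sub_im, Complex.log_im, Complex.mul_im]
  norm_num
  ring

private theorem case2L_diff {p2 : ℂ → ℂ} (hp2 : IsCara p2) (ν : Measure ℝ)
    [IsProbabilityMeasure ν] : DifferentiableOn ℂ (case2L p2 ν) (ball 0 1) := by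
  unfold case2L
  have h1 : DifferentiableOn ℂ (fun z => Complex.log (p2 z)) (ball 0 1) :=
    hp2.1.clog fun z hz => Or.inl (hp2.2.2 z hz)
  have h2 : DifferentiableOn ℂ (fun z : ℂ => Complex.log (1 - z)) (ball 0 1) :=
    ((differentiableOn_const (1 : ℂ)).sub differentiableOn_id).clog
      fun z hz => Or.inl (case2_one_sub_re hz)
  exact (h1.add (h2.const_mul 2)).sub ((Lm_differentiableOn ν).const_mul 2)

/-- on each small arc there is a point where `Re B ≥ sin (c/2) |B|` -/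
private theorem case2_point {p2 : ℂ → ℂ} (hp2 : IsCara p2) (ν : Measure ℝ)
    [IsProbabilityMeasure ν] {ω1 c ρ : ℝ} (hω0 : 0 ≤ ω1) (hω1 : ω1 < Real.pi / 2)
    (hc0 : 0 < c) (hc1 : c ≤ Real.pi / 4) (hρ : 0 < ρ) (hρ1 : ρ < 2 * Real.cos ω1)
    (ha : c ≤ aQ ν (apt ρ ω1)) (hb : aQ ν (apt ρ (-ω1)) ≤ -c) :
    ∃ z ∈ ball (0 : ℂ) 1, ‖z - 1‖ = ρ ∧
      Real.sin (c / 2) * ‖p2 z * ((1 - z) ^ 2 * Sm ν z)‖ ≤
        (p2 z * ((1 - z) ^ 2 * Sm ν z)).re := by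
  have hpi := Real.pi_pos
  have hmem : ∀ ω ∈ Icc (-ω1) ω1, apt ρ ω ∈ ball (0 : ℂ) 1 := fun ω hω =>
    apt_mem hω1 (abs_le.2 ⟨hω.1, hω.2⟩) hρ hρ1
  have hcont : ContinuousOn (fun ω : ℝ => (case2L p2 ν (apt ρ ω)).im) (Icc (-ω1) ω1) := by
    have h1 : ContinuousOn (fun ω : ℝ => case2L p2 ν (apt ρ ω)) (Icc (-ω1) ω1) := by
      refine (case2L_diff hp2 ν).continuousOn.comp ?_ hmem
      unfold apt
      fun_prop
    exact Complex.continuous_im.comp_continuousOn h1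
  have hR : ω1 ∈ Icc (-ω1) ω1 := ⟨by linarith, le_rfl⟩
  have hL : -ω1 ∈ Icc (-ω1) ω1 := ⟨le_rfl, by linarith⟩
  have harg : ∀ z ∈ ball (0 : ℂ) 1, |(p2 z).arg| < Real.pi / 2 := fun z hz => by
    rw [Complex.abs_arg_lt_pi_div_two_iff]
    exact Or.inl (hp2.2.2 z hz)
  have h1 : c - Real.pi / 2 ≤ (case2L p2 ν (apt ρ ω1)).im := by
    rw [case2L_im]
    have := (abs_lt.1 (harg _ (hmem _ hR))).1
    linarith
  have h2 : (case2L p2 ν (apt ρ (-ω1))).im ≤ Real.pi / 2 - c := by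
    rw [case2L_im]
    have := (abs_lt.1 (harg _ (hmem _ hL))).2
    linarith
  obtain ⟨ω, hω, hval⟩ : ∃ ω ∈ Icc (-ω1) ω1,
      |(case2L p2 ν (apt ρ ω)).im| ≤ Real.pi / 2 - c / 2 := by
    by_cases h3 : (case2L p2 ν (apt ρ ω1)).im ≤ Real.pi / 2 - c / 2
    · exact ⟨ω1, hR, abs_le.2 ⟨by linarith, h3⟩⟩
    · push Not at h3
      obtain ⟨ω, hω, he⟩ := intermediate_value_Icc (by linarith : -ω1 ≤ ω1) hcont
        (show Real.pi / 2 - c / 2 ∈ Icc _ _ from ⟨by linarith, h3.le⟩)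
      refine ⟨ω, hω, ?_⟩
      simp only at he
      rw [he, abs_of_nonneg (by linarith)]
  refine ⟨apt ρ ω, hmem ω hω, ?_, ?_⟩
  · rw [← norm_neg, neg_sub, one_sub_apt, norm_mul, Complex.norm_exp_ofReal_mul_I, mul_one,
      Complex.norm_real, Real.norm_eq_abs, abs_of_pos hρ]
  · rw [← case2L_exp hp2 ν (hmem ω hω), Complex.norm_exp, Complex.exp_re, mul_comm]
    refine mul_le_mul_of_nonneg_left ?_ (Real.exp_pos _).le
    rw [← Real.cos_pi_div_two_sub, ← Real.cos_abs (case2L p2 ν (apt ρ ω)).im]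
    exact Real.cos_le_cos_of_nonneg_of_le_pi (abs_nonneg _) (by linarith) hval

/-- value of `mob` at the point `1` -/
private theorem case2_mob_one {φ0 : ℝ} (hφ0 : 0 < φ0) (hφ1 : φ0 ≤ Real.pi / 2) :
    1 - yy φ0 * 1 ≠ 0 ∧ (mob (yy φ0) 1).re = 0 ∧ 1 ≤ (mob (yy φ0) 1).im ^ 2 := by
  have hpi := Real.pi_pos
  have hx : yy φ0 = cexp (((-φ0 : ℝ) : ℂ) * I) := by
    unfold yy
    push_cast
    rfl
  have hxr : (yy φ0).re = Real.cos φ0 := by
    rw [hx, Complex.exp_ofReal_mul_I_re, Real.cos_neg]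
  have hxi : (yy φ0).im = -Real.sin φ0 := by
    rw [hx, Complex.exp_ofReal_mul_I_im, Real.sin_neg]
  have hS : 0 < Real.sin φ0 := Real.sin_pos_of_pos_of_lt_pi hφ0 (by linarith)
  have hC : 0 ≤ Real.cos φ0 := Real.cos_nonneg_of_neg_pi_div_two_le_of_le (by linarith) hφ1
  have hSC := Real.sin_sq_add_cos_sq φ0
  have hne : 1 - yy φ0 * 1 ≠ 0 := by
    intro h
    have h2 := congrArg Complex.im h
    rw [mul_one, Complex.sub_im, hxi, Complex.one_im, Complex.zero_im] at h2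
    linarith
  have hm : mob (yy φ0) 1 * (1 - yy φ0 * 1) = 1 + yy φ0 * 1 := by
    unfold mob
    exact div_mul_cancel₀ _ hne
  have hre := congrArg Complex.re hm
  have him := congrArg Complex.im hm
  rw [mul_one] at hre him
  rw [Complex.mul_re, Complex.sub_re, Complex.sub_im, Complex.add_re, hxr, hxi, Complex.one_re,
    Complex.one_im] at hre
  rw [Complex.mul_im, Complex.sub_re, Complex.sub_im, Complex.add_im, hxr, hxi, Complex.one_re,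
    Complex.one_im] at him
  generalize (mob (yy φ0) 1).re = a at hre him ⊢
  generalize (mob (yy φ0) 1).im = b at hre him ⊢
  generalize Real.sin φ0 = S at *
  generalize Real.cos φ0 = C at *
  have ha : a = 0 := by
    have h1 : a * ((1 - C) ^ 2 + S ^ 2) = 0 := by
      linear_combination (1 - C) * hre + S * him - hSC
    rcases mul_eq_zero.1 h1 with h2 | h2
    · exact h2
    · nlinarith [sq_nonneg (1 - C)]
  subst ha
  refine ⟨hne, rfl, ?_⟩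
  have h3 : b * S = -(1 + C) := by linarith
  have h4 : b ^ 2 * S ^ 2 = (1 + C) ^ 2 := by rw [← mul_pow, h3]; ring
  have h5 : S ^ 2 ≤ 1 := by nlinarith
  have h6 : 0 < S ^ 2 := by positivity
  nlinarith [sq_nonneg b]

theorem case2 {φ0 : ℝ} (hφ0 : 0 < φ0) (hφ1 : φ0 ≤ Real.pi / 2) {l : ℝ} (hl0 : 0 < l)
    (hl1 : l < 1) {p1 p2 : ℂ → ℂ} (hp1 : IsCara p1) (hp2 : IsCara p2) (ν : Measure ℝ)
    [IsProbabilityMeasure ν] (hν : Supp ν) (hne : ν {(0 : ℝ)}ᶜ ≠ 0)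
    (h : ∀ z ∈ ball (0 : ℂ) 1,
      mob (yy φ0) z = l * p1 z + (1 - l) * (p2 z * ((1 - z) ^ 2 * Sm ν z))) : False := by
  have hpi := Real.pi_pos
  obtain ⟨ω0, hω0, hray⟩ := exists_ray_one ν hν hne
  obtain ⟨ω1, hω01, hωpos, hω1⟩ : ∃ ω1 : ℝ, ω0 ≤ ω1 ∧ 0 ≤ ω1 ∧ ω1 < Real.pi / 2 :=
    ⟨max ω0 0, le_max_left _ _, le_max_right _ _, max_lt hω0 (by positivity)⟩
  obtain ⟨c', hc', ρ0, hρ0, hq⟩ := hray ω1 hω01 hω1
  obtain ⟨c, hc0, hc1, hcc⟩ : ∃ c : ℝ, 0 < c ∧ c ≤ Real.pi / 4 ∧ c ≤ c' :=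
    ⟨min c' (Real.pi / 4), lt_min hc' (by positivity), min_le_right _ _, min_le_left _ _⟩
  have hcos : 0 < Real.cos ω1 := Real.cos_pos_of_mem_Ioo ⟨by linarith, hω1⟩
  have hs : 0 < Real.sin (c / 2) := Real.sin_pos_of_pos_of_lt_pi (by linarith) (by linarith)
  have hre : ∀ z ∈ ball (0 : ℂ) 1, (mob (yy φ0) z).re =
      l * (p1 z).re + (1 - l) * (p2 z * ((1 - z) ^ 2 * Sm ν z)).re := by
    intro z hz
    rw [h z hz, Complex.add_re, Complex.re_ofReal_mul,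
      show (1 - (l : ℂ)) = ((1 - l : ℝ) : ℂ) by push_cast; ring, Complex.re_ofReal_mul]
  -- a choice of points
  have hex : ∀ ρ : ℝ, ∃ z : ℂ, 0 < ρ → ρ < min ρ0 (2 * Real.cos ω1) →
      z ∈ ball (0 : ℂ) 1 ∧ ‖z - 1‖ = ρ ∧
      Real.sin (c / 2) * ‖p2 z * ((1 - z) ^ 2 * Sm ν z)‖ ≤
        (p2 z * ((1 - z) ^ 2 * Sm ν z)).re := by
    intro ρ
    by_cases hρ : 0 < ρ ∧ ρ < min ρ0 (2 * Real.cos ω1)
    · obtain ⟨ha, hb⟩ := hq ρ hρ.1 (hρ.2.trans_le (min_le_left _ _))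
      obtain ⟨z, h1, h2, h3⟩ := case2_point hp2 ν hωpos hω1 hc0 hc1 hρ.1
        (hρ.2.trans_le (min_le_right _ _)) (hcc.trans ha) (by linarith)
      exact ⟨z, fun _ _ => ⟨h1, h2, h3⟩⟩
    · exact ⟨0, fun h1 h2 => absurd ⟨h1, h2⟩ hρ⟩
  choose w hw using hex
  have hsmall : ∀ᶠ ρ : ℝ in 𝓝[>] 0, 0 < ρ ∧ ρ < min ρ0 (2 * Real.cos ω1) :=
    Ioo_mem_nhdsGT (lt_min hρ0 (by positivity))
  have hw1 : Tendsto w (𝓝[>] 0) (𝓝 1) := by
    rw [tendsto_iff_norm_sub_tendsto_zero]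
    have h1 : Tendsto (fun ρ : ℝ => ρ) (𝓝[>] 0) (𝓝 0) := tendsto_id.mono_left nhdsWithin_le_nhds
    refine h1.congr' ?_
    filter_upwards [hsmall] with ρ hρ
    exact (hw ρ hρ.1 hρ.2).2.1.symm
  obtain ⟨hne1, hm0, hm1⟩ := case2_mob_one hφ0 hφ1
  set m := mob (yy φ0) 1 with hm
  have hmob : Tendsto (fun ρ => mob (yy φ0) (w ρ)) (𝓝[>] 0) (𝓝 m) := by
    have hc : ContinuousAt (mob (yy φ0)) 1 := by
      unfold mob
      exact ContinuousAt.div (by fun_prop) (by fun_prop) hne1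
    exact hc.tendsto.comp hw1
  -- `B → 0`
  have hB : Tendsto (fun ρ => p2 (w ρ) * ((1 - w ρ) ^ 2 * Sm ν (w ρ))) (𝓝[>] 0) (𝓝 0) := by
    rw [tendsto_zero_iff_norm_tendsto_zero]
    have h1 : Tendsto (fun ρ => (mob (yy φ0) (w ρ)).re / ((1 - l) * Real.sin (c / 2)))
        (𝓝[>] 0) (𝓝 (m.re / ((1 - l) * Real.sin (c / 2)))) :=
      ((Complex.continuous_re.tendsto _).comp hmob).div_const _
    rw [hm0, zero_div] at h1
    refine squeeze_zero' (Eventually.of_forall fun _ => norm_nonneg _) ?_ h1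
    filter_upwards [hsmall] with ρ hρ
    obtain ⟨h2, -, h3⟩ := hw ρ hρ.1 hρ.2
    rw [le_div_iff₀ (mul_pos (sub_pos.2 hl1) hs)]
    have h4 := hre _ h2
    have h5 := hp1.2.2 _ h2
    have h6 := mul_le_mul_of_nonneg_left h3 (sub_pos.2 hl1).le
    nlinarith [mul_pos hl0 h5]
  -- `p1 → m / l`
  have hl0' : (l : ℂ) ≠ 0 := by exact_mod_cast hl0.ne'
  have hp : Tendsto (fun ρ => p1 (w ρ)) (𝓝[>] 0) (𝓝 (m / l)) := by
    have h1 : Tendsto (fun ρ => (mob (yy φ0) (w ρ) - (1 - l) *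
        (p2 (w ρ) * ((1 - w ρ) ^ 2 * Sm ν (w ρ)))) / l) (𝓝[>] 0) (𝓝 ((m - (1 - l) * 0) / l)) :=
      (hmob.sub (hB.const_mul _)).div_const _
    rw [mul_zero, sub_zero] at h1
    refine h1.congr' ?_
    filter_upwards [hsmall] with ρ hρ
    rw [h _ (hw ρ hρ.1 hρ.2).1]
    field_simp
    ring
  -- the limit of the bracket
  have hlim : Tendsto (fun ρ => ‖1 + mob (yy φ0) (w ρ)‖ ^ 2 - l * ‖1 + p1 (w ρ)‖ ^ 2)
      (𝓝[>] 0) (𝓝 (‖1 + m‖ ^ 2 - l * ‖1 + m / l‖ ^ 2)) :=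
    ((hmob.const_add 1).norm.pow 2).sub (((hp.const_add 1).norm.pow 2).const_mul l)
  have hneg : ‖1 + m‖ ^ 2 - l * ‖1 + m / l‖ ^ 2 < 0 := by
    have e1 : ‖1 + m‖ ^ 2 = 1 + m.im ^ 2 := by
      rw [← Complex.normSq_eq_norm_sq, Complex.normSq_apply, Complex.add_re, Complex.add_im, hm0,
        Complex.one_re, Complex.one_im]
      ring
    have e2 : ‖1 + m / l‖ ^ 2 = 1 + m.im ^ 2 / l ^ 2 := by
      rw [← Complex.normSq_eq_norm_sq, Complex.normSq_apply, Complex.add_re, Complex.add_im,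
        Complex.div_ofReal_re, Complex.div_ofReal_im, hm0, Complex.one_re, Complex.one_im]
      ring
    rw [e1, e2]
    have e3 : 1 + m.im ^ 2 - l * (1 + m.im ^ 2 / l ^ 2) = (1 - l) * (l - m.im ^ 2) / l := by
      field_simp
      ring
    rw [e3]
    exact div_neg_of_neg_of_pos (mul_neg_of_pos_of_neg (by linarith) (by linarith)) hl0
  obtain ⟨ρ, hρ, hb⟩ := (hsmall.and (hlim.eventually (gt_mem_nhds hneg))).exists
  obtain ⟨h2, -, h3⟩ := hw ρ hρ.1 hρ.2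
  have h4 := hre _ h2
  have h5 := cara_lower hp1 h2
  have h6 := mob_lower (norm_yy φ0) h2
  have h7 : 0 < 1 - ‖w ρ‖ ^ 2 := by
    have : ‖w ρ‖ < 1 := by simpa using h2
    nlinarith [norm_nonneg (w ρ)]
  have h8 : 0 ≤ (p2 (w ρ) * ((1 - w ρ) ^ 2 * Sm ν (w ρ))).re :=
    le_trans (mul_nonneg hs.le (norm_nonneg _)) h3
  have h9 := mul_nonneg (sub_pos.2 hl1).le h8
  have h10 := mul_neg_of_pos_of_neg h7 hb
  have h11 := mul_le_mul_of_nonneg_left h5 hl0.le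
  nlinarith

end Baz16
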