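import Pool.Agent.Baz16.RMono

/-! # Lower bound for the gain on `(pi, 2 pi)`.

For `θ ∈ [pi, 2 pi]`, `h_t(θ) = log |sin((θ-t)/2)|`: `t ↦ h_t(θ) - h_t(pi)` has derivative
`(1/2)(cot((pi-t)/2) - cot((θ-t)/2)) ≥ (θ - pi)/4` on `(0, pi)` (`cot' ≤ -1`), hence
`log rr θ - log rr pi ≤ 2 m [(h_{q2}(θ) - h_{q2}(pi)) - (h_{p1}(θ) - h_{p1}(pi))]
 ≤ - 2 m (p1 - q2)(θ - pi)/4`.  Then `rr pi - rr θ ≥ rr θ (log rr pi - log rr θ)`.
`rr_lower`: `rr θ ≥ rr (2 pi) ≥ exp(2 m log (2 sin(p2/2)) - 2 m log 2) = sin(p2/2)^(2m)`. -/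

namespace Baz16
open Complex Metric MeasureTheory Set Filter Topology

variable (μ2 μ1 : Measure ℝ) [IsFiniteMeasure μ2] [IsFiniteMeasure μ1] (p2 q2 p1 q1 : ℝ)

private theorem gain_ae {μ : Measure ℝ} {a b : ℝ} (h : μ (Icc a b)ᶜ = 0) :
    ∀ᵐ t ∂μ, t ∈ Icc a b := by
  rw [ae_iff]
  exact h

private theorem gain_sin_pos {x t : ℝ} (h0 : t < x) (h1 : x < t + 2 * Real.pi) :
    0 < Real.sin ((x - t) / 2) :=
  Real.sin_pos_of_pos_of_lt_pi (by linarith) (by linarith)

private theorem gain_good {μ : Measure ℝ} [IsFiniteMeasure μ] {a b : ℝ}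
    (h : μ (Icc a b)ᶜ = 0) {θ : ℝ} (hb : b < θ) (ha : θ < a + 2 * Real.pi) :
    Integrable (fun t => Real.log (2 * |Real.sin ((θ - t) / 2)|)) μ := by
  have h2 : μ.restrict (Icc a b) = μ := Measure.restrict_eq_self_of_ae_mem (gain_ae h)
  rw [← h2]
  refine ContinuousOn.integrableOn_compact isCompact_Icc ?_
  refine ContinuousOn.log (by fun_prop) ?_
  intro t ht
  have := gain_sin_pos (x := θ) (t := t) (by linarith [ht.2]) (by linarith [ht.1])
  positivity

/-- `cot a - cot b ≥ b - a` -/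
private theorem gain_cot {a b : ℝ} (ha : 0 < a) (hab : a ≤ b) (hb : b < Real.pi) :
    b - a ≤ Real.cos a / Real.sin a - Real.cos b / Real.sin b := by
  have hsa : 0 < Real.sin a := Real.sin_pos_of_pos_of_lt_pi ha (by linarith)
  have hsb : 0 < Real.sin b := Real.sin_pos_of_pos_of_lt_pi (by linarith) hb
  rw [div_sub_div _ _ hsa.ne' hsb.ne', le_div_iff₀ (mul_pos hsa hsb)]
  have e1 : Real.cos a * Real.sin b - Real.sin a * Real.cos b = Real.sin (b - a) := by
    rw [Real.sin_sub]; ring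
  rw [e1]
  set δ := (b - a) / 2 with hδ
  have hδ0 : 0 ≤ δ := by rw [hδ]; linarith
  have hδ1 : δ < Real.pi / 2 := by rw [hδ]; linarith
  have hc : 0 < Real.cos δ := Real.cos_pos_of_mem_Ioo ⟨by linarith, hδ1⟩
  have ht : δ ≤ Real.tan δ := Real.le_tan hδ0 hδ1
  rw [Real.tan_eq_sin_div_cos, le_div_iff₀ hc] at ht
  have e2 : b - a = 2 * δ := by rw [hδ]; ring
  have e3 : Real.sin a * Real.sin b ≤ Real.cos δ ^ 2 := by
    have h1 : Real.sin a * Real.sin b = (Real.cos (b - a) - Real.cos (a + b)) / 2 := by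
      rw [Real.cos_sub, Real.cos_add]; ring
    have h2 : Real.cos (b - a) = 2 * Real.cos δ ^ 2 - 1 := by
      rw [e2, Real.cos_two_mul]
    have h3 := Real.neg_one_le_cos (a + b)
    rw [h1, h2]
    linarith
  rw [e2, Real.sin_two_mul]
  calc 2 * δ * (Real.sin a * Real.sin b) ≤ 2 * δ * Real.cos δ ^ 2 :=
        mul_le_mul_of_nonneg_left e3 (by linarith)
    _ = 2 * (δ * Real.cos δ) * Real.cos δ := by ring
    _ ≤ 2 * Real.sin δ * Real.cos δ := by
        refine mul_le_mul_of_nonneg_right ?_ hc.le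
        linarith

private noncomputable def gk (θ t : ℝ) : ℝ :=
  Real.log (2 * Real.sin ((θ - t) / 2)) - Real.log (2 * Real.sin ((Real.pi - t) / 2))

private theorem gk_mono {θ : ℝ} (hθ : Real.pi ≤ θ) (hθ' : θ ≤ 2 * Real.pi) {t t' : ℝ}
    (h0 : 0 < t) (htt : t ≤ t') (h1 : t' < Real.pi) :
    gk θ t + (t' - t) * ((θ - Real.pi) / 4) ≤ gk θ t' := by
  have hpi := Real.pi_pos
  have hd : ∀ s ∈ Icc t t', HasDerivAt (fun s => gk θ s - s * ((θ - Real.pi) / 4))
      ((2 * (Real.cos ((θ - s) / 2) * (-1 / 2))) / (2 * Real.sin ((θ - s) / 2)) -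
        (2 * (Real.cos ((Real.pi - s) / 2) * (-1 / 2))) / (2 * Real.sin ((Real.pi - s) / 2)) -
          1 * ((θ - Real.pi) / 4)) s := by
    intro s hs
    have a1 : 0 < Real.sin ((θ - s) / 2) := gain_sin_pos (by linarith [hs.2]) (by linarith [hs.1])
    have a2 : 0 < Real.sin ((Real.pi - s) / 2) :=
      gain_sin_pos (by linarith [hs.2]) (by linarith [hs.1])
    have d : ∀ x : ℝ, HasDerivAt (fun s : ℝ => (x - s) / 2) (-1 / 2) s := fun x =>
      ((hasDerivAt_id s).const_sub x).div_const 2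
    have d1 := (((d θ).sin).const_mul 2).log (by positivity)
    have d2 := (((d Real.pi).sin).const_mul 2).log (by positivity)
    exact (d1.sub d2).sub ((hasDerivAt_id s).mul_const _)
  have hmono : MonotoneOn (fun s => gk θ s - s * ((θ - Real.pi) / 4)) (Icc t t') := by
    refine monotoneOn_of_deriv_nonneg (convex_Icc _ _)
      (fun s hs => (hd s hs).continuousAt.continuousWithinAt)
      (fun s hs => (hd s (interior_subset hs)).differentiableAt.differentiableWithinAt) ?_
    intro s hs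
    have hs' := interior_subset hs
    rw [(hd s hs').deriv]
    have a1 : 0 < Real.sin ((θ - s) / 2) := gain_sin_pos (by linarith [hs'.2]) (by linarith [hs'.1])
    have a2 : 0 < Real.sin ((Real.pi - s) / 2) :=
      gain_sin_pos (by linarith [hs'.2]) (by linarith [hs'.1])
    have hc := gain_cot (a := (Real.pi - s) / 2) (b := (θ - s) / 2) (by linarith [hs'.2])
      (by linarith) (by linarith [hs'.1])
    have e1 : (2 * (Real.cos ((θ - s) / 2) * (-1 / 2))) / (2 * Real.sin ((θ - s) / 2)) =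
        -(1 / 2) * (Real.cos ((θ - s) / 2) / Real.sin ((θ - s) / 2)) := by
      field_simp
    have e2 : (2 * (Real.cos ((Real.pi - s) / 2) * (-1 / 2))) / (2 * Real.sin ((Real.pi - s) / 2)) =
        -(1 / 2) * (Real.cos ((Real.pi - s) / 2) / Real.sin ((Real.pi - s) / 2)) := by
      field_simp
    rw [e1, e2]
    linarith
  have := hmono (left_mem_Icc.2 htt) (right_mem_Icc.2 htt) htt
  simp only at this
  linarith

private theorem rr_good {μ2 μ1 : Measure ℝ} {θ : ℝ}
    (h : Integrable (fun t => Real.log (2 * |Real.sin ((θ - t) / 2)|)) μ2) :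
    rr μ2 μ1 θ = Real.exp (2 * pot μ2 θ - 2 * pot μ1 θ) := by
  unfold rr
  exact if_pos h

theorem rr_gain (h2 : μ2 (Icc p2 q2)ᶜ = 0) (h1 : μ1 (Icc p1 q1)ᶜ = 0)
    (hm : μ2.real univ = μ1.real univ) (h0 : 0 < p2) (h02 : p2 ≤ q2) (h21 : q2 < p1)
    (h11 : p1 ≤ q1) (h1π : q1 < Real.pi) {θ : ℝ} (hθ : Real.pi ≤ θ)
    (hθ' : θ ≤ 2 * Real.pi) :
    rr μ2 μ1 θ * (μ2.real univ * (p1 - q2) * (θ - Real.pi) / 2) ≤
      rr μ2 μ1 Real.pi - rr μ2 μ1 θ := by
  have hpi := Real.pi_pos
  have g2 := gain_good h2 (θ := θ) (by linarith) (by linarith)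
  have g1 := gain_good h1 (θ := θ) (by linarith) (by linarith)
  have g2' := gain_good h2 (θ := Real.pi) (by linarith) (by linarith)
  have g1' := gain_good h1 (θ := Real.pi) (by linarith) (by linarith)
  rw [rr_good g2, rr_good g2']
  have hk : ∀ t, 0 < t → t < Real.pi → Real.log (2 * |Real.sin ((θ - t) / 2)|) -
      Real.log (2 * |Real.sin ((Real.pi - t) / 2)|) = gk θ t := by
    intro t ht ht'
    rw [abs_of_pos (gain_sin_pos (by linarith) (by linarith)),
      abs_of_pos (gain_sin_pos (by linarith) (by linarith))]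
    rfl
  have a1 : pot μ2 θ - pot μ2 Real.pi ≤ μ2.real univ * gk θ q2 := by
    unfold pot
    rw [← integral_sub g2 g2']
    calc _ ≤ ∫ _t, gk θ q2 ∂μ2 := by
          refine integral_mono_ae (g2.sub g2') (integrable_const _) ?_
          filter_upwards [gain_ae h2] with t ht
          rw [hk t (by linarith [ht.1]) (by linarith [ht.2])]
          have := gk_mono hθ hθ' (t := t) (t' := q2) (by linarith [ht.1]) ht.2 (by linarith)
          have h3 : 0 ≤ (q2 - t) * ((θ - Real.pi) / 4) :=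
            mul_nonneg (by linarith [ht.2]) (by linarith)
          linarith
      _ = _ := by rw [integral_const, smul_eq_mul]
  have a2 : μ2.real univ * gk θ p1 ≤ pot μ1 θ - pot μ1 Real.pi := by
    unfold pot
    rw [← integral_sub g1 g1']
    calc μ2.real univ * gk θ p1 = ∫ _t, gk θ p1 ∂μ1 := by rw [integral_const, smul_eq_mul, hm]
      _ ≤ _ := by
          refine integral_mono_ae (integrable_const _) (g1.sub g1') ?_
          filter_upwards [gain_ae h1] with t ht
          rw [hk t (by linarith [ht.1]) (by linarith [ht.2])]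
          have := gk_mono hθ hθ' (t := p1) (t' := t) (by linarith) ht.1 (by linarith [ht.2])
          have h3 : 0 ≤ (t - p1) * ((θ - Real.pi) / 4) :=
            mul_nonneg (by linarith [ht.1]) (by linarith)
          linarith
  have a3 := gk_mono hθ hθ' (t := q2) (t' := p1) (by linarith) h21.le (by linarith)
  have hm0 : 0 ≤ μ2.real univ := measureReal_nonneg
  have a4 : μ2.real univ * (gk θ q2 + (p1 - q2) * ((θ - Real.pi) / 4)) ≤
      μ2.real univ * gk θ p1 := mul_le_mul_of_nonneg_left a3 hm0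
  have a5 : μ2.real univ * (p1 - q2) * (θ - Real.pi) / 2 ≤
      (2 * pot μ2 Real.pi - 2 * pot μ1 Real.pi) - (2 * pot μ2 θ - 2 * pot μ1 θ) := by
    nlinarith
  set A := 2 * pot μ2 Real.pi - 2 * pot μ1 Real.pi
  set B := 2 * pot μ2 θ - 2 * pot μ1 θ
  have e : Real.exp A = Real.exp B * Real.exp (A - B) := by
    rw [← Real.exp_add]
    ring_nf
  have e' := Real.add_one_le_exp (A - B)
  have e'' : Real.exp B * (μ2.real univ * (p1 - q2) * (θ - Real.pi) / 2 + 1) ≤
      Real.exp B * Real.exp (A - B) :=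
    mul_le_mul_of_nonneg_left (by linarith) (Real.exp_pos _).le
  rw [← e] at e''
  linarith

theorem rr_lower (h2 : μ2 (Icc p2 q2)ᶜ = 0) (h1 : μ1 (Icc p1 q1)ᶜ = 0)
    (hm : μ2.real univ = μ1.real univ) (hm1 : μ2.real univ ≤ 1 / 2)
    (h0 : 0 < p2) (h02 : p2 ≤ q2) (h21 : q2 < p1)
    (h11 : p1 ≤ q1) (h1π : q1 < Real.pi) {θ : ℝ} (hθ : Real.pi ≤ θ)
    (hθ' : θ ≤ 2 * Real.pi) : Real.sin (p2 / 2) ≤ rr μ2 μ1 θ := by
  have hpi := Real.pi_pos
  refine le_trans ?_ (rr_anti_right μ2 μ1 p2 q2 p1 q1 h2 h1 hm h0 h02 h21 h11 h1π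
    (θ := θ) (θ' := 2 * Real.pi) (by linarith) hθ' le_rfl)
  have g2 := gain_good h2 (θ := 2 * Real.pi) (by linarith) (by linarith)
  have g1 := gain_good h1 (θ := 2 * Real.pi) (by linarith) (by linarith)
  rw [rr_good g2]
  have hs : 0 < Real.sin (p2 / 2) := Real.sin_pos_of_pos_of_lt_pi (by linarith) (by linarith)
  have es : ∀ t : ℝ, Real.sin ((2 * Real.pi - t) / 2) = Real.sin (t / 2) := by
    intro t
    rw [show (2 * Real.pi - t) / 2 = Real.pi - t / 2 by ring, Real.sin_pi_sub]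
  have a1 : μ2.real univ * Real.log (2 * Real.sin (p2 / 2)) ≤ pot μ2 (2 * Real.pi) := by
    unfold pot
    calc μ2.real univ * Real.log (2 * Real.sin (p2 / 2)) =
        ∫ _t, Real.log (2 * Real.sin (p2 / 2)) ∂μ2 := by rw [integral_const, smul_eq_mul]
      _ ≤ _ := by
          refine integral_mono_ae (integrable_const _) g2 ?_
          filter_upwards [gain_ae h2] with t ht
          have h3 : Real.sin (p2 / 2) ≤ Real.sin (t / 2) :=
            Real.sin_le_sin_of_le_of_le_pi_div_two (by linarith) (by linarith [ht.2])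
              (by linarith [ht.1])
          rw [es, abs_of_pos (lt_of_lt_of_le hs h3)]
          exact Real.log_le_log (by positivity) (by linarith)
  have a2 : pot μ1 (2 * Real.pi) ≤ μ2.real univ * Real.log 2 := by
    unfold pot
    calc _ ≤ ∫ _t, Real.log 2 ∂μ1 := by
          refine integral_mono_ae g1 (integrable_const _) ?_
          filter_upwards [gain_ae h1] with t ht
          have h3 : 0 < Real.sin (t / 2) :=
            Real.sin_pos_of_pos_of_lt_pi (by linarith [ht.1]) (by linarith [ht.2])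
          rw [es, abs_of_pos h3]
          exact Real.log_le_log (by positivity) (by linarith [Real.sin_le_one (t / 2)])
      _ = _ := by rw [integral_const, smul_eq_mul, hm]
  have hl : Real.log (2 * Real.sin (p2 / 2)) = Real.log 2 + Real.log (Real.sin (p2 / 2)) :=
    Real.log_mul two_ne_zero hs.ne'
  have hln : Real.log (Real.sin (p2 / 2)) ≤ 0 := Real.log_nonpos hs.le (Real.sin_le_one _)
  have hm0 : 0 ≤ μ2.real univ := measureReal_nonneg
  calc Real.sin (p2 / 2) = Real.exp (Real.log (Real.sin (p2 / 2))) := (Real.exp_log hs).symm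
    _ ≤ _ := by
        rw [Real.exp_le_exp]
        rw [hl] at a1
        nlinarith

theorem gain_int (h2 : μ2 (Icc p2 q2)ᶜ = 0) (h1 : μ1 (Icc p1 q1)ᶜ = 0)
    (hm : μ2.real univ = μ1.real univ) (hm1 : μ2.real univ ≤ 1 / 2)
    (h0 : 0 < p2) (h02 : p2 ≤ q2) (h21 : q2 < p1)
    (h11 : p1 ≤ q1) (h1π : q1 < Real.pi) :
    Real.sin (p2 / 2) * (μ2.real univ * (p1 - q2)) * (Real.pi ^ 2 / 4) ≤
      ∫ θ in Ioo Real.pi (2 * Real.pi), (rr μ2 μ1 Real.pi - rr μ2 μ1 θ) := by
  have hpi := Real.pi_pos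
  have hm0 : 0 ≤ μ2.real univ := measureReal_nonneg
  have hs : 0 < Real.sin (p2 / 2) := Real.sin_pos_of_pos_of_lt_pi (by linarith) (by linarith)
  have hanti : AntitoneOn (rr μ2 μ1) (Icc Real.pi (2 * Real.pi)) := by
    intro x hx y hy hxy
    exact rr_anti_right μ2 μ1 p2 q2 p1 q1 h2 h1 hm h0 h02 h21 h11 h1π
      (by linarith [hx.1]) hxy hy.2
  have hint : IntegrableOn (rr μ2 μ1) (Icc Real.pi (2 * Real.pi)) volume :=
    hanti.integrableOn_isCompact isCompact_Icc
  have hint' : IntegrableOn (fun θ => rr μ2 μ1 Real.pi - rr μ2 μ1 θ)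
      (Ioo Real.pi (2 * Real.pi)) volume := by
    refine Integrable.sub ?_ (hint.mono_set Ioo_subset_Icc_self)
    exact integrableOn_const (by simp [Real.volume_Ioo])
  have hint2 : IntegrableOn (fun θ => Real.sin (p2 / 2) * (μ2.real univ * (p1 - q2)) *
      ((θ - Real.pi) / 2)) (Ioo Real.pi (2 * Real.pi)) volume := by
    refine IntegrableOn.mono_set (t := Icc Real.pi (2 * Real.pi)) ?_ Ioo_subset_Icc_self
    exact ContinuousOn.integrableOn_compact isCompact_Icc (by fun_prop)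
  have hv : ∫ θ in Ioo Real.pi (2 * Real.pi), Real.sin (p2 / 2) * (μ2.real univ * (p1 - q2)) *
      ((θ - Real.pi) / 2) = Real.sin (p2 / 2) * (μ2.real univ * (p1 - q2)) *
        (Real.pi ^ 2 / 4) := by
    rw [← integral_Ioc_eq_integral_Ioo, ← intervalIntegral.integral_of_le (by linarith)]
    rw [intervalIntegral.integral_const_mul]
    congr 1
    have : ∀ x : ℝ, (x - Real.pi) / 2 = (1 / 2) * (x - Real.pi) := fun x => by ring
    simp_rw [this]
    rw [intervalIntegral.integral_const_mul, intervalIntegral.integral_sub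
      intervalIntegral.intervalIntegrable_id intervalIntegrable_const, integral_id, intervalIntegral.integral_const, smul_eq_mul]
    ring
  rw [← hv]
  refine setIntegral_mono_on hint2 hint' measurableSet_Ioo ?_
  intro θ hθ
  have e1 := rr_gain μ2 μ1 p2 q2 p1 q1 h2 h1 hm h0 h02 h21 h11 h1π hθ.1.le hθ.2.le
  have e2 := rr_lower μ2 μ1 p2 q2 p1 q1 h2 h1 hm hm1 h0 h02 h21 h11 h1π hθ.1.le hθ.2.le
  refine le_trans ?_ e1
  have e3 : 0 ≤ μ2.real univ * (p1 - q2) * (θ - Real.pi) / 2 := by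
    have := hθ.1
    have h3 : 0 ≤ p1 - q2 := by linarith
    have h4 : 0 ≤ θ - Real.pi := by linarith
    positivity
  calc Real.sin (p2 / 2) * (μ2.real univ * (p1 - q2)) * ((θ - Real.pi) / 2) =
      Real.sin (p2 / 2) * (μ2.real univ * (p1 - q2) * (θ - Real.pi) / 2) := by ring
    _ ≤ _ := mul_le_mul_of_nonneg_right e2 e3

end Baz16
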