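import Pool.Agent.Baz16.Defs

/-! # The function `Ph x b = arg (1 - x e^{ib})`, `0 ≤ x ≤ 1/4`.

`Ph x b = - arctan (x sin b / (1 - x cos b))`; `d/dx Ph = - sin b / |1 - x e^{ib}|^2` with
`9/16 ≤ |1 - x e^{ib}|^2 ≤ 25/16`. -/

namespace Baz16
open Complex Metric MeasureTheory Set Filter Topology

private theorem phi_re (x b : ℝ) : (1 - (x : ℂ) * cexp (b * I)).re = 1 - x * Real.cos b := by
  simp [Complex.exp_re, Complex.exp_im]

private theorem phi_im (x b : ℝ) : (1 - (x : ℂ) * cexp (b * I)).im = -(x * Real.sin b) := by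
  simp [Complex.exp_re, Complex.exp_im]

private theorem phi_den {x : ℝ} (b : ℝ) (hx : 0 ≤ x) (hx1 : x ≤ 1 / 4) :
    3 / 4 ≤ 1 - x * Real.cos b := by
  nlinarith [Real.cos_le_one b, Real.neg_one_le_cos b]

theorem Ph_eq {x b : ℝ} (hx : 0 ≤ x) (hx1 : x ≤ 1 / 4) :
    Ph x b = -Real.arctan (x * Real.sin b / (1 - x * Real.cos b)) := by
  have hd := phi_den b hx hx1
  have h1 : Real.tan (Ph x b) = -(x * Real.sin b / (1 - x * Real.cos b)) := by
    unfold Ph
    rw [Complex.tan_arg, phi_re, phi_im, neg_div]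
  have h2 : |Ph x b| < Real.pi / 2 := by
    unfold Ph
    rw [Complex.abs_arg_lt_pi_div_two_iff]
    left
    rw [phi_re]
    linarith
  rw [← Real.arctan_neg, ← h1, Real.arctan_tan]
  · exact (abs_lt.1 h2).1
  · exact (abs_lt.1 h2).2

private theorem phi_half {c : ℝ} (hc : |c| ≤ Real.pi / 3) : 1 / 2 ≤ Real.cos c := by
  rw [← Real.cos_pi_div_three, ← Real.cos_abs c]
  exact Real.cos_le_cos_of_nonneg_of_le_pi (abs_nonneg c) (by linarith [Real.pi_pos]) hc

theorem Ph_anti {x b b' : ℝ} (hx : 0 ≤ x) (hx1 : x ≤ 1 / 4) (hb : |b| ≤ Real.pi / 3)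
    (hb' : |b'| ≤ Real.pi / 3) (h : b ≤ b') : Ph x b' ≤ Ph x b := by
  rw [Ph_eq hx hx1, Ph_eq hx hx1]
  apply neg_le_neg
  apply Real.arctan_mono
  have hd := phi_den b hx hx1
  have hd' := phi_den b' hx hx1
  rw [div_le_div_iff₀ (by linarith) (by linarith)]
  have hpi := Real.pi_pos
  obtain ⟨h1, h2⟩ := abs_le.1 hb
  obtain ⟨h3, h4⟩ := abs_le.1 hb'
  have hs : 0 ≤ Real.sin ((b' - b) / 2) :=
    Real.sin_nonneg_of_nonneg_of_le_pi (by linarith) (by linarith)
  have hc : 1 / 2 ≤ Real.cos ((b' + b) / 2) := phi_half (by rw [abs_le]; constructor <;> linarith)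
  have e1 : Real.sin b' - Real.sin b = 2 * Real.sin ((b' - b) / 2) * Real.cos ((b' + b) / 2) := by
    rw [Real.sin_sub_sin]
  have e2 : Real.sin (b' - b) = 2 * Real.sin ((b' - b) / 2) * Real.cos ((b' - b) / 2) := by
    rw [← Real.sin_two_mul]; congr 1; ring
  have e3 : Real.sin b' * Real.cos b - Real.cos b' * Real.sin b = Real.sin (b' - b) := by
    rw [Real.sin_sub]
  have key : 0 ≤ Real.cos ((b' + b) / 2) - x * Real.cos ((b' - b) / 2) := by
    have := Real.cos_le_one ((b' - b) / 2)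
    nlinarith
  have key2 : 0 ≤ (Real.sin b' - Real.sin b) - x * Real.sin (b' - b) := by
    rw [e1, e2]
    have : 0 ≤ 2 * Real.sin ((b' - b) / 2) *
        (Real.cos ((b' + b) / 2) - x * Real.cos ((b' - b) / 2)) := by positivity
    linarith
  have : x * Real.sin b' * (1 - x * Real.cos b) - x * Real.sin b * (1 - x * Real.cos b')
      = x * ((Real.sin b' - Real.sin b) -
          x * (Real.sin b' * Real.cos b - Real.cos b' * Real.sin b)) := by ring
  rw [e3] at this
  have h5 : 0 ≤ x * ((Real.sin b' - Real.sin b) - x * Real.sin (b' - b)) := mul_nonneg hx key2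
  linarith

private theorem phi_diff {x x' b : ℝ} (hx : 0 ≤ x) (hx1 : x ≤ 1 / 4) (hx' : 0 ≤ x')
    (hx1' : x' ≤ 1 / 4) :
    x' * Real.sin b / (1 - x' * Real.cos b) - x * Real.sin b / (1 - x * Real.cos b) =
      Real.sin b * (x' - x) / ((1 - x * Real.cos b) * (1 - x' * Real.cos b)) := by
  have hd := phi_den b hx hx1
  have hd' := phi_den b hx' hx1'
  have h1 : (1 - x * Real.cos b) ≠ 0 := by linarith
  have h2 : (1 - x' * Real.cos b) ≠ 0 := by linarith
  rw [div_sub_div _ _ h2 h1, div_eq_div_iff (mul_ne_zero h2 h1) (mul_ne_zero h1 h2)]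
  ring

theorem Ph_anti_x {x x' b : ℝ} (hx : 0 ≤ x) (hxx : x ≤ x') (hx1 : x' ≤ 1 / 4) (hb : 0 ≤ b)
    (hb' : b ≤ Real.pi / 3) : Ph x' b ≤ Ph x b := by
  have hx0 : x ≤ 1 / 4 := hxx.trans hx1
  have hx' : 0 ≤ x' := hx.trans hxx
  rw [Ph_eq hx hx0, Ph_eq hx' hx1]
  apply neg_le_neg
  apply Real.arctan_mono
  have hd := phi_den b hx hx0
  have hd' := phi_den b hx' hx1
  have hs : 0 ≤ Real.sin b := Real.sin_nonneg_of_nonneg_of_le_pi hb (by linarith [Real.pi_pos])
  have := phi_diff (b := b) hx hx0 hx' hx1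
  have h3 : 0 ≤ Real.sin b * (x' - x) / ((1 - x * Real.cos b) * (1 - x' * Real.cos b)) := by
    apply div_nonneg
    · exact mul_nonneg hs (by linarith)
    · exact mul_nonneg (by linarith) (by linarith)
  linarith

theorem Ph_mono_x {x x' b : ℝ} (hx : 0 ≤ x) (hxx : x ≤ x') (hx1 : x' ≤ 1 / 4)
    (hb : -(Real.pi / 3) ≤ b) (hb' : b ≤ 0) : Ph x b ≤ Ph x' b := by
  have hx0 : x ≤ 1 / 4 := hxx.trans hx1
  have hx' : 0 ≤ x' := hx.trans hxx
  rw [Ph_eq hx hx0, Ph_eq hx' hx1]
  apply neg_le_neg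
  apply Real.arctan_mono
  have hd := phi_den b hx hx0
  have hd' := phi_den b hx' hx1
  have hs : Real.sin b ≤ 0 := Real.sin_nonpos_of_nonpos_of_neg_pi_le hb' (by linarith [Real.pi_pos])
  have := phi_diff (b := b) hx hx0 hx' hx1
  have h3 : Real.sin b * (x' - x) / ((1 - x * Real.cos b) * (1 - x' * Real.cos b)) ≤ 0 := by
    apply div_nonpos_of_nonpos_of_nonneg
    · exact mul_nonpos_of_nonpos_of_nonneg hs (by linarith)
    · exact mul_nonneg (by linarith) (by linarith)
  linarith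

private theorem arctan_lip_le {u v : ℝ} (h : u ≤ v) : Real.arctan v - Real.arctan u ≤ v - u := by
  have h1 : ∀ t : ℝ, HasDerivAt (fun s => s - Real.arctan s) (1 - 1 / (1 + t ^ 2)) t := fun t =>
    (hasDerivAt_id t).sub (Real.hasDerivAt_arctan t)
  have hm : Monotone (fun s => s - Real.arctan s) := by
    apply monotone_of_deriv_nonneg
    · intro t
      exact (h1 t).differentiableAt
    · intro t
      rw [(h1 t).deriv]
      have : 1 / (1 + t ^ 2) ≤ 1 := by
        rw [div_le_one (by positivity)]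
        nlinarith [sq_nonneg t]
      linarith
  have := hm h
  simp only at this
  linarith

private theorem arctan_lip (u v : ℝ) : |Real.arctan u - Real.arctan v| ≤ |u - v| := by
  rcases le_total u v with h | h
  · have h1 := arctan_lip_le h
    have h2 := Real.arctan_mono h
    rw [abs_sub_comm, abs_sub_comm u v, abs_of_nonneg (by linarith), abs_of_nonneg (by linarith)]
    exact h1
  · have h1 := arctan_lip_le h
    have h2 := Real.arctan_mono h
    rw [abs_of_nonneg (by linarith), abs_of_nonneg (by linarith)]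
    exact h1

theorem Ph_lip {x x' b : ℝ} (hx : 0 ≤ x) (hx1 : x ≤ 1 / 4) (hx' : 0 ≤ x') (hx1' : x' ≤ 1 / 4) :
    |Ph x b - Ph x' b| ≤ 2 * |b| * |x - x'| := by
  rw [Ph_eq hx hx1, Ph_eq hx' hx1']
  have hd := phi_den b hx hx1
  have hd' := phi_den b hx' hx1'
  have e : -Real.arctan (x * Real.sin b / (1 - x * Real.cos b)) -
      -Real.arctan (x' * Real.sin b / (1 - x' * Real.cos b)) =
      Real.arctan (x' * Real.sin b / (1 - x' * Real.cos b)) -
        Real.arctan (x * Real.sin b / (1 - x * Real.cos b)) := by ring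
  rw [e]
  refine (arctan_lip _ _).trans ?_
  rw [phi_diff hx hx1 hx' hx1', abs_div, abs_mul, abs_sub_comm x' x]
  have hD : 9 / 16 ≤ |(1 - x * Real.cos b) * (1 - x' * Real.cos b)| := by
    rw [abs_of_nonneg (mul_nonneg (by linarith) (by linarith))]
    nlinarith
  have hs : |Real.sin b| ≤ |b| := Real.abs_sin_le_abs
  rw [div_le_iff₀ (by linarith)]
  have h1 : |Real.sin b| * |x - x'| ≤ |b| * |x - x'| :=
    mul_le_mul_of_nonneg_right hs (abs_nonneg _)
  have h0 : 0 ≤ |b| * |x - x'| := by positivity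
  nlinarith

private theorem arctan_half {s : ℝ} (hs : 0 ≤ s) (hs1 : s ≤ 1 / 4) : s / 2 ≤ Real.arctan s := by
  have hpi := Real.pi_gt_three
  have hc : 1 / 2 ≤ Real.cos (s / 2) := phi_half (by
    rw [abs_of_nonneg (by linarith)]; linarith)
  have ht : Real.tan (s / 2) ≤ s := by
    rw [Real.tan_eq_sin_div_cos, div_le_iff₀ (by linarith)]
    have := Real.sin_le (show 0 ≤ s / 2 by linarith)
    nlinarith
  have h1 : Real.arctan (Real.tan (s / 2)) = s / 2 :=
    Real.arctan_tan (by linarith) (by linarith)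
  rw [← h1]
  exact Real.arctan_mono ht

theorem Ph_gain {x x' b : ℝ} (hx : 0 ≤ x) (hxx : x ≤ x') (hx1 : x' ≤ 1 / 4) (hb : 0 ≤ b)
    (hb' : b ≤ Real.pi / 3) : (1 / 2) * Real.sin b * (x' - x) ≤ Ph x b - Ph x' b := by
  have hx0 : x ≤ 1 / 4 := hxx.trans hx1
  have hx' : 0 ≤ x' := hx.trans hxx
  rw [Ph_eq hx hx0, Ph_eq hx' hx1]
  have hd := phi_den b hx hx0
  have hd' := phi_den b hx' hx1
  have hs : 0 ≤ Real.sin b := Real.sin_nonneg_of_nonneg_of_le_pi hb (by linarith [Real.pi_pos])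
  have hs1 : Real.sin b ≤ 1 := Real.sin_le_one b
  have hc : 1 / 2 ≤ Real.cos b := phi_half (by rw [abs_of_nonneg hb]; exact hb')
  set u := x * Real.sin b / (1 - x * Real.cos b) with hu
  set u' := x' * Real.sin b / (1 - x' * Real.cos b) with hu'
  have hu0 : 0 ≤ u := div_nonneg (mul_nonneg hx hs) (by linarith)
  have hu0' : 0 ≤ u' := div_nonneg (mul_nonneg hx' hs) (by linarith)
  have e1 : Real.arctan u' - Real.arctan u = Real.arctan ((u' - u) / (1 + u' * u)) := by
    have h := Real.arctan_add (x := u') (y := -u) (by nlinarith)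
    rw [Real.arctan_neg] at h
    rw [sub_eq_add_neg, h]
    congr 1
    ring
  have hge : Real.sin b * (x' - x) ≤ (u' - u) / (1 + u' * u) := by
    rw [le_div_iff₀ (by positivity)]
    have h1 := phi_diff (b := b) hx hx0 hx' hx1
    have hP : 0 < (1 - x * Real.cos b) * (1 - x' * Real.cos b) :=
      mul_pos (by linarith) (by linarith)
    have h2 : u' * u = x * x' * Real.sin b ^ 2 / ((1 - x * Real.cos b) * (1 - x' * Real.cos b)) := by
      rw [hu, hu']
      field_simp
    have h1' : u' - u = Real.sin b * (x' - x) / ((1 - x * Real.cos b) * (1 - x' * Real.cos b)) := h1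
    rw [h1', h2, le_div_iff₀ hP]
    have h3 : Real.sin b * (x' - x) * (1 + x * x' * Real.sin b ^ 2 /
        ((1 - x * Real.cos b) * (1 - x' * Real.cos b))) *
        ((1 - x * Real.cos b) * (1 - x' * Real.cos b)) =
        Real.sin b * (x' - x) * ((1 - x * Real.cos b) * (1 - x' * Real.cos b) +
          x * x' * Real.sin b ^ 2) := by
      field_simp
    rw [h3]
    have h4 : (1 - x * Real.cos b) * (1 - x' * Real.cos b) + x * x' * Real.sin b ^ 2 =
        1 - (x + x') * Real.cos b + x * x' := by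
      have := Real.sin_sq_add_cos_sq b
      have : Real.sin b ^ 2 = 1 - Real.cos b ^ 2 := by linarith
      rw [this]; ring
    rw [h4]
    have h5 : 1 - (x + x') * Real.cos b + x * x' ≤ 1 := by nlinarith
    have h6 : 0 ≤ Real.sin b * (x' - x) := mul_nonneg hs (by linarith)
    nlinarith
  have h0 : 0 ≤ Real.sin b * (x' - x) := mul_nonneg hs (by linarith)
  have h14 : Real.sin b * (x' - x) ≤ 1 / 4 := by nlinarith
  have h7 := arctan_half h0 h14
  have h8 := Real.arctan_mono hge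
  have h9 : -Real.arctan u - -Real.arctan u' = Real.arctan u' - Real.arctan u := by ring
  rw [h9, e1]
  linarith

theorem Ph_zero (b : ℝ) : Ph 0 b = 0 := by simp [Ph]

theorem Ph_abs {x b : ℝ} (hx : 0 ≤ x) (hx1 : x ≤ 1 / 4) : |Ph x b| ≤ 2 * |b| * x := by
  have h := Ph_lip (b := b) hx hx1 le_rfl (by norm_num : (0 : ℝ) ≤ 1 / 4)
  rw [Ph_zero, sub_zero, sub_zero, abs_of_nonneg hx] at h
  exact h

theorem measurable_Ph : Measurable (fun p : ℝ × ℝ => Ph p.1 p.2) := by
  unfold Ph
  apply Complex.measurable_arg.comp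
  apply Continuous.measurable
  fun_prop

end Baz16
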