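import Pool.Agent.Baz16.Basic

/-! # Upper bounds for `g0` and `rr`.

`|1 - ρ e^{iφ}| ≥ |sin(φ/2)|` for `0 ≤ ρ ≤ 1` (square it: `(1-ρ)^2 + 4 ρ s^2 ≥ s^2`, `s^2 ≤ 1`).
For an interval of length `δ ≤ 1`, `∫_{[a,b]} - log |sin((θ - t)/2)| dt ≤ δ (log(2 pi/δ) + 1)`
(`|sin(u/2)| ≥ dist(u, 2 pi Z)/pi`, and `∫_0^δ log(2 pi... /u)`; any constant as below is fine).
With `m ≤ 1/8`: `(2 pi e/δ)^(2m) 2^(2m) ≤ 3 δ^(-1/4)`. -/

namespace Baz16
open Complex Metric MeasureTheory Set Filter Topology

theorem sin_le_norm {ρ φ : ℝ} (h0 : 0 ≤ ρ) (h1 : ρ ≤ 1) :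
    |Real.sin (φ / 2)| ≤ ‖1 - (ρ : ℂ) * cexp (φ * I)‖ := by
  have hre : (1 - (ρ : ℂ) * cexp (φ * I)).re = 1 - ρ * Real.cos φ := by
    rw [Complex.sub_re, Complex.one_re, Complex.re_ofReal_mul, Complex.exp_ofReal_mul_I_re]
  have him : (1 - (ρ : ℂ) * cexp (φ * I)).im = -(ρ * Real.sin φ) := by
    rw [Complex.sub_im, Complex.one_im, Complex.im_ofReal_mul, Complex.exp_ofReal_mul_I_im]
    ring
  have hc : Real.cos φ = 1 - 2 * Real.sin (φ / 2) ^ 2 := by
    have e1 := Real.cos_two_mul (φ / 2)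
    have e2 := Real.sin_sq_add_cos_sq (φ / 2)
    rw [show 2 * (φ / 2) = φ by ring] at e1
    linarith
  have hs := Real.sin_sq_add_cos_sq φ
  have hs2 : Real.sin (φ / 2) ^ 2 ≤ 1 := Real.sin_sq_le_one _
  have hs3 : 0 ≤ Real.sin (φ / 2) ^ 2 := sq_nonneg _
  rw [← Real.sqrt_sq_eq_abs, Complex.norm_def, Complex.normSq_apply, hre, him]
  refine Real.sqrt_le_sqrt ?_
  have key : (1 - ρ * Real.cos φ) * (1 - ρ * Real.cos φ) + -(ρ * Real.sin φ) * -(ρ * Real.sin φ)
      = (1 - ρ) ^ 2 + 4 * ρ * Real.sin (φ / 2) ^ 2 := by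
    have : (1 - ρ * Real.cos φ) * (1 - ρ * Real.cos φ) + -(ρ * Real.sin φ) * -(ρ * Real.sin φ)
      = 1 - 2 * ρ * Real.cos φ + ρ ^ 2 * (Real.sin φ ^ 2 + Real.cos φ ^ 2) := by ring
    rw [this, hs, hc]
    ring
  rw [key]
  nlinarith [mul_nonneg h0 hs3, mul_nonneg h0 (sub_nonneg.2 hs2)]

private theorem rbar_sin_eq (x : ℝ) : Real.log (2 * |Real.sin x|) = Real.log ‖2 * Real.sin x‖ := by
  rw [Real.norm_eq_abs, abs_mul, abs_of_pos (by norm_num : (0 : ℝ) < 2)]

private theorem rbar_mero (θ c a b : ℝ) :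
    IntervalIntegrable (fun t => Real.log ‖c * Real.sin ((θ - t) / 2)‖) volume a b := by
  refine MeromorphicOn.intervalIntegrable_log_norm (f := fun t => c * Real.sin ((θ - t) / 2)) ?_
  intro t _
  refine AnalyticAt.meromorphicAt ?_
  fun_prop

theorem integrable_log_sin_Icc (θ a b : ℝ) :
    IntegrableOn (fun t => Real.log (2 * |Real.sin ((θ - t) / 2)|)) (Icc a b) volume := by
  rcases le_or_gt a b with h | h
  · have h1 := rbar_mero θ 2 a b
    rw [intervalIntegrable_iff_integrableOn_Icc_of_le h] at h1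
    refine h1.congr_fun (fun t _ => ?_) measurableSet_Icc
    exact (rbar_sin_eq _).symm
  · rw [Icc_eq_empty (not_le.2 h)]
    exact integrableOn_empty

private theorem rbar_integrable (θ a b : ℝ) :
    IntervalIntegrable (fun t => -Real.log |Real.sin ((θ - t) / 2)|) volume a b := by
  have h1 := (rbar_mero θ 1 a b).neg
  refine h1.congr (fun t _ => ?_)
  simp [Real.norm_eq_abs]

/-- `-p log |p| - q log |q| ≤ (p + q) log (2 / (p + q))` for `p + q > 0` -/
private theorem rbar_entropy {p q : ℝ} (h : 0 < p + q) (hp : 0 ≤ p) :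
    -(p * Real.log p) - q * Real.log q ≤ (p + q) * Real.log (2 / (p + q)) := by
  rcases le_or_gt 0 q with hq | hq
  · have hc := Real.convexOn_mul_log
    have h1 := hc.2 (mem_Ici.2 hp) (mem_Ici.2 hq) (by norm_num : (0 : ℝ) ≤ 1 / 2)
      (by norm_num : (0 : ℝ) ≤ 1 / 2) (by norm_num)
    simp only [smul_eq_mul] at h1
    have h2 : Real.log (2 / (p + q)) = -Real.log ((1 / 2) * p + (1 / 2) * q) := by
      rw [← Real.log_inv]
      congr 1
      field_simp
      try ring
    rw [h2]
    nlinarith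
  · -- `p = δ + r`, `r = - q`
    obtain ⟨r, hr⟩ : ∃ r, r = -q := ⟨_, rfl⟩
    have hr0 : 0 < r := by rw [hr]; linarith
    have hq' : q = -r := by rw [hr]; ring
    rw [hq', Real.log_neg_eq_log]
    have hp' : 0 < p := by linarith
    have hpr : r < p := by rw [hr]; linarith
    have h1 : Real.log r ≤ Real.log p := Real.log_le_log hr0 hpr.le
    have h2 : Real.log (2 / (p + -r)) = Real.log 2 - Real.log (p + -r) :=
      Real.log_div (by norm_num) (by linarith)
    have h3 : Real.log (p + -r) ≤ Real.log p := Real.log_le_log (by linarith) (by linarith)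
    have h4 : 0 ≤ Real.log 2 := Real.log_nonneg (by norm_num)
    rw [h2]
    nlinarith [mul_nonneg hr0.le (sub_nonneg.2 h1), mul_nonneg (show 0 ≤ p + -r by linarith) h4,
      mul_nonneg (show 0 ≤ p + -r by linarith) (sub_nonneg.2 h3)]

/-- the integral of `log (π / |t - s|)` -/
private theorem rbar_int_log {s a b : ℝ} (hab : a < b) :
    ∫ t in a..b, (Real.log Real.pi - Real.log (t - s)) ≤
      (b - a) * (Real.log (2 * Real.pi / (b - a)) + 1) := by
  have hi : IntervalIntegrable (fun t => Real.log (t - s)) volume a b := by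
    have h := (intervalIntegral.intervalIntegrable_log' (a := a - s) (b := b - s)).comp_sub_right s
    simpa using h
  rw [intervalIntegral.integral_sub intervalIntegrable_const hi, intervalIntegral.integral_const,
    smul_eq_mul, intervalIntegral.integral_comp_sub_right (fun x => Real.log x) s, integral_log]
  have hd : 0 < b - a := by linarith
  have hpi := Real.pi_pos
  have h1 : Real.log (2 * Real.pi / (b - a)) = Real.log Real.pi + Real.log (2 / (b - a)) := by
    rw [← Real.log_mul (by positivity) (by positivity)]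
    congr 1
    ring
  rw [h1]
  have h2 : -((b - s) * Real.log (b - s)) + (a - s) * Real.log (a - s) ≤
      (b - a) * Real.log (2 / (b - a)) := by
    rcases le_or_gt s b with hs | hs
    · have h3 := rbar_entropy (p := b - s) (q := s - a) (by linarith) (by linarith)
      rw [show b - s + (s - a) = b - a by ring] at h3
      have h4 : (s - a) * Real.log (s - a) = -((a - s) * Real.log (a - s)) := by
        rw [show s - a = -(a - s) by ring, Real.log_neg_eq_log]
        ring
      rw [h4] at h3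
      linarith
    · have h3 := rbar_entropy (p := s - a) (q := b - s) (by linarith) (by linarith)
      rw [show s - a + (b - s) = b - a by ring] at h3
      have h4 : (s - a) * Real.log (s - a) = -((a - s) * Real.log (a - s)) := by
        rw [show s - a = -(a - s) by ring, Real.log_neg_eq_log]
        ring
      rw [h4] at h3
      linarith
  linarith

theorem integral_neg_log_sin_le (θ a b : ℝ) (hab : a < b) (hb : b - a ≤ 1) :
    ∫ t in Icc a b, -Real.log |Real.sin ((θ - t) / 2)| ≤
      (b - a) * (Real.log (2 * Real.pi / (b - a)) + 1) := by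
  have hpi := Real.pi_pos
  have hpi3 := Real.pi_gt_three
  rw [integral_Icc_eq_integral_Ioc, ← intervalIntegral.integral_of_le hab.le]
  -- the point `s` congruent to `θ` closest to the middle
  obtain ⟨k, s, hk, hs⟩ : ∃ (k : ℤ) (s : ℝ), θ = s + k * (2 * Real.pi) ∧
      |(a + b) / 2 - s| ≤ Real.pi := by
    refine ⟨round ((θ - (a + b) / 2) / (2 * Real.pi)),
      θ - round ((θ - (a + b) / 2) / (2 * Real.pi)) * (2 * Real.pi), by ring, ?_⟩
    have h1 := abs_sub_round ((θ - (a + b) / 2) / (2 * Real.pi))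
    have h2 : (a + b) / 2 - (θ - round ((θ - (a + b) / 2) / (2 * Real.pi)) * (2 * Real.pi))
        = -(((θ - (a + b) / 2) / (2 * Real.pi) - round ((θ - (a + b) / 2) / (2 * Real.pi)))
          * (2 * Real.pi)) := by
      field_simp
      ring
    rw [h2, abs_neg, abs_mul, abs_of_pos (show 0 < 2 * Real.pi by positivity)]
    nlinarith
  have hsin : ∀ t, |Real.sin ((θ - t) / 2)| = |Real.sin ((t - s) / 2)| := by
    intro t
    have h1 : (θ - t) / 2 = -((t - s) / 2) + k * Real.pi := by rw [hk]; ring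
    rw [h1, Real.sin_add_int_mul_pi, abs_mul, Real.sin_neg, abs_neg]
    have h2 : |((-1 : ℝ)) ^ k| = 1 := by rw [abs_zpow, abs_neg, abs_one, one_zpow]
    rw [h2, one_mul]
  have hI := rbar_integrable θ a b
  by_cases hcase : -Real.pi ≤ a - s ∧ b - s ≤ Real.pi
  · refine le_trans ?_ (rbar_int_log (s := s) hab)
    have hi : IntervalIntegrable (fun t => Real.log (t - s)) volume a b := by
      have h := (intervalIntegral.intervalIntegrable_log' (a := a - s) (b := b - s)).comp_sub_right s
      simpa using h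
    refine intervalIntegral.integral_mono_on_of_le_Ioo hab.le hI
      (intervalIntegrable_const.sub hi) (fun t ht => ?_)
    rw [hsin]
    by_cases h0 : t - s = 0
    · rw [h0]
      simp only [zero_div, Real.sin_zero, abs_zero, Real.log_zero, neg_zero, sub_zero]
      exact Real.log_nonneg (by linarith)
    · have h1 : |t - s| ≤ Real.pi := abs_le.2 ⟨by linarith [ht.1, hcase.1], by linarith [ht.2, hcase.2]⟩
      have h2 := Real.mul_abs_le_abs_sin (x := (t - s) / 2) (by
        rw [abs_div, abs_of_pos (by norm_num : (0 : ℝ) < 2)]; linarith)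
      have h3 : 2 / Real.pi * |(t - s) / 2| = |t - s| / Real.pi := by
        rw [abs_div, abs_of_pos (by norm_num : (0 : ℝ) < 2)]
        field_simp
      rw [h3] at h2
      have h4 : 0 < |t - s| := abs_pos.2 h0
      have h5 := Real.log_le_log (div_pos h4 hpi) h2
      rw [Real.log_div h4.ne' hpi.ne', Real.log_abs] at h5
      linarith
  · have hlog : 0 ≤ Real.log (2 * Real.pi / (b - a)) := by
      refine Real.log_nonneg ?_
      rw [le_div_iff₀ (by linarith)]
      linarith
    have hbd : ∀ t ∈ Icc a b, -Real.log |Real.sin ((θ - t) / 2)| ≤ 1 := by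
      intro t ht
      rw [hsin]
      have hs' := abs_le.1 hs
      have hcos : ∀ x : ℝ, |x| ≤ 1 / 2 → 7 / 8 ≤ Real.cos x := by
        intro x hx
        have h1 := Real.one_sub_sq_div_two_le_cos (x := x)
        have h2 : x ^ 2 ≤ (1 / 2) ^ 2 := sq_le_sq' (abs_le.1 hx).1 (abs_le.1 hx).2
        linarith
      have h1 : 7 / 8 ≤ |Real.sin ((t - s) / 2)| := by
        rw [not_and_or, not_le, not_le] at hcase
        rcases hcase with h | h
        · have h2 := hcos ((t - s) / 2 + Real.pi / 2) (abs_le.2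
            ⟨by linarith [ht.1, hs'.1], by linarith [ht.2, hb]⟩)
          rw [Real.cos_add_pi_div_two] at h2
          exact h2.trans (neg_le_abs _)
        · have h2 := hcos ((t - s) / 2 - Real.pi / 2) (abs_le.2
            ⟨by linarith [ht.1, hb], by linarith [ht.2, hs'.2]⟩)
          rw [Real.cos_sub_pi_div_two] at h2
          exact h2.trans (le_abs_self _)
      have h2 : Real.log (7 / 8) ≤ Real.log |Real.sin ((t - s) / 2)| :=
        Real.log_le_log (by norm_num) h1
      have h3 : -1 ≤ Real.log (7 / 8) := by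
        have h4 := Real.one_sub_inv_le_log_of_pos (show (0 : ℝ) < 7 / 8 by norm_num)
        norm_num at h4
        linarith
      linarith
    have h1 := intervalIntegral.integral_mono_on hab.le hI intervalIntegrable_const hbd
    rw [intervalIntegral.integral_const, smul_eq_mul, mul_one] at h1
    nlinarith [mul_nonneg (sub_pos.2 hab).le hlog]

theorem unif_real_univ {m a b : ℝ} (hm : 0 ≤ m) (hab : a < b) : (unif m a b).real univ = m := by
  have hd : 0 < b - a := sub_pos.2 hab
  rw [Measure.real, unif, Measure.smul_apply, Measure.restrict_apply_univ, Real.volume_Icc,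
    smul_eq_mul, ← ENNReal.ofReal_mul (by positivity), div_mul_cancel₀ _ hd.ne',
    ENNReal.toReal_ofReal hm]

theorem unif_compl (m a b : ℝ) : unif m a b (Icc a b)ᶜ = 0 := by
  rw [unif, Measure.smul_apply, Measure.restrict_apply measurableSet_Icc.compl,
    compl_inter_self, measure_empty, smul_zero]

instance (m a b : ℝ) : IsFiniteMeasure (unif m a b) := by
  unfold unif
  exact Measure.smul_finite _ ENNReal.ofReal_ne_top

private theorem rbar_int_unif {m a b : ℝ} (hm : 0 ≤ m) (hab : a < b) (f : ℝ → ℝ) :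
    ∫ t, f t ∂(unif m a b) = m / (b - a) * ∫ t in Icc a b, f t := by
  have hd : 0 < b - a := sub_pos.2 hab
  rw [unif, integral_smul_measure, ENNReal.toReal_ofReal (by positivity), smul_eq_mul]

private theorem rbar_const {x : ℝ} (hx : 1 ≤ x) {m : ℝ} (hm : 0 ≤ m) (hm1 : m ≤ 1 / 8) :
    2 * m * Real.log x ≤ 1 / 4 * Real.log x := by
  have := Real.log_nonneg hx
  nlinarith

private theorem rbar_fin {m δ E : ℝ} (hm : 0 ≤ m) (hm1 : m ≤ 1 / 8) (hd : 0 < δ) (hd1 : δ ≤ 1)
    (hE : E ≤ 2 * m * Real.log 2 + 2 * m * (Real.log (2 * Real.pi / δ) + 1)) :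
    Real.exp E ≤ 3 * δ ^ (-(1 / 4) : ℝ) := by
  have hpi := Real.pi_pos
  have h1 : Real.log 2 + (Real.log (2 * Real.pi / δ) + 1)
      = Real.log (4 * Real.pi * Real.exp 1) - Real.log δ := by
    rw [Real.log_div (by positivity) hd.ne', Real.log_mul (by positivity) (by positivity),
      Real.log_mul (by positivity) (by positivity), Real.log_exp,
      Real.log_mul (by norm_num) (by positivity),
      show (4 : ℝ) = 2 * 2 by norm_num, Real.log_mul (by norm_num) (by norm_num)]
    ring
  have hlogd : Real.log δ ≤ 0 := Real.log_nonpos hd.le hd1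
  have hlc : Real.log (4 * Real.pi * Real.exp 1) ≤ 4 * Real.log 3 := by
    rw [show 4 * Real.log 3 = Real.log (3 ^ 4) by rw [Real.log_pow]; norm_num]
    refine Real.log_le_log (by positivity) ?_
    have h2 := Real.exp_one_lt_d9
    have h3 := Real.pi_lt_d2
    nlinarith [Real.exp_pos 1]
  have hlc0 : 0 ≤ Real.log (4 * Real.pi * Real.exp 1) := by
    refine Real.log_nonneg ?_
    have h2 := Real.exp_one_gt_d9
    have h3 := Real.pi_gt_three
    nlinarith
  have h4 : E ≤ Real.log 3 + -(1 / 4) * Real.log δ := by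
    have h5 : 2 * m * Real.log 2 + 2 * m * (Real.log (2 * Real.pi / δ) + 1)
        = 2 * m * (Real.log (4 * Real.pi * Real.exp 1) - Real.log δ) := by
      rw [← h1]; ring
    rw [h5] at hE
    have h6 : 2 * m * (Real.log (4 * Real.pi * Real.exp 1) - Real.log δ) ≤
        1 / 4 * (Real.log (4 * Real.pi * Real.exp 1) - Real.log δ) :=
      mul_le_mul_of_nonneg_right (by linarith) (by linarith)
    linarith
  calc Real.exp E ≤ Real.exp (Real.log 3 + -(1 / 4) * Real.log δ) := Real.exp_le_exp.2 h4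
    _ = 3 * δ ^ (-(1 / 4) : ℝ) := by
      rw [Real.exp_add, Real.exp_log (by norm_num), Real.rpow_def_of_pos hd]
      congr 2
      ring

/-- bound on the disc -/
theorem g0_bound (μ2 : Measure ℝ) [IsFiniteMeasure μ2] {m a b : ℝ} (hm : μ2.real univ = m)
    (hm1 : m ≤ 1 / 8) (hab : a < b) (hb : b - a ≤ 1) {z : ℂ} (hz : z ∈ ball (0 : ℂ) 1) :
    ‖g0 μ2 (unif m a b) z‖ ≤ 3 * (b - a) ^ (-(1 / 4) : ℝ) := by
  have hm0 : 0 ≤ m := by rw [← hm]; exact measureReal_nonneg
  have hd : 0 < b - a := sub_pos.2 hab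
  rw [g0, Complex.norm_exp]
  refine rbar_fin hm0 hm1 hd hb ?_
  rw [Complex.sub_re, show ((2 : ℂ) * Lm μ2 z).re = 2 * (Lm μ2 z).re by
    simp, show ((2 : ℂ) * Lm (unif m a b) z).re = 2 * (Lm (unif m a b) z).re by simp,
    Lm_re _ hz, Lm_re _ hz, rbar_int_unif hm0 hab]
  have hz1 : ‖z‖ < 1 := by simpa using hz
  have hle2 : ∀ t, Real.log ‖1 - yy t * z‖ ≤ Real.log 2 := by
    intro t
    refine Real.log_le_log (norm_pos_iff.2 (ker_ne_zero hz t)) ?_
    have h1 := norm_sub_le (1 : ℂ) (yy t * z)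
    have h2 := norm_yy_mul_lt hz t
    rw [norm_one] at h1
    linarith
  have hint : ∀ ν : Measure ℝ, IsFiniteMeasure ν → Integrable (fun t => Real.log ‖1 - yy t * z‖) ν := by
    intro ν hν
    have h1 := (integrable_log_ker ν hz).re
    refine h1.congr (Eventually.of_forall fun t => ?_)
    exact Complex.log_re _
  have h1 : ∫ t, Real.log ‖1 - yy t * z‖ ∂μ2 ≤ m * Real.log 2 := by
    have h2 := integral_mono (hint μ2 inferInstance) (integrable_const (Real.log 2)) hle2
    rw [integral_const, smul_eq_mul, hm] at h2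
    exact h2
  have h2 : -∫ t in Icc a b, Real.log ‖1 - yy t * z‖ ≤
      (b - a) * (Real.log (2 * Real.pi / (b - a)) + 1) := by
    refine le_trans ?_ (integral_neg_log_sin_le z.arg a b hab hb)
    rw [← integral_neg]
    have hI1 : IntegrableOn (fun t => -Real.log |Real.sin ((z.arg - t) / 2)|) (Icc a b) volume :=
      (intervalIntegrable_iff_integrableOn_Icc_of_le hab.le).1 (rbar_integrable z.arg a b)
    have hI2 : IntegrableOn (fun t => -Real.log ‖1 - yy t * z‖) (Icc a b) volume :=
      (hint (volume.restrict (Icc a b)) inferInstance).neg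
    refine integral_mono_ae hI2 hI1 ?_
    -- almost every `t`
    have hne : ∀ᵐ t ∂(volume.restrict (Icc a b)), Real.sin ((z.arg - t) / 2) ≠ 0 := by
      refine ae_restrict_of_ae ?_
      have hc : {t : ℝ | Real.sin ((z.arg - t) / 2) = 0}.Countable := by
        have h3 : {t : ℝ | Real.sin ((z.arg - t) / 2) = 0} ⊆
            Set.range (fun n : ℤ => z.arg - 2 * (n * Real.pi)) := by
          intro t ht
          obtain ⟨n, hn⟩ := Real.sin_eq_zero_iff.1 ht
          exact ⟨n, by simp only; linarith⟩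
        exact (countable_range _).mono h3
      exact hc.ae_notMem _
    filter_upwards [hne] with t ht
    have h3 : 1 - yy t * z = 1 - ((‖z‖ : ℝ) : ℂ) * cexp (((z.arg - t : ℝ) : ℂ) * I) := by
      have h4 := Complex.norm_mul_exp_arg_mul_I z
      have h5 : yy t * z = ((‖z‖ : ℝ) : ℂ) * cexp (((z.arg - t : ℝ) : ℂ) * I) := by
        conv_lhs => rw [← h4]
        unfold yy
        rw [mul_left_comm, ← Complex.exp_add]
        congr 2
        push_cast
        ring
      rw [h5]
    have h6 := sin_le_norm (φ := z.arg - t) (norm_nonneg z) hz1.le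
    rw [← h3] at h6
    have h7 := Real.log_le_log (abs_pos.2 ht) h6
    linarith
  have h3 : m / (b - a) * ∫ t in Icc a b, Real.log ‖1 - yy t * z‖ ≥
      -(m * (Real.log (2 * Real.pi / (b - a)) + 1)) := by
    have h4 := mul_le_mul_of_nonneg_left h2 (show 0 ≤ m / (b - a) by positivity)
    have h5 : m / (b - a) * ((b - a) * (Real.log (2 * Real.pi / (b - a)) + 1))
        = m * (Real.log (2 * Real.pi / (b - a)) + 1) := by
      field_simp
    rw [h5] at h4
    linarith
  linarith

private theorem rbar_pot_le (μ : Measure ℝ) [IsFiniteMeasure μ] {θ : ℝ} (hg : GoodAt μ θ) :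
    pot μ θ ≤ μ.real univ * Real.log 2 := by
  have h1 : ∀ t, Real.log (2 * |Real.sin ((θ - t) / 2)|) ≤ Real.log 2 := by
    intro t
    by_cases h0 : Real.sin ((θ - t) / 2) = 0
    · rw [h0, abs_zero, mul_zero, Real.log_zero]
      exact Real.log_nonneg (by norm_num)
    · refine Real.log_le_log (by positivity) ?_
      have h2 := Real.abs_sin_le_one ((θ - t) / 2)
      linarith
  have h2 := integral_mono hg (integrable_const (Real.log 2)) h1
  rw [integral_const, smul_eq_mul] at h2
  exact h2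

/-- bound for the boundary modulus -/
theorem rr_bound (μ2 : Measure ℝ) [IsFiniteMeasure μ2] {m a b : ℝ} (hm : μ2.real univ = m)
    (hm1 : m ≤ 1 / 8) (hab : a < b) (hb : b - a ≤ 1) (θ : ℝ) :
    rr μ2 (unif m a b) θ ≤ 3 * (b - a) ^ (-(1 / 4) : ℝ) := by
  have hm0 : 0 ≤ m := by rw [← hm]; exact measureReal_nonneg
  have hd : 0 < b - a := sub_pos.2 hab
  by_cases hg : GoodAt μ2 θ
  · rw [rr, if_pos hg]
    refine rbar_fin hm0 hm1 hd hb ?_
    have h1 := rbar_pot_le μ2 hg
    rw [hm] at h1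
    have h2 : -∫ t in Icc a b, Real.log (2 * |Real.sin ((θ - t) / 2)|) ≤
        (b - a) * (Real.log (2 * Real.pi / (b - a)) + 1) := by
      refine le_trans ?_ (integral_neg_log_sin_le θ a b hab hb)
      rw [← integral_neg]
      have hI1 : IntegrableOn (fun t => -Real.log |Real.sin ((θ - t) / 2)|) (Icc a b) volume :=
        (intervalIntegrable_iff_integrableOn_Icc_of_le hab.le).1 (rbar_integrable θ a b)
      refine integral_mono (integrable_log_sin_Icc θ a b).neg hI1 (fun t => ?_)
      simp only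
      by_cases h0 : Real.sin ((θ - t) / 2) = 0
      · rw [h0, abs_zero, mul_zero]
      · have h3 : 0 < |Real.sin ((θ - t) / 2)| := abs_pos.2 h0
        have h4 := Real.log_le_log h3 (show |Real.sin ((θ - t) / 2)| ≤
          2 * |Real.sin ((θ - t) / 2)| by linarith)
        linarith
    have h3 : pot (unif m a b) θ ≥ -(m * (Real.log (2 * Real.pi / (b - a)) + 1)) := by
      rw [pot, rbar_int_unif hm0 hab]
      have h4 := mul_le_mul_of_nonneg_left h2 (show 0 ≤ m / (b - a) by positivity)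
      have h5 : m / (b - a) * ((b - a) * (Real.log (2 * Real.pi / (b - a)) + 1))
          = m * (Real.log (2 * Real.pi / (b - a)) + 1) := by
        field_simp
      rw [h5] at h4
      linarith
    linarith
  · rw [rr, if_neg hg]
    positivity

/-- integrals over a measure carried by `[p, q]` -/
private theorem rbar_mono_on {μ : Measure ℝ} {p q : ℝ} (h : μ (Icc p q)ᶜ = 0) {P : ℝ → Prop}
    (hP : ∀ t ∈ Icc p q, P t) : ∀ᵐ t ∂μ, P t := by
  rw [ae_iff]
  refine measure_mono_null (fun t ht => ?_) h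
  exact fun h2 => ht (hP t h2)

private theorem rbar_sin_half {d x : ℝ} (hd : 0 < d) (h1 : d ≤ x) (h2 : x < Real.pi) :
    0 < Real.sin (d / 2) ∧ Real.sin (d / 2) ≤ Real.sin (x / 2) := by
  have hpi := Real.pi_pos
  constructor
  · exact Real.sin_pos_of_pos_of_lt_pi (by linarith) (by linarith)
  · exact Real.sin_le_sin_of_le_of_le_pi_div_two (by linarith) (by linarith) (by linarith)

private theorem rbar_good (μ1 : Measure ℝ) [IsFiniteMeasure μ1] {p1 q1 d θ : ℝ}
    (h1 : μ1 (Icc p1 q1)ᶜ = 0) (hd : 0 < d) (hθ : 0 ≤ θ) (hθd : θ + d ≤ p1)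
    (h1π : q1 < Real.pi) : GoodAt μ1 θ := by
  have hae : ∀ᵐ t ∂μ1, ‖Real.log (2 * |Real.sin ((θ - t) / 2)|)‖ ≤
      |Real.log (2 * Real.sin (d / 2))| + Real.log 2 := by
    refine rbar_mono_on h1 fun t ht => ?_
    obtain ⟨e1, e2⟩ := rbar_sin_half hd (x := t - θ) (by linarith [ht.1]) (by linarith [ht.2])
    have e3 : |Real.sin ((θ - t) / 2)| = Real.sin ((t - θ) / 2) := by
      rw [show (θ - t) / 2 = -((t - θ) / 2) by ring, Real.sin_neg, abs_neg,
        abs_of_pos (e1.trans_le e2)]
    rw [e3, Real.norm_eq_abs]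
    have e4 : Real.log (2 * Real.sin (d / 2)) ≤ Real.log (2 * Real.sin ((t - θ) / 2)) :=
      Real.log_le_log (by linarith) (by linarith)
    have e5 : Real.log (2 * Real.sin ((t - θ) / 2)) ≤ Real.log 2 :=
      Real.log_le_log (by linarith) (by linarith [Real.sin_le_one ((t - θ) / 2)])
    have e6 := neg_abs_le (Real.log (2 * Real.sin (d / 2)))
    have e7 : 0 ≤ Real.log 2 := Real.log_nonneg (by norm_num)
    have e8 := abs_nonneg (Real.log (2 * Real.sin (d / 2)))
    exact abs_le.2 ⟨by linarith, by linarith⟩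
  refine Integrable.of_bound ?_ _ hae
  refine Measurable.aestronglyMeasurable ?_
  fun_prop

/-- bound at distance `≥ d` to the left of the support of `μ1`. -/
theorem rr_bound_off (μ2 μ1 : Measure ℝ) [IsFiniteMeasure μ2] [IsFiniteMeasure μ1]
    (hm : μ2.real univ = μ1.real univ) (hm1 : μ2.real univ ≤ 1 / 2) {p1 q1 d θ : ℝ}
    (hpq : p1 ≤ q1) (h1 : μ1 (Icc p1 q1)ᶜ = 0) (hd : 0 < d) (hθ : 0 ≤ θ) (hθd : θ + d ≤ p1)
    (h1π : q1 < Real.pi) : rr μ2 μ1 θ ≤ 1 / Real.sin (d / 2) := by
  obtain ⟨e1, -⟩ := rbar_sin_half hd (x := p1 - θ) (by linarith) (by linarith)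
  by_cases hg : GoodAt μ2 θ
  · rw [rr, if_pos hg]
    have h2 := rbar_pot_le μ2 hg
    have h3 : μ1.real univ * Real.log (2 * Real.sin (d / 2)) ≤ pot μ1 θ := by
      have hgood := rbar_good μ1 h1 hd hθ hθd h1π
      have h4 : ∀ᵐ t ∂μ1, Real.log (2 * Real.sin (d / 2)) ≤
          Real.log (2 * |Real.sin ((θ - t) / 2)|) := by
        refine rbar_mono_on h1 fun t ht => ?_
        obtain ⟨f1, f2⟩ := rbar_sin_half hd (x := t - θ) (by linarith [ht.1]) (by linarith [ht.2])
        have e3 : |Real.sin ((θ - t) / 2)| = Real.sin ((t - θ) / 2) := by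
          rw [show (θ - t) / 2 = -((t - θ) / 2) by ring, Real.sin_neg, abs_neg,
            abs_of_pos (f1.trans_le f2)]
        rw [e3]
        exact Real.log_le_log (by linarith) (by linarith)
      have h5 := integral_mono_ae (integrable_const _) hgood h4
      rw [integral_const, smul_eq_mul] at h5
      exact h5
    have hm0 : 0 ≤ μ1.real univ := measureReal_nonneg
    rw [hm] at h2 hm1
    rw [Real.log_mul (by norm_num) e1.ne'] at h3
    have h4 : Real.log (Real.sin (d / 2)) ≤ 0 := Real.log_nonpos e1.le (Real.sin_le_one _)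
    have h5 : 2 * pot μ2 θ - 2 * pot μ1 θ ≤ Real.log (1 / Real.sin (d / 2)) := by
      rw [one_div, Real.log_inv]
      nlinarith
    calc Real.exp (2 * pot μ2 θ - 2 * pot μ1 θ) ≤ Real.exp (Real.log (1 / Real.sin (d / 2))) :=
          Real.exp_le_exp.2 h5
      _ = 1 / Real.sin (d / 2) := Real.exp_log (by positivity)
  · rw [rr, if_neg hg]
    positivity

private theorem rbar_exp {x y M : ℝ} (hx : Real.exp x ≤ M) (hy : Real.exp y ≤ M) :
    |Real.exp x - Real.exp y| ≤ M * |x - y| := by
  wlog h : y ≤ x generalizing x y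
  · rw [abs_sub_comm, abs_sub_comm x y]
    exact this hy hx (le_of_not_ge h)
  · have h1 : Real.exp y ≤ Real.exp x := Real.exp_le_exp.2 h
    rw [abs_of_nonneg (sub_nonneg.2 h1), abs_of_nonneg (sub_nonneg.2 h)]
    have h2 := Real.add_one_le_exp (y - x)
    have h3 : Real.exp y = Real.exp x * Real.exp (y - x) := by
      rw [← Real.exp_add]; congr 1; ring
    have h4 := mul_le_mul_of_nonneg_left h2 (Real.exp_pos x).le
    have h5 := mul_le_mul_of_nonneg_right hx (sub_nonneg.2 h)
    rw [← h3] at h4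
    linarith

private theorem rbar_lip {d x x' : ℝ} (hd : 0 < d) (hx : d ≤ x) (hxπ : x ≤ Real.pi) (hx' : d ≤ x')
    (hxπ' : x' ≤ Real.pi) :
    |Real.log (Real.sin (x / 2)) - Real.log (Real.sin (x' / 2))| ≤ 1 / d * |x - x'| := by
  have hpi := Real.pi_pos
  have hsin : ∀ y ∈ Icc d Real.pi, 0 < Real.sin (y / 2) := fun y hy =>
    Real.sin_pos_of_pos_of_lt_pi (by linarith [hy.1]) (by linarith [hy.2])
  have hder : ∀ y ∈ Icc d Real.pi, HasDerivWithinAt (fun y => Real.log (Real.sin (y / 2)))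
      (Real.cos (y / 2) * (1 / 2) / Real.sin (y / 2)) (Icc d Real.pi) y := by
    intro y hy
    have h1 : HasDerivAt (fun y : ℝ => y / 2) (1 / 2) y := (hasDerivAt_id y).div_const 2
    exact ((h1.sin).log (hsin y hy).ne').hasDerivWithinAt
  have hb : ∀ y ∈ Icc d Real.pi, ‖Real.cos (y / 2) * (1 / 2) / Real.sin (y / 2)‖ ≤ 1 / d := by
    intro y hy
    have hc : 0 ≤ Real.cos (y / 2) :=
      Real.cos_nonneg_of_neg_pi_div_two_le_of_le (by linarith [hy.1]) (by linarith [hy.2])
    have hs := hsin y hy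
    rw [Real.norm_of_nonneg (by positivity), div_le_div_iff₀ hs hd, one_mul]
    -- `(y / 2) cos (y / 2) ≤ sin (y / 2)`
    have h1 : y / 2 * Real.cos (y / 2) ≤ Real.sin (y / 2) := by
      rcases eq_or_lt_of_le hy.2 with h2 | h2
      · rw [h2, Real.cos_pi_div_two, Real.sin_pi_div_two]; norm_num
      · have h3 := Real.le_tan (x := y / 2) (by linarith [hy.1]) (by linarith)
        have h4 : 0 < Real.cos (y / 2) :=
          Real.cos_pos_of_mem_Ioo ⟨by linarith [hy.1], by linarith⟩
        rw [Real.tan_eq_sin_div_cos, le_div_iff₀ h4] at h3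
        exact h3
    have h5 := mul_le_mul_of_nonneg_right hy.1 hc
    linarith
  have h1 := (convex_Icc d Real.pi).norm_image_sub_le_of_norm_hasDerivWithin_le hder hb
    (x := x') (y := x) ⟨hx', hxπ'⟩ ⟨hx, hxπ⟩
  rw [Real.norm_eq_abs, Real.norm_eq_abs] at h1
  exact h1

/-- oscillation, `θ, θ'` good for `μ2`, both at distance `≥ d` to the left of the support of
`μ1`.  Uses `|e^x - e^y| ≤ max(e^x, e^y) |x - y|` and
`|log sin(u/2) - log sin(u'/2)| ≤ |u - u'|/d` for `u, u' ∈ [d, pi]`. -/
theorem rr_osc (μ2 μ1 : Measure ℝ) [IsFiniteMeasure μ2] [IsFiniteMeasure μ1]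
    (hm : μ2.real univ = μ1.real univ) (hm1 : μ2.real univ ≤ 1 / 2) {p1 q1 d θ θ' : ℝ}
    (h1 : μ1 (Icc p1 q1)ᶜ = 0) (hd : 0 < d) (hθ : 0 ≤ θ) (hθd : θ + d ≤ p1) (hθ' : 0 ≤ θ')
    (hθd' : θ' + d ≤ p1) (h1π : q1 < Real.pi) (hg : GoodAt μ2 θ) (hg' : GoodAt μ2 θ') :
    |rr μ2 μ1 θ - rr μ2 μ1 θ'| ≤ 1 / Real.sin (d / 2) *
      (2 * |pot μ2 θ| + 2 * |pot μ2 θ'| + 2 * μ2.real univ * |θ - θ'| / d) := by
  by_cases hpq : p1 ≤ q1
  · have hb := rr_bound_off μ2 μ1 hm hm1 hpq h1 hd hθ hθd h1π
    have hb' := rr_bound_off μ2 μ1 hm hm1 hpq h1 hd hθ' hθd' h1π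
    rw [rr, if_pos hg] at hb
    rw [rr, if_pos hg'] at hb'
    rw [rr, if_pos hg, rr, if_pos hg']
    refine (rbar_exp hb hb').trans ?_
    have e0 : 0 ≤ 1 / Real.sin (d / 2) := (Real.exp_pos _).le.trans hb
    refine mul_le_mul_of_nonneg_left ?_ e0
    have hgood := rbar_good μ1 h1 hd hθ hθd h1π
    have hgood' := rbar_good μ1 h1 hd hθ' hθd' h1π
    have h2 : |pot μ1 θ - pot μ1 θ'| ≤ μ1.real univ * (1 / d * |θ - θ'|) := by
      rw [pot, pot, ← integral_sub hgood hgood', ← Real.norm_eq_abs]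
      have h3 : ∀ᵐ t ∂μ1, ‖Real.log (2 * |Real.sin ((θ - t) / 2)|) -
          Real.log (2 * |Real.sin ((θ' - t) / 2)|)‖ ≤ 1 / d * |θ - θ'| := by
        refine rbar_mono_on h1 fun t ht => ?_
        obtain ⟨f1, f2⟩ := rbar_sin_half hd (x := t - θ) (by linarith [ht.1]) (by linarith [ht.2])
        obtain ⟨g1, g2⟩ := rbar_sin_half hd (x := t - θ') (by linarith [ht.1]) (by linarith [ht.2])
        have e3 : |Real.sin ((θ - t) / 2)| = Real.sin ((t - θ) / 2) := by
          rw [show (θ - t) / 2 = -((t - θ) / 2) by ring, Real.sin_neg, abs_neg,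
            abs_of_pos (f1.trans_le f2)]
        have e4 : |Real.sin ((θ' - t) / 2)| = Real.sin ((t - θ') / 2) := by
          rw [show (θ' - t) / 2 = -((t - θ') / 2) by ring, Real.sin_neg, abs_neg,
            abs_of_pos (g1.trans_le g2)]
        rw [e3, e4, Real.log_mul (by norm_num) (f1.trans_le f2).ne',
          Real.log_mul (by norm_num) (g1.trans_le g2).ne', Real.norm_eq_abs, add_sub_add_left_eq_sub]
        have h5 := rbar_lip hd (x := t - θ) (x' := t - θ') (by linarith [ht.1])
          (by linarith [ht.2]) (by linarith [ht.1]) (by linarith [ht.2])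
        rw [show t - θ - (t - θ') = -(θ - θ') by ring, abs_neg] at h5
        exact h5
      have h6 := norm_integral_le_of_norm_le_const h3
      rw [mul_comm] at h6
      exact h6
    have h3 : 2 * μ2.real univ * |θ - θ'| / d = 2 * (μ1.real univ * (1 / d * |θ - θ'|)) := by
      rw [hm]; field_simp
    rw [h3]
    have h4 : 2 * pot μ2 θ - 2 * pot μ1 θ - (2 * pot μ2 θ' - 2 * pot μ1 θ')
        = 2 * pot μ2 θ - 2 * pot μ2 θ' - 2 * (pot μ1 θ - pot μ1 θ') := by ring
    rw [h4]
    have i1 := abs_sub (2 * pot μ2 θ - 2 * pot μ2 θ') (2 * (pot μ1 θ - pot μ1 θ'))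
    have i2 := abs_sub (2 * pot μ2 θ) (2 * pot μ2 θ')
    have i3 : |2 * pot μ2 θ| = 2 * |pot μ2 θ| := by rw [abs_mul, abs_of_pos (by norm_num : (0:ℝ) < 2)]
    have i4 : |2 * pot μ2 θ'| = 2 * |pot μ2 θ'| := by
      rw [abs_mul, abs_of_pos (by norm_num : (0:ℝ) < 2)]
    have i5 : |2 * (pot μ1 θ - pot μ1 θ')| = 2 * |pot μ1 θ - pot μ1 θ'| := by
      rw [abs_mul, abs_of_pos (by norm_num : (0:ℝ) < 2)]
    rw [i5] at i1
    rw [i3, i4] at i2
    linarith
  · -- both measures vanish
    rw [Icc_eq_empty hpq, compl_empty] at h1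
    have e1 : μ1 = 0 := Measure.measure_univ_eq_zero.1 h1
    have e2 : μ1.real univ = 0 := by rw [e1]; simp
    have e3 : μ2 = 0 := by
      rw [e2] at hm
      have h2 := (measureReal_eq_zero_iff (measure_ne_top μ2 univ)).1 hm
      exact Measure.measure_univ_eq_zero.1 h2
    rw [rr, if_pos hg, rr, if_pos hg', e1, e3]
    simp [pot]

end Baz16
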