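import Pool.Agent.Baz16.Defs

/-! # A real variable lemma (running supremum).

`X θ = sSup (V '' Ioc 0 θ)` on `(0, pi)`, `X π = V π`, `X θ = min (V θ) K` on `(pi, 2 pi)`, where
`K ∈ [V π, C]` is chosen by the intermediate value theorem so that
`∫_{(pi, 2 pi)} (V - min V K) = ∫_{(0, pi)} (sSup (V '' Ioc 0 θ) - V θ)`
(the left side is continuous in `K`, is `∫ (V - V π)` for `K = V π` and `0` for `K = C`). -/

namespace Baz16
open Complex Metric MeasureTheory Set Filter Topology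

theorem runsup (V : ℝ → ℝ) (R C : ℝ) (hVm : Measurable V) (hR : 0 ≤ R)
    (hC : ∀ θ ∈ Ioo 0 (2 * Real.pi), |V θ| ≤ C)
    (h1 : MonotoneOn V (Ico Real.pi (2 * Real.pi)))
    (h2 : ∀ θ ∈ Ioo 0 Real.pi, V θ ≤ V Real.pi)
    (h3 : ∀ a ∈ Ioo 0 Real.pi, ∀ b ∈ Ioo Real.pi (2 * Real.pi), ∃ a' ∈ Ioc 0 a, V b - V a' ≤ R)
    (h4 : ∫ θ in Ioo 0 Real.pi, (sSup (V '' Ioc 0 θ) - V θ) ≤
      ∫ θ in Ioo Real.pi (2 * Real.pi), (V θ - V Real.pi)) :
    ∃ X : ℝ → ℝ, MonotoneOn X (Ioo 0 (2 * Real.pi)) ∧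
      (∀ a ∈ Ioo 0 (2 * Real.pi), ∀ b ∈ Ioo 0 (2 * Real.pi), X b - X a ≤ R) ∧
      (∀ θ ∈ Ioo 0 Real.pi, V θ ≤ X θ) ∧ (∀ θ ∈ Ioo Real.pi (2 * Real.pi), X θ ≤ V θ) ∧
      (∀ θ ∈ Ioo 0 (2 * Real.pi), |X θ| ≤ C) ∧ ∫ θ : ℝ, (X θ - V θ) ∂arcM = 0 := by
  have hpi := Real.pi_pos
  obtain ⟨M, hM⟩ : ∃ M : ℝ → ℝ, M = fun θ => sSup (V '' Ioc 0 θ) := ⟨_, rfl⟩
  have hup : ∀ θ ∈ Ioo 0 Real.pi, ∀ y ∈ V '' Ioc 0 θ, y ≤ V Real.pi := by
    rintro θ hθ _ ⟨a, ha, rfl⟩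
    exact h2 a ⟨ha.1, lt_of_le_of_lt ha.2 hθ.2⟩
  have hVM : ∀ θ ∈ Ioo 0 Real.pi, ∀ a ∈ Ioc 0 θ, V a ≤ M θ := by
    intro θ hθ a ha
    rw [hM]
    exact le_csSup ⟨V Real.pi, hup θ hθ⟩ ⟨a, ha, rfl⟩
  have hMle : ∀ θ ∈ Ioo 0 Real.pi, M θ ≤ V Real.pi := by
    intro θ hθ
    rw [hM]
    exact csSup_le ⟨V θ, θ, ⟨hθ.1, le_refl θ⟩, rfl⟩ (hup θ hθ)
  have hMmono : MonotoneOn M (Ioo 0 Real.pi) := by
    intro a ha b hb hab
    rw [hM]
    refine csSup_le_csSup ⟨V Real.pi, hup b hb⟩ ⟨V a, a, ⟨ha.1, le_refl a⟩, rfl⟩ ?_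
    exact image_mono (Ioc_subset_Ioc_right hab)
  have hVθM : ∀ θ ∈ Ioo 0 Real.pi, V θ ≤ M θ := fun θ hθ => hVM θ hθ θ ⟨hθ.1, le_refl θ⟩
  have hpimem : Real.pi ∈ Ioo 0 (2 * Real.pi) := ⟨hpi, by linarith⟩
  have hVpi := abs_le.1 (hC Real.pi hpimem)
  have hVge : ∀ θ ∈ Ico Real.pi (2 * Real.pi), V Real.pi ≤ V θ := by
    intro θ hθ
    exact h1 ⟨le_refl _, by linarith⟩ hθ hθ.1
  have hCb : ∀ θ ∈ Ico Real.pi (2 * Real.pi), |V θ| ≤ C := by
    intro θ hθ
    exact hC θ ⟨lt_of_lt_of_le hpi hθ.1, hθ.2⟩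
  have hCa : ∀ θ ∈ Ioo 0 Real.pi, |V θ| ≤ C := by
    intro θ hθ
    exact hC θ ⟨hθ.1, by linarith [hθ.2]⟩
  have hCM : ∀ θ ∈ Ioo 0 Real.pi, |M θ| ≤ C := by
    intro θ hθ
    have h5 := abs_le.1 (hCa θ hθ)
    rw [abs_le]
    exact ⟨le_trans h5.1 (hVθM θ hθ), le_trans (hMle θ hθ) hVpi.2⟩
  -- choice of K
  have hmeasM : AEStronglyMeasurable M (volume.restrict (Ioo 0 Real.pi)) :=
    (aemeasurable_restrict_of_monotoneOn measurableSet_Ioo hMmono).aestronglyMeasurable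
  have hfin1 : IsFiniteMeasure (volume.restrict (Ioo 0 Real.pi)) :=
    ⟨by rw [Measure.restrict_apply_univ, Real.volume_Ioo]; exact ENNReal.ofReal_lt_top⟩
  have hfin2 : IsFiniteMeasure (volume.restrict (Ioo Real.pi (2 * Real.pi))) :=
    ⟨by rw [Measure.restrict_apply_univ, Real.volume_Ioo]; exact ENNReal.ofReal_lt_top⟩
  have hfin3 : IsFiniteMeasure (volume.restrict (Ico Real.pi (2 * Real.pi))) :=
    ⟨by rw [Measure.restrict_apply_univ, Real.volume_Ico]; exact ENNReal.ofReal_lt_top⟩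
  have hint1 : IntegrableOn (fun θ => M θ - V θ) (Ioo 0 Real.pi) := by
    refine Integrable.mono' (integrable_const (C + C)) (hmeasM.sub hVm.aestronglyMeasurable) ?_
    filter_upwards [ae_restrict_mem measurableSet_Ioo] with θ hθ
    rw [Real.norm_eq_abs]
    calc |M θ - V θ| ≤ |M θ| + |V θ| := abs_sub _ _
      _ ≤ C + C := add_le_add (hCM θ hθ) (hCa θ hθ)
  have hI0 : 0 ≤ ∫ θ in Ioo 0 Real.pi, (M θ - V θ) :=
    setIntegral_nonneg measurableSet_Ioo fun θ hθ => sub_nonneg.2 (hVθM θ hθ)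
  have hminb : ∀ K ∈ Icc (V Real.pi) C, ∀ θ ∈ Ico Real.pi (2 * Real.pi), |min (V θ) K| ≤ C := by
    intro K hK θ hθ
    have h5 := abs_le.1 (hCb θ hθ)
    rw [abs_le]
    exact ⟨le_min h5.1 (le_trans hVpi.1 hK.1), le_trans (min_le_left _ _) h5.2⟩
  have hcont : ContinuousOn (fun K => ∫ θ in Ioo Real.pi (2 * Real.pi), (V θ - min (V θ) K))
      (Icc (V Real.pi) C) := by
    refine continuousOn_of_dominated (bound := fun _ => C + C) ?_ ?_ (integrable_const _) ?_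
    · intro K _
      exact (hVm.sub (hVm.min measurable_const)).aestronglyMeasurable
    · intro K hK
      filter_upwards [ae_restrict_mem measurableSet_Ioo] with θ hθ
      rw [Real.norm_eq_abs]
      calc |V θ - min (V θ) K| ≤ |V θ| + |min (V θ) K| := abs_sub _ _
        _ ≤ C + C := add_le_add (hCb θ ⟨hθ.1.le, hθ.2⟩) (hminb K hK θ ⟨hθ.1.le, hθ.2⟩)
    · refine Eventually.of_forall fun θ => ?_
      fun_prop
  obtain ⟨K, hK, hKe⟩ : ∃ K ∈ Icc (V Real.pi) C,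
      (∫ θ in Ioo Real.pi (2 * Real.pi), (V θ - min (V θ) K)) =
        ∫ θ in Ioo 0 Real.pi, (M θ - V θ) := by
    have h5 := intermediate_value_Icc' hVpi.2 hcont
    have h6 : (∫ θ in Ioo 0 Real.pi, (M θ - V θ)) ∈
        Icc (∫ θ in Ioo Real.pi (2 * Real.pi), (V θ - min (V θ) C))
          (∫ θ in Ioo Real.pi (2 * Real.pi), (V θ - min (V θ) (V Real.pi))) := by
      constructor
      · have h7 : (∫ θ in Ioo Real.pi (2 * Real.pi), (V θ - min (V θ) C)) = 0 := by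
          rw [setIntegral_congr_fun (g := fun _ => (0 : ℝ)) measurableSet_Ioo ?_]
          · simp
          · intro θ hθ
            have h8 := (abs_le.1 (hCb θ ⟨hθ.1.le, hθ.2⟩)).2
            simp only [min_eq_left h8, sub_self]
        rw [h7]; exact hI0
      · have h7 : (∫ θ in Ioo Real.pi (2 * Real.pi), (V θ - min (V θ) (V Real.pi))) =
            ∫ θ in Ioo Real.pi (2 * Real.pi), (V θ - V Real.pi) := by
          refine setIntegral_congr_fun measurableSet_Ioo ?_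
          intro θ hθ
          simp only [min_eq_right (hVge θ ⟨hθ.1.le, hθ.2⟩)]
        rw [h7, hM]; exact h4
    obtain ⟨K, hK, hKe⟩ := h5 h6
    exact ⟨K, hK, hKe⟩
  obtain ⟨X, hX⟩ : ∃ X : ℝ → ℝ, X = fun θ => if θ < Real.pi then M θ else min (V θ) K := ⟨_, rfl⟩
  have hXa : ∀ θ, θ < Real.pi → X θ = M θ := fun θ hθ => by rw [hX]; simp only [if_pos hθ]
  have hXb : ∀ θ, Real.pi ≤ θ → X θ = min (V θ) K := fun θ hθ => by
    rw [hX]; simp only [if_neg (not_lt.2 hθ)]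
  have hXge : ∀ θ ∈ Ico Real.pi (2 * Real.pi), V Real.pi ≤ X θ := by
    intro θ hθ
    rw [hXb θ hθ.1]
    exact le_min (hVge θ hθ) hK.1
  have hmono : MonotoneOn X (Ioo 0 (2 * Real.pi)) := by
    intro a ha b hb hab
    rcases lt_or_ge b Real.pi with hbp | hbp
    · rw [hXa a (lt_of_le_of_lt hab hbp), hXa b hbp]
      exact hMmono ⟨ha.1, lt_of_le_of_lt hab hbp⟩ ⟨hb.1, hbp⟩ hab
    · rcases lt_or_ge a Real.pi with hap | hap
      · rw [hXa a hap]
        exact le_trans (hMle a ⟨ha.1, hap⟩) (hXge b ⟨hbp, hb.2⟩)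
      · rw [hXb a hap, hXb b hbp]
        exact min_le_min_right K (h1 ⟨hap, ha.2⟩ ⟨hbp, hb.2⟩ hab)
  have hmid : Real.pi / 2 ∈ Ioo 0 Real.pi := ⟨by linarith, by linarith⟩
  have hmid2 : 3 * Real.pi / 2 ∈ Ioo Real.pi (2 * Real.pi) := ⟨by linarith, by linarith⟩
  refine ⟨X, hmono, ?_, ?_, ?_, ?_, ?_⟩
  · intro a ha b hb
    rcases le_total b a with hba | hab
    · have := hmono hb ha hba
      linarith
    · rcases lt_or_ge a Real.pi with hap | hap
      · rw [hXa a hap]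
        rcases le_or_gt b Real.pi with hbp | hbp
        · obtain ⟨a', ha', h5⟩ := h3 a ⟨ha.1, hap⟩ _ hmid2
          have h6 := hVM a ⟨ha.1, hap⟩ a' ha'
          have h7 := hVge _ ⟨hmid2.1.le, hmid2.2⟩
          have h8 : X b ≤ V Real.pi := by
            rcases lt_or_eq_of_le hbp with h9 | h9
            · rw [hXa b h9]; exact hMle b ⟨hb.1, h9⟩
            · rw [h9, hXb _ le_rfl]; exact min_le_left _ _
          linarith
        · obtain ⟨a', ha', h5⟩ := h3 a ⟨ha.1, hap⟩ b ⟨hbp, hb.2⟩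
          have h6 := hVM a ⟨ha.1, hap⟩ a' ha'
          have h7 : X b ≤ V b := by rw [hXb b hbp.le]; exact min_le_left _ _
          linarith
      · have h5 := hXge a ⟨hap, ha.2⟩
        rcases eq_or_lt_of_le (le_trans hap hab) with h6 | h6
        · have h7 : X b ≤ V Real.pi := by
            rw [← h6, hXb _ le_rfl]; exact min_le_left _ _
          linarith
        · obtain ⟨a', ha', h7⟩ := h3 _ hmid b ⟨h6, hb.2⟩
          have h8 := h2 a' ⟨ha'.1, lt_of_le_of_lt ha'.2 hmid.2⟩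
          have h9 : X b ≤ V b := by rw [hXb b h6.le]; exact min_le_left _ _
          linarith
  · intro θ hθ
    rw [hXa θ hθ.2]; exact hVθM θ hθ
  · intro θ hθ
    rw [hXb θ hθ.1.le]; exact min_le_left _ _
  · intro θ hθ
    rcases lt_or_ge θ Real.pi with h5 | h5
    · rw [hXa θ h5]; exact hCM θ ⟨hθ.1, h5⟩
    · rw [hXb θ h5]; exact hminb K hK θ ⟨h5, hθ.2⟩
  · have hint2 : IntegrableOn (fun θ => X θ - V θ) (Ico Real.pi (2 * Real.pi)) := by
      have h5 : IntegrableOn (fun θ => min (V θ) K - V θ) (Ico Real.pi (2 * Real.pi)) := by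
        refine Integrable.mono' (integrable_const (C + C))
          ((hVm.min measurable_const).sub hVm).aestronglyMeasurable ?_
        filter_upwards [ae_restrict_mem measurableSet_Ico] with θ hθ
        rw [Real.norm_eq_abs]
        calc |min (V θ) K - V θ| ≤ |min (V θ) K| + |V θ| := abs_sub _ _
          _ ≤ C + C := add_le_add (hminb K hK θ hθ) (hCb θ hθ)
      refine IntegrableOn.congr_fun h5 ?_ measurableSet_Ico
      intro θ hθ
      simp only [hXb θ hθ.1]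
    have hint1' : IntegrableOn (fun θ => X θ - V θ) (Ioo 0 Real.pi) := by
      refine IntegrableOn.congr_fun hint1 ?_ measurableSet_Ioo
      intro θ hθ
      simp only [hXa θ hθ.2]
    have hun : Ioo 0 (2 * Real.pi) = Ioo 0 Real.pi ∪ Ico Real.pi (2 * Real.pi) := by
      rw [Ioo_union_Ico_eq_Ioo hpi (by linarith)]
    have hdis : Disjoint (Ioo 0 Real.pi) (Ico Real.pi (2 * Real.pi)) := by
      rw [Set.disjoint_left]
      intro θ hθ hθ'
      exact absurd hθ.2 (not_lt.2 hθ'.1)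
    unfold arcM
    rw [hun, setIntegral_union hdis measurableSet_Ico hint1' hint2,
      integral_Ico_eq_integral_Ioo]
    have e1 : (∫ θ in Ioo 0 Real.pi, (X θ - V θ)) = ∫ θ in Ioo 0 Real.pi, (M θ - V θ) := by
      refine setIntegral_congr_fun measurableSet_Ioo ?_
      intro θ hθ
      simp only [hXa θ hθ.2]
    have e2 : (∫ θ in Ioo Real.pi (2 * Real.pi), (X θ - V θ)) =
        - ∫ θ in Ioo Real.pi (2 * Real.pi), (V θ - min (V θ) K) := by
      rw [← integral_neg]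
      refine setIntegral_congr_fun measurableSet_Ioo ?_
      intro θ hθ
      simp only [hXb θ hθ.1.le]
      ring
    rw [e1, e2, hKe]
    ring

end Baz16
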