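import Pool.Agent.Baz16.Crit
import Pool.Agent.Baz16.Meas
import Pool.Agent.Baz16.RunSup
import Pool.Agent.Baz16.Phi
import Pool.Agent.Baz16.Rad0
import Pool.Agent.Baz16.Gain
import Pool.Agent.Baz16.Rbar

/-! # The core of the splitting (the function `H`).

Notation: `μ2 = ν|[p2,q2]` (no atoms), `μ1 = unif m p1 q1`, `m = ν [p2,q2]`, `ℓ = q2 - p2`,
`J' = (q1, q1']` with `ν J' > 0`, `D θ = Ph (ε rr θ) (bA μ1 θ - bA μ2 θ)` (radial limit of
`arg (1 - ε g0)`), `S = 4 pi m ε rb ≥ sup |D|`, `ρ = κ ν|J'` with `ρ(univ) = 4 m ε rb`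
(`κ ≤ 1` for `ε` small), `V θ = D θ + 2 pi ρ [0, θ)`, `R = 2 pi ρ(univ) = 2 S`.

* `D` is nondecreasing on `(0, p2)`, `(q2, p1)`, `(q1, 2 pi)` (`Ph_anti_x`, `Ph_mono_x`, `rr_*`).
* running supremum: equals `V` on `(0,p2)`, on `[q2+2ℓ, p1)` (`rr_compare`, `Ph_anti`,
  `Ph_mono_x`: for `θ' ≤ q2`, `D θ' = Ph(ε r', β') ≤ Ph(ε r', a) ≤ Ph(ε r, a) = D θ`), on
  `(q1', pi]`; on `[p2, q2 + 2ℓ)` the difference is at most `2 (2 pi m) ε ω` (`Ph_anti`, `Ph_lip`: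
  for `θ' ≤ θ`, `D θ' - D θ ≤ Ph(ε r', β) - Ph(ε r, β)`; for `θ' < p2 - ℓ` use monotonicity of
  `D` on `(0, p2)`); on `[p1, q1']` it is at most `2 S`.
* gain: `∫_{(pi, 2pi)} (D - D pi) ≥ (1/2) ε sin b ∫ (rr pi - rr θ) ≥ (pi/4) ε m^2 d^2 sin(p2/2)`,
  `b = ∫ t dμ1 - ∫ t dμ2 ∈ [m d, m pi]`, `d = p1 - q2` (`Ph_gain`, `gain_int`, `mean_bounds`,
  `sin b ≥ 2 b/pi`).
* `hineq` says loss ≤ gain (both divided by `pi m ε / 4`).
* `runsup` gives `X`; `∫ (X - 2 pi ρ [0,θ)) = ∫ D = 2 pi arg (1 - ε) = 0` (`integral_radial`);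
  `exists_measure` gives `ν'`; `crit_mob` applied to `ℓ z = log (1 - ε g0 z) - log (1 - ε)`
  gives `q` (`D + bA ν - bA ν' = V - X`). -/

set_option linter.unusedSectionVars false

namespace Baz16
open Complex Metric MeasureTheory Set Filter Topology

/-- radial limit of `arg (1 - ε g0)` -/
private noncomputable def cD (μ2 μ1 : Measure ℝ) (ε θ : ℝ) : ℝ :=
  Ph (ε * rr μ2 μ1 θ) (bA μ1 θ - bA μ2 θ)

private structure CHyp (μ2 μ1 : Measure ℝ) (p2 q2 p1 q1 m ε rb : ℝ) : Prop where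
  h2 : μ2 (Icc p2 q2)ᶜ = 0
  h1 : μ1 (Icc p1 q1)ᶜ = 0
  e2 : μ2.real univ = m
  e1 : μ1.real univ = m
  m0 : 0 < m
  m8 : m ≤ 1 / 8
  h02 : p2 < q2
  h0 : 0 < p2 - (q2 - p2)
  h21 : q2 + 2 * (q2 - p2) < p1
  h11 : p1 < q1
  h1π : q1 < Real.pi
  ε0 : 0 ≤ ε
  εrb : ε * rb ≤ 1 / 8
  rrb : ∀ θ, rr μ2 μ1 θ ≤ rb
  hat : ∀ t, μ2 {t} = 0

private theorem rr_nn (μ2 μ1 : Measure ℝ) (θ : ℝ) : 0 ≤ rr μ2 μ1 θ := by
  unfold rr
  split_ifs
  · exact (Real.exp_pos _).le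
  · exact le_rfl

section Facts

variable {μ2 μ1 : Measure ℝ} [IsFiniteMeasure μ2] [IsFiniteMeasure μ1] {p2 q2 p1 q1 m ε rb : ℝ}

private theorem CHyp.em (H : CHyp μ2 μ1 p2 q2 p1 q1 m ε rb) : μ2.real univ = μ1.real univ := by
  rw [H.e2, H.e1]

private theorem CHyp.x0 (H : CHyp μ2 μ1 p2 q2 p1 q1 m ε rb) (θ : ℝ) : 0 ≤ ε * rr μ2 μ1 θ :=
  mul_nonneg H.ε0 (rr_nn _ _ _)

private theorem CHyp.xb (H : CHyp μ2 μ1 p2 q2 p1 q1 m ε rb) (θ : ℝ) :
    ε * rr μ2 μ1 θ ≤ ε * rb := mul_le_mul_of_nonneg_left (H.rrb θ) H.ε0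

private theorem CHyp.x1 (H : CHyp μ2 μ1 p2 q2 p1 q1 m ε rb) (θ : ℝ) :
    ε * rr μ2 μ1 θ ≤ 1 / 4 := (H.xb θ).trans (H.εrb.trans (by norm_num))

/-- bounds for `b` -/
private theorem CHyp.b_bounds (H : CHyp μ2 μ1 p2 q2 p1 q1 m ε rb) :
    m * (p1 - q2) ≤ (∫ t, t ∂μ1) - (∫ t, t ∂μ2) ∧
      (∫ t, t ∂μ1) - (∫ t, t ∂μ2) ≤ m * Real.pi := by
  have h0 := H.h0
  have h02 := H.h02
  have h21 := H.h21
  have h11 := H.h11
  have h1π := H.h1π
  have h3 := mean_bounds μ2 μ1 p2 q2 p1 q1 H.h2 H.h1 H.em (by linarith) (by linarith)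
    (by linarith) (by linarith)
  rw [H.e2] at h3
  refine ⟨h3.1, h3.2.trans ?_⟩
  have hm := H.m0
  exact mul_le_mul_of_nonneg_left (by linarith) hm.le

private theorem CHyp.b_pos (H : CHyp μ2 μ1 p2 q2 p1 q1 m ε rb) :
    0 < (∫ t, t ∂μ1) - (∫ t, t ∂μ2) := by
  have h02 := H.h02
  have h21 := H.h21
  exact lt_of_lt_of_le (mul_pos H.m0 (by linarith)) H.b_bounds.1

private theorem CHyp.mpi (H : CHyp μ2 μ1 p2 q2 p1 q1 m ε rb) : m * Real.pi ≤ Real.pi / 8 := by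
  have := Real.pi_pos
  nlinarith [H.m8]

private theorem CHyp.beta (H : CHyp μ2 μ1 p2 q2 p1 q1 m ε rb) (θ : ℝ) :
    bA μ1 θ - bA μ2 θ ≤ m * Real.pi ∧ -(2 * Real.pi * m) ≤ bA μ1 θ - bA μ2 θ := by
  have h0 := H.h0
  have h02 := H.h02
  have h21 := H.h21
  have h11 := H.h11
  have h3 := bA_bounds μ2 μ1 p2 q2 p1 q1 H.h2 H.h1 H.em (by linarith) (by linarith)
    (by linarith) (by linarith) θ
  rw [H.e2] at h3
  have h4 := H.b_bounds
  have h5 := H.b_pos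
  exact ⟨h3.1.trans h4.2, by linarith [h3.2]⟩

private theorem CHyp.beta_abs (H : CHyp μ2 μ1 p2 q2 p1 q1 m ε rb) (θ : ℝ) :
    |bA μ1 θ - bA μ2 θ| ≤ 2 * Real.pi * m := by
  have h := H.beta θ
  have hp := Real.pi_pos
  have hm := H.m0
  rw [abs_le]
  constructor
  · exact h.2
  · nlinarith [h.1]

private theorem CHyp.beta_pi (H : CHyp μ2 μ1 p2 q2 p1 q1 m ε rb) (θ : ℝ) :
    |bA μ1 θ - bA μ2 θ| ≤ Real.pi / 3 := by
  refine (H.beta_abs θ).trans ?_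
  have := H.mpi
  have := Real.pi_pos
  nlinarith

private theorem CHyp.b_pi (H : CHyp μ2 μ1 p2 q2 p1 q1 m ε rb) :
    (∫ t, t ∂μ1) - (∫ t, t ∂μ2) ≤ Real.pi / 3 := by
  have := H.mpi
  have := Real.pi_pos
  linarith [H.b_bounds.2]

private theorem CHyp.D_abs (H : CHyp μ2 μ1 p2 q2 p1 q1 m ε rb) (θ : ℝ) :
    |cD μ2 μ1 ε θ| ≤ 4 * Real.pi * m * (ε * rb) := by
  have h1 := Ph_abs (b := bA μ1 θ - bA μ2 θ) (H.x0 θ) (H.x1 θ)
  refine h1.trans ?_
  have h3 := H.beta_abs θ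
  have h4 := H.xb θ
  have h5 := H.x0 θ
  have h6 : 2 * |bA μ1 θ - bA μ2 θ| ≤ 2 * (2 * Real.pi * m) := by linarith
  calc 2 * |bA μ1 θ - bA μ2 θ| * (ε * rr μ2 μ1 θ)
      ≤ 2 * (2 * Real.pi * m) * (ε * rb) := mul_le_mul h6 h4 h5 (by
        have := Real.pi_pos
        have := H.m0
        positivity)
    _ = _ := by ring

/-- `D` is nondecreasing to the left of `p2`. -/
private theorem CHyp.D_left (H : CHyp μ2 μ1 p2 q2 p1 q1 m ε rb) {θ θ' : ℝ} (h : 0 ≤ θ)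
    (hle : θ ≤ θ') (h' : θ' < p2) : cD μ2 μ1 ε θ ≤ cD μ2 μ1 ε θ' := by
  have h0 := H.h0
  have h02 := H.h02
  have h21 := H.h21
  have h11 := H.h11
  have e1 := bA_left μ2 μ1 p2 q2 p1 q1 H.h2 H.h1 H.em h02.le (by linarith) h11.le
    (θ := θ) (by linarith)
  have e2 := bA_left μ2 μ1 p2 q2 p1 q1 H.h2 H.h1 H.em h02.le (by linarith) h11.le
    (θ := θ') (by linarith)
  unfold cD
  rw [e1, e2]
  refine Ph_anti_x (H.x0 _) (mul_le_mul_of_nonneg_left ?_ H.ε0) (H.x1 _) H.b_pos.le H.b_pi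
  exact rr_anti_left μ2 μ1 p2 q2 p1 q1 H.h2 H.h1 H.em (by linarith) h02.le (by linarith) h11.le
    H.h1π h hle h'

/-- `D` is nondecreasing to the right of `q1`. -/
private theorem CHyp.D_right (H : CHyp μ2 μ1 p2 q2 p1 q1 m ε rb) {θ θ' : ℝ} (h : q1 < θ)
    (hle : θ ≤ θ') (h' : θ' ≤ 2 * Real.pi) : cD μ2 μ1 ε θ ≤ cD μ2 μ1 ε θ' := by
  have h0 := H.h0
  have h02 := H.h02
  have h21 := H.h21
  have h11 := H.h11
  have e1 := bA_right μ2 μ1 p2 q2 p1 q1 H.h2 H.h1 H.em (by linarith) h02.le (by linarith) h11.le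
    (θ := θ) h
  have e2 := bA_right μ2 μ1 p2 q2 p1 q1 H.h2 H.h1 H.em (by linarith) h02.le (by linarith) h11.le
    (θ := θ') (by linarith)
  unfold cD
  rw [e1, e2]
  refine Ph_anti_x (H.x0 _) (mul_le_mul_of_nonneg_left ?_ H.ε0) (H.x1 _) H.b_pos.le H.b_pi
  exact rr_anti_right μ2 μ1 p2 q2 p1 q1 H.h2 H.h1 H.em (by linarith) h02.le (by linarith) h11.le
    H.h1π h hle h'

private theorem CHyp.D_cross (H : CHyp μ2 μ1 p2 q2 p1 q1 m ε rb) {a b : ℝ} (ha : 0 < a)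
    (ha' : a < p2) (hb : q1 < b) (hb' : b < 2 * Real.pi) :
    cD μ2 μ1 ε b ≤ cD μ2 μ1 ε a := by
  have h0 := H.h0
  have h02 := H.h02
  have h21 := H.h21
  have h11 := H.h11
  have e1 := bA_left μ2 μ1 p2 q2 p1 q1 H.h2 H.h1 H.em h02.le (by linarith) h11.le
    (θ := a) (by linarith)
  have e2 := bA_right μ2 μ1 p2 q2 p1 q1 H.h2 H.h1 H.em (by linarith) h02.le (by linarith) h11.le
    (θ := b) hb
  unfold cD
  rw [e1, e2]
  refine Ph_anti_x (H.x0 _) (mul_le_mul_of_nonneg_left ?_ H.ε0) (H.x1 _) H.b_pos.le H.b_pi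
  exact rr_cross μ2 μ1 p2 q2 p1 q1 H.h2 H.h1 H.em (by linarith) h02.le (by linarith) h11.le
    H.h1π ha ha' hb hb'

/-- the middle value of the argument -/
private theorem CHyp.a0 (H : CHyp μ2 μ1 p2 q2 p1 q1 m ε rb) {θ : ℝ} (h : q2 < θ) (h' : θ ≤ p1) :
    bA μ1 θ - bA μ2 θ = (∫ t, t ∂μ1) - (∫ t, t ∂μ2) - 2 * Real.pi * m ∧
      -(Real.pi / 3) ≤ bA μ1 θ - bA μ2 θ ∧ bA μ1 θ - bA μ2 θ ≤ 0 := by
  have h0 := H.h0
  have h02 := H.h02
  have h21 := H.h21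
  have h11 := H.h11
  have e1 := bA_mid μ2 μ1 p2 q2 p1 q1 H.h2 H.h1 H.em (by linarith) h02.le (by linarith) h11.le
    (θ := θ) h h'
  rw [H.e2] at e1
  have h3 := H.beta_pi θ
  rw [abs_le] at h3
  refine ⟨e1, h3.1, ?_⟩
  rw [e1]
  have h4 := H.b_bounds.2
  have := H.m0
  have := Real.pi_pos
  nlinarith

/-- points of `[q2 + 2ℓ, p1)` dominate everything to the left. -/
private theorem CHyp.D_mid (H : CHyp μ2 μ1 p2 q2 p1 q1 m ε rb) {θ θ' : ℝ} (h' : 0 < θ')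
    (hle : θ' ≤ θ) (h : q2 + 2 * (q2 - p2) ≤ θ) (hp : θ < p1) :
    cD μ2 μ1 ε θ' ≤ cD μ2 μ1 ε θ := by
  have h0 := H.h0
  have h02 := H.h02
  have h21 := H.h21
  have h11 := H.h11
  have aθ := H.a0 (θ := θ) (by linarith) hp.le
  have key : ∀ θ'' : ℝ, p2 - (q2 - p2) ≤ θ'' → θ'' ≤ θ → cD μ2 μ1 ε θ'' ≤ cD μ2 μ1 ε θ := by
    intro θ'' h3 h4
    rcases le_or_gt θ'' q2 with h5 | h5
    · have h6 := rr_compare μ2 μ1 p2 q2 p1 q1 H.h2 H.h1 H.em h02 h0 h21 h11.le H.h1π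
        (θ' := θ'') ⟨h3, h5⟩ (H.hat _) h hp
      have h7 := bA_anti μ2 μ1 p2 q2 p1 q1 H.h2 H.h1 H.em (by linarith) h02.le (by linarith)
        h11.le h4 hp.le
      unfold cD
      calc Ph (ε * rr μ2 μ1 θ'') (bA μ1 θ'' - bA μ2 θ'')
          ≤ Ph (ε * rr μ2 μ1 θ'') (bA μ1 θ - bA μ2 θ) :=
            Ph_anti (H.x0 _) (H.x1 _) (H.beta_pi _) (H.beta_pi _) h7
        _ ≤ Ph (ε * rr μ2 μ1 θ) (bA μ1 θ - bA μ2 θ) :=
            Ph_mono_x (H.x0 _) (mul_le_mul_of_nonneg_left h6 H.ε0) (H.x1 _) aθ.2.1 aθ.2.2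
    · have h6 := rr_mono_mid μ2 μ1 p2 q2 p1 q1 H.h2 H.h1 H.em (by linarith) h02.le (by linarith)
        h11.le H.h1π h5 h4 hp
      have aθ' := H.a0 (θ := θ'') h5 (by linarith)
      unfold cD
      rw [aθ'.1, ← aθ.1]
      exact Ph_mono_x (H.x0 _) (mul_le_mul_of_nonneg_left h6 H.ε0) (H.x1 _) aθ.2.1 aθ.2.2
  rcases le_or_gt (p2 - (q2 - p2)) θ' with h3 | h3
  · exact key θ' h3 hle
  · exact (H.D_left h'.le h3.le (by linarith)).trans (key _ le_rfl (by linarith))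

/-- points of `[p2, q2 + 2ℓ)`. -/
private theorem CHyp.D_loss (H : CHyp μ2 μ1 p2 q2 p1 q1 m ε rb) {ω : ℝ}
    (hω : ∀ θ ∈ Icc (p2 - (q2 - p2)) (q2 + 2 * (q2 - p2)),
      ∀ θ' ∈ Icc (p2 - (q2 - p2)) (q2 + 2 * (q2 - p2)),
      |rr μ2 μ1 θ - rr μ2 μ1 θ'| ≤ ω) {θ θ' : ℝ} (h' : 0 < θ') (hle : θ' ≤ θ) (h : p2 ≤ θ)
    (hp : θ ≤ q2 + 2 * (q2 - p2)) :
    cD μ2 μ1 ε θ' - cD μ2 μ1 ε θ ≤ 4 * Real.pi * m * (ε * ω) := by
  have h0 := H.h0
  have h02 := H.h02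
  have h21 := H.h21
  have h11 := H.h11
  have key : ∀ θ'' : ℝ, p2 - (q2 - p2) ≤ θ'' → θ'' ≤ θ →
      cD μ2 μ1 ε θ'' - cD μ2 μ1 ε θ ≤ 4 * Real.pi * m * (ε * ω) := by
    intro θ'' h3 h4
    have h5 := hω θ'' ⟨h3, by linarith⟩ θ ⟨by linarith, hp⟩
    have h7 := bA_anti μ2 μ1 p2 q2 p1 q1 H.h2 H.h1 H.em (by linarith) h02.le (by linarith)
      h11.le h4 (by linarith)
    have h8 : cD μ2 μ1 ε θ'' ≤ Ph (ε * rr μ2 μ1 θ'') (bA μ1 θ - bA μ2 θ) :=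
      Ph_anti (H.x0 _) (H.x1 _) (H.beta_pi _) (H.beta_pi _) h7
    have h9 := Ph_lip (b := bA μ1 θ - bA μ2 θ) (H.x0 θ'') (H.x1 θ'') (H.x0 θ) (H.x1 θ)
    have h10 := le_abs_self (Ph (ε * rr μ2 μ1 θ'') (bA μ1 θ - bA μ2 θ) -
      Ph (ε * rr μ2 μ1 θ) (bA μ1 θ - bA μ2 θ))
    have h11 : |ε * rr μ2 μ1 θ'' - ε * rr μ2 μ1 θ| ≤ ε * ω := by
      rw [← mul_sub, abs_mul, abs_of_nonneg H.ε0]
      exact mul_le_mul_of_nonneg_left h5 H.ε0
    have h12 : 2 * |bA μ1 θ - bA μ2 θ| ≤ 4 * Real.pi * m := by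
      have := H.beta_abs θ
      linarith
    have h13 : 2 * |bA μ1 θ - bA μ2 θ| * |ε * rr μ2 μ1 θ'' - ε * rr μ2 μ1 θ| ≤
        4 * Real.pi * m * (ε * ω) :=
      mul_le_mul h12 h11 (abs_nonneg _) (by
        have := Real.pi_pos
        have := H.m0
        positivity)
    have h14 : cD μ2 μ1 ε θ = Ph (ε * rr μ2 μ1 θ) (bA μ1 θ - bA μ2 θ) := rfl
    linarith
  rcases le_or_gt (p2 - (q2 - p2)) θ' with h3 | h3
  · exact key θ' h3 hle
  · have h4 := H.D_left h'.le h3.le (by linarith)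
    have h5 := key _ le_rfl (by linarith)
    linarith

/-- the gain on `(pi, 2 pi)` -/
private theorem CHyp.D_gain (H : CHyp μ2 μ1 p2 q2 p1 q1 m ε rb) {θ : ℝ} (h : Real.pi ≤ θ)
    (h' : θ ≤ 2 * Real.pi) :
    (1 / 2) * Real.sin ((∫ t, t ∂μ1) - (∫ t, t ∂μ2)) * ε * (rr μ2 μ1 Real.pi - rr μ2 μ1 θ) ≤
      cD μ2 μ1 ε θ - cD μ2 μ1 ε Real.pi := by
  have h0 := H.h0
  have h02 := H.h02
  have h21 := H.h21
  have h11 := H.h11
  have h1π := H.h1π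
  have e1 := bA_right μ2 μ1 p2 q2 p1 q1 H.h2 H.h1 H.em (by linarith) h02.le (by linarith) h11.le
    (θ := θ) (by linarith)
  have e2 := bA_right μ2 μ1 p2 q2 p1 q1 H.h2 H.h1 H.em (by linarith) h02.le (by linarith) h11.le
    (θ := Real.pi) h1π
  have h3 := rr_anti_right μ2 μ1 p2 q2 p1 q1 H.h2 H.h1 H.em (by linarith) h02.le (by linarith)
    h11.le H.h1π h1π h h'
  unfold cD
  rw [e1, e2]
  have h4 := Ph_gain (H.x0 θ) (mul_le_mul_of_nonneg_left h3 H.ε0) (H.x1 Real.pi) H.b_pos.le H.b_pi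
  refine le_trans (le_of_eq ?_) h4
  ring

/-! ### The running supremum -/

/-- the loss function -/
private noncomputable def cG (p2 q2 p1 q1' c1 c2 θ : ℝ) : ℝ :=
  (Ico p2 (q2 + 2 * (q2 - p2))).indicator (fun _ => c1) θ +
    (Icc p1 q1').indicator (fun _ => c2) θ

private theorem cG_nonneg {p2 q2 p1 q1' c1 c2 : ℝ} (h1 : 0 ≤ c1) (h2 : 0 ≤ c2) (θ : ℝ) :
    0 ≤ cG p2 q2 p1 q1' c1 c2 θ :=
  add_nonneg (indicator_nonneg (fun _ _ => h1) θ) (indicator_nonneg (fun _ _ => h2) θ)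

private theorem cG_integrable {p2 q2 p1 q1' c1 c2 : ℝ} :
    IntegrableOn (cG p2 q2 p1 q1' c1 c2) (Ioo 0 Real.pi) := by
  unfold cG IntegrableOn
  refine Integrable.add ?_ ?_
  · exact (integrable_const c1).indicator measurableSet_Ico
  · exact (integrable_const c2).indicator measurableSet_Icc

private theorem cG_integral {p2 q2 p1 q1' c1 c2 : ℝ} (h0 : 0 < p2) (h02 : p2 < q2)
    (h21 : q2 + 2 * (q2 - p2) < Real.pi) (hp : 0 < p1) (h11 : p1 ≤ q1') (hπ : q1' < Real.pi) :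
    ∫ θ in Ioo 0 Real.pi, cG p2 q2 p1 q1' c1 c2 θ =
      c1 * (3 * (q2 - p2)) + c2 * (q1' - p1) := by
  unfold cG
  rw [integral_add ((integrable_const c1).indicator measurableSet_Ico)
    ((integrable_const c2).indicator measurableSet_Icc),
    integral_indicator measurableSet_Ico, integral_indicator measurableSet_Icc,
    setIntegral_const, setIntegral_const,
    measureReal_restrict_apply measurableSet_Ico, measureReal_restrict_apply measurableSet_Icc]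
  have e1 : Ico p2 (q2 + 2 * (q2 - p2)) ∩ Ioo 0 Real.pi = Ico p2 (q2 + 2 * (q2 - p2)) := by
    apply inter_eq_left.2
    intro x hx
    exact ⟨by linarith [hx.1], by linarith [hx.2]⟩
  have e2 : Icc p1 q1' ∩ Ioo 0 Real.pi = Icc p1 q1' := by
    apply inter_eq_left.2
    intro x hx
    exact ⟨by linarith [hx.1], by linarith [hx.2]⟩
  rw [e1, e2, Real.volume_real_Ico_of_le (by linarith), Real.volume_real_Icc_of_le h11]
  simp only [smul_eq_mul]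
  ring

/-- The real variable part: `V = D + 2 pi P`. -/
private theorem core_runsup (H : CHyp μ2 μ1 p2 q2 p1 q1 m ε rb) (hεpos : 0 < ε) {q1' ω : ℝ}
    (h11' : q1 < q1') (h1π' : q1' < Real.pi) (P : ℝ → ℝ) (hPm : Monotone P)
    (hP0 : ∀ θ ≤ q1, P θ = 0) (hP1 : ∀ θ, q1' < θ → P θ = 4 * m * (ε * rb))
    (hω : ∀ θ ∈ Icc (p2 - (q2 - p2)) (q2 + 2 * (q2 - p2)),
      ∀ θ' ∈ Icc (p2 - (q2 - p2)) (q2 + 2 * (q2 - p2)),
      |rr μ2 μ1 θ - rr μ2 μ1 θ'| ≤ ω)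
    (hineq : 48 * (q2 - p2) * ω + 32 * (q1' - p1) * rb ≤
      m * (p1 - q2) ^ 2 * Real.sin (p2 / 2)) (hrb : 0 ≤ rb) :
    ∃ X : ℝ → ℝ, MonotoneOn X (Ioo 0 (2 * Real.pi)) ∧
      (∀ a ∈ Ioo 0 (2 * Real.pi), ∀ b ∈ Ioo 0 (2 * Real.pi),
        X b - X a ≤ 2 * Real.pi * (4 * m * (ε * rb))) ∧
      (∀ θ ∈ Ioo 0 Real.pi, cD μ2 μ1 ε θ + 2 * Real.pi * P θ ≤ X θ) ∧
      (∀ θ ∈ Ioo Real.pi (2 * Real.pi), X θ ≤ cD μ2 μ1 ε θ + 2 * Real.pi * P θ) ∧
      (∀ θ ∈ Ioo 0 (2 * Real.pi), |X θ| ≤ 12 * Real.pi * m * (ε * rb)) ∧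
      (∀ θ, |cD μ2 μ1 ε θ + 2 * Real.pi * P θ| ≤ 12 * Real.pi * m * (ε * rb)) ∧
      Measurable (fun θ => cD μ2 μ1 ε θ + 2 * Real.pi * P θ) ∧
      ∫ θ : ℝ, (X θ - (cD μ2 μ1 ε θ + 2 * Real.pi * P θ)) ∂arcM = 0 := by
  have h0 := H.h0
  have h02 := H.h02
  have h21 := H.h21
  have h11 := H.h11
  have h1π := H.h1π
  have hπ := Real.pi_pos
  have hm0 := H.m0
  have hεrb : 0 ≤ ε * rb := mul_nonneg hεpos.le hrb
  obtain ⟨S, hS⟩ : ∃ S, S = 4 * Real.pi * m * (ε * rb) := ⟨_, rfl⟩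
  have hS0 : 0 ≤ S := by rw [hS]; positivity
  have hD : ∀ θ, |cD μ2 μ1 ε θ| ≤ S := fun θ => by rw [hS]; exact H.D_abs θ
  have hR : 2 * Real.pi * (4 * m * (ε * rb)) = 2 * S := by rw [hS]; ring
  have hC : 12 * Real.pi * m * (ε * rb) = 3 * S := by rw [hS]; ring
  have hω0 : 0 ≤ ω := by
    have := hω (p2 - (q2 - p2)) ⟨le_rfl, by linarith⟩ (p2 - (q2 - p2)) ⟨le_rfl, by linarith⟩
    rwa [sub_self, abs_zero] at this
  have hPnn : ∀ θ, 0 ≤ 2 * Real.pi * P θ := by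
    intro θ
    have h3 : 0 ≤ P θ := by
      rcases le_or_gt θ q1 with h | h
      · rw [hP0 θ h]
      · rw [← hP0 q1 le_rfl]; exact hPm h.le
    positivity
  have hPle : ∀ θ, 2 * Real.pi * P θ ≤ 2 * S := by
    intro θ
    rw [← hR]
    refine mul_le_mul_of_nonneg_left ?_ (by positivity)
    rw [← hP1 (max θ (q1' + 1)) (lt_of_lt_of_le (by linarith) (le_max_right _ _))]
    exact hPm (le_max_left _ _)
  obtain ⟨V, hV⟩ : ∃ V : ℝ → ℝ, V = fun θ => cD μ2 μ1 ε θ + 2 * Real.pi * P θ := ⟨_, rfl⟩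
  have hVa : ∀ θ, V θ = cD μ2 μ1 ε θ + 2 * Real.pi * P θ := fun θ => by rw [hV]
  have hVm : Measurable V := by
    rw [hV]
    refine Measurable.add ?_ (hPm.measurable.const_mul _)
    exact measurable_Ph.comp (((measurable_rr μ2 μ1).const_mul ε).prodMk
      ((bA_measurable μ1).sub (bA_measurable μ2)))
  have hVC : ∀ θ, |V θ| ≤ 3 * S := by
    intro θ
    rw [hVa]
    have h3 := hD θ
    rw [abs_le] at h3 ⊢
    constructor <;> linarith [hPnn θ, hPle θ]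
  have hmono : ∀ θ θ' : ℝ, q1 < θ → θ ≤ θ' → θ' ≤ 2 * Real.pi → V θ ≤ V θ' := by
    intro θ θ' h3 h4 h5
    rw [hVa, hVa]
    have h6 := H.D_right h3 h4 h5
    have h7 : 2 * Real.pi * P θ ≤ 2 * Real.pi * P θ' :=
      mul_le_mul_of_nonneg_left (hPm h4) (by positivity)
    linarith
  have hVD : ∀ θ, θ ≤ q1 → V θ = cD μ2 μ1 ε θ := by
    intro θ h3
    rw [hVa, hP0 θ h3]
    ring
  have hV2 : ∀ θ, q1' < θ → V θ = cD μ2 μ1 ε θ + 2 * S := by
    intro θ h3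
    rw [hVa, hP1 θ h3, hR]
  -- comparison of earlier values
  obtain ⟨c1, hc1⟩ : ∃ c1, c1 = 4 * Real.pi * m * (ε * ω) := ⟨_, rfl⟩
  have hc10 : 0 ≤ c1 := by rw [hc1]; positivity
  have hcmp : ∀ θ ∈ Ioo 0 Real.pi, ∀ θ' ∈ Ioc 0 θ,
      V θ' ≤ V θ + cG p2 q2 p1 q1' c1 (2 * S) θ := by
    rintro θ ⟨t0, t1⟩ θ' ⟨s0, s1⟩
    have hG0 := cG_nonneg (p2 := p2) (q2 := q2) (p1 := p1) (q1' := q1') hc10
      (by linarith : (0 : ℝ) ≤ 2 * S) θ
    rcases lt_or_ge θ p2 with k1 | k1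
    · rw [hVD θ' (by linarith), hVD θ (by linarith)]
      linarith [H.D_left s0.le s1 k1]
    rcases lt_or_ge θ (q2 + 2 * (q2 - p2)) with k2 | k2
    · have e1 : cG p2 q2 p1 q1' c1 (2 * S) θ = c1 := by
        unfold cG
        rw [indicator_of_mem (show θ ∈ Ico p2 (q2 + 2 * (q2 - p2)) from ⟨k1, k2⟩),
          indicator_of_notMem (fun h => by linarith [h.1]), add_zero]
      rw [e1, hVD θ' (by linarith), hVD θ (by linarith), hc1]
      linarith [H.D_loss hω s0 s1 k1 k2.le]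
    rcases lt_or_ge θ p1 with k3 | k3
    · rw [hVD θ' (by linarith), hVD θ (by linarith)]
      linarith [H.D_mid s0 s1 k2 k3]
    rcases le_or_gt θ q1' with k4 | k4
    · have e1 : cG p2 q2 p1 q1' c1 (2 * S) θ = 2 * S := by
        unfold cG
        rw [indicator_of_notMem (fun h => by linarith [h.2]),
          indicator_of_mem (show θ ∈ Icc p1 q1' from ⟨k3, k4⟩), zero_add]
      rw [e1, hVa, hVa]
      have h3 := hD θ
      have h4 := hD θ'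
      rw [abs_le] at h3 h4
      have h7 : 2 * Real.pi * P θ' ≤ 2 * Real.pi * P θ :=
        mul_le_mul_of_nonneg_left (hPm s1) (by positivity)
      linarith
    · rcases le_or_gt θ' q1 with k5 | k5
      · rw [hVD θ' k5, hV2 θ k4]
        have h3 := hD θ
        have h4 := hD θ'
        rw [abs_le] at h3 h4
        linarith
      · linarith [hmono θ' θ k5 s1 (by linarith)]
  have hbdd : ∀ θ : ℝ, BddAbove (V '' Ioc 0 θ) := by
    intro θ
    refine ⟨3 * S, ?_⟩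
    rintro _ ⟨x, -, rfl⟩
    exact (abs_le.1 (hVC x)).2
  have hloss : ∫ θ in Ioo 0 Real.pi, (sSup (V '' Ioc 0 θ) - V θ) ≤
      c1 * (3 * (q2 - p2)) + 2 * S * (q1' - p1) := by
    rw [← cG_integral (c1 := c1) (c2 := 2 * S) (by linarith : 0 < p2) h02 (by linarith)
      (by linarith) (by linarith) h1π']
    refine integral_mono_of_nonneg ?_ cG_integrable ?_
    · refine ae_restrict_of_forall_mem measurableSet_Ioo fun θ hθ => ?_
      have := le_csSup (hbdd θ) ⟨θ, ⟨hθ.1, le_rfl⟩, rfl⟩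
      simp only [Pi.zero_apply]
      linarith
    · refine ae_restrict_of_forall_mem measurableSet_Ioo fun θ hθ => ?_
      have h3 : sSup (V '' Ioc 0 θ) ≤ V θ + cG p2 q2 p1 q1' c1 (2 * S) θ := by
        refine csSup_le ⟨_, θ, ⟨hθ.1, le_rfl⟩, rfl⟩ ?_
        rintro _ ⟨x, hx, rfl⟩
        exact hcmp θ hθ x hx
      simp only
      linarith
  -- the gain
  have hgain : (1 / 2) * Real.sin ((∫ t, t ∂μ1) - (∫ t, t ∂μ2)) * ε *
      (Real.sin (p2 / 2) * (m * (p1 - q2)) * (Real.pi ^ 2 / 4)) ≤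
      ∫ θ in Ioo Real.pi (2 * Real.pi), (V θ - V Real.pi) := by
    have h3 := gain_int μ2 μ1 p2 q2 p1 q1 H.h2 H.h1 H.em (by rw [H.e2]; linarith [H.m8])
      (by linarith) h02.le (by linarith) h11.le h1π
    rw [H.e2] at h3
    have hsin : 0 ≤ Real.sin ((∫ t, t ∂μ1) - (∫ t, t ∂μ2)) :=
      Real.sin_nonneg_of_nonneg_of_le_pi H.b_pos.le (by linarith [H.b_pi])
    have h4 : (1 / 2) * Real.sin ((∫ t, t ∂μ1) - (∫ t, t ∂μ2)) * ε *
        (Real.sin (p2 / 2) * (m * (p1 - q2)) * (Real.pi ^ 2 / 4)) ≤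
        (1 / 2) * Real.sin ((∫ t, t ∂μ1) - (∫ t, t ∂μ2)) * ε *
          ∫ θ in Ioo Real.pi (2 * Real.pi), (rr μ2 μ1 Real.pi - rr μ2 μ1 θ) :=
      mul_le_mul_of_nonneg_left h3 (by positivity)
    refine h4.trans ?_
    rw [← integral_const_mul]
    have hfin : volume (Ioo Real.pi (2 * Real.pi)) ≠ ⊤ := by
      rw [Real.volume_Ioo]; exact ENNReal.ofReal_ne_top
    refine setIntegral_mono_on ?_ ?_ measurableSet_Ioo fun θ hθ => ?_
    · refine Measure.integrableOn_of_bounded (M := |1 / 2 * Real.sin ((∫ t, t ∂μ1) -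
        (∫ t, t ∂μ2)) * ε| * (2 * rb)) hfin ?_ ?_
      · exact (((measurable_const.sub (measurable_rr μ2 μ1)).const_mul _)).aestronglyMeasurable
      · refine Filter.Eventually.of_forall fun θ => ?_
        rw [Real.norm_eq_abs, abs_mul]
        refine mul_le_mul_of_nonneg_left ?_ (abs_nonneg _)
        have a1 := H.rrb θ
        have a2 := H.rrb Real.pi
        have a3 := rr_nn μ2 μ1 θ
        have a4 := rr_nn μ2 μ1 Real.pi
        rw [abs_le]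
        constructor <;> linarith
    · refine Measure.integrableOn_of_bounded (M := 6 * S) hfin ?_ ?_
      · exact (hVm.sub measurable_const).aestronglyMeasurable
      · refine Filter.Eventually.of_forall fun θ => ?_
        have a1 := hVC θ
        have a2 := hVC Real.pi
        rw [Real.norm_eq_abs]
        rw [abs_le] at a1 a2 ⊢
        constructor <;> linarith
    · rw [hV2 θ (by linarith [hθ.1]), hV2 Real.pi h1π']
      have := H.D_gain hθ.1.le hθ.2.le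
      linarith
  have hmain : ∫ θ in Ioo 0 Real.pi, (sSup (V '' Ioc 0 θ) - V θ) ≤
      ∫ θ in Ioo Real.pi (2 * Real.pi), (V θ - V Real.pi) := by
    refine hloss.trans (le_trans ?_ hgain)
    have hsinp : 0 ≤ Real.sin (p2 / 2) :=
      Real.sin_nonneg_of_nonneg_of_le_pi (by linarith) (by linarith)
    have h3 : 2 / Real.pi * (m * (p1 - q2)) ≤ Real.sin ((∫ t, t ∂μ1) - (∫ t, t ∂μ2)) := by
      refine le_trans ?_ (Real.mul_le_sin H.b_pos.le (by linarith [H.b_pi]))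
      exact mul_le_mul_of_nonneg_left H.b_bounds.1 (by positivity)
    have hd : 0 < p1 - q2 := by linarith
    have h4 : (1 / 2) * (2 / Real.pi * (m * (p1 - q2))) * ε *
        (Real.sin (p2 / 2) * (m * (p1 - q2)) * (Real.pi ^ 2 / 4)) ≤
        (1 / 2) * Real.sin ((∫ t, t ∂μ1) - (∫ t, t ∂μ2)) * ε *
        (Real.sin (p2 / 2) * (m * (p1 - q2)) * (Real.pi ^ 2 / 4)) := by
      have h5 : 0 ≤ ε * (Real.sin (p2 / 2) * (m * (p1 - q2)) * (Real.pi ^ 2 / 4)) := by positivity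
      nlinarith [mul_le_mul_of_nonneg_right h3 h5]
    refine le_trans ?_ h4
    have h6 : (1 / 2) * (2 / Real.pi * (m * (p1 - q2))) * ε *
        (Real.sin (p2 / 2) * (m * (p1 - q2)) * (Real.pi ^ 2 / 4)) =
        (Real.pi * m * ε / 4) * (m * (p1 - q2) ^ 2 * Real.sin (p2 / 2)) := by
      field_simp
    have h7 : c1 * (3 * (q2 - p2)) + 2 * S * (q1' - p1) =
        (Real.pi * m * ε / 4) * (48 * (q2 - p2) * ω + 32 * (q1' - p1) * rb) := by
      rw [hc1, hS]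
      ring
    rw [h6, h7]
    exact mul_le_mul_of_nonneg_left hineq (by positivity)
  have hh2 : ∀ θ ∈ Ioo 0 Real.pi, V θ ≤ V Real.pi := by
    intro θ hθ
    rcases le_or_gt θ q1 with k1 | k1
    · rw [hVD θ k1, hV2 Real.pi h1π']
      have h3 := hD θ
      have h4 := hD Real.pi
      rw [abs_le] at h3 h4
      linarith
    · exact hmono θ Real.pi k1 hθ.2.le (by linarith)
  have hh3 : ∀ a ∈ Ioo 0 Real.pi, ∀ b ∈ Ioo Real.pi (2 * Real.pi), ∃ a' ∈ Ioc 0 a,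
      V b - V a' ≤ 2 * S := by
    intro a ha b hb
    refine ⟨min a (p2 / 2), ⟨lt_min ha.1 (by linarith), min_le_left _ _⟩, ?_⟩
    have k1 : min a (p2 / 2) < p2 := lt_of_le_of_lt (min_le_right _ _) (by linarith)
    rw [hV2 b (by linarith [hb.1]), hVD (min a (p2 / 2)) (by linarith)]
    have := H.D_cross (a := min a (p2 / 2)) (b := b) (lt_min ha.1 (by linarith)) k1
      (by linarith [hb.1]) hb.2
    linarith
  obtain ⟨X, x1, x2, x3, x4, x5, x6⟩ := runsup V (2 * S) (3 * S) hVm (by linarith)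
    (fun θ _ => hVC θ) (fun θ hθ θ' hθ' hle => hmono θ θ' (by linarith [hθ.1]) hle hθ'.2.le)
    hh2 hh3 hmain
  refine ⟨X, x1, fun a ha b hb => ?_, fun θ hθ => ?_, fun θ hθ => ?_, fun θ hθ => ?_,
      fun θ => ?_, ?_, ?_⟩
  · rw [hR]; exact x2 a ha b hb
  · rw [← hVa]; exact x3 θ hθ
  · rw [← hVa]; exact x4 θ hθ
  · rw [hC]; exact x5 θ hθ
  · rw [hC, ← hVa]; exact hVC θ
  · rw [← hV]; exact hVm
  · simp only [← hVa]; exact x6

/-- The core, with abstract measures. -/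
private theorem core_aux (ν : Measure ℝ) [IsProbabilityMeasure ν] (hν : Supp ν)
    (H : CHyp μ2 μ1 p2 q2 p1 q1 m ε rb) (hεpos : 0 < ε) (hε1 : ε ≤ 1 / 2) {q1' ω : ℝ}
    (h11' : q1 < q1') (h1π' : q1' < Real.pi) (hrb0 : 0 ≤ rb)
    (hJ : 0 < ν.real (Ioc q1 q1')) (hκ : 4 * m * (ε * rb) ≤ ν.real (Ioc q1 q1'))
    (hg : ∀ z ∈ ball (0 : ℂ) 1, ‖g0 μ2 μ1 z‖ ≤ rb)
    (hω : ∀ θ ∈ Icc (p2 - (q2 - p2)) (q2 + 2 * (q2 - p2)),
      ∀ θ' ∈ Icc (p2 - (q2 - p2)) (q2 + 2 * (q2 - p2)),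
      |rr μ2 μ1 θ - rr μ2 μ1 θ'| ≤ ω)
    (hineq : 48 * (q2 - p2) * ω + 32 * (q1' - p1) * rb ≤
      m * (p1 - q2) ^ 2 * Real.sin (p2 / 2)) :
    ∃ q : ℂ → ℂ, IsCara q ∧ ∃ ν' : Measure ℝ,
      IsProbabilityMeasure ν' ∧ Supp ν' ∧ ∀ z ∈ ball (0 : ℂ) 1,
        mob 1 z * ((1 - ε * g0 μ2 μ1 z) / (1 - ε)) * Sm ν z = q z * Sm ν' z := by
  have h0 := H.h0
  have h02 := H.h02
  have h21 := H.h21
  have h11 := H.h11
  have h1π := H.h1π
  have hπ := Real.pi_pos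
  have hm0 := H.m0
  have hεrb : 0 ≤ ε * rb := mul_nonneg hεpos.le hrb0
  -- the measure `ρ`
  obtain ⟨κ, hκd⟩ : ∃ κ, κ = 4 * m * (ε * rb) / ν.real (Ioc q1 q1') := ⟨_, rfl⟩
  have hκ0 : 0 ≤ κ := by rw [hκd]; positivity
  have hκ1 : κ ≤ 1 := by rw [hκd, div_le_one hJ]; exact hκ
  obtain ⟨ρ, hρd⟩ : ∃ ρ : Measure ℝ, ρ = ENNReal.ofReal κ • ν.restrict (Ioc q1 q1') := ⟨_, rfl⟩
  have hρν : ρ ≤ ν := by
    rw [Measure.le_iff]
    intro s _
    rw [hρd, Measure.smul_apply, smul_eq_mul]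
    calc ENNReal.ofReal κ * ν.restrict (Ioc q1 q1') s ≤ 1 * ν s :=
          mul_le_mul' (ENNReal.ofReal_le_one.2 hκ1) (Measure.restrict_apply_le _ _)
      _ = ν s := one_mul _
  have hρf : IsFiniteMeasure ρ := isFiniteMeasure_of_le ν hρν
  have hρr : ∀ s, ρ.real s = κ * (ν.restrict (Ioc q1 q1')).real s := by
    intro s
    rw [hρd, measureReal_def, Measure.smul_apply, smul_eq_mul, ENNReal.toReal_mul,
      ENNReal.toReal_ofReal hκ0]
    rfl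
  have hρu : ρ.real univ = 4 * m * (ε * rb) := by
    rw [hρr, measureReal_restrict_apply MeasurableSet.univ, univ_inter, hκd]
    field_simp
  have hPm : Monotone fun θ => ρ.real (Ico 0 θ) := fun θ θ' h =>
    measureReal_mono (Ico_subset_Ico_right h)
  have hP0 : ∀ θ ≤ q1, ρ.real (Ico 0 θ) = 0 := by
    intro θ hθ
    rw [hρr, measureReal_restrict_apply measurableSet_Ico]
    have : Ico 0 θ ∩ Ioc q1 q1' = ∅ := by
      ext x
      simp only [mem_inter_iff, mem_Ico, mem_Ioc, mem_empty_iff_false, iff_false]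
      rintro ⟨⟨-, h3⟩, h4, -⟩
      linarith
    rw [this, measureReal_empty, mul_zero]
  have hP1 : ∀ θ, q1' < θ → ρ.real (Ico 0 θ) = 4 * m * (ε * rb) := by
    intro θ hθ
    rw [hρr, measureReal_restrict_apply measurableSet_Ico]
    have : Ico 0 θ ∩ Ioc q1 q1' = Ioc q1 q1' := by
      apply inter_eq_right.2
      intro x hx
      exact ⟨by linarith [hx.1], by linarith [hx.2]⟩
    rw [this, hκd]
    field_simp
  obtain ⟨X, x1, x2, x3, x4, x5, x6, x7, x8⟩ := core_runsup H hεpos h11' h1π'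
    (fun θ => ρ.real (Ico 0 θ)) hPm hP0 hP1 hω hineq hrb0
  -- supports
  have hS2 : Supp μ2 := by
    refine measure_mono_null (compl_subset_compl.2 ?_) H.h2
    exact fun x hx => ⟨by linarith [hx.1], by linarith [hx.2]⟩
  have hS1 : Supp μ1 := by
    refine measure_mono_null (compl_subset_compl.2 ?_) H.h1
    exact fun x hx => ⟨by linarith [hx.1], by linarith [hx.2]⟩
  have hrad := radial_logH μ2 μ1 hS2 hS1 ε rb hεpos.le (H.εrb.trans (by norm_num)) hg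
  -- the analytic function
  have hε1' : (0 : ℝ) < 1 - ε := by linarith
  have hslit : ∀ z ∈ ball (0 : ℂ) 1, (1 - ε * g0 μ2 μ1 z) ∈ Complex.slitPlane := by
    intro z hz
    left
    have h3 : ‖(ε : ℂ) * g0 μ2 μ1 z‖ ≤ 1 / 8 := by
      rw [norm_mul, Complex.norm_real, Real.norm_eq_abs, abs_of_pos hεpos]
      exact (mul_le_mul_of_nonneg_left (hg z hz) hεpos.le).trans H.εrb
    have h4 := Complex.re_le_norm ((ε : ℂ) * g0 μ2 μ1 z)
    rw [Complex.sub_re, Complex.one_re]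
    linarith
  have hlog1 : (Complex.log (1 - (ε : ℂ))).im = 0 := by
    have : (1 - (ε : ℂ)) = ((1 - ε : ℝ) : ℂ) := by push_cast; ring
    rw [this, Complex.log_im, Complex.arg_ofReal_of_nonneg hε1'.le]
  obtain ⟨L, hL⟩ : ∃ L : ℂ → ℂ, L = fun z => Complex.log (1 - ε * g0 μ2 μ1 z) -
    Complex.log (1 - (ε : ℂ)) := ⟨_, rfl⟩
  have hLim : ∀ z, (L z).im = (Complex.log (1 - ε * g0 μ2 μ1 z)).im := by
    intro z
    rw [hL]
    simp only [Complex.sub_im, hlog1, sub_zero]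
  have hLd : DifferentiableOn ℂ L (ball 0 1) := by
    rw [hL]
    refine DifferentiableOn.sub_const ?_ _
    refine DifferentiableOn.clog ?_ hslit
    exact (differentiableOn_const 1).sub ((g0_differentiableOn μ2 μ1).const_mul _)
  have hL0 : L 0 = 0 := by
    rw [hL]
    simp only [g0_apply_zero, mul_one, sub_self]
  have hLM : ∀ z ∈ ball (0 : ℂ) 1, |(L z).im| ≤ Real.pi := by
    intro z _
    rw [hLim, Complex.log_im]
    exact Complex.abs_arg_le_pi _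
  have hLr : RadLim (fun z => (L z).im) (cD μ2 μ1 ε) := by
    simp only [hLim]
    exact hrad
  have hDint := integral_radial L hLd Real.pi hLM (cD μ2 μ1 ε) hLr
  rw [hL0, Complex.zero_im, mul_zero] at hDint
  -- integrability
  have hfin : IsFiniteMeasure arcM := by
    unfold arcM
    infer_instance
  have hDi : Integrable (cD μ2 μ1 ε) arcM := by
    refine Integrable.of_bound (C := 4 * Real.pi * m * (ε * rb)) ?_ ?_
    · exact (measurable_Ph.comp (((measurable_rr μ2 μ1).const_mul ε).prodMk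
        ((bA_measurable μ1).sub (bA_measurable μ2)))).aestronglyMeasurable
    · exact Filter.Eventually.of_forall fun θ => H.D_abs θ
  have hVi : Integrable (fun θ => cD μ2 μ1 ε θ + 2 * Real.pi * ρ.real (Ico 0 θ)) arcM := by
    refine Integrable.of_bound (C := 12 * Real.pi * m * (ε * rb)) x7.aestronglyMeasurable ?_
    exact Filter.Eventually.of_forall fun θ => x6 θ
  have hXi : Integrable X arcM := by
    refine Integrable.of_bound (C := 12 * Real.pi * m * (ε * rb)) ?_ ?_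
    · exact (aemeasurable_restrict_of_monotoneOn measurableSet_Ioo x1).aestronglyMeasurable
    · exact ae_restrict_of_forall_mem measurableSet_Ioo fun θ hθ => x5 θ hθ
  have hmean : ∫ θ : ℝ, (X θ - 2 * Real.pi * ρ.real (Ico 0 θ)) ∂arcM = 0 := by
    have e1 : ∀ θ, X θ - 2 * Real.pi * ρ.real (Ico 0 θ) =
        (X θ - (cD μ2 μ1 ε θ + 2 * Real.pi * ρ.real (Ico 0 θ))) + cD μ2 μ1 ε θ := by
      intro θ; ring
    have hXV : Integrable (fun θ => X θ - (cD μ2 μ1 ε θ + 2 * Real.pi * ρ.real (Ico 0 θ))) arcM :=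
      hXi.sub hVi
    simp only [e1]
    rw [integral_add hXV hDi, hDint, x8, add_zero]
  obtain ⟨ν', n1, n2, n3⟩ := exists_measure ν ρ hν hρν X x1 (by
    rw [hρu]; exact x2) hmean
  have hS : 12 * Real.pi * m * (ε * rb) ≤ Real.pi / 2 := by
    have h3 := H.mpi
    have h4 := H.εrb
    have h5 : m * Real.pi * (ε * rb) ≤ Real.pi / 8 * (1 / 8) :=
      mul_le_mul h3 h4 hεrb (by positivity)
    linarith
  obtain ⟨q, hq, hq'⟩ := crit_mob ν ν' hν n2 L hLd hL0 Real.pi hLM (cD μ2 μ1 ε) hLr (by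
    have hmem : ∀ᵐ θ : ℝ ∂arcM, θ ∈ Ioo 0 (2 * Real.pi) := ae_restrict_mem measurableSet_Ioo
    filter_upwards [n3, hmem] with θ h3 h4
    have h5 : cD μ2 μ1 ε θ + bA ν θ - bA ν' θ =
        (cD μ2 μ1 ε θ + 2 * Real.pi * ρ.real (Ico 0 θ)) - X θ := by linarith
    rw [h5]
    have h6 := x5 θ h4
    have h7 := x6 θ
    rw [abs_le] at h6 h7
    refine ⟨fun h8 => ⟨by linarith, ?_⟩, fun h8 => ⟨?_, by linarith⟩⟩
    · linarith [x3 θ ⟨h4.1, h8⟩]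
    · linarith [x4 θ ⟨h8, h4.2⟩])
  refine ⟨q, hq, ν', n1, n2, fun z hz => ?_⟩
  rw [← hq' z hz, hL]
  congr 2
  simp only
  rw [Complex.exp_sub, Complex.exp_log (Complex.slitPlane_ne_zero (hslit z hz)),
    Complex.exp_log]
  have : (1 - (ε : ℂ)) = ((1 - ε : ℝ) : ℂ) := by push_cast; ring
  rw [this]
  exact_mod_cast hε1'.ne'

end Facts

theorem core (ν : Measure ℝ) [IsProbabilityMeasure ν] (hν : Supp ν) (p2 q2 p1 q1 q1' : ℝ)
    (h02 : p2 < q2) (h0 : 0 < p2 - (q2 - p2)) (h21 : q2 + 2 * (q2 - p2) < p1)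
    (h11 : p1 < q1) (h11' : q1 < q1') (h1π : q1' < Real.pi)
    (hat : ∀ t ∈ Icc p2 q2, ν {t} = 0) (hmpos : 0 < ν.real (Icc p2 q2))
    (hm8 : ν.real (Icc p2 q2) ≤ 1 / 8) (hJ : 0 < ν (Ioc q1 q1')) (rb ω : ℝ)
    (hrb : ∀ z ∈ ball (0 : ℂ) 1,
      ‖g0 (ν.restrict (Icc p2 q2)) (unif (ν.real (Icc p2 q2)) p1 q1) z‖ ≤ rb)
    (hrb' : ∀ θ : ℝ, rr (ν.restrict (Icc p2 q2)) (unif (ν.real (Icc p2 q2)) p1 q1) θ ≤ rb)
    (hω : ∀ θ ∈ Icc (p2 - (q2 - p2)) (q2 + 2 * (q2 - p2)),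
      ∀ θ' ∈ Icc (p2 - (q2 - p2)) (q2 + 2 * (q2 - p2)),
      |rr (ν.restrict (Icc p2 q2)) (unif (ν.real (Icc p2 q2)) p1 q1) θ -
        rr (ν.restrict (Icc p2 q2)) (unif (ν.real (Icc p2 q2)) p1 q1) θ'| ≤ ω)
    (hineq : 48 * (q2 - p2) * ω + 32 * (q1' - p1) * rb ≤
      ν.real (Icc p2 q2) * (p1 - q2) ^ 2 * Real.sin (p2 / 2)) :
    ∃ ε : ℝ, 0 < ε ∧ ε < 1 ∧ ∃ q : ℂ → ℂ, IsCara q ∧ ∃ ν' : Measure ℝ,
      IsProbabilityMeasure ν' ∧ Supp ν' ∧ ∀ z ∈ ball (0 : ℂ) 1,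
        mob 1 z * ((1 - ε * g0 (ν.restrict (Icc p2 q2))
          (unif (ν.real (Icc p2 q2)) p1 q1) z) / (1 - ε)) * Sm ν z = q z * Sm ν' z := by
  have hJr : 0 < ν.real (Ioc q1 q1') := by
    rw [measureReal_def]
    exact ENNReal.toReal_pos hJ.ne' (measure_ne_top _ _)
  -- `1 ≤ rb`
  have hrb1 : 1 ≤ rb := by
    have := hrb 0 (mem_ball_self one_pos)
    rwa [g0_apply_zero, norm_one] at this
  have hrb0 : 0 < rb := by linarith
  obtain ⟨ε, hε⟩ : ∃ ε, ε = min (1 / (8 * rb))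
    (ν.real (Ioc q1 q1') / (4 * ν.real (Icc p2 q2) * rb)) := ⟨_, rfl⟩
  have hε0 : 0 < ε := by rw [hε]; positivity
  have hε1 : ε * rb ≤ 1 / 8 := by
    have h3 : ε ≤ 1 / (8 * rb) := by rw [hε]; exact min_le_left _ _
    rw [le_div_iff₀ (by positivity)] at h3
    linarith
  have hε2 : 4 * ν.real (Icc p2 q2) * (ε * rb) ≤ ν.real (Ioc q1 q1') := by
    have h3 : ε ≤ ν.real (Ioc q1 q1') / (4 * ν.real (Icc p2 q2) * rb) := by
      rw [hε]; exact min_le_right _ _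
    rw [le_div_iff₀ (by positivity)] at h3
    linarith
  have hε3 : ε ≤ 1 / 8 := by nlinarith
  have H : CHyp (ν.restrict (Icc p2 q2)) (unif (ν.real (Icc p2 q2)) p1 q1) p2 q2 p1 q1
      (ν.real (Icc p2 q2)) ε rb := by
    refine ⟨?_, unif_compl _ _ _, ?_, unif_real_univ hmpos.le h11, hmpos, hm8, h02, h0, h21, h11,
      by linarith, hε0.le, hε1, hrb', ?_⟩
    · rw [Measure.restrict_apply measurableSet_Icc.compl, compl_inter_self, measure_empty]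
    · rw [measureReal_restrict_apply MeasurableSet.univ, univ_inter]
    · intro t
      rw [Measure.restrict_apply (measurableSet_singleton t)]
      by_cases ht : t ∈ Icc p2 q2
      · exact measure_mono_null inter_subset_left (hat t ht)
      · have : ({t} : Set ℝ) ∩ Icc p2 q2 = ∅ := by
          ext x
          simp only [mem_inter_iff, mem_singleton_iff, mem_empty_iff_false, iff_false]
          rintro ⟨rfl, h3⟩
          exact ht h3
        rw [this, measure_empty]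
  obtain ⟨q, hq, ν', h3, h4, h5⟩ := core_aux ν hν H hε0 (by linarith) h11' h1π hrb0.le hJr hε2
    hrb hω hineq
  exact ⟨ε, hε0, by linarith, q, hq, ν', h3, h4, h5⟩

end Baz16
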