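import Pool.Agent.Baz16.Basic

/-! # Radial limits of `Im Lm`.

For `phi = theta - t`, `arg (1 - r e^{i phi}) -> arg (1 - e^{i phi})` when `phi` is not a multiple
of `2 pi`, and `1 - e^{i phi} = 2 sin(phi/2) e^{i (phi - pi)/2}` for `0 < phi < 2 pi`.  Dominated
convergence (`|arg| < pi/2`) gives `radial_Lm`; a finite measure has countably many atoms, so
`ae_radial_Lm` follows.
-/

namespace Baz16
open Complex Metric MeasureTheory Set Filter Topology

private theorem radial_ident (φ : ℝ) : (1 : ℂ) - cexp (φ * I) =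
    ((2 * Real.sin (φ / 2) : ℝ) : ℂ) *
      (Complex.cos (((φ - Real.pi) / 2 : ℝ) : ℂ) + Complex.sin (((φ - Real.pi) / 2 : ℝ) : ℂ) * I) := by
  have hc : Real.cos ((φ - Real.pi) / 2) = Real.sin (φ / 2) := by
    rw [show (φ - Real.pi) / 2 = φ / 2 - Real.pi / 2 by ring, Real.cos_sub_pi_div_two]
  have hs : Real.sin ((φ - Real.pi) / 2) = -Real.cos (φ / 2) := by
    rw [show (φ - Real.pi) / 2 = φ / 2 - Real.pi / 2 by ring, Real.sin_sub_pi_div_two]
  have h1 : Real.cos φ = 1 - 2 * Real.sin (φ / 2) ^ 2 := by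
    have := Real.cos_two_mul (φ / 2)
    rw [show 2 * (φ / 2) = φ by ring] at this
    have h2 := Real.sin_sq_add_cos_sq (φ / 2)
    nlinarith
  have h2 : Real.sin φ = 2 * Real.sin (φ / 2) * Real.cos (φ / 2) := by
    have := Real.sin_two_mul (φ / 2)
    rwa [show 2 * (φ / 2) = φ by ring] at this
  rw [Complex.exp_mul_I, ← Complex.ofReal_cos, ← Complex.ofReal_sin, ← Complex.ofReal_cos,
    ← Complex.ofReal_sin, hc, hs, h1, h2]
  push_cast
  ring

theorem arg_one_sub_exp {φ : ℝ} (h0 : 0 < φ) (h1 : φ < 2 * Real.pi) :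
    (1 - cexp (φ * I)).arg = (φ - Real.pi) / 2 := by
  rw [radial_ident]
  have hpos : 0 < 2 * Real.sin (φ / 2) := by
    have := Real.sin_pos_of_pos_of_lt_pi (x := φ / 2) (by linarith) (by linarith)
    linarith
  have hpi := Real.pi_pos
  exact Complex.arg_mul_cos_add_sin_mul_I hpos ⟨by linarith, by linarith⟩

theorem norm_one_sub_exp (φ : ℝ) : ‖1 - cexp (φ * I)‖ = 2 * |Real.sin (φ / 2)| := by
  rw [radial_ident, norm_mul, ← Complex.exp_mul_I, Complex.norm_exp_ofReal_mul_I, mul_one,
    Complex.norm_real, Real.norm_eq_abs, abs_mul, abs_of_pos (two_pos : (0:ℝ) < 2)]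

theorem yy_mul_pt (t θ r : ℝ) : yy t * pt r θ = pt r (θ - t) := by
  unfold yy pt
  rw [mul_left_comm, ← Complex.exp_add]
  congr 2
  push_cast
  ring

private theorem radial_re {φ : ℝ} (h0 : 0 < φ) (h1 : φ < 2 * Real.pi) :
    0 < (1 - cexp (φ * I)).re := by
  have hpos := Real.sin_pos_of_pos_of_lt_pi (x := φ / 2) (by linarith) (by linarith)
  have h1 : Real.cos φ = 1 - 2 * Real.sin (φ / 2) ^ 2 := by
    have := Real.cos_two_mul (φ / 2)
    rw [show 2 * (φ / 2) = φ by ring] at this
    have h2 := Real.sin_sq_add_cos_sq (φ / 2)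
    nlinarith
  rw [Complex.sub_re, Complex.one_re, Complex.exp_ofReal_mul_I_re, h1]
  have : 0 < Real.sin (φ / 2) ^ 2 := by positivity
  linarith

private theorem radial_per (φ : ℝ) : cexp ((φ + 2 * Real.pi : ℝ) * I) = cexp (φ * I) := by
  rw [Complex.exp_eq_exp_iff_exists_int]
  exact ⟨1, by push_cast; ring⟩

private theorem radial_tendsto_pt (φ : ℝ) :
    Tendsto (fun r : ℝ => 1 - pt r φ) (𝓝[<] 1) (𝓝 (1 - cexp (φ * I))) := by
  have hc : Continuous (fun r : ℝ => 1 - pt r φ) := by
    unfold pt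
    fun_prop
  have := hc.tendsto 1
  simp only [pt, Complex.ofReal_one, one_mul] at this
  exact this.mono_left nhdsWithin_le_nhds

theorem radial_arg {t θ : ℝ} (ht : t ∈ Ico 0 (2 * Real.pi)) (hθ : θ ∈ Ioo 0 (2 * Real.pi))
    (hne : t ≠ θ) :
    Tendsto (fun r : ℝ => (1 - yy t * pt r θ).arg) (𝓝[<] 1)
      (𝓝 (if t < θ then (θ - t - Real.pi) / 2 else (θ - t + Real.pi) / 2)) := by
  simp only [yy_mul_pt]
  have ht0 := ht.1
  have ht1 := ht.2
  have hθ0 := hθ.1
  have hθ1 := hθ.2
  split_ifs with h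
  · have h0 : 0 < θ - t := by linarith
    have h1 : θ - t < 2 * Real.pi := by linarith
    rw [← arg_one_sub_exp h0 h1]
    exact (Complex.continuousAt_arg (Or.inl (radial_re h0 h1))).tendsto.comp
      (radial_tendsto_pt (θ - t))
  · have hlt : θ < t := lt_of_le_of_ne (not_lt.mp h) (Ne.symm hne)
    have h0 : 0 < θ - t + 2 * Real.pi := by linarith
    have h1 : θ - t + 2 * Real.pi < 2 * Real.pi := by linarith
    have he : (θ - t + Real.pi) / 2 = (θ - t + 2 * Real.pi - Real.pi) / 2 := by ring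
    rw [he, ← arg_one_sub_exp h0 h1]
    have hc := (Complex.continuousAt_arg (Or.inl (radial_re h0 h1))).tendsto
    rw [radial_per] at hc ⊢
    exact hc.comp (radial_tendsto_pt (θ - t))

private theorem radial_ball {r θ : ℝ} (h0 : 0 ≤ r) (h1 : r < 1) : pt r θ ∈ ball (0 : ℂ) 1 := by
  rw [mem_ball_zero_iff, pt, norm_mul, Complex.norm_exp_ofReal_mul_I, mul_one, Complex.norm_real,
    Real.norm_eq_abs, abs_of_nonneg h0]
  exact h1

private theorem radial_ae_mem {ν : Measure ℝ} (hν : Supp ν) : ∀ᵐ t ∂ν, t ∈ Ico 0 (2 * Real.pi) := by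
  rw [ae_iff]
  exact hν

private theorem radial_int_id (ν : Measure ℝ) [IsFiniteMeasure ν] (hν : Supp ν) :
    Integrable (fun t : ℝ => t) ν := by
  refine Integrable.of_bound (C := 2 * Real.pi) measurable_id.aestronglyMeasurable ?_
  filter_upwards [radial_ae_mem hν] with t ht
  rw [Real.norm_eq_abs, abs_of_nonneg ht.1]
  exact ht.2.le

private theorem radial_real_Ico (ν : Measure ℝ) (hν : Supp ν) (θ : ℝ) :
    ν.real (Ico 0 θ) = ν.real (Iio θ) := by
  refine measureReal_congr ?_
  filter_upwards [radial_ae_mem hν] with t ht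
  apply propext
  change (0 ≤ t ∧ t < θ) ↔ t < θ
  exact ⟨fun h => h.2, fun h => ⟨ht.1, h⟩⟩

theorem radial_Lm (ν : Measure ℝ) [IsFiniteMeasure ν] (hν : Supp ν) {θ : ℝ}
    (hθ : θ ∈ Ioo 0 (2 * Real.pi)) (h0 : ν {θ} = 0) :
    Tendsto (fun r : ℝ => (Lm ν (pt r θ)).im) (𝓝[<] 1) (𝓝 (-(1 / 2) * bA ν θ)) := by
  have hr : ∀ᶠ r : ℝ in 𝓝[<] 1, r ∈ Ioo (0 : ℝ) 1 := Ioo_mem_nhdsLT one_pos
  have hlim : ∫ t, (if t < θ then (θ - t - Real.pi) / 2 else (θ - t + Real.pi) / 2) ∂ν =
      -(1 / 2) * bA ν θ := by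
    have he : ∀ t : ℝ, (if t < θ then (θ - t - Real.pi) / 2 else (θ - t + Real.pi) / 2) =
        ((θ + Real.pi) / 2 - (1 / 2) * t) - Real.pi * (Iio θ).indicator (fun _ => (1 : ℝ)) t := by
      intro t
      by_cases h : t < θ
      · rw [if_pos h, indicator_of_mem (show t ∈ Iio θ from h)]
        ring
      · rw [if_neg h, indicator_of_notMem (show t ∉ Iio θ from h)]
        ring
    simp_rw [he]
    have hi1 : Integrable (fun t : ℝ => (1 / 2) * t) ν := (radial_int_id ν hν).const_mul _
    have hi2 : Integrable (fun t : ℝ => Real.pi * (Iio θ).indicator (fun _ => (1 : ℝ)) t) ν :=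
      ((integrable_const (1 : ℝ)).indicator measurableSet_Iio).const_mul _
    have hi3 : Integrable (fun t : ℝ => (θ + Real.pi) / 2 - (1 / 2) * t) ν :=
      (integrable_const _).sub hi1
    rw [integral_sub hi3 hi2, integral_sub (integrable_const _) hi1,
      integral_const_mul, integral_const_mul, integral_const, integral_indicator measurableSet_Iio,
      setIntegral_const, bA, radial_real_Ico ν hν]
    simp only [smul_eq_mul]
    ring
  rw [← hlim]
  have hmain : Tendsto (fun r : ℝ => ∫ t, (1 - yy t * pt r θ).arg ∂ν) (𝓝[<] 1)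
      (𝓝 (∫ t, (if t < θ then (θ - t - Real.pi) / 2 else (θ - t + Real.pi) / 2) ∂ν)) := by
    refine tendsto_integral_filter_of_dominated_convergence (fun _ => Real.pi / 2) ?_ ?_
      (integrable_const _) ?_
    · filter_upwards [hr] with r hr
      refine Measurable.aestronglyMeasurable ?_
      refine Complex.measurable_arg.comp ?_
      exact ((continuous_const.sub (continuous_yy.mul continuous_const))).measurable
    · filter_upwards [hr] with r hr
      refine Eventually.of_forall fun t => ?_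
      rw [Real.norm_eq_abs]
      exact (abs_arg_ker (radial_ball hr.1.le hr.2) t).le
    · have hne : ∀ᵐ t ∂ν, t ≠ θ := by
        rw [ae_iff]
        simpa using h0
      filter_upwards [radial_ae_mem hν, hne] with t ht hne
      exact radial_arg ht hθ hne
  refine hmain.congr' ?_
  filter_upwards [hr] with r hr
  exact (Lm_im ν (radial_ball hr.1.le hr.2)).symm

theorem ae_radial_Lm (ν : Measure ℝ) [IsFiniteMeasure ν] (hν : Supp ν) :
    RadLim (fun z => (Lm ν z).im) (fun θ => -(1 / 2) * bA ν θ) := by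
  unfold RadLim
  have hc : Set.Countable {θ : ℝ | ν {θ} ≠ 0} := by
    have := Measure.countable_meas_pos_of_disjoint_iUnion (μ := ν) (As := fun θ : ℝ => ({θ} : Set ℝ))
      (fun θ => measurableSet_singleton θ) (fun a b hab => by
        simpa [Function.onFun] using hab)
    refine this.mono ?_
    intro θ hθ
    exact pos_iff_ne_zero.mpr hθ
  have h1 : ∀ᵐ θ : ℝ ∂arcM, θ ∉ {θ : ℝ | ν {θ} ≠ 0} := by
    refine ae_restrict_of_ae ?_
    exact hc.ae_notMem volume
  have h2 : ∀ᵐ θ : ℝ ∂arcM, θ ∈ Ioo 0 (2 * Real.pi) := ae_restrict_mem measurableSet_Ioo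
  filter_upwards [h1, h2] with θ h1 h2
  refine radial_Lm ν hν h2 ?_
  simpa using h1

/-- `bA` is bounded and measurable. -/
theorem bA_measurable (ν : Measure ℝ) [IsFiniteMeasure ν] : Measurable (bA ν) := by
  have h1 : Measurable (fun θ : ℝ => ν.real (Ico 0 θ)) := by
    refine Monotone.measurable ?_
    intro a b hab
    exact measureReal_mono (Ico_subset_Ico_right hab) (measure_ne_top _ _)
  unfold bA
  exact ((h1.const_mul _).sub ((measurable_const.add measurable_id).mul_const _)).add_const _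

private theorem radial_int_bd (ν : Measure ℝ) [IsFiniteMeasure ν] (hν : Supp ν) :
    0 ≤ ∫ t, t ∂ν ∧ ∫ t, t ∂ν ≤ 2 * Real.pi * ν.real univ := by
  constructor
  · refine integral_nonneg_of_ae ?_
    filter_upwards [radial_ae_mem hν] with t ht
    exact ht.1
  · have h := integral_mono_ae (radial_int_id ν hν) (integrable_const (2 * Real.pi)) (by
      filter_upwards [radial_ae_mem hν] with t ht
      exact ht.2.le)
    rw [integral_const, smul_eq_mul] at h
    linarith

theorem abs_bA_le (ν : Measure ℝ) [IsFiniteMeasure ν] (hν : Supp ν) {θ : ℝ}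
    (hθ : θ ∈ Ioo 0 (2 * Real.pi)) : |bA ν θ| ≤ 7 * Real.pi * ν.real univ := by
  have hθ0 := hθ.1
  have hθ1 := hθ.2
  have hpi := Real.pi_pos
  obtain ⟨hT0, hT1⟩ := radial_int_bd ν hν
  have hm : 0 ≤ ν.real univ := measureReal_nonneg
  have ha0 : 0 ≤ ν.real (Ico 0 θ) := measureReal_nonneg
  have ha1 : ν.real (Ico 0 θ) ≤ ν.real univ := measureReal_mono (subset_univ _) (measure_ne_top _ _)
  unfold bA
  have e1 : 0 ≤ 2 * Real.pi * ν.real (Ico 0 θ) := by positivity
  have e2 : 2 * Real.pi * ν.real (Ico 0 θ) ≤ 2 * Real.pi * ν.real univ :=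
    mul_le_mul_of_nonneg_left ha1 (by positivity)
  have e3 : 0 ≤ (Real.pi + θ) * ν.real univ := by positivity
  have e4 : (Real.pi + θ) * ν.real univ ≤ (3 * Real.pi) * ν.real univ :=
    mul_le_mul_of_nonneg_right (by linarith) hm
  have e5 : 0 ≤ Real.pi * ν.real univ := by positivity
  rw [abs_le]
  constructor <;> nlinarith

/-- `int_0^{2 pi} 2 pi nu([0, theta)) = 2 pi int (2 pi - t) dnu` (Fubini). -/
theorem bA_mean (ν : Measure ℝ) [IsFiniteMeasure ν] (hν : Supp ν) :
    ∫ θ : ℝ, bA ν θ ∂arcM = 0 := by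
  have hpi := Real.pi_pos
  have : IsFiniteMeasure arcM := by
    unfold arcM
    refine ⟨?_⟩
    rw [Measure.restrict_apply_univ, Real.volume_Ioo]
    exact ENNReal.ofReal_lt_top
  -- Fubini for the first term
  have hF : ∫ θ : ℝ, ν.real (Ico 0 θ) ∂arcM = 2 * Real.pi * ν.real univ - ∫ t, t ∂ν := by
    have hS : MeasurableSet {p : ℝ × ℝ | 0 ≤ p.2 ∧ p.2 < p.1} :=
      (measurableSet_le measurable_const measurable_snd).inter
        (measurableSet_lt measurable_snd measurable_fst)
    have h1 : ∀ θ : ℝ, ν.real (Ico 0 θ) =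
        ∫ t, ({p : ℝ × ℝ | 0 ≤ p.2 ∧ p.2 < p.1}.indicator (fun _ => (1 : ℝ)) (θ, t)) ∂ν := by
      intro θ
      have : (fun t : ℝ => {p : ℝ × ℝ | 0 ≤ p.2 ∧ p.2 < p.1}.indicator (fun _ => (1 : ℝ)) (θ, t)) =
          (Ico 0 θ).indicator (fun _ => (1 : ℝ)) := by
        ext t
        by_cases h : 0 ≤ t ∧ t < θ
        · rw [indicator_of_mem (show (θ, t) ∈ {p : ℝ × ℝ | 0 ≤ p.2 ∧ p.2 < p.1} from h),
            indicator_of_mem (show t ∈ Ico 0 θ from h)]
        · rw [indicator_of_notMem (show (θ, t) ∉ {p : ℝ × ℝ | 0 ≤ p.2 ∧ p.2 < p.1} from h),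
            indicator_of_notMem (show t ∉ Ico 0 θ from h)]
      rw [this, integral_indicator measurableSet_Ico, setIntegral_const]
      simp
    simp_rw [h1]
    rw [integral_integral_swap (f := fun θ t => {p : ℝ × ℝ | 0 ≤ p.2 ∧ p.2 < p.1}.indicator
      (fun _ => (1 : ℝ)) (θ, t))]
    · have h2 : ∀ᵐ t ∂ν, ∫ θ : ℝ, ({p : ℝ × ℝ | 0 ≤ p.2 ∧ p.2 < p.1}.indicator
          (fun _ => (1 : ℝ)) (θ, t)) ∂arcM = 2 * Real.pi - t := by
        filter_upwards [radial_ae_mem hν] with t ht
        have : (fun θ : ℝ => {p : ℝ × ℝ | 0 ≤ p.2 ∧ p.2 < p.1}.indicator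
            (fun _ => (1 : ℝ)) (θ, t)) = (Ioi t).indicator (fun _ => (1 : ℝ)) := by
          ext θ
          by_cases h : t < θ
          · rw [indicator_of_mem (show (θ, t) ∈ {p : ℝ × ℝ | 0 ≤ p.2 ∧ p.2 < p.1} from ⟨ht.1, h⟩),
              indicator_of_mem (show θ ∈ Ioi t from h)]
          · rw [indicator_of_notMem (show (θ, t) ∉ {p : ℝ × ℝ | 0 ≤ p.2 ∧ p.2 < p.1} from
              fun hh => h hh.2), indicator_of_notMem (show θ ∉ Ioi t from h)]
        rw [this, integral_indicator measurableSet_Ioi, setIntegral_const, smul_eq_mul, mul_one]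
        unfold arcM
        rw [measureReal_restrict_apply measurableSet_Ioi]
        have hset : Ioi t ∩ Ioo 0 (2 * Real.pi) = Ioo t (2 * Real.pi) := by
          ext x
          simp only [mem_inter_iff, mem_Ioi, mem_Ioo]
          constructor
          · rintro ⟨a, b, c⟩
            exact ⟨a, c⟩
          · rintro ⟨a, b⟩
            exact ⟨a, lt_of_le_of_lt ht.1 a, b⟩
        rw [hset, Measure.real, Real.volume_Ioo, ENNReal.toReal_ofReal]
        linarith [ht.2]
      rw [integral_congr_ae h2, integral_sub (integrable_const _) (radial_int_id ν hν),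
        integral_const, smul_eq_mul]
      ring
    · exact (integrable_const (1 : ℝ)).indicator hS
  have hreal : arcM.real univ = 2 * Real.pi := by
    unfold arcM
    rw [measureReal_restrict_apply_univ, Measure.real, Real.volume_Ioo, ENNReal.toReal_ofReal]
    · ring
    · linarith
  have hid : ∫ θ : ℝ, θ ∂arcM = 2 * Real.pi ^ 2 := by
    unfold arcM
    rw [← integral_Ioc_eq_integral_Ioo, ← intervalIntegral.integral_of_le (by linarith),
      integral_id]
    ring
  have hi0 : Integrable (fun θ : ℝ => ν.real (Ico 0 θ)) arcM := by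
    refine Integrable.of_bound (C := ν.real univ) ?_ ?_
    · refine Measurable.aestronglyMeasurable ?_
      refine Monotone.measurable ?_
      intro a b hab
      exact measureReal_mono (Ico_subset_Ico_right hab) (measure_ne_top _ _)
    · refine Eventually.of_forall fun θ => ?_
      rw [Real.norm_eq_abs, abs_of_nonneg measureReal_nonneg]
      exact measureReal_mono (subset_univ _) (measure_ne_top _ _)
  have hi1 : Integrable (fun θ : ℝ => θ) arcM := by
    refine Integrable.of_bound (C := 2 * Real.pi) measurable_id.aestronglyMeasurable ?_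
    have : ∀ᵐ θ : ℝ ∂arcM, θ ∈ Ioo 0 (2 * Real.pi) := ae_restrict_mem measurableSet_Ioo
    filter_upwards [this] with t ht
    rw [Real.norm_eq_abs, abs_of_nonneg ht.1.le]
    exact ht.2.le
  unfold bA
  have e1 : Integrable (fun θ : ℝ => 2 * Real.pi * ν.real (Ico 0 θ)) arcM := hi0.const_mul _
  have e2 : Integrable (fun θ : ℝ => (Real.pi + θ) * ν.real univ) arcM :=
    ((integrable_const _).add hi1).mul_const _
  have e3 : Integrable (fun θ : ℝ => 2 * Real.pi * ν.real (Ico 0 θ) -
      (Real.pi + θ) * ν.real univ) arcM := e1.sub e2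
  rw [integral_add e3 (integrable_const _), integral_sub e1 e2, integral_const_mul,
    integral_mul_const, integral_add (integrable_const _) hi1, integral_const, integral_const,
    hF, hid, hreal]
  simp only [smul_eq_mul]
  ring

end Baz16
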