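import Pool.Agent.Baz16.MaxP
import Pool.Agent.Baz16.Radial

/-! # The criterion.

`u = log (mob 1) + ℓ - 2 Lm ν + 2 Lm ν'` is analytic on the disc, `Im u` is bounded and has the
radial limit `(± pi/2) + D + bA ν - bA ν'` almost everywhere, which is in `[-pi/2, pi/2]`.  By
`im_le_of_radial`, `im_ge_of_radial` `|Im u| ≤ pi/2` on the disc, so `q = exp u` has nonnegative
real part, `q 0 = 1`, hence positive real part (open mapping / minimum principle for `Re q`).
-/

namespace Baz16
open Complex Metric MeasureTheory Set Filter Topology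

theorem mob_re_pos {x : ℂ} (hx : ‖x‖ = 1) {z : ℂ} (hz : z ∈ ball (0 : ℂ) 1) :
    0 < (mob x z).re := by
  have hw : ‖x * z‖ < 1 := by
    rw [norm_mul, hx, one_mul]
    simpa using hz
  set w := x * z with hwd
  have hne : (1 : ℂ) - w ≠ 0 := by
    intro h
    have h1 : w = 1 := (sub_eq_zero.mp h).symm
    rw [h1, norm_one] at hw
    exact lt_irrefl _ hw
  have hns : 0 < Complex.normSq (1 - w) := Complex.normSq_pos.mpr hne
  have h2 : Complex.normSq w < 1 := by
    rw [Complex.normSq_eq_norm_sq]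
    have := norm_nonneg w
    nlinarith
  rw [Complex.normSq_apply] at h2
  have h3 : (mob x z).re = (1 - (w.re * w.re + w.im * w.im)) / Complex.normSq (1 - w) := by
    unfold mob
    rw [← hwd, Complex.div_re]
    simp only [Complex.add_re, Complex.one_re, Complex.sub_re, Complex.add_im, Complex.one_im,
      Complex.sub_im]
    ring
  rw [h3]
  apply div_pos _ hns
  linarith

private theorem mob_differentiableOn {x : ℂ} (hx : ‖x‖ = 1) :
    DifferentiableOn ℂ (mob x) (ball 0 1) := by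
  unfold mob
  apply DifferentiableOn.div
  · fun_prop
  · fun_prop
  · intro z hz h
    have hw : ‖x * z‖ < 1 := by
      rw [norm_mul, hx, one_mul]
      simpa using hz
    have h1 : x * z = 1 := (sub_eq_zero.mp h).symm
    rw [h1, norm_one] at hw
    exact lt_irrefl _ hw

private theorem mob_zero (x : ℂ) : mob x 0 = 1 := by simp [mob]

theorem isCara_mob {x : ℂ} (hx : ‖x‖ = 1) : IsCara (mob x) :=
  ⟨mob_differentiableOn hx, mob_zero x, fun _ hz => mob_re_pos hx hz⟩

/-- A function with nonnegative real part and value `1` at `0` is Caratheodory. -/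
theorem isCara_of_nonneg {q : ℂ → ℂ} (hq : DifferentiableOn ℂ q (ball 0 1)) (h0 : q 0 = 1)
    (hre : ∀ z ∈ ball (0 : ℂ) 1, 0 ≤ (q z).re) : IsCara q := by
  refine ⟨hq, h0, fun z hz => ?_⟩
  rcases (hre z hz).lt_or_eq with h | h
  · exact h
  exfalso
  have hd : DifferentiableOn ℂ (fun w => cexp (-(q w))) (ball 0 1) := hq.neg.cexp
  have hmax : IsMaxOn (norm ∘ fun w => cexp (-(q w))) (ball (0 : ℂ) 1) z := by
    intro w hw
    simp only [Function.comp_apply, mem_ofPred_eq, Complex.norm_exp, Complex.neg_re]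
    rw [← h]
    apply Real.exp_le_exp.mpr
    have := hre w hw
    linarith
  have hpc : IsPreconnected (ball (0 : ℂ) 1) := (convex_ball 0 1).isPreconnected
  have h1 := Complex.norm_eqOn_of_isPreconnected_of_isMaxOn hpc isOpen_ball hd hz hmax
  have h00 : (0 : ℂ) ∈ ball (0 : ℂ) 1 := by simp
  have h2 := h1 h00
  simp only [Function.comp_apply, Function.const_apply, Complex.norm_exp, Complex.neg_re, h0,
    ← h, Complex.one_re, neg_zero, Real.exp_zero] at h2
  have h3 : Real.exp (-1) < 1 := by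
    rw [Real.exp_lt_one_iff]
    norm_num
  linarith

private theorem mob_exp_eq {θ : ℝ} (h : (1 : ℂ) - cexp (θ * I) ≠ 0) :
    (mob 1 (cexp (θ * I))).re = 0 ∧
      (mob 1 (cexp (θ * I))).im = 2 * Real.sin θ / Complex.normSq (1 - cexp (θ * I)) := by
  have hre : (cexp (θ * I)).re = Real.cos θ := Complex.exp_ofReal_mul_I_re θ
  have him : (cexp (θ * I)).im = Real.sin θ := Complex.exp_ofReal_mul_I_im θ
  have hsc := Real.sin_sq_add_cos_sq θ
  constructor
  · unfold mob
    rw [one_mul, Complex.div_re]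
    simp only [Complex.add_re, Complex.one_re, Complex.sub_re, Complex.add_im, Complex.one_im,
      Complex.sub_im, hre, him]
    rw [← add_div]
    have : (1 + Real.cos θ) * (1 - Real.cos θ) + (0 + Real.sin θ) * (0 - Real.sin θ) = 0 := by
      nlinarith
    rw [this, zero_div]
  · unfold mob
    rw [one_mul, Complex.div_im]
    simp only [Complex.add_re, Complex.one_re, Complex.sub_re, Complex.add_im, Complex.one_im,
      Complex.sub_im, hre, him]
    rw [← sub_div]
    congr 1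
    ring

private theorem one_sub_exp_ne {θ : ℝ} (h : θ ∈ Ioo 0 (2 * Real.pi)) :
    (1 : ℂ) - cexp (θ * I) ≠ 0 := by
  intro h0
  have h1 : cexp (θ * I) = 1 := (sub_eq_zero.mp h0).symm
  have hre : Real.cos θ = 1 := by
    rw [← Complex.exp_ofReal_mul_I_re θ, h1, Complex.one_re]
  have h2 : Real.cos θ < 1 := by
    rcases le_or_gt θ Real.pi with hle | hgt
    · have := Real.cos_lt_cos_of_nonneg_of_le_pi (le_refl 0) hle h.1
      rwa [Real.cos_zero] at this
    · have h3 : Real.cos θ = Real.cos (2 * Real.pi - θ) := by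
        rw [Real.cos_two_pi_sub]
      rw [h3]
      have := Real.cos_lt_cos_of_nonneg_of_le_pi (le_refl 0)
        (show 2 * Real.pi - θ ≤ Real.pi by linarith) (by linarith [h.2])
      rwa [Real.cos_zero] at this
  linarith

private theorem ae_arc_ne : ∀ᵐ θ : ℝ ∂arcM, θ ∈ Ioo 0 (2 * Real.pi) ∧ θ ≠ Real.pi := by
  have h1 : ∀ᵐ θ : ℝ ∂arcM, θ ∈ Ioo 0 (2 * Real.pi) := ae_restrict_mem measurableSet_Ioo
  have h2 : ∀ᵐ θ : ℝ ∂arcM, θ ≠ Real.pi := by
    unfold arcM
    apply ae_restrict_of_ae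
    exact compl_mem_ae_iff.mpr (measure_singleton _)
  filter_upwards [h1, h2] with θ ha hb using ⟨ha, hb⟩

private theorem mob_tendsto {θ : ℝ} (h : θ ∈ Ioo 0 (2 * Real.pi)) :
    Tendsto (fun r : ℝ => mob 1 (pt r θ)) (𝓝[<] 1) (𝓝 (mob 1 (cexp (θ * I)))) := by
  have hc : ContinuousAt (fun r : ℝ => mob 1 (pt r θ)) 1 := by
    unfold mob pt
    apply ContinuousAt.div
    · fun_prop
    · fun_prop
    · simp only [Complex.ofReal_one, one_mul]
      exact one_sub_exp_ne h
  have h1 : mob 1 (pt 1 θ) = mob 1 (cexp (θ * I)) := by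
    simp [pt]
  have := hc.tendsto
  rw [h1] at this
  exact this.mono_left nhdsWithin_le_nhds

theorem radial_mob : RadLim (fun z => (mob 1 z).arg)
    (fun θ => if θ < Real.pi then Real.pi / 2 else -(Real.pi / 2)) := by
  unfold RadLim
  filter_upwards [ae_arc_ne] with θ hθ
  obtain ⟨hθ, hne⟩ := hθ
  have hn := one_sub_exp_ne hθ
  obtain ⟨hre, him⟩ := mob_exp_eq hn
  have hns : 0 < Complex.normSq (1 - cexp (θ * I)) := Complex.normSq_pos.mpr hn
  have ht := mob_tendsto hθ
  by_cases hlt : θ < Real.pi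
  · rw [if_pos hlt]
    have hs : 0 < Real.sin θ := Real.sin_pos_of_pos_of_lt_pi hθ.1 hlt
    have him' : 0 < (mob 1 (cexp (θ * I))).im := by
      rw [him]
      positivity
    have harg : (mob 1 (cexp (θ * I))).arg = Real.pi / 2 :=
      Complex.arg_eq_pi_div_two_iff.mpr ⟨hre, him'⟩
    have hsl : mob 1 (cexp (θ * I)) ∈ Complex.slitPlane := Or.inr him'.ne'
    have := (Complex.continuousAt_arg hsl).tendsto.comp ht
    rw [harg] at this
    exact this
  · rw [if_neg hlt]
    have hgt : Real.pi < θ := lt_of_le_of_ne (not_lt.mp hlt) (Ne.symm hne)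
    have hs : Real.sin θ < 0 := by
      have h3 : Real.sin θ = -Real.sin (θ - Real.pi) := by
        rw [Real.sin_sub_pi, neg_neg]
      rw [h3]
      have := Real.sin_pos_of_pos_of_lt_pi (show 0 < θ - Real.pi by linarith)
        (by linarith [hθ.2])
      linarith
    have him' : (mob 1 (cexp (θ * I))).im < 0 := by
      rw [him]
      apply div_neg_of_neg_of_pos _ hns
      linarith
    have harg : (mob 1 (cexp (θ * I))).arg = -(Real.pi / 2) :=
      Complex.arg_eq_neg_pi_div_two_iff.mpr ⟨hre, him'⟩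
    have hsl : mob 1 (cexp (θ * I)) ∈ Complex.slitPlane := Or.inr him'.ne
    have := (Complex.continuousAt_arg hsl).tendsto.comp ht
    rw [harg] at this
    exact this

theorem crit_mob (ν ν' : Measure ℝ) [IsProbabilityMeasure ν] [IsProbabilityMeasure ν']
    (hν : Supp ν) (hν' : Supp ν') (ℓ : ℂ → ℂ) (hℓ : DifferentiableOn ℂ ℓ (ball 0 1))
    (h0 : ℓ 0 = 0) (M : ℝ) (hM : ∀ z ∈ ball (0 : ℂ) 1, |(ℓ z).im| ≤ M) (D : ℝ → ℝ)
    (hD : RadLim (fun z => (ℓ z).im) D)
    (h : ∀ᵐ θ : ℝ ∂arcM, (θ < Real.pi → -Real.pi ≤ D θ + bA ν θ - bA ν' θ ∧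
        D θ + bA ν θ - bA ν' θ ≤ 0) ∧
      (Real.pi < θ → 0 ≤ D θ + bA ν θ - bA ν' θ ∧ D θ + bA ν θ - bA ν' θ ≤ Real.pi)) :
    ∃ q, IsCara q ∧ ∀ z ∈ ball (0 : ℂ) 1, mob 1 z * cexp (ℓ z) * Sm ν z = q z * Sm ν' z := by
  have hx1 : ‖(1 : ℂ)‖ = 1 := norm_one
  set u : ℂ → ℂ := fun z => Complex.log (mob 1 z) + ℓ z - 2 * Lm ν z + 2 * Lm ν' z with hu
  have hlog : DifferentiableOn ℂ (fun z => Complex.log (mob 1 z)) (ball 0 1) :=
    (mob_differentiableOn hx1).clog fun z hz => Or.inl (mob_re_pos hx1 hz)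
  have hud : DifferentiableOn ℂ u (ball 0 1) :=
    ((hlog.add hℓ).sub ((Lm_differentiableOn ν).const_mul 2)).add
      ((Lm_differentiableOn ν').const_mul 2)
  have him : ∀ z, (u z).im = (mob 1 z).arg + (ℓ z).im - 2 * (Lm ν z).im + 2 * (Lm ν' z).im := by
    intro z
    simp only [hu, Complex.add_im, Complex.sub_im, Complex.log_im, Complex.mul_im]
    simp
  have hb : ∀ z ∈ ball (0 : ℂ) 1, |(u z).im| ≤ Real.pi / 2 + M + Real.pi + Real.pi := by
    intro z hz
    rw [him z]
    have h1 : |(mob 1 z).arg| < Real.pi / 2 := by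
      rw [Complex.abs_arg_lt_pi_div_two_iff]
      exact Or.inl (mob_re_pos hx1 hz)
    have h2 := hM z hz
    have h3 := abs_Lm_im_le ν hz
    have h4 := abs_Lm_im_le ν' hz
    rw [probReal_univ, mul_one] at h3 h4
    rw [abs_le] at h2 h3 h4 ⊢
    rw [abs_lt] at h1
    constructor <;> linarith [h1.1, h1.2, h2.1, h2.2, h3.1, h3.2, h4.1, h4.2]
  set b : ℝ → ℝ := fun θ => (if θ < Real.pi then Real.pi / 2 else -(Real.pi / 2)) + D θ
      - 2 * (-(1 / 2) * bA ν θ) + 2 * (-(1 / 2) * bA ν' θ) with hbd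
  have hrad : RadLim (fun z => (u z).im) b := by
    have e1 := radial_mob
    have e3 := ae_radial_Lm ν hν
    have e4 := ae_radial_Lm ν' hν'
    unfold RadLim at e1 hD e3 e4 ⊢
    filter_upwards [e1, hD, e3, e4] with θ t1 t2 t3 t4
    have := ((t1.add t2).sub (t3.const_mul 2)).add (t4.const_mul 2)
    refine this.congr fun r => ?_
    rw [him]
  have hle : ∀ z ∈ ball (0 : ℂ) 1, (u z).im ≤ Real.pi / 2 := by
    apply im_le_of_radial u hud _ hb b hrad
    filter_upwards [h, ae_arc_ne] with θ h1 h2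
    simp only [hbd]
    rcases lt_or_gt_of_ne h2.2 with hl | hg
    · rw [if_pos hl]
      have := (h1.1 hl).2
      linarith
    · rw [if_neg (not_lt.mpr hg.le)]
      have := (h1.2 hg).2
      linarith
  have hge : ∀ z ∈ ball (0 : ℂ) 1, -(Real.pi / 2) ≤ (u z).im := by
    apply im_ge_of_radial u hud _ hb b hrad
    filter_upwards [h, ae_arc_ne] with θ h1 h2
    simp only [hbd]
    rcases lt_or_gt_of_ne h2.2 with hl | hg
    · rw [if_pos hl]
      have := (h1.1 hl).1
      linarith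
    · rw [if_neg (not_lt.mpr hg.le)]
      have := (h1.2 hg).1
      linarith
  refine ⟨fun z => cexp (u z), ?_, ?_⟩
  · apply isCara_of_nonneg hud.cexp
    · simp only [hu]
      rw [mob_zero, Complex.log_one, h0, Lm_apply_zero, Lm_apply_zero]
      simp
    · intro z hz
      rw [Complex.exp_re]
      exact mul_nonneg (Real.exp_pos _).le
        (Real.cos_nonneg_of_neg_pi_div_two_le_of_le (hge z hz) (hle z hz))
  · intro z hz
    have hm : mob 1 z ≠ 0 := by
      intro h0
      have := mob_re_pos hx1 hz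
      rw [h0, Complex.zero_re] at this
      exact lt_irrefl _ this
    simp only [hu, Sm]
    rw [Complex.exp_add, Complex.exp_sub, Complex.exp_add, Complex.exp_log hm]
    have e1 : cexp (-2 * Lm ν z) = (cexp (2 * Lm ν z))⁻¹ := by
      rw [← Complex.exp_neg]
      ring_nf
    have e2 : cexp (-2 * Lm ν' z) = (cexp (2 * Lm ν' z))⁻¹ := by
      rw [← Complex.exp_neg]
      ring_nf
    rw [e1, e2]
    have hn := Complex.exp_ne_zero (2 * Lm ν' z)
    have hn2 := Complex.exp_ne_zero (2 * Lm ν z)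
    field_simp

theorem crit_eq (ν ν' : Measure ℝ) [IsProbabilityMeasure ν] [IsProbabilityMeasure ν']
    (hν : Supp ν) (hν' : Supp ν') (ℓ : ℂ → ℂ) (hℓ : DifferentiableOn ℂ ℓ (ball 0 1))
    (h0 : ℓ 0 = 0) (M : ℝ) (hM : ∀ z ∈ ball (0 : ℂ) 1, |(ℓ z).im| ≤ M) (D : ℝ → ℝ)
    (hD : RadLim (fun z => (ℓ z).im) D)
    (h : ∀ᵐ θ : ℝ ∂arcM, D θ + bA ν θ - bA ν' θ = 0) :
    ∀ z ∈ ball (0 : ℂ) 1, cexp (ℓ z) * Sm ν z = Sm ν' z := by
  set u : ℂ → ℂ := fun z => ℓ z - 2 * Lm ν z + 2 * Lm ν' z with hu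
  have hud : DifferentiableOn ℂ u (ball 0 1) :=
    (hℓ.sub ((Lm_differentiableOn ν).const_mul 2)).add
      ((Lm_differentiableOn ν').const_mul 2)
  have him : ∀ z, (u z).im = (ℓ z).im - 2 * (Lm ν z).im + 2 * (Lm ν' z).im := by
    intro z
    simp only [hu, Complex.add_im, Complex.sub_im, Complex.mul_im]
    simp
  have hb : ∀ z ∈ ball (0 : ℂ) 1, |(u z).im| ≤ M + Real.pi + Real.pi := by
    intro z hz
    rw [him z]
    have h2 := hM z hz
    have h3 := abs_Lm_im_le ν hz
    have h4 := abs_Lm_im_le ν' hz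
    rw [probReal_univ, mul_one] at h3 h4
    rw [abs_le] at h2 h3 h4 ⊢
    constructor <;> linarith [h2.1, h2.2, h3.1, h3.2, h4.1, h4.2]
  set b : ℝ → ℝ := fun θ => D θ - 2 * (-(1 / 2) * bA ν θ) + 2 * (-(1 / 2) * bA ν' θ) with hbd
  have hrad : RadLim (fun z => (u z).im) b := by
    have e3 := ae_radial_Lm ν hν
    have e4 := ae_radial_Lm ν' hν'
    unfold RadLim at hD e3 e4 ⊢
    filter_upwards [hD, e3, e4] with θ t2 t3 t4
    have := (t2.sub (t3.const_mul 2)).add (t4.const_mul 2)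
    refine this.congr fun r => ?_
    rw [him]
  have hb0 : ∀ᵐ θ : ℝ ∂arcM, b θ = 0 := by
    filter_upwards [h] with θ h1
    simp only [hbd]
    linarith
  have hle : ∀ z ∈ ball (0 : ℂ) 1, (u z).im ≤ 0 := by
    apply im_le_of_radial u hud _ hb b hrad
    filter_upwards [hb0] with θ h1 using h1.le
  have hge : ∀ z ∈ ball (0 : ℂ) 1, 0 ≤ (u z).im := by
    apply im_ge_of_radial u hud _ hb b hrad
    filter_upwards [hb0] with θ h1 using h1.ge
  have hpc : IsPreconnected (ball (0 : ℂ) 1) := (convex_ball 0 1).isPreconnected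
  have h00 : (0 : ℂ) ∈ ball (0 : ℂ) 1 := by simp
  have hu0 : u 0 = 0 := by
    simp only [hu]
    rw [h0, Lm_apply_zero, Lm_apply_zero]
    simp
  have hzero : ∀ z ∈ ball (0 : ℂ) 1, u z = 0 := by
    rcases (hud.analyticOnNhd isOpen_ball).is_constant_or_isOpen hpc with ⟨w, hw⟩ | hop
    · intro z hz
      rw [hw z hz, ← hw 0 h00, hu0]
    · exfalso
      have ho := hop (ball 0 1) (Subset.refl _) isOpen_ball
      have hmem : (0 : ℂ) ∈ u '' ball (0 : ℂ) 1 := ⟨0, h00, hu0⟩
      obtain ⟨ε, hε, hsub⟩ := Metric.isOpen_iff.mp ho 0 hmem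
      have h1 : ((ε / 2 : ℝ) : ℂ) * I ∈ ball (0 : ℂ) ε := by
        rw [mem_ball_zero_iff, norm_mul, Complex.norm_I, mul_one, Complex.norm_real,
          Real.norm_eq_abs, abs_of_pos (by linarith)]
        linarith
      obtain ⟨z, hz, hzz⟩ := hsub h1
      have h2 := hle z hz
      rw [hzz] at h2
      simp at h2
      linarith
  intro z hz
  have h1 := hzero z hz
  have h2 : ℓ z + -2 * Lm ν z = -2 * Lm ν' z := by
    simp only [hu] at h1
    linear_combination h1
  simp only [Sm]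
  rw [← Complex.exp_add, h2]

end Baz16
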