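import Mathlib

/-!
# MP_d8ceb9_an : extreme points of the Bazilevic class `B(1)`

Definitions.  `InB1`, `IsExtremeB1` are the objects of the problem (for `alpha = 1`), the other
definitions are the analytic model: `F = f'` is `p * S_nu` with `S_nu = exp(-2 * L_nu)`,
`L_nu z = int log (1 - e^{-it} z) dnu(t)`.
-/

namespace Baz16
open Complex Metric MeasureTheory Set Filter Topology

noncomputable section

/-- The class `S` of normalised univalent functions on the unit disc. -/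
def IsSchlicht (s : ℂ → ℂ) : Prop :=
  DifferentiableOn ℂ s (ball 0 1) ∧ InjOn s (ball 0 1) ∧ s 0 = 0 ∧ deriv s 0 = 1

/-- Starlike functions: members of `S` whose image is starlike with respect to `0`. -/
def IsStarlike (s : ℂ → ℂ) : Prop :=
  IsSchlicht s ∧ StarConvex ℝ 0 (s '' ball 0 1)

/-- Analytic functions `p` on the disc with `p 0 = 1` and positive real part. -/
def IsCara (p : ℂ → ℂ) : Prop :=
  DifferentiableOn ℂ p (ball 0 1) ∧ p 0 = 1 ∧ ∀ z ∈ ball (0 : ℂ) 1, 0 < (p z).re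

/-- The Bazilevic class `B(1)`: `f(z) = int_0^z p(t) s(t) t^{-1} dt`, that is `f 0 = 0` and
`z f'(z) = p(z) s(z)`. -/
def InB1 (f : ℂ → ℂ) : Prop :=
  DifferentiableOn ℂ f (ball 0 1) ∧ f 0 = 0 ∧
    ∃ p s : ℂ → ℂ, IsCara p ∧ IsStarlike s ∧ ∀ z ∈ ball (0 : ℂ) 1, z * deriv f z = p z * s z

/-- Extreme points of `B(1)` in the sense of the problem. -/
def IsExtremeB1 (f : ℂ → ℂ) : Prop :=
  InB1 f ∧ ∀ g h : ℂ → ℂ, InB1 g → InB1 h → ∀ l : ℝ, 0 < l → l < 1 →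
    (∀ z ∈ ball (0 : ℂ) 1, f z = l * g z + (1 - l) * h z) → ∀ z ∈ ball (0 : ℂ) 1, g z = h z

/-! ## The analytic model -/

/-- `e^{-it}` -/
def yy (t : ℝ) : ℂ := cexp (-(t : ℂ) * I)

/-- `L_nu z = int log (1 - e^{-it} z) dnu(t)` -/
def Lm (ν : Measure ℝ) (z : ℂ) : ℂ := ∫ t, Complex.log (1 - yy t * z) ∂ν

/-- `S_nu z = exp (-2 L_nu z)` -/
def Sm (ν : Measure ℝ) (z : ℂ) : ℂ := cexp (-2 * Lm ν z)

/-- `F = p * S_nu` on the disc, `p` Caratheodory, `nu` a probability measure. -/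
def InD (F : ℂ → ℂ) : Prop :=
  ∃ (p : ℂ → ℂ) (ν : Measure ℝ), IsCara p ∧ IsProbabilityMeasure ν ∧
    ∀ z ∈ ball (0 : ℂ) 1, F z = p z * Sm ν z

/-- Extreme points of the model class. -/
def ExtD (F : ℂ → ℂ) : Prop :=
  InD F ∧ ∀ G H : ℂ → ℂ, InD G → InD H → ∀ l : ℝ, 0 < l → l < 1 →
    (∀ z ∈ ball (0 : ℂ) 1, F z = l * G z + (1 - l) * H z) → ∀ z ∈ ball (0 : ℂ) 1, G z = H z

/-- `(1 + xz)/(1 - xz)` -/
def mob (x z : ℂ) : ℂ := (1 + x * z) / (1 - x * z)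

/-- `(1 + xz)/((1 - xz)(1 - yz)^2)` -/
def Fxy (x y z : ℂ) : ℂ := (1 + x * z) / ((1 - x * z) * (1 - y * z) ^ 2)

/-- `nu` is carried by `[0, 2 pi)`. -/
def Supp (ν : Measure ℝ) : Prop := ν (Ico 0 (2 * Real.pi))ᶜ = 0

/-- Boundary function of `arg S_nu` for a measure `nu` on `[0, 2 pi)`:
`arg S_nu (r e^{i theta}) -> bA nu theta` as `r -> 1` when `nu {theta} = 0`. -/
def bA (ν : Measure ℝ) (θ : ℝ) : ℝ :=
  2 * Real.pi * ν.real (Ico 0 θ) - (Real.pi + θ) * ν.real univ + ∫ t, t ∂ν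

/-- the point `r e^{i theta}` -/
def pt (r θ : ℝ) : ℂ := (r : ℂ) * cexp ((θ : ℂ) * I)

/-- Lebesgue measure on `(0, 2 pi)` -/
def arcM : Measure ℝ := volume.restrict (Ioo 0 (2 * Real.pi))

/-- `u(r e^{i theta}) -> b theta` as `r -> 1`, for almost every `theta` in `(0, 2 pi)`. -/
def RadLim (u : ℂ → ℝ) (b : ℝ → ℝ) : Prop :=
  ∀ᵐ θ : ℝ ∂arcM, Tendsto (fun r : ℝ => u (pt r θ)) (𝓝[<] 1) (𝓝 (b θ))

/-- `arg (1 - x e^{i b})`. -/
def Ph (x b : ℝ) : ℝ := Complex.arg (1 - x * cexp (b * I))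

/-- logarithmic potential on the circle. -/
def pot (μ : Measure ℝ) (θ : ℝ) : ℝ := ∫ t, Real.log (2 * |Real.sin ((θ - t) / 2)|) ∂μ

/-- the potential converges at `theta`. -/
def GoodAt (μ : Measure ℝ) (θ : ℝ) : Prop :=
  Integrable (fun t => Real.log (2 * |Real.sin ((θ - t) / 2)|)) μ

open Classical in
/-- modulus of the boundary function of `exp (2 L_{mu2} - 2 L_{mu1})`. -/
def rr (μ2 μ1 : Measure ℝ) (θ : ℝ) : ℝ :=
  if GoodAt μ2 θ then Real.exp (2 * pot μ2 θ - 2 * pot μ1 θ) else 0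

/-- `exp (2 L_{mu2} - 2 L_{mu1})` -/
def g0 (μ2 μ1 : Measure ℝ) (z : ℂ) : ℂ := cexp (2 * Lm μ2 z - 2 * Lm μ1 z)

/-- `m` times the uniform probability on `[a, b]`. -/
def unif (m a b : ℝ) : Measure ℝ := (ENNReal.ofReal (m / (b - a))) • volume.restrict (Icc a b)

end

end Baz16
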