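import Pool.Agent.Baz16.Defs

/-! # Selection of the arc `[p2, q2]`.

Let `c = ν K / |K|`, `K = [κ1, κ2]`.  The distribution function of `ν` on `K` is continuous, so
short intervals have small mass.  If some short interval `I` of positive mass satisfies
`|I| ≤ η ν I`, take it (first alternative).  Otherwise all short intervals `I ⊆ K` satisfy
`ν I ≤ |I| / η`.  Divide `K` into `N` equal intervals and let `J` be one of mass at least `c ℓ`,
`ℓ = |J|`.  For `θ` near `J`, `ν {t ∈ J : - log (2 |sin((θ-t)/2)|) > s} ≤ (π/η) e^{-s}`, and by the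
layer cake formula `|pot| ≤ S ν(J) + (π/η) e^{-S}` for all `S ≥ 0`, which is at most `η c` if `S` is
large and then `N` is large. -/

namespace Baz16
open Complex Metric MeasureTheory Set Filter Topology

/-- the distribution function -/
private theorem cdf_facts (ν : Measure ℝ) [IsFiniteMeasure ν] {κ1 κ2 : ℝ}
    (hat : ∀ t ∈ Icc κ1 κ2, ν {t} = 0) :
    ∃ F : ℝ → ℝ, Continuous F ∧ ∀ x y, κ1 ≤ x → x ≤ y → y ≤ κ2 →
      ν.real (Icc x y) = F y - F x := by
  set μ : Measure ℝ := ν.restrict (Icc κ1 κ2) with hμ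
  haveI : NullSingletonClass μ := by
    refine ⟨fun t => ?_⟩
    rw [hμ, Measure.restrict_apply (measurableSet_singleton t)]
    by_cases ht : t ∈ Icc κ1 κ2
    · exact measure_mono_null inter_subset_left (hat t ht)
    · rw [Set.singleton_inter_eq_empty.2 ht, measure_empty]
  have hint : ∀ a b : ℝ, IntervalIntegrable (fun _ : ℝ => (1 : ℝ)) μ a b := fun a b =>
    ⟨integrable_const _, integrable_const _⟩
  refine ⟨fun x => ∫ _t in κ1..x, (1 : ℝ) ∂μ, intervalIntegral.continuous_primitive hint κ1, ?_⟩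
  intro x y hx hxy hy
  have h1 : (∫ _t in κ1..y, (1 : ℝ) ∂μ) - (∫ _t in κ1..x, (1 : ℝ) ∂μ) = ∫ _t in x..y, (1 : ℝ) ∂μ :=
    intervalIntegral.integral_interval_sub_left (hint _ _) (hint _ _)
  have h2 : μ (Ioc x y) = ν (Icc x y) := by
    rw [measure_congr (Ioc_ae_eq_Icc : Ioc x y =ᵐ[μ] Icc x y), hμ,
      Measure.restrict_apply measurableSet_Icc]
    congr 1
    exact inter_eq_left.2 (Icc_subset_Icc hx hy)
  show _ = (∫ _t in κ1..y, (1 : ℝ) ∂μ) - (∫ _t in κ1..x, (1 : ℝ) ∂μ)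
  rw [h1, intervalIntegral.integral_of_le hxy, setIntegral_const, smul_eq_mul, mul_one,
    measureReal_def, measureReal_def, h2]

/-- two separated intervals of positive mass. -/
theorem two_intervals (ν : Measure ℝ) [IsFiniteMeasure ν] {κ1 κ2 : ℝ} (h12 : κ1 < κ2)
    (hpos : 0 < ν (Icc κ1 κ2)) (hat : ∀ t ∈ Icc κ1 κ2, ν {t} = 0) :
    ∃ x1 x2 : ℝ, κ1 < x1 ∧ x1 < x2 ∧ x2 < κ2 ∧ 0 < ν (Icc κ1 x1) ∧ 0 < ν (Icc x2 κ2) := by
  obtain ⟨F, hF, hFν⟩ := cdf_facts ν hat
  have hM : 0 < F κ2 - F κ1 := by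
    rw [← hFν κ1 κ2 le_rfl h12.le le_rfl, measureReal_def]
    exact ENNReal.toReal_pos hpos.ne' (measure_ne_top _ _)
  have hiv := intermediate_value_Icc h12.le hF.continuousOn
  obtain ⟨x1, hx1, e1⟩ := hiv (show F κ1 + (F κ2 - F κ1) / 3 ∈ Icc (F κ1) (F κ2) from
    ⟨by linarith, by linarith⟩)
  obtain ⟨x2, hx2, e2⟩ := hiv (show F κ1 + 2 * (F κ2 - F κ1) / 3 ∈ Icc (F κ1) (F κ2) from
    ⟨by linarith, by linarith⟩)
  have hne1 : x1 ≠ κ1 := by
    rintro rfl
    linarith
  have hne2 : x2 ≠ κ2 := by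
    rintro rfl
    linarith
  have hlt : x1 < x2 := by
    by_contra hcon
    have h1 := hFν x2 x1 hx2.1 (not_lt.1 hcon) hx1.2
    have h2 : 0 ≤ ν.real (Icc x2 x1) := measureReal_nonneg
    linarith
  have hp : ∀ x y, 0 < ν.real (Icc x y) → 0 < ν (Icc x y) := fun x y h => by
    rw [measureReal_def] at h
    exact (ENNReal.toReal_pos_iff.1 h).1
  refine ⟨x1, x2, lt_of_le_of_ne hx1.1 (Ne.symm hne1), hlt, lt_of_le_of_ne hx2.2 hne2, ?_, ?_⟩
  · apply hp
    rw [hFν κ1 x1 le_rfl hx1.1 hx1.2]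
    linarith
  · apply hp
    rw [hFν x2 κ2 hx2.1 hx2.2 le_rfl]
    linarith

/-- a point of the support. -/
theorem exists_supp_point (ν : Measure ℝ) [IsFiniteMeasure ν] {a b : ℝ} (hab : a ≤ b)
    (hpos : 0 < ν (Icc a b)) : ∃ t ∈ Icc a b, ∀ δ > 0, 0 < ν (Ioc (t - δ) (t + δ)) := by
  by_contra hcon
  push Not at hcon
  refine hpos.ne' ?_
  refine isCompact_Icc.measure_zero_of_nhdsWithin fun t ht => ?_
  obtain ⟨δ, hδ, h1⟩ := hcon t ht
  exact ⟨Ioc (t - δ) (t + δ), mem_nhdsWithin_of_mem_nhds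
    (Ioc_mem_nhds (by linarith) (by linarith)), le_antisymm h1 (zero_le)⟩

/-- bounds for the logarithmic kernel -/
private theorem kernel_bound {u : ℝ} (hu : |u| ≤ 1) {s : ℝ}
    (hs : 0 < s) (h : s < |Real.log (2 * |Real.sin (u / 2)|)|) :
    |u| ≤ Real.pi / 2 * Real.exp (-s) := by
  have hpi := Real.pi_gt_three
  set w := 2 * |Real.sin (u / 2)| with hw
  have hw0 : 0 ≤ w := by positivity
  have hw1 : w ≤ 1 := by
    have h1 : |Real.sin (u / 2)| ≤ |u / 2| := Real.abs_sin_le_abs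
    rw [abs_div, abs_two] at h1
    rw [hw]
    linarith
  have hlog : Real.log w ≤ 0 := Real.log_nonpos hw0 hw1
  rw [abs_of_nonpos hlog] at h
  have hwpos : 0 < w := by
    rcases hw0.eq_or_lt with h0 | h0
    · rw [← h0, Real.log_zero] at h
      linarith
    · exact h0
  have h2 : w < Real.exp (-s) := by
    rw [← Real.log_lt_iff_lt_exp hwpos]
    linarith
  have h3 : 2 / Real.pi * |u / 2| ≤ |Real.sin (u / 2)| := by
    apply Real.mul_abs_le_abs_sin
    rw [abs_div, abs_two]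
    linarith
  rw [abs_div, abs_two] at h3
  have h4 : |u| ≤ Real.pi / 2 * w := by
    have h5 : Real.pi * (2 / Real.pi * (|u| / 2)) = |u| := by
      field_simp
    calc |u| = Real.pi * (2 / Real.pi * (|u| / 2)) := h5.symm
      _ ≤ Real.pi * |Real.sin (u / 2)| := by gcongr
      _ = Real.pi / 2 * w := by rw [hw]; ring
  calc |u| ≤ Real.pi / 2 * w := h4
    _ ≤ Real.pi / 2 * Real.exp (-s) := by gcongr

/-- layer cake bound for the potential -/
private theorem pot_bound (μ : Measure ℝ) [IsFiniteMeasure μ] {θ C m S : ℝ} (hC : 0 ≤ C)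
    (hS : 0 ≤ S) (hm : μ univ ≤ ENNReal.ofReal m) (hm0 : 0 ≤ m)
    (hclose : ∀ᵐ t ∂μ, |θ - t| ≤ 1)
    (hball : ∀ r : ℝ, 0 < r → μ (Icc (θ - r) (θ + r)) ≤ ENNReal.ofReal (C * (2 * r))) :
    GoodAt μ θ ∧ |pot μ θ| ≤ S * m + C * Real.pi * Real.exp (-S) := by
  have hpi := Real.pi_pos
  set f : ℝ → ℝ := fun t => |Real.log (2 * |Real.sin ((θ - t) / 2)|)| with hf
  have hmeas : Measurable (fun t : ℝ => Real.log (2 * |Real.sin ((θ - t) / 2)|)) := by
    fun_prop
  have hfm : Measurable f := hmeas.abs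
  have hlev : ∀ s : ℝ, 0 < s → μ {t | s < f t} ≤ ENNReal.ofReal (C * Real.pi * Real.exp (-s)) := by
    intro s hs
    have h1 : {t | s < f t} ≤ᵐ[μ] Icc (θ - Real.pi / 2 * Real.exp (-s))
        (θ + Real.pi / 2 * Real.exp (-s)) := by
      filter_upwards [hclose] with t ht hst
      have h2 := kernel_bound ht hs hst
      rw [abs_le] at h2
      exact ⟨by linarith [h2.2], by linarith [h2.1]⟩
    refine (measure_mono_ae h1).trans ((hball _ (by positivity)).trans (le_of_eq ?_))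
    congr 1
    ring
  have hlay : ∫⁻ t, ENNReal.ofReal (f t) ∂μ ≤
      ENNReal.ofReal (S * m + C * Real.pi * Real.exp (-S)) := by
    rw [lintegral_eq_lintegral_meas_lt μ (Eventually.of_forall fun t => abs_nonneg _)
      hfm.aemeasurable]
    have hsplit : Ioi (0 : ℝ) = Ioc 0 S ∪ Ioi S := (Ioc_union_Ioi_eq_Ioi hS).symm
    rw [hsplit]
    refine (lintegral_union_le _ _ _).trans ?_
    rw [ENNReal.ofReal_add (by positivity) (by positivity)]
    refine add_le_add ?_ ?_
    · calc ∫⁻ s in Ioc 0 S, μ {t | s < f t} ≤ ∫⁻ _s in Ioc 0 S, ENNReal.ofReal m :=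
            lintegral_mono fun s => (measure_mono (subset_univ _)).trans hm
        _ = ENNReal.ofReal (S * m) := by
            rw [setLIntegral_const, Real.volume_Ioc, sub_zero, ← ENNReal.ofReal_mul hm0, mul_comm]
    · have hint : IntegrableOn (fun s : ℝ => C * Real.pi * Real.exp (-s)) (Ioi S) :=
        (integrableOn_exp_neg_Ioi S).const_mul _
      calc ∫⁻ s in Ioi S, μ {t | s < f t}
            ≤ ∫⁻ s in Ioi S, ENNReal.ofReal (C * Real.pi * Real.exp (-s)) := by
              refine setLIntegral_mono' measurableSet_Ioi fun s hs => ?_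
              exact hlev s (hS.trans_lt hs)
        _ = ENNReal.ofReal (∫ s in Ioi S, C * Real.pi * Real.exp (-s)) := by
              rw [ofReal_integral_eq_lintegral_ofReal hint]
              exact Eventually.of_forall fun s => by positivity
        _ = ENNReal.ofReal (C * Real.pi * Real.exp (-S)) := by
              rw [integral_const_mul, integral_exp_neg_Ioi]
  have hgood : GoodAt μ θ := by
    refine ⟨hmeas.aestronglyMeasurable, ?_⟩
    rw [hasFiniteIntegral_iff_norm]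
    exact lt_of_le_of_lt hlay ENNReal.ofReal_lt_top
  refine ⟨hgood, ?_⟩
  calc |pot μ θ| ≤ ∫ t, f t ∂μ := abs_integral_le_integral_abs
    _ = (∫⁻ t, ENNReal.ofReal (f t) ∂μ).toReal :=
        integral_eq_lintegral_of_nonneg_ae (Eventually.of_forall fun t => abs_nonneg _)
          hfm.aestronglyMeasurable
    _ ≤ (ENNReal.ofReal (S * m + C * Real.pi * Real.exp (-S))).toReal :=
        ENNReal.toReal_mono ENNReal.ofReal_ne_top hlay
    _ = S * m + C * Real.pi * Real.exp (-S) := ENNReal.toReal_ofReal (by positivity)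

theorem select (ν : Measure ℝ) [IsFiniteMeasure ν] {κ1 κ2 : ℝ} (h0 : 0 < κ1) (h12 : κ1 < κ2)
    (hπ : κ2 < Real.pi) (hpos : 0 < ν (Icc κ1 κ2)) (hat : ∀ t ∈ Icc κ1 κ2, ν {t} = 0)
    {η : ℝ} (hη : 0 < η) :
    ∃ p2 q2 : ℝ, κ1 ≤ p2 ∧ p2 < q2 ∧ q2 ≤ κ2 ∧ q2 - p2 ≤ η ∧
      0 < ν.real (Icc p2 q2) ∧ ν.real (Icc p2 q2) ≤ η ∧
      ((q2 - p2) ≤ η * ν.real (Icc p2 q2) ∨
        ∀ θ ∈ Icc (p2 - (q2 - p2)) (q2 + 2 * (q2 - p2)),
          GoodAt (ν.restrict (Icc p2 q2)) θ ∧
          (q2 - p2) * |pot (ν.restrict (Icc p2 q2)) θ| ≤ η * ν.real (Icc p2 q2)) := by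
  obtain ⟨F, hF, hFν⟩ := cdf_facts ν hat
  have hM : 0 < F κ2 - F κ1 := by
    rw [← hFν κ1 κ2 le_rfl h12.le le_rfl, measureReal_def]
    exact ENNReal.toReal_pos hpos.ne' (measure_ne_top _ _)
  have hpi := Real.pi_pos
  -- short intervals have small mass
  obtain ⟨δ1, hδ1, hδ⟩ : ∃ δ1 > 0, ∀ x y, κ1 ≤ x → x ≤ y → y ≤ κ2 → y - x ≤ δ1 →
      ν.real (Icc x y) ≤ η := by
    have huc := isCompact_Icc.uniformContinuousOn_of_continuous
      (hF.continuousOn (s := Icc κ1 κ2))
    rw [Metric.uniformContinuousOn_iff] at huc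
    obtain ⟨δ, hδ, h1⟩ := huc η hη
    refine ⟨δ / 2, by positivity, fun x y hx hxy hy hd => ?_⟩
    have h2 := h1 y ⟨hx.trans hxy, hy⟩ x ⟨hx, hxy.trans hy⟩ (by
      rw [Real.dist_eq, abs_of_nonneg (by linarith)]; linarith)
    rw [Real.dist_eq] at h2
    rw [hFν x y hx hxy hy]
    exact (le_abs_self _).trans h2.le
  set δ0 := min (min δ1 η) (1 / 3) with hδ0
  have hδ0pos : 0 < δ0 := by rw [hδ0]; positivity
  have hδ01 : δ0 ≤ δ1 := (min_le_left _ _).trans (min_le_left _ _)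
  have hδ0η : δ0 ≤ η := (min_le_left _ _).trans (min_le_right _ _)
  have hδ03 : δ0 ≤ 1 / 3 := min_le_right _ _
  by_cases hcase : ∃ x y, κ1 ≤ x ∧ x < y ∧ y ≤ κ2 ∧ y - x ≤ δ0 ∧ 0 < ν.real (Icc x y) ∧
      y - x ≤ η * ν.real (Icc x y)
  · obtain ⟨x, y, hx, hxy, hy, hd, hpos', hle⟩ := hcase
    exact ⟨x, y, hx, hxy, hy, hd.trans hδ0η, hpos', hδ x y hx hxy.le hy (hd.trans hδ01),
      Or.inl hle⟩
  -- all short intervals have mass at most `length / η`
  have hC : ∀ x y, κ1 ≤ x → x ≤ y → y ≤ κ2 → y - x ≤ δ0 → ν.real (Icc x y) ≤ η⁻¹ * (y - x) := by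
    intro x y hx hxy hy hd
    rcases hxy.eq_or_lt with rfl | hxy'
    · rw [hFν x x hx le_rfl hy]
      simp
    · rcases (measureReal_nonneg : 0 ≤ ν.real (Icc x y)).eq_or_lt with h1 | h1
      · rw [← h1]
        have : 0 ≤ y - x := by linarith
        positivity
      · by_contra hcon
        apply hcase
        refine ⟨x, y, hx, hxy', hy, hd, h1, ?_⟩
        rw [not_le, inv_mul_lt_iff₀ hη] at hcon
        exact hcon.le
  set L := κ2 - κ1 with hL
  have hLpos : 0 < L := by rw [hL]; linarith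
  set M := F κ2 - F κ1 with hMdef
  set c := M / L with hc
  have hcpos : 0 < c := by positivity
  obtain ⟨S, hS0, hS⟩ : ∃ S : ℝ, 0 ≤ S ∧ η⁻¹ * Real.pi * Real.exp (-S) ≤ η * c / 2 := by
    have h1 : Tendsto (fun S : ℝ => η⁻¹ * Real.pi * Real.exp (-S)) atTop
        (𝓝 (η⁻¹ * Real.pi * 0)) :=
      (Real.tendsto_exp_atBot.comp tendsto_neg_atTop_atBot).const_mul _
    rw [mul_zero] at h1
    have h2 := (h1.eventually_le_const (show (0 : ℝ) < η * c / 2 by positivity)).and
      (eventually_ge_atTop 0)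
    obtain ⟨S, hS⟩ := h2.exists
    exact ⟨S, hS.2, hS.1⟩
  obtain ⟨N, hN1, hN2⟩ : ∃ N : ℕ, 0 < N ∧ L / N ≤ min δ0 (η * (η * c / 2) / (S + 1)) := by
    have h1 : Tendsto (fun N : ℕ => L / N) atTop (𝓝 0) := tendsto_const_div_atTop_nhds_zero_nat L
    have h2 := (h1.eventually_le_const
      (show (0 : ℝ) < min δ0 (η * (η * c / 2) / (S + 1)) by positivity)).and
      (eventually_gt_atTop 0)
    obtain ⟨N, hN⟩ := h2.exists
    exact ⟨N, hN.2, hN.1⟩
  have hNpos : (0 : ℝ) < N := by exact_mod_cast hN1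
  set l := L / N with hl
  have hlpos : 0 < l := by positivity
  have hlδ : l ≤ δ0 := hN2.trans (min_le_left _ _)
  have hlS : S * (η⁻¹ * l) ≤ η * c / 2 := by
    have h1 : l ≤ η * (η * c / 2) / (S + 1) := hN2.trans (min_le_right _ _)
    rw [le_div_iff₀ (by positivity)] at h1
    have h2 : S * (η⁻¹ * l) ≤ η⁻¹ * (l * (S + 1)) := by
      have : 0 ≤ η⁻¹ * l := by positivity
      nlinarith
    refine h2.trans ?_
    rw [inv_mul_le_iff₀ hη]
    exact h1
  -- an interval of large mass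
  obtain ⟨j, hj, hjm⟩ : ∃ j < N, M / N ≤ F (κ1 + (j + 1 : ℕ) * l) - F (κ1 + (j : ℕ) * l) := by
    have h1 : ∑ j ∈ Finset.range N, (F (κ1 + (j + 1 : ℕ) * l) - F (κ1 + (j : ℕ) * l)) = M := by
      rw [Finset.sum_range_sub (fun j : ℕ => F (κ1 + (j : ℕ) * l)), hMdef]
      have h2 : κ1 + (N : ℕ) * l = κ2 := by
        rw [hl, hL]
        field_simp
        ring
      rw [h2]
      simp
    by_contra hcon
    push Not at hcon
    have h3 : ∑ j ∈ Finset.range N, (F (κ1 + (j + 1 : ℕ) * l) - F (κ1 + (j : ℕ) * l))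
        < ∑ _j ∈ Finset.range N, M / N :=
      Finset.sum_lt_sum_of_nonempty (Finset.nonempty_range_iff.2 hN1.ne')
        fun j hj => hcon j (Finset.mem_range.1 hj)
    rw [h1, Finset.sum_const, Finset.card_range, nsmul_eq_mul] at h3
    have h4 : (N : ℝ) * (M / N) = M := by field_simp
    linarith
  set p := κ1 + (j : ℕ) * l with hp
  set q := κ1 + (j + 1 : ℕ) * l with hq
  have hqp : q - p = l := by
    rw [hq, hp]
    push_cast
    ring
  have hp1 : κ1 ≤ p := by
    rw [hp]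
    have : 0 ≤ (j : ℝ) * l := by positivity
    linarith
  have hq2 : q ≤ κ2 := by
    have h1 : ((j + 1 : ℕ) : ℝ) ≤ N := by exact_mod_cast hj
    have h2 : ((j + 1 : ℕ) : ℝ) * l ≤ N * l := by gcongr
    have h3 : (N : ℝ) * l = L := by rw [hl]; field_simp
    rw [hq]
    linarith
  have hpq : p < q := by linarith
  have hmass : ν.real (Icc p q) = F q - F p := hFν p q hp1 hpq.le hq2
  have hcl : c * l = M / N := by
    rw [hc, hl]
    field_simp
  have hm1 : c * l ≤ ν.real (Icc p q) := by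
    rw [hcl, hmass]
    exact hjm
  have hm2 : ν.real (Icc p q) ≤ η⁻¹ * l := by
    have h1 := hC p q hp1 hpq.le hq2 (by rw [hqp]; exact hlδ)
    rwa [hqp] at h1
  have hmpos : 0 < ν.real (Icc p q) := lt_of_lt_of_le (by positivity) hm1
  refine ⟨p, q, hp1, hpq, hq2, by rw [hqp]; exact hlδ.trans hδ0η, hmpos,
    hδ p q hp1 hpq.le hq2 (by rw [hqp]; exact hlδ.trans hδ01), Or.inr ?_⟩
  intro θ hθ
  rw [hqp] at hθ
  have hb := pot_bound (ν.restrict (Icc p q)) (θ := θ) (C := η⁻¹) (m := η⁻¹ * l) (S := S)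
    (by positivity) hS0 (by
      rw [Measure.restrict_apply_univ, ← ENNReal.ofReal_toReal (measure_ne_top ν (Icc p q))]
      exact ENNReal.ofReal_le_ofReal hm2) (by positivity) (by
      filter_upwards [ae_restrict_mem measurableSet_Icc] with t ht
      rw [abs_le]
      constructor
      · linarith [hθ.1, ht.2]
      · linarith [hθ.2, ht.1]) (by
      intro r hr
      rw [Measure.restrict_apply measurableSet_Icc, Icc_inter_Icc]
      rcases le_or_gt (max (θ - r) p) (min (θ + r) q) with h1 | h1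
      · rw [← ENNReal.ofReal_toReal (measure_ne_top ν _)]
        apply ENNReal.ofReal_le_ofReal
        have h2 : min (θ + r) q - max (θ - r) p ≤ l := by
          have := min_le_right (θ + r) q
          have := le_max_right (θ - r) p
          linarith
        have h3 : min (θ + r) q - max (θ - r) p ≤ 2 * r := by
          have := min_le_left (θ + r) q
          have := le_max_left (θ - r) p
          linarith
        refine (hC _ _ (hp1.trans (le_max_right _ _)) h1 ((min_le_right _ _).trans hq2)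
          (h2.trans hlδ)).trans ?_
        gcongr
      · rw [Icc_eq_empty (not_le.2 h1), measure_empty]
        exact zero_le)
  refine ⟨hb.1, ?_⟩
  rw [hqp]
  calc l * |pot (ν.restrict (Icc p q)) θ|
      ≤ l * (S * (η⁻¹ * l) + η⁻¹ * Real.pi * Real.exp (-S)) := by
        have := hb.2
        gcongr
    _ ≤ l * (η * c) := by
        apply mul_le_mul_of_nonneg_left _ hlpos.le
        linarith
    _ = η * (c * l) := by ring
    _ ≤ η * ν.real (Icc p q) := by gcongr

end Baz16
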