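import Pool.Agent.Baz16.Core
import Pool.Agent.Baz16.Sel

/-! # Splitting when `ν` has a diffuse part on an arc of `(0, pi)`, `p = mob 1`.

Choose `x1 < x2` (`two_intervals`), `d0 = x2 - x1`, `t1` in the support of `ν` on `[x2, κ2]`
(`exists_supp_point`); `[p2, q2] ⊆ [κ1, x1]` from `select` with `η` small in terms of
`κ1, d0`; then `δ` small in terms of `m = ν [p2, q2]`: `p1 = t1 - 3 δ`, `q1 = t1 - 2 δ`
(so `ν (Ioc q1 q1') > 0` for `q1' = t1 + δ`; use `Ioc (t1 - δ) (t1 + δ) ⊆ Ioc q1 q1'`),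
`rb = 3 δ^(-1/4)` (`g0_bound`, `rr_bound`), so that `32 (q1' - p1) rb = 384 δ^(3/4)` is at most
half of the right side of `hineq`; `ω` from `rr_bound_off` (first alternative of `select`) or
`rr_osc` (second alternative), `d = d0/4`, so that `48 ℓ ω` is at most half of it.
`F = ε (F g0) + (1 - ε) (F (1 - ε g0)/(1 - ε))`, `F g0 = mob 1 * Sm νG` with
`νG = ν - ν|[p2,q2] + unif m p1 q1` (write `ν = ν|[p2,q2] + ν|[p2,q2]ᶜ`).
`g0` is not identically `1`: otherwise its radial limits have argument `0` a.e., but the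
argument is `b > 0` on `(0, p2)` (`bA_left`, `mean_bounds`). -/

namespace Baz16
open Complex Metric MeasureTheory Set Filter Topology

private theorem rr_nonneg (μ2 μ1 : Measure ℝ) (θ : ℝ) : 0 ≤ rr μ2 μ1 θ := by
  unfold rr
  split_ifs
  · exact (Real.exp_pos _).le
  · exact le_rfl

/-- the oscillation of `rr` near `[p2, q2]` -/
private theorem exists_omega (ν : Measure ℝ) [IsProbabilityMeasure ν] {p2 q2 p1 q1 d0 η c : ℝ}
    (hpq : p2 < q2) (h11 : p1 < q1) (h1π : q1 < Real.pi) (hη1 : 0 ≤ p2 - (q2 - p2))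
    (hd0 : 0 < d0) (hd0π : d0 / 8 < Real.pi)
    (hfar : q2 + 2 * (q2 - p2) + d0 / 4 ≤ p1) (hη0 : 0 < η) (hℓη : q2 - p2 ≤ η)
    (hη2 : η ≤ d0 / 16)
    (hmpos : 0 < ν.real (Icc p2 q2)) (hm8 : ν.real (Icc p2 q2) ≤ 1 / 8)
    (hη4 : 576 * η ≤ c * Real.sin (d0 / 8))
    (halt : (q2 - p2) ≤ η * ν.real (Icc p2 q2) ∨
      ∀ θ ∈ Icc (p2 - (q2 - p2)) (q2 + 2 * (q2 - p2)),
        GoodAt (ν.restrict (Icc p2 q2)) θ ∧
        (q2 - p2) * |pot (ν.restrict (Icc p2 q2)) θ| ≤ η * ν.real (Icc p2 q2)) :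
    ∃ ω : ℝ, (∀ θ ∈ Icc (p2 - (q2 - p2)) (q2 + 2 * (q2 - p2)),
      ∀ θ' ∈ Icc (p2 - (q2 - p2)) (q2 + 2 * (q2 - p2)),
      |rr (ν.restrict (Icc p2 q2)) (unif (ν.real (Icc p2 q2)) p1 q1) θ -
        rr (ν.restrict (Icc p2 q2)) (unif (ν.real (Icc p2 q2)) p1 q1) θ'| ≤ ω) ∧
      48 * (q2 - p2) * ω ≤ ν.real (Icc p2 q2) * c := by
  have hsd : 0 < Real.sin (d0 / 8) := Real.sin_pos_of_pos_of_lt_pi (by linarith) hd0π
  have hm2 : (ν.restrict (Icc p2 q2)).real univ = ν.real (Icc p2 q2) := by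
    rw [measureReal_restrict_apply MeasurableSet.univ, univ_inter]
  have hm1 : (unif (ν.real (Icc p2 q2)) p1 q1).real univ = ν.real (Icc p2 q2) :=
    unif_real_univ hmpos.le h11
  have e8 : d0 / 4 / 2 = d0 / 8 := by ring
  obtain ⟨m, hm⟩ : ∃ m, m = ν.real (Icc p2 q2) := ⟨_, rfl⟩
  obtain ⟨ℓ, hℓ⟩ : ∃ ℓ, ℓ = q2 - p2 := ⟨_, rfl⟩
  have hℓ0 : 0 < ℓ := by rw [hℓ]; linarith
  rw [← hm] at hm2 hm1 hmpos hm8 halt ⊢
  rw [← hℓ] at hℓη halt hη1 hfar ⊢
  rcases halt with halt | halt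
  · refine ⟨1 / Real.sin (d0 / 8), fun θ hθ θ' hθ' => ?_, ?_⟩
    · have key : ∀ θ ∈ Icc (p2 - ℓ) (q2 + 2 * ℓ),
          rr (ν.restrict (Icc p2 q2)) (unif m p1 q1) θ ≤ 1 / Real.sin (d0 / 8) := by
        intro θ hθ
        have h := rr_bound_off (ν.restrict (Icc p2 q2)) (unif m p1 q1) (by rw [hm2, hm1])
          (by rw [hm2]; linarith) h11.le (unif_compl m p1 q1) (d := d0 / 4) (θ := θ) (by linarith)
          (by linarith [hθ.1]) (by linarith [hθ.2]) h1π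
        rw [e8] at h
        exact h
      have h1 := key θ hθ
      have h2 := key θ' hθ'
      have h3 := rr_nonneg (ν.restrict (Icc p2 q2)) (unif m p1 q1) θ
      have h4 := rr_nonneg (ν.restrict (Icc p2 q2)) (unif m p1 q1) θ'
      rw [abs_le]
      constructor <;> linarith
    · have h1 : 48 * ℓ * (1 / Real.sin (d0 / 8)) = 48 * ℓ / Real.sin (d0 / 8) := by ring
      rw [h1, div_le_iff₀ hsd]
      calc 48 * ℓ ≤ 48 * (η * m) := by linarith
        _ ≤ m * (576 * η) := by nlinarith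
        _ ≤ m * (c * Real.sin (d0 / 8)) := mul_le_mul_of_nonneg_left hη4 hmpos.le
        _ = m * c * Real.sin (d0 / 8) := by ring
  · refine ⟨1 / Real.sin (d0 / 8) * (4 * (η * m / ℓ) + 32 * m * ℓ / d0),
      fun θ hθ θ' hθ' => ?_, ?_⟩
    · obtain ⟨hg, hp⟩ := halt θ hθ
      obtain ⟨hg', hp'⟩ := halt θ' hθ'
      have h := rr_osc (ν.restrict (Icc p2 q2)) (unif m p1 q1) (by rw [hm2, hm1])
        (by rw [hm2]; linarith) (unif_compl m p1 q1) (d := d0 / 4) (θ := θ) (θ' := θ')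
        (by linarith) (by linarith [hθ.1]) (by linarith [hθ.2]) (by linarith [hθ'.1])
        (by linarith [hθ'.2]) h1π hg hg'
      rw [e8, hm2] at h
      refine h.trans (mul_le_mul_of_nonneg_left ?_ (by positivity))
      have h1 : |pot (ν.restrict (Icc p2 q2)) θ| ≤ η * m / ℓ := by
        rw [le_div_iff₀ hℓ0, mul_comm]
        exact hp
      have h2 : |pot (ν.restrict (Icc p2 q2)) θ'| ≤ η * m / ℓ := by
        rw [le_div_iff₀ hℓ0, mul_comm]
        exact hp'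
      have h3 : |θ - θ'| ≤ 4 * ℓ := by
        rw [abs_le]
        constructor <;> linarith [hθ.1, hθ.2, hθ'.1, hθ'.2]
      have h4 : 2 * m * |θ - θ'| / (d0 / 4) ≤ 32 * m * ℓ / d0 := by
        rw [div_le_div_iff₀ (by linarith) hd0]
        have h5 : 2 * m * |θ - θ'| ≤ 2 * m * (4 * ℓ) :=
          mul_le_mul_of_nonneg_left h3 (by linarith)
        nlinarith
      linarith
    · have h1 : 48 * ℓ * (1 / Real.sin (d0 / 8) * (4 * (η * m / ℓ) + 32 * m * ℓ / d0)) =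
          m * (192 * η + 1536 * (ℓ * ℓ) / d0) / Real.sin (d0 / 8) := by
        field_simp
        ring
      rw [h1, div_le_iff₀ hsd]
      have h2 : 1536 * (ℓ * ℓ) / d0 ≤ 96 * η := by
        rw [div_le_iff₀ hd0]
        have h3 : ℓ * ℓ ≤ η * η := mul_le_mul hℓη hℓη hℓ0.le hη0.le
        nlinarith
      calc m * (192 * η + 1536 * (ℓ * ℓ) / d0) ≤ m * (576 * η) :=
            mul_le_mul_of_nonneg_left (by linarith) hmpos.le
        _ ≤ m * (c * Real.sin (d0 / 8)) := mul_le_mul_of_nonneg_left hη4 hmpos.le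
        _ = m * c * Real.sin (d0 / 8) := by ring

/-- `g0` is not constant -/
private theorem g0_ne_one (ν : Measure ℝ) [IsProbabilityMeasure ν] (hν : Supp ν)
    {p2 q2 p1 q1 : ℝ} (h0 : 0 < p2) (hpq : p2 < q2) (h21 : q2 < p1) (h11 : p1 < q1)
    (h1π : q1 < Real.pi) (hmpos : 0 < ν.real (Icc p2 q2)) (hm8 : ν.real (Icc p2 q2) ≤ 1 / 8)
    (h : ∀ z ∈ ball (0 : ℂ) 1,
      g0 (ν.restrict (Icc p2 q2)) (unif (ν.real (Icc p2 q2)) p1 q1) z = 1) : False := by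
  have hm2 : (ν.restrict (Icc p2 q2)).real univ = ν.real (Icc p2 q2) := by
    rw [measureReal_restrict_apply MeasurableSet.univ, univ_inter]
  have hm1 : (unif (ν.real (Icc p2 q2)) p1 q1).real univ = ν.real (Icc p2 q2) :=
    unif_real_univ hmpos.le h11
  have hc2 : (ν.restrict (Icc p2 q2)) (Icc p2 q2)ᶜ = 0 := by
    rw [Measure.restrict_apply measurableSet_Icc.compl, compl_inter_self]
    exact measure_empty
  have hc1 := unif_compl (ν.real (Icc p2 q2)) p1 q1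
  have hS2 : Supp (ν.restrict (Icc p2 q2)) := by
    unfold Supp at hν ⊢
    exact nonpos_iff_eq_zero.1 ((Measure.restrict_apply_le _ _).trans hν.le)
  have hS1 : Supp (unif (ν.real (Icc p2 q2)) p1 q1) := by
    unfold Supp
    refine measure_mono_null (compl_subset_compl.2 fun t ht => ⟨?_, ?_⟩) hc1
    · linarith [ht.1]
    · linarith [ht.2, Real.pi_pos]
  have hrad := radial_g0 (ν.restrict (Icc p2 q2)) (unif (ν.real (Icc p2 q2)) p1 q1) hS2 hS1
  have hex : ∃ θ ∈ Ioo 0 p2, Tendsto (fun r : ℝ => g0 (ν.restrict (Icc p2 q2))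
      (unif (ν.real (Icc p2 q2)) p1 q1) (pt r θ)) (𝓝[<] 1)
      (𝓝 ((rr (ν.restrict (Icc p2 q2)) (unif (ν.real (Icc p2 q2)) p1 q1) θ : ℂ) *
        cexp (((bA (unif (ν.real (Icc p2 q2)) p1 q1) θ -
          bA (ν.restrict (Icc p2 q2)) θ : ℝ) : ℂ) * I))) := by
    by_contra hcon
    push Not at hcon
    have h1 : arcM (Ioo 0 p2) ≤ 0 := by
      rw [← ae_iff.1 hrad]
      exact measure_mono fun θ hθ => hcon θ hθ
    have h2 : arcM (Ioo 0 p2) = ENNReal.ofReal p2 := by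
      unfold arcM
      rw [Measure.restrict_apply measurableSet_Ioo, inter_eq_left.2, Real.volume_Ioo, sub_zero]
      exact Ioo_subset_Ioo le_rfl (by linarith)
    rw [h2] at h1
    have h3 := ENNReal.ofReal_pos.2 h0
    exact absurd h1 (not_le.2 h3)
  obtain ⟨θ, hθ, ht⟩ := hex
  have hpt : ∀ᶠ r : ℝ in 𝓝[<] 1, pt r θ ∈ ball (0 : ℂ) 1 := by
    have h1 : ∀ᶠ r : ℝ in 𝓝[<] 1, r ∈ Ioo (0 : ℝ) 1 :=
      Ioo_mem_nhdsLT one_pos
    filter_upwards [h1] with r hr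
    rw [mem_ball_zero_iff]
    unfold pt
    rw [norm_mul, Complex.norm_exp_ofReal_mul_I, mul_one, Complex.norm_real,
      Real.norm_of_nonneg hr.1.le]
    exact hr.2
  have ht1 : Tendsto (fun r : ℝ => g0 (ν.restrict (Icc p2 q2))
      (unif (ν.real (Icc p2 q2)) p1 q1) (pt r θ)) (𝓝[<] 1) (𝓝 1) := by
    refine tendsto_const_nhds.congr' ?_
    filter_upwards [hpt] with r hr
    exact (h _ hr).symm
  have he := tendsto_nhds_unique ht1 ht
  have hb := bA_left (ν.restrict (Icc p2 q2)) (unif (ν.real (Icc p2 q2)) p1 q1) p2 q2 p1 q1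
    hc2 hc1 (by rw [hm2, hm1]) hpq.le h21 h11.le hθ.2.le
  have hmb := mean_bounds (ν.restrict (Icc p2 q2)) (unif (ν.real (Icc p2 q2)) p1 q1) p2 q2 p1 q1
    hc2 hc1 (by rw [hm2, hm1]) h0.le hpq.le h21 h11.le
  rw [hb] at he
  rw [hm2] at hmb
  obtain ⟨b, hbd⟩ : ∃ b : ℝ, b = (∫ t, t ∂(unif (ν.real (Icc p2 q2)) p1 q1)) -
    (∫ t, t ∂(ν.restrict (Icc p2 q2))) := ⟨_, rfl⟩
  rw [← hbd] at he hmb
  have hb0 : 0 < b := lt_of_lt_of_le (mul_pos hmpos (by linarith)) hmb.1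
  have hbπ : b < Real.pi := by
    have h1 : ν.real (Icc p2 q2) * (q1 - p2) ≤ 1 / 8 * (q1 - p2) :=
      mul_le_mul_of_nonneg_right hm8 (by linarith)
    nlinarith [Real.pi_pos, hmb.2]
  have hsin := Real.sin_pos_of_pos_of_lt_pi hb0 hbπ
  have him := congrArg Complex.im he
  have hre := congrArg Complex.re he
  rw [Complex.re_ofReal_mul, Complex.exp_ofReal_mul_I_re, Complex.one_re] at hre
  rw [Complex.im_ofReal_mul, Complex.exp_ofReal_mul_I_im, Complex.one_im] at him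
  rcases mul_eq_zero.1 him.symm with h1 | h1
  · rw [h1] at hre
    linarith
  · linarith

theorem split_diffuse (ν : Measure ℝ) [IsProbabilityMeasure ν] (hν : Supp ν) {κ1 κ2 : ℝ}
    (h0 : 0 < κ1) (h12 : κ1 < κ2) (hπ : κ2 < Real.pi) (hpos : 0 < ν (Icc κ1 κ2))
    (hat : ∀ t ∈ Icc κ1 κ2, ν {t} = 0) :
    ∃ (l : ℝ) (G H : ℂ → ℂ), 0 < l ∧ l < 1 ∧ InD G ∧ InD H ∧
      (∀ z ∈ ball (0 : ℂ) 1, mob 1 z * Sm ν z = l * G z + (1 - l) * H z) ∧
      ∃ z ∈ ball (0 : ℂ) 1, G z ≠ H z := by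
  obtain ⟨x1, x2, hx1, hx12, hx2, hpos1, hpos2⟩ := two_intervals ν h12 hpos hat
  obtain ⟨t1, ht1, htδ⟩ := exists_supp_point ν hx2.le hpos2
  obtain ⟨d0, hd0⟩ : ∃ d0, d0 = x2 - x1 := ⟨_, rfl⟩
  have hd0pos : 0 < d0 := by rw [hd0]; linarith
  have hd0π : d0 < Real.pi := by rw [hd0]; linarith
  have hsκ : 0 < Real.sin (κ1 / 2) := Real.sin_pos_of_pos_of_lt_pi (by linarith) (by linarith)
  have hsd : 0 < Real.sin (d0 / 8) := Real.sin_pos_of_pos_of_lt_pi (by linarith) (by linarith)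
  obtain ⟨c, hc⟩ : ∃ c, c = 9 / 32 * d0 ^ 2 * Real.sin (κ1 / 2) := ⟨_, rfl⟩
  have hc0 : 0 < c := by rw [hc]; positivity
  obtain ⟨η, hη0, hη1, hη2, hη3, hη4⟩ : ∃ η : ℝ, 0 < η ∧ η ≤ κ1 / 2 ∧ η ≤ d0 / 16 ∧ η ≤ 1 / 8 ∧
      576 * η ≤ c * Real.sin (d0 / 8) := by
    refine ⟨min (min (κ1 / 2) (d0 / 16)) (min (1 / 8) (c * Real.sin (d0 / 8) / 576)), ?_, ?_, ?_,
      ?_, ?_⟩
    · refine lt_min (lt_min (by linarith) (by linarith)) (lt_min (by norm_num) (by positivity))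
    · exact (min_le_left _ _).trans (min_le_left _ _)
    · exact (min_le_left _ _).trans (min_le_right _ _)
    · exact (min_le_right _ _).trans (min_le_left _ _)
    · have h := (min_le_right (min (κ1 / 2) (d0 / 16))
        (min (1 / 8) (c * Real.sin (d0 / 8) / 576))).trans (min_le_right _ _)
      linarith
  obtain ⟨p2, q2, hp2, hpq, hq2, hℓη, hmpos, hmη, halt⟩ := select ν h0 hx1
    (by linarith) hpos1 (fun t ht => hat t ⟨ht.1, by linarith [ht.2]⟩) hη0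
  obtain ⟨s, hs0, hs1, hs2, hs3, hs4⟩ : ∃ s : ℝ, 0 < s ∧ s ≤ 1 ∧ s ≤ d0 / 12 ∧
      s ≤ (Real.pi - κ2) / 2 ∧ 384 * s ≤ ν.real (Icc p2 q2) * c := by
    refine ⟨min (min 1 (d0 / 12)) (min ((Real.pi - κ2) / 2) (ν.real (Icc p2 q2) * c / 384)), ?_,
      ?_, ?_, ?_, ?_⟩
    · refine lt_min (lt_min one_pos (by linarith)) (lt_min (by linarith) (by positivity))
    · exact (min_le_left _ _).trans (min_le_left _ _)
    · exact (min_le_left _ _).trans (min_le_right _ _)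
    · exact (min_le_right _ _).trans (min_le_left _ _)
    · have h := (min_le_right (min 1 (d0 / 12))
        (min ((Real.pi - κ2) / 2) (ν.real (Icc p2 q2) * c / 384))).trans (min_le_right _ _)
      linarith
  obtain ⟨δ, hδ⟩ : ∃ δ, δ = s ^ 4 := ⟨_, rfl⟩
  have hδ0 : 0 < δ := by rw [hδ]; positivity
  have hδs : δ ≤ s := by
    rw [hδ]
    calc s ^ 4 ≤ s ^ 1 := pow_le_pow_of_le_one hs0.le hs1 (by norm_num)
      _ = s := pow_one s
  have hδr : δ ^ (-(1 / 4) : ℝ) = s⁻¹ := by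
    rw [hδ, ← Real.rpow_natCast s 4, ← Real.rpow_mul hs0.le, ← Real.rpow_neg_one]
    norm_num
  obtain ⟨p1, hp1⟩ : ∃ p1, p1 = t1 - 3 * δ := ⟨_, rfl⟩
  obtain ⟨q1, hq1⟩ : ∃ q1, q1 = t1 - 2 * δ := ⟨_, rfl⟩
  have hqp : q1 - p1 = δ := by rw [hp1, hq1]; ring
  have h11 : p1 < q1 := by linarith
  have h1π : q1 < Real.pi := by linarith [ht1.2]
  have hm8 : ν.real (Icc p2 q2) ≤ 1 / 8 := hmη.trans hη3
  have hm2 : (ν.restrict (Icc p2 q2)).real univ = ν.real (Icc p2 q2) := by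
    rw [measureReal_restrict_apply MeasurableSet.univ, univ_inter]
  have hm1 : (unif (ν.real (Icc p2 q2)) p1 q1).real univ = ν.real (Icc p2 q2) :=
    unif_real_univ hmpos.le h11
  obtain ⟨ω, hω, hω'⟩ := exists_omega ν (p1 := p1) (q1 := q1) (d0 := d0) (c := c) hpq h11 h1π
    (by linarith) hd0pos (by linarith) (by linarith [ht1.1]) hη0 hℓη hη2 hmpos hm8 hη4 halt
  have hb1 : q1 - p1 ≤ 1 := by linarith
  have hsm : Real.sin (κ1 / 2) ≤ Real.sin (p2 / 2) :=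
    Real.sin_le_sin_of_le_of_le_pi_div_two (by linarith) (by linarith) (by linarith)
  obtain ⟨ε, hε0, hε1, q, hq, ν', hν', hS', hqν⟩ := core ν hν p2 q2 p1 q1 (t1 + δ) hpq
    (by linarith) (by linarith [ht1.1]) h11 (by linarith) (by linarith [ht1.2])
    (fun t ht => hat t ⟨by linarith [ht.1], by linarith [ht.2]⟩) hmpos hm8
    (lt_of_lt_of_le (htδ δ hδ0) (measure_mono (Ioc_subset_Ioc (by linarith) le_rfl)))
    (3 * (q1 - p1) ^ (-(1 / 4) : ℝ)) ω
    (fun z hz => g0_bound (ν.restrict (Icc p2 q2)) hm2 hm8 h11 hb1 hz)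
    (fun θ => rr_bound (ν.restrict (Icc p2 q2)) hm2 hm8 h11 hb1 θ) hω (by
      rw [hqp, hδr]
      have e1 : 32 * (t1 + δ - p1) * (3 * s⁻¹) = 384 * s ^ 3 := by
        rw [hp1, hδ]
        field_simp
        ring
      have e2 : 384 * s ^ 3 ≤ 384 * s := by
        have : s ^ 3 ≤ s ^ 1 := pow_le_pow_of_le_one hs0.le hs1 (by norm_num)
        rw [pow_one] at this
        linarith
      have e3 : 3 / 4 * d0 ≤ p1 - q2 := by linarith [ht1.1]
      have e4 : (3 / 4 * d0) ^ 2 ≤ (p1 - q2) ^ 2 :=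
        pow_le_pow_left₀ (by linarith) e3 2
      have e5 : ν.real (Icc p2 q2) * (3 / 4 * d0) ^ 2 * Real.sin (κ1 / 2) ≤
          ν.real (Icc p2 q2) * (p1 - q2) ^ 2 * Real.sin (p2 / 2) := by
        refine mul_le_mul (mul_le_mul_of_nonneg_left e4 hmpos.le) hsm hsκ.le (by positivity)
      have e6 : ν.real (Icc p2 q2) * (3 / 4 * d0) ^ 2 * Real.sin (κ1 / 2) =
          2 * (ν.real (Icc p2 q2) * c) := by rw [hc]; ring
      rw [e1]
      linarith)
  -- the measure of `G`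
  obtain ⟨νG, hνG⟩ : ∃ νG, νG = ν.restrict (Icc p2 q2)ᶜ + unif (ν.real (Icc p2 q2)) p1 q1 :=
    ⟨_, rfl⟩
  have hGprob : IsProbabilityMeasure νG := by
    constructor
    have h1 : (unif (ν.real (Icc p2 q2)) p1 q1) univ = ν (Icc p2 q2) := by
      rw [← ENNReal.toReal_eq_toReal_iff' (measure_ne_top _ _) (measure_ne_top _ _)]
      exact hm1
    rw [hνG, Measure.add_apply, Measure.restrict_apply MeasurableSet.univ, univ_inter, h1,
      add_comm, measure_add_measure_compl measurableSet_Icc, measure_univ]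
  have hSmG : ∀ z ∈ ball (0 : ℂ) 1, g0 (ν.restrict (Icc p2 q2))
      (unif (ν.real (Icc p2 q2)) p1 q1) z * Sm ν z = Sm νG z := by
    intro z hz
    have h1 : Lm ν z = Lm (ν.restrict (Icc p2 q2)) z + Lm (ν.restrict (Icc p2 q2)ᶜ) z := by
      rw [← Lm_add _ _ hz, Measure.restrict_add_restrict_compl measurableSet_Icc]
    unfold g0 Sm
    rw [hνG, Lm_add _ _ hz, h1, ← Complex.exp_add]
    congr 1
    ring
  have hmob0 : ∀ z ∈ ball (0 : ℂ) 1, mob 1 z ≠ 0 := by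
    intro z hz h
    have := mob_re_pos (x := 1) (by simp) hz
    rw [h] at this
    simp at this
  have hε1' : (1 : ℂ) - ε ≠ 0 := by
    intro h
    have h1 : ((1 - ε : ℝ) : ℂ) = 0 := by push_cast; exact h
    rw [Complex.ofReal_eq_zero] at h1
    linarith
  have hsplit : ∀ z ∈ ball (0 : ℂ) 1, mob 1 z * Sm ν z =
      ε * (mob 1 z * Sm νG z) + (1 - ε) * (q z * Sm ν' z) := by
    intro z hz
    rw [← hqν z hz, ← hSmG z hz]
    field_simp
    ring
  refine ⟨ε, fun z => mob 1 z * Sm νG z, fun z => q z * Sm ν' z, hε0, hε1,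
    ⟨mob 1, νG, isCara_mob (by simp), hGprob, fun _ _ => rfl⟩,
    ⟨q, ν', hq, hν', fun _ _ => rfl⟩, hsplit, ?_⟩
  by_contra hcon
  push Not at hcon
  refine g0_ne_one ν hν (p2 := p2) (q2 := q2) (p1 := p1) (q1 := q1) (by linarith) hpq
    (by linarith [ht1.1]) h11 h1π hmpos hm8 fun z hz => ?_
  have h1 := hsplit z hz
  have h2 := hcon z hz
  rw [← h2] at h1
  have h3 : mob 1 z * Sm ν z = mob 1 z * Sm νG z := by
    rw [h1]
    ring
  have h4 := mul_left_cancel₀ (hmob0 z hz) h3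
  rw [← hSmG z hz] at h4
  have h5 := Sm_ne_zero ν z
  exact (mul_right_cancel₀ h5 (by rw [one_mul]; exact h4)).symm

end Baz16
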