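import Pool.Agent.Baz16.ExtI

/-! # `Fxy x y` is not extreme when `Re (x conj y) < 0`.

Rotate so that `y = 1`.  If `x = -1`: `1/(1-z^2) = (1/2) 1/(1-z) + (1/2) 1/(1+z)`.  Otherwise,
with `C = Re x ∈ (-1, 0)`, `l = (1+C)/(1-C)`:
`Fxy x 1 z = (1-l) * 1/((1 + conj x z)(1 - x z)) + l * Fxy (-conj x) 1 z`
(multiply by all denominators: `1 + 2Cz + z^2 = (1-l)(1-z)^2 + l (1 - 2Cz + z^2)`), where
`1/((1 + conj x z)(1 - x z)) = 1 * Sm ν`, `ν = (1/2) δ_a + (1/2) δ_b`, `yy a = x`,
`yy b = - conj x`. -/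

namespace Baz16
open Complex Metric MeasureTheory Set Filter Topology
open scoped ComplexConjugate

/-- `(1/2) δ_a + (1/2) δ_b` -/
private noncomputable def tw (a b : ℝ) : Measure ℝ :=
  (2⁻¹ : ENNReal) • Measure.dirac a + (2⁻¹ : ENNReal) • Measure.dirac b

private theorem tw_prob (a b : ℝ) : IsProbabilityMeasure (tw a b) := by
  constructor
  unfold tw
  rw [Measure.add_apply, Measure.smul_apply, Measure.smul_apply, measure_univ, measure_univ]
  simp only [smul_eq_mul, mul_one]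
  exact ENNReal.inv_two_add_inv_two

private theorem tw_Sm (a b : ℝ) {z : ℂ} (hz : z ∈ ball (0 : ℂ) 1) :
    Sm (tw a b) z = 1 / ((1 - yy a * z) * (1 - yy b * z)) := by
  have h2 : (2⁻¹ : ENNReal) ≠ ⊤ := by simp
  have h3 : Lm (tw a b) z = (1 / 2) * Complex.log (1 - yy a * z) +
      (1 / 2) * Complex.log (1 - yy b * z) := by
    unfold tw Lm
    rw [integral_add_measure ((integrable_log_ker _ hz).smul_measure h2)
      ((integrable_log_ker _ hz).smul_measure h2), integral_smul_measure, integral_smul_measure,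
      integral_dirac, integral_dirac]
    simp
  unfold Sm
  rw [h3]
  have h4 : -2 * ((1 / 2) * Complex.log (1 - yy a * z) + (1 / 2) * Complex.log (1 - yy b * z)) =
      -(Complex.log (1 - yy a * z) + Complex.log (1 - yy b * z)) := by ring
  rw [h4, Complex.exp_neg, Complex.exp_add, Complex.exp_log (ker_ne_zero hz a),
    Complex.exp_log (ker_ne_zero hz b), one_div]

private theorem ex_ne {c z : ℂ} (hc : ‖c‖ = 1) (hz : z ∈ ball (0 : ℂ) 1) : 1 - c * z ≠ 0 := by
  obtain ⟨a, -, ha⟩ := exists_yy hc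
  rw [← ha]
  exact ker_ne_zero hz a

private theorem ex_InD {p : ℂ → ℂ} (hp : IsCara p) {c d : ℂ} (hc : ‖c‖ = 1) (hd : ‖d‖ = 1) :
    InD (fun z => p z * (1 / ((1 - c * z) * (1 - d * z)))) := by
  obtain ⟨a, -, ha⟩ := exists_yy hc
  obtain ⟨b, -, hb⟩ := exists_yy hd
  refine ⟨p, tw a b, hp, tw_prob a b, ?_⟩
  intro z hz
  rw [tw_Sm a b hz, ha, hb]

private theorem ex_cara_one : IsCara (fun _ => (1 : ℂ)) :=
  ⟨differentiableOn_const _, rfl, fun _ _ => by simp⟩

private theorem ex_cara_add : IsCara (fun z => 1 + z) := by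
  refine ⟨by fun_prop, by simp, fun z hz => ?_⟩
  have h1 : ‖z‖ < 1 := by simpa using hz
  have h2 := Complex.abs_re_le_norm z
  have h3 := neg_abs_le z.re
  simp only [Complex.add_re, Complex.one_re]
  linarith

private theorem ex_cara_sub : IsCara (fun z => 1 - z) := by
  refine ⟨by fun_prop, by simp, fun z hz => ?_⟩
  have h1 : ‖z‖ < 1 := by simpa using hz
  have h2 := Complex.re_le_norm z
  simp only [Complex.sub_re, Complex.one_re]
  linarith

private theorem ex_half : (1 / 2 : ℂ) ∈ ball (0 : ℂ) 1 := by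
  rw [mem_ball_zero_iff]
  norm_num

private theorem not_ext_neg_one : ¬ ExtD (Fxy (-1) 1) := by
  rintro ⟨-, hext⟩
  have h1 : ‖(1 : ℂ)‖ = 1 := norm_one
  have hm : ‖(-1 : ℂ)‖ = 1 := by rw [norm_neg, norm_one]
  have h := hext _ _ (ex_InD ex_cara_add h1 hm) (ex_InD ex_cara_sub h1 hm) (1 / 2)
    (by norm_num) (by norm_num) (by
      intro z hz
      have n1 : 1 - z ≠ 0 := by simpa using ex_ne h1 hz
      have n2 : 1 + z ≠ 0 := by simpa using ex_ne hm hz
      have e1 : Fxy (-1) 1 z = 1 / ((1 - z) * (1 + z)) := by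
        unfold Fxy
        rw [one_mul, neg_one_mul, sub_neg_eq_add, div_eq_div_iff
          (mul_ne_zero n2 (pow_ne_zero 2 n1)) (mul_ne_zero n1 n2)]
        ring
      rw [e1]
      simp only [one_mul, neg_one_mul, sub_neg_eq_add]
      push_cast
      ring) (1 / 2) ex_half
  norm_num at h

private theorem not_ext_one {x : ℂ} (hx : ‖x‖ = 1) (h : x.re < 0) : ¬ ExtD (Fxy x 1) := by
  by_cases hx1 : x = -1
  · rw [hx1]
    exact not_ext_neg_one
  rintro ⟨-, hext⟩
  have hsq : x.re ^ 2 + x.im ^ 2 = 1 := by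
    have h2 := Complex.sq_norm x
    rw [hx, Complex.normSq_apply] at h2
    nlinarith
  have hC : -1 < x.re := by
    have h3 : -1 ≤ x.re := by nlinarith [sq_nonneg x.im, sq_nonneg (x.re + 1)]
    rcases h3.lt_or_eq with h4 | h4
    · exact h4
    · exfalso
      apply hx1
      have h5 : x.im = 0 := by
        rw [← h4] at hsq
        nlinarith [sq_nonneg x.im]
      apply Complex.ext
      · rw [← h4]
        simp
      · rw [h5]
        simp
  have hcx : conj x * x = 1 := by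
    rw [mul_comm, Complex.mul_conj, Complex.normSq_eq_norm_sq, hx]
    simp
  have hadd : x + conj x = 2 * (x.re : ℂ) := by
    rw [Complex.add_conj]
    push_cast
    ring
  have hm : ‖-conj x‖ = 1 := by rw [norm_neg, RCLike.norm_conj, hx]
  have hC1 : (1 : ℝ) - x.re ≠ 0 := by linarith
  have hC2 : (1 : ℂ) - (x.re : ℂ) ≠ 0 := by
    intro h6
    apply hC1
    exact_mod_cast h6
  set l : ℝ := 1 - (1 + x.re) / (1 - x.re) with hl
  have hl1 : l = -2 * x.re / (1 - x.re) := by
    rw [hl]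
    field_simp
    ring
  have hl0 : 0 < l := by
    rw [hl1]
    apply div_pos <;> linarith
  have hl2 : l < 1 := by
    have : 0 < (1 + x.re) / (1 - x.re) := by
      apply div_pos <;> linarith
    linarith
  have hlc : (l : ℂ) * (1 - (x.re : ℂ)) = -2 * (x.re : ℂ) := by
    rw [hl1]
    push_cast
    rw [div_mul_cancel₀ _ hC2]
  have h := hext _ _ (ex_InD ex_cara_one hx hm) (InD_Fxy hm norm_one) l hl0 hl2 (by
      intro z hz
      have n1 : 1 - x * z ≠ 0 := ex_ne hx hz
      have n2 : 1 - -conj x * z ≠ 0 := ex_ne hm hz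
      have n3 : (1 : ℂ) - z ≠ 0 := by simpa using ex_ne (norm_one (α := ℂ)) hz
      unfold Fxy
      simp only [one_mul]
      rw [mul_one_div, ← mul_div_assoc]
      rw [div_add_div _ _ (mul_ne_zero n1 n2) (mul_ne_zero n2 (pow_ne_zero 2 n3)),
        div_eq_div_iff (mul_ne_zero n1 (pow_ne_zero 2 n3))
          (mul_ne_zero (mul_ne_zero n1 n2) (mul_ne_zero n2 (pow_ne_zero 2 n3)))]
      have key : (1 + x * z) * (1 - -conj x * z) =
          l * (1 - z) ^ 2 + (1 - l) * ((1 + -conj x * z) * (1 - x * z)) := by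
        linear_combination (z ^ 2 * (1 - (1 - l))) * hcx + (z * (1 + (1 - l))) * hadd +
          (2 * z) * hlc
      linear_combination ((1 - x * z) * (1 - -conj x * z) * (1 - z) ^ 2) * key)
        (1 / 2) ex_half
  have n1 : 1 - x * (1 / 2) ≠ 0 := ex_ne hx ex_half
  have n2 : 1 - -conj x * (1 / 2) ≠ 0 := ex_ne hm ex_half
  unfold Fxy at h
  simp only [one_mul] at h
  have n3 : ((1 : ℂ) - (1 / 2)) ≠ 0 := by norm_num
  rw [div_eq_div_iff (mul_ne_zero n1 n2) (mul_ne_zero n2 (pow_ne_zero 2 n3))] at h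
  have h7 : (1 - -conj x * (1 / 2)) * ((1 : ℂ) - (1 / 2)) ^ 2 =
      (1 - -conj x * (1 / 2)) * ((1 + -conj x * (1 / 2)) * (1 - x * (1 / 2))) := by
    linear_combination h
  have h8 := mul_left_cancel₀ n2 h7
  apply hC2
  linear_combination (-1) * h8 - (1 / 4) * hcx + (1 / 2) * hadd

theorem not_ext_Fxy {x y : ℂ} (hx : ‖x‖ = 1) (hy : ‖y‖ = 1) (h : (x * conj y).re < 0) :
    ¬ ExtD (Fxy x y) := by
  intro hE
  have hcy : y * conj y = 1 := by
    rw [Complex.mul_conj, Complex.normSq_eq_norm_sq, hy]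
    simp
  have hn : ‖x * conj y‖ = 1 := by
    rw [norm_mul, RCLike.norm_conj, hx, hy, one_mul]
  apply not_ext_one hn h
  refine ExtD_congr ?_ (ExtD_rot hE (c := conj y) (by rw [RCLike.norm_conj, hy]))
  intro z _
  unfold Fxy
  have h1 : y * (conj y * z) = 1 * z := by rw [← mul_assoc, hcy]
  rw [h1, mul_assoc x]

end Baz16
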