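import Pool.Agent.Baz16.Case0
import Pool.Agent.Baz16.Case1
import Pool.Agent.Baz16.Case2
import Pool.Agent.Baz16.Sym

/-! # `Fxy x y` is extreme when `Re (x conj y) ≥ 0`.

`ext_one`: `x = yy φ0`, `y = 1`, `0 ≤ φ0 ≤ pi/2`: if `Fxy = l G + (1-l) H`, `G = p1 Sm ν1`,
`H = p2 Sm ν2` with `ν_i` on `[0, 2 pi)` (`exists_normal`).  `φ0 = 0`: `koebe_case`.  Otherwise
multiply by `(1-z)^2`; `ν_i {0}ᶜ = 0` means `Sm ν_i z = 1/(1-z)^2` (`ν_i = dirac 0`).  Both:
`mob_ext`; exactly one: `case2` (exchange `l` and `1-l` if it is the second one); none: `case1`.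
`ext_Fxy`: rotate by `conj y` so that `y = 1`; `x conj y = yy φ` with `|φ| ≤ pi/2`, and for
`φ < 0` conjugate. -/

namespace Baz16
open Complex Metric MeasureTheory Set Filter Topology
open scoped ComplexConjugate

theorem Fxy_eq (x y z : ℂ) : Fxy x y z = mob x z * (1 / (1 - y * z) ^ 2) := by
  unfold Fxy mob
  rw [div_mul_div_comm, mul_one]

theorem InD_Fxy {x y : ℂ} (hx : ‖x‖ = 1) (hy : ‖y‖ = 1) : InD (Fxy x y) := by
  obtain ⟨b, -, hb⟩ := exists_yy hy
  refine ⟨mob x, Measure.dirac b, isCara_mob hx, inferInstance, ?_⟩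
  intro z hz
  rw [Fxy_eq, Sm_dirac b hz, hb]

private theorem extI_Sm_of_null {ν : Measure ℝ} [IsProbabilityMeasure ν]
    (h : ν {(0 : ℝ)}ᶜ = 0) {z : ℂ} (hz : z ∈ ball (0 : ℂ) 1) :
    (1 - z) ^ 2 * Sm ν z = 1 := by
  have h1 : ∀ᵐ t ∂ν, t = 0 := by
    rw [ae_iff]
    exact h
  have h2 : Lm ν z = Complex.log (1 - z) := by
    unfold Lm
    have h3 : ∫ t, Complex.log (1 - yy t * z) ∂ν = ∫ _t, Complex.log (1 - z) ∂ν := by
      refine integral_congr_ae ?_
      filter_upwards [h1] with t ht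
      rw [ht, yy_zero, one_mul]
    rw [h3]
    simp
  have hne : (1 : ℂ) - z ≠ 0 := by
    have := ker_ne_zero hz 0
    rwa [yy_zero, one_mul] at this
  unfold Sm
  rw [h2]
  have h4 : cexp (-2 * Complex.log (1 - z)) = ((1 - z) ^ 2)⁻¹ := by
    have h5 : -2 * Complex.log (1 - z) = -(Complex.log (1 - z) + Complex.log (1 - z)) := by ring
    rw [h5, Complex.exp_neg, Complex.exp_add, Complex.exp_log hne, sq]
  rw [h4]
  exact mul_inv_cancel₀ (pow_ne_zero 2 hne)

theorem ext_one {φ0 : ℝ} (hφ0 : 0 ≤ φ0) (hφ1 : φ0 ≤ Real.pi / 2) : ExtD (Fxy (yy φ0) 1) := by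
  refine ⟨InD_Fxy (norm_yy φ0) norm_one, ?_⟩
  intro G H hG hH l hl0 hl1 h
  obtain ⟨p1, μ1, hp1, hμ1, hG1⟩ := hG
  obtain ⟨p2, μ2, hp2, hμ2, hH1⟩ := hH
  obtain ⟨ν1, hν1, hs1, he1⟩ := exists_normal μ1
  obtain ⟨ν2, hν2, hs2, he2⟩ := exists_normal μ2
  have hG2 : ∀ z ∈ ball (0 : ℂ) 1, G z = p1 z * Sm ν1 z := fun z hz => by rw [hG1 z hz, he1]
  have hH2 : ∀ z ∈ ball (0 : ℂ) 1, H z = p2 z * Sm ν2 z := fun z hz => by rw [hH1 z hz, he2]
  rcases hφ0.eq_or_lt with h0 | h0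
  · subst h0
    intro z hz
    rw [hG2 z hz, hH2 z hz]
    refine koebe_case hp1 hp2 ν1 ν2 hl0 hl1 ?_ z hz
    intro w hw
    rw [← hG2 w hw, ← hH2 w hw, ← h w hw, yy_zero]
  have hm : ∀ z ∈ ball (0 : ℂ) 1, mob (yy φ0) z = l * (p1 z * ((1 - z) ^ 2 * Sm ν1 z)) +
      (1 - l) * (p2 z * ((1 - z) ^ 2 * Sm ν2 z)) := by
    intro z hz
    have hne : (1 : ℂ) - z ≠ 0 := by
      have := ker_ne_zero hz 0
      rwa [yy_zero, one_mul] at this
    have h1 := h z hz
    rw [hG2 z hz, hH2 z hz, Fxy_eq, one_mul] at h1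
    have h2 : mob (yy φ0) z = mob (yy φ0) z * (1 / (1 - z) ^ 2) * (1 - z) ^ 2 := by
      rw [mul_assoc, one_div, inv_mul_cancel₀ (pow_ne_zero 2 hne), mul_one]
    rw [h2, h1]
    ring
  by_cases k1 : ν1 {(0 : ℝ)}ᶜ = 0
  · by_cases k2 : ν2 {(0 : ℝ)}ᶜ = 0
    · have h3 := mob_ext (norm_yy φ0) hp1 hp2 hl0 hl1 (fun z hz => by
        have := hm z hz
        rwa [extI_Sm_of_null k1 hz, extI_Sm_of_null k2 hz, mul_one, mul_one] at this)
      intro z hz
      have hne : (1 : ℂ) - z ≠ 0 := by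
        have := ker_ne_zero hz 0
        rwa [yy_zero, one_mul] at this
      obtain ⟨e1, e2⟩ := h3 z hz
      have e3 : (1 - z) ^ 2 * Sm ν1 z = (1 - z) ^ 2 * Sm ν2 z := by
        rw [extI_Sm_of_null k1 hz, extI_Sm_of_null k2 hz]
      rw [hG2 z hz, hH2 z hz, e1, e2, mul_left_cancel₀ (pow_ne_zero 2 hne) e3]
    · refine (case2 h0 hφ1 hl0 hl1 hp1 hp2 ν2 hs2 k2 ?_).elim
      intro z hz
      have := hm z hz
      rwa [extI_Sm_of_null k1 hz, mul_one] at this
  · by_cases k2 : ν2 {(0 : ℝ)}ᶜ = 0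
    · refine (case2 (l := 1 - l) h0 hφ1 (by linarith) (by linarith) hp2 hp1 ν1 hs1 k1 ?_).elim
      intro z hz
      have := hm z hz
      rw [extI_Sm_of_null k2 hz, mul_one] at this
      rw [this]
      push_cast
      ring
    · exact (case1 h0 hφ1 hl0 hl1 hp1 hp2 ν1 ν2 hs1 hs2 k1 k2 hm).elim

theorem ext_Fxy {x y : ℂ} (hx : ‖x‖ = 1) (hy : ‖y‖ = 1) (h : 0 ≤ (x * conj y).re) :
    ExtD (Fxy x y) := by
  have hcy : conj y * y = 1 := by
    rw [mul_comm, Complex.mul_conj, Complex.normSq_eq_norm_sq, hy]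
    simp
  have hn : ‖x * conj y‖ = 1 := by
    rw [norm_mul, RCLike.norm_conj, hx, hy, one_mul]
  have harg : |(x * conj y).arg| ≤ Real.pi / 2 := Complex.abs_arg_le_pi_div_two_iff.2 h
  have hx' : x * conj y = cexp ((x * conj y).arg * I) := by
    have h1 := Complex.norm_mul_exp_arg_mul_I (x * conj y)
    rw [hn] at h1
    simpa using h1.symm
  have key : ExtD (Fxy (x * conj y) 1) := by
    rcases le_or_gt (x * conj y).arg 0 with h0 | h0
    · have h2 : x * conj y = yy (-(x * conj y).arg) := by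
        unfold yy
        conv_lhs => rw [hx']
        congr 1
        push_cast
        ring
      rw [h2]
      refine ext_one (by linarith) ?_
      rw [abs_of_nonpos h0] at harg
      exact harg
    · have h2 : conj (x * conj y) = yy ((x * conj y).arg) := by
        unfold yy
        conv_lhs => rw [hx']
        rw [← Complex.exp_conj, map_mul, Complex.conj_I, Complex.conj_ofReal]
        congr 1
        ring
      have h3 : ExtD (Fxy (conj (x * conj y)) 1) := by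
        rw [h2]
        refine ext_one h0.le ?_
        rw [abs_of_pos h0] at harg
        exact harg
      refine ExtD_congr ?_ (ExtD_conj h3)
      intro z _
      unfold Fxy
      simp only [map_div₀, map_mul, map_add, map_sub, map_pow, map_one, Complex.conj_conj, one_mul]
  refine ExtD_congr ?_ (ExtD_rot key hy)
  intro z _
  unfold Fxy
  have h4 : x * conj y * (y * z) = x * z := by
    calc x * conj y * (y * z) = x * (conj y * y) * z := by ring
      _ = x * z := by rw [hcy, mul_one]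
  rw [h4, one_mul]

end Baz16
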