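import Pool.Agent.Baz16.Crit

/-! # Splitting Caratheodory functions that are not Moebius (F. Holland's trick).

Choose `c`, `|c| = 1`, with `Re (conj c * p'(0)) = 0`.  Put
`A z = (c z + conj c/z) p z + (c z - conj c/z) - conj c p'(0)`, extended analytically to `z = 0`
with `A 0 = 0`.  Then `p± = p ± (1/2) A` are Caratheodory: for `p_r z = p (r z)` the boundary
values of `Re (p_r ± (1/2) A_r)` are `(1 ± Re (c z)) Re p_r ≥ 0` on `|z| = 1`; apply the maximum
principle and let `r → 1`.  If `A` is identically `0`, then with `u = c z`, `conj c p'(0) = i τ`,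
`|τ| ≤ 2`: `p = (1 - u^2 + i τ u)/(1 + u^2) = a (1+iu)/(1-iu) + b (1-iu)/(1+iu)`,
`a = (2+τ)/4`, `b = (2-τ)/4`: Moebius if `|τ| = 2`, and a proper convex combination otherwise.
(Alternatively any other proof; a Herglotz measure argument is also possible.) -/

namespace Baz16
open Complex Metric MeasureTheory Set Filter Topology

private theorem nm_exists_c (d : ℂ) : ∃ c : ℂ, ‖c‖ = 1 ∧ (starRingEnd ℂ c * d).re = 0 := by
  by_cases hd : d = 0
  · exact ⟨1, by simp, by simp [hd]⟩
  · have hn : ‖d‖ ≠ 0 := norm_ne_zero_iff.2 hd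
    refine ⟨I * d / (‖d‖ : ℂ), ?_, ?_⟩
    · rw [norm_div, norm_mul, norm_I, one_mul, norm_real, norm_norm, div_self hn]
    · have h1 : starRingEnd ℂ (I * d / (‖d‖ : ℂ)) * d = ((‖d‖ : ℝ) : ℂ) * (-I) := by
        rw [map_div₀, map_mul, conj_I, conj_ofReal]
        have h2 : starRingEnd ℂ d * d = (‖d‖ : ℂ) ^ 2 := conj_mul' d
        have h3 : (‖d‖ : ℂ) ≠ 0 := by exact_mod_cast hn
        field_simp
        linear_combination -h2
      rw [h1]
      simp

/-- the auxiliary function at the radius `r` -/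
private noncomputable def nmG (p : ℂ → ℂ) (c : ℂ) (s r : ℝ) (z : ℂ) : ℂ :=
  p (r * z) + (s / 2 : ℝ) * (starRingEnd ℂ c * r * dslope p 0 (r * z) + c * z * (p (r * z) + 1)
    - starRingEnd ℂ c * r * deriv p 0)

private theorem nm_mem {r : ℝ} (hr0 : 0 < r) (hr1 : r < 1) {z : ℂ} (hz : ‖z‖ ≤ 1) :
    (r : ℂ) * z ∈ ball (0 : ℂ) 1 := by
  rw [mem_ball_zero_iff, norm_mul, norm_real, Real.norm_of_nonneg hr0.le]
  nlinarith [norm_nonneg z]

private theorem nm_diff {p : ℂ → ℂ} (hp : DifferentiableOn ℂ p (ball 0 1)) :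
    DifferentiableOn ℂ (dslope p 0) (ball 0 1) :=
  (Complex.differentiableOn_dslope (ball_mem_nhds _ one_pos)).2 hp

private theorem nmG_diff {p : ℂ → ℂ} (hp : DifferentiableOn ℂ p (ball 0 1)) (c : ℂ) (s : ℝ) {r : ℝ}
    (hr0 : 0 < r) (hr1 : r < 1) : DifferentiableOn ℂ (nmG p c s r) (closedBall 0 1) := by
  intro z hz
  rw [mem_closedBall_zero_iff] at hz
  have hm := nm_mem hr0 hr1 hz
  have hl : DifferentiableAt ℂ (fun z : ℂ => (r : ℂ) * z) z :=
    (differentiableAt_const _).mul differentiableAt_id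
  have h1 : DifferentiableAt ℂ (fun z : ℂ => p (r * z)) z :=
    DifferentiableAt.comp z (hp.differentiableAt (isOpen_ball.mem_nhds hm)) hl
  have h2 : DifferentiableAt ℂ (fun z : ℂ => dslope p 0 (r * z)) z :=
    DifferentiableAt.comp z ((nm_diff hp).differentiableAt (isOpen_ball.mem_nhds hm)) hl
  unfold nmG
  refine DifferentiableAt.differentiableWithinAt ?_
  refine h1.add ((differentiableAt_const _).mul (((?_ : DifferentiableAt ℂ _ z).add ?_).sub
    (differentiableAt_const _)))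
  · exact (differentiableAt_const _).mul h2
  · exact ((differentiableAt_const _).mul differentiableAt_id).mul (h1.add (differentiableAt_const _))

private theorem nmG_re_bdry {p : ℂ → ℂ} (hp : IsCara p) {c : ℂ} (hc : ‖c‖ = 1)
    (hd : (starRingEnd ℂ c * deriv p 0).re = 0) {s : ℝ} (hs : s = 1 ∨ s = -1) {r : ℝ}
    (hr0 : 0 < r) (hr1 : r < 1) {z : ℂ} (hz : ‖z‖ = 1) : 0 ≤ (nmG p c s r z).re := by
  have hm := nm_mem hr0 hr1 hz.le
  have hz0 : z ≠ 0 := by
    intro h
    rw [h, norm_zero] at hz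
    exact zero_ne_one hz
  have hrz : (r : ℂ) * z ≠ 0 := mul_ne_zero (by exact_mod_cast hr0.ne') hz0
  have hzz : z * starRingEnd ℂ z = 1 := by
    rw [mul_conj', hz]
    simp
  have h1 : starRingEnd ℂ c * r * dslope p 0 (r * z)
      = starRingEnd ℂ c * starRingEnd ℂ z * (p (r * z) - 1) := by
    rw [dslope_of_ne _ hrz, slope_def_field, hp.2.1, sub_zero]
    have hr' : (r : ℂ) ≠ 0 := by exact_mod_cast hr0.ne'
    field_simp
    linear_combination (-(starRingEnd ℂ c * (p (r * z) - 1))) * hzz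
  set w := c * z with hw
  have hwn : ‖w‖ = 1 := by rw [hw, norm_mul, hc, hz, one_mul]
  have h2 : starRingEnd ℂ c * starRingEnd ℂ z = starRingEnd ℂ w := by rw [hw, map_mul]
  have h3 : nmG p c s r z = p (r * z) + (s / 2 : ℝ) * ((w + starRingEnd ℂ w) * p (r * z) +
      (w - starRingEnd ℂ w) - (r : ℝ) * (starRingEnd ℂ c * deriv p 0)) := by
    unfold nmG
    rw [h1, h2]
    ring
  have h4 : (nmG p c s r z).re = (1 + s * w.re) * (p (r * z)).re := by
    rw [h3, add_re, re_ofReal_mul, sub_re, add_re, re_ofReal_mul, hd]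
    have e1 : w + starRingEnd ℂ w = ((2 * w.re : ℝ) : ℂ) := by
      rw [add_conj]
    have e2 : (w - starRingEnd ℂ w).re = 0 := by simp
    rw [e1, e2, re_ofReal_mul]
    ring
  rw [h4]
  have h5 : |w.re| ≤ 1 := (abs_re_le_norm w).trans hwn.le
  have h6 := abs_le.1 h5
  have h7 := hp.2.2 _ hm
  refine mul_nonneg ?_ h7.le
  rcases hs with rfl | rfl
  · linarith [h6.1]
  · linarith [h6.2]

private theorem nmG_re {p : ℂ → ℂ} (hp : IsCara p) {c : ℂ} (hc : ‖c‖ = 1)
    (hd : (starRingEnd ℂ c * deriv p 0).re = 0) {s : ℝ} (hs : s = 1 ∨ s = -1) {r : ℝ}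
    (hr0 : 0 < r) (hr1 : r < 1) {z : ℂ} (hz : z ∈ ball (0 : ℂ) 1) : 0 ≤ (nmG p c s r z).re := by
  have h1 : DiffContOnCl ℂ (fun z => cexp (-nmG p c s r z)) (ball 0 1) := by
    apply DifferentiableOn.diffContOnCl
    rw [closure_ball _ one_ne_zero]
    exact (nmG_diff hp.1 c s hr0 hr1).neg.cexp
  have h2 := Complex.norm_le_of_forall_mem_frontier_norm_le isBounded_ball h1 (C := 1) (by
    intro y hy
    rw [frontier_ball _ one_ne_zero, mem_sphere_zero_iff_norm] at hy
    rw [norm_exp, neg_re, Real.exp_le_one_iff]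
    have := nmG_re_bdry hp hc hd hs hr0 hr1 hy
    linarith) (subset_closure hz)
  rw [norm_exp, neg_re, Real.exp_le_one_iff] at h2
  linarith

private theorem nmG_lim {p : ℂ → ℂ} (hp : IsCara p) {c : ℂ} (hc : ‖c‖ = 1)
    (hd : (starRingEnd ℂ c * deriv p 0).re = 0) {s : ℝ} (hs : s = 1 ∨ s = -1)
    {z : ℂ} (hz : z ∈ ball (0 : ℂ) 1) : 0 ≤ (nmG p c s 1 z).re := by
  have hp1 : ContinuousAt p z := (hp.1.differentiableAt (isOpen_ball.mem_nhds hz)).continuousAt
  have hp2 : ContinuousAt (dslope p 0) z :=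
    ((nm_diff hp.1).differentiableAt (isOpen_ball.mem_nhds hz)).continuousAt
  have hl : Tendsto (fun r : ℝ => (r : ℂ) * z) (𝓝 1) (𝓝 z) := by
    have : ContinuousAt (fun r : ℝ => (r : ℂ) * z) 1 := by fun_prop
    simpa [ContinuousAt] using this
  have h1 : Tendsto (fun r : ℝ => p (r * z)) (𝓝 1) (𝓝 (p z)) := hp1.tendsto.comp hl
  have h2 : Tendsto (fun r : ℝ => dslope p 0 (r * z)) (𝓝 1) (𝓝 (dslope p 0 z)) :=
    hp2.tendsto.comp hl
  have hr : Tendsto (fun r : ℝ => (r : ℂ)) (𝓝 1) (𝓝 ((1 : ℝ) : ℂ)) :=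
    (continuous_ofReal.tendsto 1)
  have h3 : Tendsto (fun r : ℝ => nmG p c s r z) (𝓝 1) (𝓝 (nmG p c s 1 z)) := by
    unfold nmG
    have e : ((1 : ℝ) : ℂ) * z = z := by simp
    rw [e]
    refine h1.add (Tendsto.const_mul _ (Tendsto.sub (Tendsto.add ?_ ?_) ?_))
    · exact (Tendsto.const_mul _ hr).mul h2
    · exact Tendsto.const_mul _ (h1.add tendsto_const_nhds)
    · exact (Tendsto.const_mul _ hr).mul tendsto_const_nhds
  have h4 : Tendsto (fun r : ℝ => (nmG p c s r z).re) (𝓝[<] 1) (𝓝 (nmG p c s 1 z).re) :=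
    ((continuous_re.tendsto _).comp h3).mono_left nhdsWithin_le_nhds
  refine ge_of_tendsto h4 ?_
  have h5 : Ioo (0 : ℝ) 1 ∈ 𝓝[<] (1 : ℝ) := Ioo_mem_nhdsLT one_pos
  filter_upwards [h5] with r hr
  exact nmG_re hp hc hd hs hr.1 hr.2 hz

private theorem nmG_cara {p : ℂ → ℂ} (hp : IsCara p) {c : ℂ} (hc : ‖c‖ = 1)
    (hd : (starRingEnd ℂ c * deriv p 0).re = 0) {s : ℝ} (hs : s = 1 ∨ s = -1) :
    IsCara (nmG p c s 1) := by
  apply isCara_of_nonneg
  · intro z hz
    have hl : DifferentiableAt ℂ (fun z : ℂ => ((1 : ℝ) : ℂ) * z) z :=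
      (differentiableAt_const _).mul differentiableAt_id
    have hz' : ((1 : ℝ) : ℂ) * z ∈ ball (0 : ℂ) 1 := by simpa using hz
    have h1 : DifferentiableAt ℂ (fun z : ℂ => p (((1 : ℝ) : ℂ) * z)) z :=
      DifferentiableAt.comp z (hp.1.differentiableAt (isOpen_ball.mem_nhds hz')) hl
    have h2 : DifferentiableAt ℂ (fun z : ℂ => dslope p 0 (((1 : ℝ) : ℂ) * z)) z :=
      DifferentiableAt.comp z ((nm_diff hp.1).differentiableAt (isOpen_ball.mem_nhds hz')) hl
    unfold nmG
    refine DifferentiableAt.differentiableWithinAt ?_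
    refine h1.add ((differentiableAt_const _).mul (((?_ : DifferentiableAt ℂ _ z).add ?_).sub
      (differentiableAt_const _)))
    · exact (differentiableAt_const _).mul h2
    · exact ((differentiableAt_const _).mul differentiableAt_id).mul
        (h1.add (differentiableAt_const _))
  · unfold nmG
    simp [hp.2.1, dslope_same]
  · intro z hz
    exact nmG_lim hp hc hd hs hz

/-- the degenerate case -/
private theorem nm_degenerate {p : ℂ → ℂ} (hp : IsCara p)
    (h : ∀ x : ℂ, ‖x‖ = 1 → ∃ z ∈ ball (0 : ℂ) 1, p z ≠ mob x z) {c : ℂ} (hc : ‖c‖ = 1)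
    (τ : ℝ) (hA : ∀ z ∈ ball (0 : ℂ) 1, ((c * z) ^ 2 + 1) * p z = 1 - (c * z) ^ 2 + I * τ * (c * z)) :
    ∃ (p1 p2 : ℂ → ℂ) (l : ℝ), IsCara p1 ∧ IsCara p2 ∧ 0 < l ∧ l < 1 ∧
      (∀ z ∈ ball (0 : ℂ) 1, p z = l * p1 z + (1 - l) * p2 z) ∧
      ∃ z ∈ ball (0 : ℂ) 1, p1 z ≠ p2 z := by
  set a : ℝ := (2 + τ) / 4 with ha
  have hic : ‖I * c‖ = 1 := by rw [norm_mul, norm_I, hc, one_mul]
  have hic' : ‖-(I * c)‖ = 1 := by rw [norm_neg, hic]
  have hne : ∀ z ∈ ball (0 : ℂ) 1, 1 - I * c * z ≠ 0 ∧ 1 - -(I * c) * z ≠ 0 := by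
    intro z hz
    rw [mem_ball_zero_iff] at hz
    constructor
    · intro h0
      have h1 : I * c * z = 1 := by linear_combination -h0
      have h2 := congrArg norm h1
      rw [norm_mul, hic, one_mul, norm_one] at h2
      linarith
    · intro h0
      have h1 : -(I * c) * z = 1 := by linear_combination -h0
      have h2 := congrArg norm h1
      rw [norm_mul, hic', one_mul, norm_one] at h2
      linarith
  have hform : ∀ z ∈ ball (0 : ℂ) 1,
      p z = a * mob (I * c) z + (1 - a) * mob (-(I * c)) z := by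
    intro z hz
    obtain ⟨h1, h2⟩ := hne z hz
    have h3 : (1 - I * c * z) * (1 - -(I * c) * z) = (c * z) ^ 2 + 1 := by
      ring_nf
      rw [I_sq]
      ring
    have h4 := hA z hz
    have h5 : (c * z) ^ 2 + 1 ≠ 0 := by
      rw [← h3]
      exact mul_ne_zero h1 h2
    apply mul_left_cancel₀ h5
    rw [h4]
    have h6 : ((c * z) ^ 2 + 1) * (a * mob (I * c) z + (1 - a) * mob (-(I * c)) z)
        = a * ((1 + I * c * z) * (1 - -(I * c) * z)) +
          (1 - a) * ((1 + -(I * c) * z) * (1 - I * c * z)) := by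
      rw [← h3]
      unfold mob
      generalize I * c * z = w at h1
      have e : -(I * c) * z = -(I * c * z) := by ring
      generalize -(I * c) * z = v at h2
      generalize (1 : ℂ) + w = w1
      generalize (1 : ℂ) - w = w2 at h1
      generalize (1 : ℂ) + v = v1
      generalize (1 : ℂ) - v = v2 at h2
      field_simp
    rw [h6, ha]
    push_cast
    ring_nf
    rw [I_sq]
    ring
  -- positivity of the coefficients
  have hpos : ∀ (x : ℂ) (b : ℝ), ‖x‖ = 1 →
      (∀ z ∈ ball (0 : ℂ) 1, p z = b * mob x z + (1 - b) * mob (-x) z) → 0 ≤ b := by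
    intro x b hx hb
    by_contra hneg
    push Not at hneg
    set k : ℝ := -b / (1 - b) with hk
    have hk0 : 0 < k := div_pos (by linarith) (by linarith)
    have hk1 : k < 1 := by
      rw [hk, div_lt_one (by linarith)]
      linarith
    have hkb : (1 - b) * k = -b := by
      rw [hk]
      have : (1 : ℝ) - b ≠ 0 := by linarith
      field_simp
    set t : ℝ := 1 - k with ht
    have hxx : x * starRingEnd ℂ x = 1 := by
      rw [mul_conj', hx]
      simp
    have hz : (t : ℂ) * starRingEnd ℂ x ∈ ball (0 : ℂ) 1 := by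
      rw [mem_ball_zero_iff, norm_mul, norm_conj, hx, mul_one, norm_real, Real.norm_eq_abs, abs_lt]
      constructor <;> linarith
    have h1 := hb _ hz
    have h2 : x * ((t : ℂ) * starRingEnd ℂ x) = t := by linear_combination (t : ℂ) * hxx
    have h3 : -x * ((t : ℂ) * starRingEnd ℂ x) = -t := by linear_combination (-(t : ℂ)) * hxx
    unfold mob at h1
    rw [h2, h3] at h1
    have h4 : (p ((t : ℂ) * starRingEnd ℂ x)).re
        = b * ((1 + t) / (1 - t)) + (1 - b) * ((1 + -t) / (1 - -t)) := by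
      rw [h1]
      have : (b : ℂ) * ((1 + t) / (1 - t)) + (1 - b) * ((1 + -t) / (1 - -t))
          = ((b * ((1 + t) / (1 - t)) + (1 - b) * ((1 + -t) / (1 - -t)) : ℝ) : ℂ) := by
        push_cast
        rfl
      rw [this, ofReal_re]
    have h5 := hp.2.2 _ hz
    rw [h4] at h5
    have h6 : (1 : ℝ) - t = k := by rw [ht]; ring
    have h7 : (1 : ℝ) - -t = 2 - k := by rw [ht]; ring
    have h8 : (1 : ℝ) + -t = k := by rw [ht]; ring
    have h9 : (1 : ℝ) + t = 2 - k := by rw [ht]; ring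
    rw [h6, h7, h8, h9] at h5
    have h10 : 0 < (b * ((2 - k) / k) + (1 - b) * (k / (2 - k))) * (k * (2 - k)) :=
      mul_pos h5 (mul_pos hk0 (by linarith))
    have h11 : (b * ((2 - k) / k) + (1 - b) * (k / (2 - k))) * (k * (2 - k))
        = b * (2 - k) ^ 2 + (1 - b) * k ^ 2 := by
      have : (2 : ℝ) - k ≠ 0 := by linarith
      field_simp
    rw [h11] at h10
    nlinarith
  have ha0 : 0 ≤ a := hpos (I * c) a hic hform
  have ha1 : 0 ≤ 1 - a := by
    apply hpos (-(I * c)) (1 - a) hic'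
    intro z hz
    rw [hform z hz, neg_neg]
    push_cast
    ring
  rcases ha0.eq_or_lt with h0 | h0
  · exfalso
    obtain ⟨z, hz, hne'⟩ := h _ hic'
    apply hne'
    rw [hform z hz, ← h0]
    push_cast
    ring
  rcases ha1.eq_or_lt with h1 | h1
  · exfalso
    obtain ⟨z, hz, hne'⟩ := h _ hic
    apply hne'
    have h1' : a = 1 := by linarith
    rw [hform z hz, h1']
    push_cast
    ring
  refine ⟨mob (I * c), mob (-(I * c)), a, isCara_mob hic, isCara_mob hic', h0, by linarith, hform, ?_⟩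
  have hcc : c * starRingEnd ℂ c = 1 := by
    rw [mul_conj', hc]
    simp
  refine ⟨(1 / 2 : ℝ) * starRingEnd ℂ c, ?_, ?_⟩
  · rw [mem_ball_zero_iff, norm_mul, norm_conj, hc, mul_one, norm_real]
    norm_num
  · unfold mob
    have e1 : I * c * ((1 / 2 : ℝ) * starRingEnd ℂ c) = I / 2 := by
      push_cast
      linear_combination (I / 2) * hcc
    have e2 : -(I * c) * ((1 / 2 : ℝ) * starRingEnd ℂ c) = -(I / 2) := by
      push_cast
      linear_combination (-(I / 2)) * hcc
    rw [e1, e2]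
    intro heq
    have n1 : (1 : ℂ) - I / 2 ≠ 0 := by
      intro h0
      have := congrArg re h0
      simp at this
    have n2 : (1 : ℂ) - -(I / 2) ≠ 0 := by
      intro h0
      have := congrArg re h0
      simp at this
    rw [div_eq_div_iff n1 n2] at heq
    have := congrArg im heq
    ring_nf at this
    simp at this
    norm_num at this

theorem nonmob {p : ℂ → ℂ} (hp : IsCara p)
    (h : ∀ x : ℂ, ‖x‖ = 1 → ∃ z ∈ ball (0 : ℂ) 1, p z ≠ mob x z) :
    ∃ (p1 p2 : ℂ → ℂ) (l : ℝ), IsCara p1 ∧ IsCara p2 ∧ 0 < l ∧ l < 1 ∧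
      (∀ z ∈ ball (0 : ℂ) 1, p z = l * p1 z + (1 - l) * p2 z) ∧
      ∃ z ∈ ball (0 : ℂ) 1, p1 z ≠ p2 z := by
  obtain ⟨c, hc, hd⟩ := nm_exists_c (deriv p 0)
  by_cases hA : ∃ z ∈ ball (0 : ℂ) 1, nmG p c 1 1 z ≠ nmG p c (-1) 1 z
  · refine ⟨nmG p c 1 1, nmG p c (-1) 1, 1 / 2, nmG_cara hp hc hd (Or.inl rfl),
      nmG_cara hp hc hd (Or.inr rfl), by norm_num, by norm_num, ?_, hA⟩
    intro z hz
    unfold nmG
    push_cast
    ring_nf
  · push Not at hA
    have hcc : c * starRingEnd ℂ c = 1 := by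
      rw [mul_conj', hc]
      simp
    refine nm_degenerate hp h hc (starRingEnd ℂ c * deriv p 0).im ?_
    intro z hz
    have h1 := hA z hz
    have h2 : (starRingEnd ℂ c * deriv p 0) = I * ((starRingEnd ℂ c * deriv p 0).im : ℂ) := by
      apply Complex.ext
      · rw [hd]; simp
      · simp
    rw [← h2]
    unfold nmG at h1
    push_cast at h1
    simp only [one_mul, mul_one] at h1
    have h3 : starRingEnd ℂ c * dslope p 0 z + c * z * (p z + 1) - starRingEnd ℂ c * deriv p 0 = 0 := by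
      linear_combination h1
    have h4 : z * dslope p 0 z = p z - 1 := by
      by_cases hz0 : z = 0
      · rw [hz0, hp.2.1]; ring
      · rw [dslope_of_ne _ hz0, slope_def_field, hp.2.1, sub_zero]
        field_simp
    linear_combination (c * z) * h3 - (p z - 1) * hcc - (c * starRingEnd ℂ c) * h4

end Baz16
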