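import Pool.Agent.Baz16.Bridge
import Pool.Agent.Baz16.Explicit
import Pool.Agent.Baz16.Diffuse
import Pool.Agent.Baz16.Atoms
import Pool.Agent.Baz16.NonMob

/-! # Assembly. -/

namespace Baz16
open Complex Metric MeasureTheory Set Filter Topology
open scoped ComplexConjugate

private theorem fin_meas_log (z : ℂ) : Measurable (fun t : ℝ => Complex.log (1 - yy t * z)) := by
  have h : Measurable (fun t : ℝ => 1 - yy t * z) :=
    (continuous_const.sub (continuous_yy.mul continuous_const)).measurable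
  exact Complex.measurable_log.comp h

private theorem fin_Sm_map (ν : Measure ℝ) {φ χ : ℝ → ℝ} (hφ : Measurable φ) (hχ : Measurable χ)
    (h : ∀ t, yy (φ t) = yy (χ t)) (z : ℂ) : Sm (ν.map φ) z = Sm (ν.map χ) z := by
  unfold Sm Lm
  rw [integral_map hφ.aemeasurable (fin_meas_log z).aestronglyMeasurable,
    integral_map hχ.aemeasurable (fin_meas_log z).aestronglyMeasurable]
  simp_rw [h]

private theorem fin_yy_sub (t : ℝ) : yy (t - 2 * Real.pi) = yy t := by
  rw [yy_eq_iff]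
  exact ⟨-1, by push_cast; ring⟩

private theorem fin_yy_neg_mul (a : ℝ) : yy (-a) * yy a = 1 := by
  rw [← yy_add, neg_add_cancel, yy_zero]

private theorem fin_ball_yy {z : ℂ} (hz : z ∈ ball (0 : ℂ) 1) (a : ℝ) :
    yy a * z ∈ ball (0 : ℂ) 1 := by
  have := norm_yy_mul_lt hz a
  simpa using this

/-- two atoms, ordered, the first one may be `0` -/
private theorem split_atoms_ord (ν : Measure ℝ) [IsProbabilityMeasure ν] (hν : Supp ν) {t2 t1 : ℝ}
    (h2 : 0 ≤ t2) (h21 : t2 < t1) (h1 : t1 < 2 * Real.pi)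
    (hp2 : 0 < ν {t2}) (hp1 : 0 < ν {t1}) :
    ∃ ν1 ν2 : Measure ℝ, IsProbabilityMeasure ν1 ∧ IsProbabilityMeasure ν2 ∧
      (∀ z ∈ ball (0 : ℂ) 1, Sm ν z = (1 / 2) * Sm ν1 z + (1 / 2) * Sm ν2 z) ∧
      ∃ z ∈ ball (0 : ℂ) 1, Sm ν1 z ≠ Sm ν2 z := by
  have hpi := Real.pi_pos
  set a : ℝ := (2 * Real.pi - t1) / 2 with ha
  have ha0 : 0 < a := by rw [ha]; linarith
  have ha2 : a < 2 * Real.pi := by rw [ha]; linarith
  let φ : ℝ → ℝ := fun t => if t + a < 2 * Real.pi then t + a else t + a - 2 * Real.pi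
  have hφ : Measurable φ := by
    refine Measurable.ite ?_ (by fun_prop) (by fun_prop)
    exact measurableSet_lt (by fun_prop) (by fun_prop)
  have hφy : ∀ t, yy (φ t) = yy (t + a) := by
    intro t
    simp only [φ]
    split_ifs with h
    · rfl
    · exact fin_yy_sub _
  have : IsProbabilityMeasure (ν.map φ) := Measure.isProbabilityMeasure_map hφ.aemeasurable
  have hsupp : Supp (ν.map φ) := by
    unfold Supp
    rw [Measure.map_apply hφ measurableSet_Ico.compl]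
    refine measure_mono_null ?_ hν
    intro t ht
    by_contra hc
    rw [mem_compl_iff, not_not] at hc
    apply ht
    simp only [φ]
    obtain ⟨hc1, hc2⟩ := hc
    split_ifs with h
    · exact ⟨by linarith, h⟩
    · exact ⟨by linarith, by linarith⟩
  have hatom : ∀ s : ℝ, s + a < 2 * Real.pi → 0 < ν {s} → 0 < (ν.map φ) {s + a} := by
    intro s hs h
    rw [Measure.map_apply hφ (measurableSet_singleton _)]
    refine lt_of_lt_of_le h (measure_mono ?_)
    intro t ht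
    rw [mem_singleton_iff] at ht
    subst ht
    simp [φ, hs]
  have hSm : ∀ z, Sm (ν.map φ) z = Sm ν (yy a * z) := by
    intro z
    rw [fin_Sm_map ν hφ (by fun_prop : Measurable (fun t : ℝ => t + a)) hφy z, Sm_rot]
  obtain ⟨ν1, ν2, hP1, hP2, hsplit, z0, hz0, hne⟩ := split_atoms_aux (ν.map φ) hsupp
    (t2 := t2 + a) (t1 := t1 + a) (by linarith) (by linarith) (by rw [ha]; linarith)
    (hatom t2 (by rw [ha]; linarith) hp2) (hatom t1 (by rw [ha]; linarith) hp1)
  refine ⟨ν1.map (fun t => t + -a), ν2.map (fun t => t + -a),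
    Measure.isProbabilityMeasure_map (by fun_prop), Measure.isProbabilityMeasure_map (by fun_prop),
    ?_, ?_⟩
  · intro z hz
    rw [Sm_rot, Sm_rot]
    have h := hsplit (yy (-a) * z) (fin_ball_yy hz _)
    rw [hSm] at h
    rw [← h, ← mul_assoc, mul_comm (yy a), fin_yy_neg_mul, one_mul]
  · refine ⟨yy a * z0, fin_ball_yy hz0 _, ?_⟩
    rw [Sm_rot, Sm_rot, ← mul_assoc, fin_yy_neg_mul, one_mul]
    exact hne

/-- two atoms anywhere -/
theorem split_atoms (ν : Measure ℝ) [IsProbabilityMeasure ν] (hν : Supp ν) {t2 t1 : ℝ}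
    (h2 : t2 ∈ Ico 0 (2 * Real.pi)) (h1 : t1 ∈ Ico 0 (2 * Real.pi)) (hne : t2 ≠ t1)
    (hp2 : 0 < ν {t2}) (hp1 : 0 < ν {t1}) :
    ∃ ν1 ν2 : Measure ℝ, IsProbabilityMeasure ν1 ∧ IsProbabilityMeasure ν2 ∧
      (∀ z ∈ ball (0 : ℂ) 1, Sm ν z = (1 / 2) * Sm ν1 z + (1 / 2) * Sm ν2 z) ∧
      ∃ z ∈ ball (0 : ℂ) 1, Sm ν1 z ≠ Sm ν2 z := by
  rcases lt_or_gt_of_ne hne with h | h
  · exact split_atoms_ord ν hν h2.1 h h1.2 hp2 hp1
  · exact split_atoms_ord ν hν h1.1 h h2.2 hp1 hp2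

private theorem arc_aux (ν : Measure ℝ) {c d a : ℝ} (ha : ∀ t, t ≠ a → ν {t} = 0)
    (h : 0 < ν (Ioo c d)) (hna : a ∉ Ioo c d) :
    ∃ κ1 κ2 : ℝ, c < κ1 ∧ κ1 < κ2 ∧ κ2 < d ∧ 0 < ν (Icc κ1 κ2) ∧
      ∀ t ∈ Icc κ1 κ2, ν {t} = 0 := by
  have hU : Ioo c d ⊆ ⋃ n : ℕ, Icc (c + 1 / ((n : ℝ) + 1)) (d - 1 / ((n : ℝ) + 1)) := by
    intro t ht
    obtain ⟨h1, h2⟩ := ht
    obtain ⟨n, hn⟩ := exists_nat_one_div_lt (lt_min (sub_pos.mpr h1) (sub_pos.mpr h2))
    rw [lt_min_iff] at hn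
    rw [mem_iUnion]
    exact ⟨n, by linarith [hn.1], by linarith [hn.2]⟩
  have : ∃ n : ℕ, 0 < ν (Icc (c + 1 / ((n : ℝ) + 1)) (d - 1 / ((n : ℝ) + 1))) := by
    by_contra hcon
    push Not at hcon
    have h0 : ν (⋃ n : ℕ, Icc (c + 1 / ((n : ℝ) + 1)) (d - 1 / ((n : ℝ) + 1))) = 0 := by
      rw [measure_iUnion_null_iff]
      intro n
      exact le_antisymm (hcon n) zero_le
    exact absurd (measure_mono_null hU h0) (ne_of_gt h)
  obtain ⟨n, hn⟩ := this
  have hpos : (0 : ℝ) < 1 / ((n : ℝ) + 1) := by positivity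
  have hat : ∀ t ∈ Icc (c + 1 / ((n : ℝ) + 1)) (d - 1 / ((n : ℝ) + 1)), ν {t} = 0 := by
    intro t ht
    apply ha
    rintro rfl
    exact hna ⟨by linarith [ht.1], by linarith [ht.2]⟩
  refine ⟨_, _, by linarith, ?_, by linarith, hn, hat⟩
  by_contra hcon
  push Not at hcon
  rcases hcon.lt_or_eq with hlt | heq
  · rw [Icc_eq_empty (not_le.mpr hlt), measure_empty] at hn
    exact lt_irrefl _ hn
  · have hm := hat _ (left_mem_Icc.mpr heq.ge)
    rw [heq, Icc_self, hm] at hn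
    exact lt_irrefl _ hn

/-- a probability measure on `[0,2pi)` with at most one atom is a point mass or charges a closed
arc without atoms inside `(0, pi)` or inside `(pi, 2 pi)`. -/
theorem arc_or_dirac (ν : Measure ℝ) [IsProbabilityMeasure ν] (hν : Supp ν)
    (h : ∀ s t : ℝ, 0 < ν {s} → 0 < ν {t} → s = t) :
    (∃ a ∈ Ico 0 (2 * Real.pi), ν = Measure.dirac a) ∨
      (∃ κ1 κ2 : ℝ, 0 < κ1 ∧ κ1 < κ2 ∧ κ2 < Real.pi ∧ 0 < ν (Icc κ1 κ2) ∧
        ∀ t ∈ Icc κ1 κ2, ν {t} = 0) ∨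
      (∃ κ1 κ2 : ℝ, Real.pi < κ1 ∧ κ1 < κ2 ∧ κ2 < 2 * Real.pi ∧ 0 < ν (Icc κ1 κ2) ∧
        ∀ t ∈ Icc κ1 κ2, ν {t} = 0) := by
  have hpi := Real.pi_pos
  obtain ⟨a, ha⟩ : ∃ a : ℝ, ∀ t, t ≠ a → ν {t} = 0 := by
    by_cases hex : ∃ a, 0 < ν {a}
    · obtain ⟨a, ha⟩ := hex
      refine ⟨a, fun t ht => ?_⟩
      by_contra hc
      exact ht (h t a (pos_iff_ne_zero.mpr hc) ha)
    · push Not at hex
      exact ⟨0, fun t _ => le_antisymm (hex t) zero_le⟩
  by_cases hd : ν {a}ᶜ = 0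
  · left
    have hone : ν {a} = 1 := by
      have := prob_compl_eq_zero_iff (μ := ν) (measurableSet_singleton a)
      exact this.mp hd
    have haI : a ∈ Ico 0 (2 * Real.pi) := by
      by_contra hc
      have : ν {a} ≤ ν (Ico 0 (2 * Real.pi))ᶜ := measure_mono (singleton_subset_iff.mpr hc)
      rw [hν, hone] at this
      simp at this
    refine ⟨a, haI, ?_⟩
    ext s hs
    rw [Measure.dirac_apply' _ hs]
    by_cases has : a ∈ s
    · rw [indicator_of_mem has]
      apply le_antisymm prob_le_one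
      calc (1 : ENNReal) = ν {a} := hone.symm
        _ ≤ ν s := measure_mono (singleton_subset_iff.mpr has)
    · rw [indicator_of_notMem has]
      exact measure_mono_null (subset_compl_singleton_iff.mpr has) hd
  · right
    -- decomposition
    have hcover : ({a}ᶜ : Set ℝ) ⊆ (Ico 0 (2 * Real.pi))ᶜ ∪ (({0} \ {a}) ∪ (({Real.pi} \ {a}) ∪
        (Ioo 0 (min Real.pi a) ∪ (Ioo (max 0 a) Real.pi ∪ (Ioo Real.pi (min (2 * Real.pi) a) ∪
          Ioo (max Real.pi a) (2 * Real.pi)))))) := by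
      intro t ht
      rw [mem_compl_iff, mem_singleton_iff] at ht
      by_cases h1 : t ∈ Ico 0 (2 * Real.pi)
      swap
      · exact Or.inl h1
      right
      obtain ⟨h1, h2⟩ := h1
      by_cases h3 : t = 0
      · left; exact ⟨h3, ht⟩
      right
      by_cases h4 : t = Real.pi
      · left; exact ⟨h4, ht⟩
      right
      have h5 : 0 < t := lt_of_le_of_ne h1 (Ne.symm h3)
      rcases lt_or_gt_of_ne h4 with h6 | h6
      · rcases lt_or_gt_of_ne ht with h7 | h7
        · left; exact ⟨h5, lt_min h6 h7⟩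
        · right; left; exact ⟨max_lt h5 h7, h6⟩
      · rcases lt_or_gt_of_ne ht with h7 | h7
        · right; right; left; exact ⟨h6, lt_min h2 h7⟩
        · right; right; right; exact ⟨max_lt h6 h7, h2⟩
    have hsing : ∀ b : ℝ, ν ({b} \ {a}) = 0 := by
      intro b
      by_cases hb : b = a
      · subst hb; simp
      · exact measure_mono_null sdiff_subset (ha b hb)
    by_cases hA : ν (Ioo 0 (min Real.pi a)) = 0
    · by_cases hB : ν (Ioo (max 0 a) Real.pi) = 0
      · by_cases hC : ν (Ioo Real.pi (min (2 * Real.pi) a)) = 0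
        · by_cases hD : ν (Ioo (max Real.pi a) (2 * Real.pi)) = 0
          · exfalso
            apply hd
            refine measure_mono_null hcover ?_
            rw [measure_union_null_iff, measure_union_null_iff, measure_union_null_iff,
              measure_union_null_iff, measure_union_null_iff, measure_union_null_iff]
            exact ⟨hν, hsing _, hsing _, hA, hB, hC, hD⟩
          · right
            obtain ⟨κ1, κ2, h1, h2, h3, h4, h5⟩ := arc_aux ν ha (pos_iff_ne_zero.mpr hD)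
              (fun hc => lt_irrefl a (lt_of_le_of_lt (le_max_right _ _) hc.1))
            exact ⟨κ1, κ2, lt_of_le_of_lt (le_max_left _ _) h1, h2, h3, h4, h5⟩
        · right
          obtain ⟨κ1, κ2, h1, h2, h3, h4, h5⟩ := arc_aux ν ha (pos_iff_ne_zero.mpr hC)
            (fun hc => lt_irrefl a (lt_of_lt_of_le hc.2 (min_le_right _ _)))
          exact ⟨κ1, κ2, h1, h2, lt_of_lt_of_le h3 (min_le_left _ _), h4, h5⟩
      · left
        obtain ⟨κ1, κ2, h1, h2, h3, h4, h5⟩ := arc_aux ν ha (pos_iff_ne_zero.mpr hB)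
          (fun hc => lt_irrefl a (lt_of_le_of_lt (le_max_right _ _) hc.1))
        exact ⟨κ1, κ2, lt_of_le_of_lt (le_max_left _ _) h1, h2, h3, h4, h5⟩
    · left
      obtain ⟨κ1, κ2, h1, h2, h3, h4, h5⟩ := arc_aux ν ha (pos_iff_ne_zero.mpr hA)
        (fun hc => lt_irrefl a (lt_of_lt_of_le hc.2 (min_le_right _ _)))
      exact ⟨κ1, κ2, h1, h2, lt_of_lt_of_le h3 (min_le_left _ _), h4, h5⟩

private theorem fin_mob_ne_zero {x z : ℂ} (hx : ‖x‖ = 1) (hz : z ∈ ball (0 : ℂ) 1) :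
    mob x z ≠ 0 := by
  have hz' : ‖x * z‖ < 1 := by
    rw [norm_mul, hx, one_mul]; simpa using hz
  unfold mob
  apply div_ne_zero
  · intro h
    have h1 : x * z = -1 := by linear_combination h
    rw [h1] at hz'
    simp at hz'
  · intro h
    have h1 : x * z = 1 := by linear_combination -h
    rw [h1] at hz'
    simp at hz'

private theorem fin_cara_ne_zero {p : ℂ → ℂ} (hp : IsCara p) {z : ℂ} (hz : z ∈ ball (0 : ℂ) 1) :
    p z ≠ 0 := by
  intro h
  have := hp.2.2 z hz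
  rw [h] at this
  simp at this

/-- the reflected measure -/
private theorem reflect_measure (ν : Measure ℝ) [IsProbabilityMeasure ν] (hν : Supp ν)
    {κ1 κ2 : ℝ} (h1 : Real.pi < κ1) (h12 : κ1 < κ2) (h2 : κ2 < 2 * Real.pi)
    (hpos : 0 < ν (Icc κ1 κ2)) (hat : ∀ t ∈ Icc κ1 κ2, ν {t} = 0) :
    ∃ ν' : Measure ℝ, IsProbabilityMeasure ν' ∧ Supp ν' ∧
      (∀ z ∈ ball (0 : ℂ) 1, Sm ν' z = conj (Sm ν (conj z))) ∧
      0 < ν' (Icc (2 * Real.pi - κ2) (2 * Real.pi - κ1)) ∧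
      ∀ t ∈ Icc (2 * Real.pi - κ2) (2 * Real.pi - κ1), ν' {t} = 0 := by
  have hpi := Real.pi_pos
  let φ : ℝ → ℝ := fun t => if t = 0 then 0 else 2 * Real.pi - t
  have hφ : Measurable φ := by
    refine Measurable.ite ?_ (by fun_prop) (by fun_prop)
    exact measurableSet_singleton (0 : ℝ)
  have hφy : ∀ t, yy (φ t) = yy (-t) := by
    intro t
    simp only [φ]
    split_ifs with h
    · rw [h, neg_zero]
    · rw [yy_eq_iff]
      exact ⟨1, by push_cast; ring⟩
  have : IsProbabilityMeasure (ν.map φ) := Measure.isProbabilityMeasure_map hφ.aemeasurable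
  refine ⟨ν.map φ, inferInstance, ?_, ?_, ?_, ?_⟩
  · unfold Supp
    rw [Measure.map_apply hφ measurableSet_Ico.compl]
    refine measure_mono_null ?_ hν
    intro t ht
    by_contra hc
    rw [mem_compl_iff, not_not] at hc
    apply ht
    simp only [φ]
    obtain ⟨hc1, hc2⟩ := hc
    split_ifs with h
    · exact ⟨le_refl _, by linarith⟩
    · have : 0 < t := lt_of_le_of_ne hc1 (Ne.symm h)
      exact ⟨by linarith, by linarith⟩
  · intro z hz
    rw [fin_Sm_map ν hφ (by fun_prop : Measurable (fun t : ℝ => -t)) hφy z, Sm_conj ν hz]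
  · rw [Measure.map_apply hφ measurableSet_Icc]
    refine lt_of_lt_of_le hpos (measure_mono ?_)
    intro t ht
    have ht0 : t ≠ 0 := by
      intro h; linarith [ht.1]
    simp only [mem_preimage, φ, if_neg ht0]
    exact ⟨by linarith [ht.2], by linarith [ht.1]⟩
  · intro t ht
    rw [Measure.map_apply hφ (measurableSet_singleton _)]
    refine measure_mono_null ?_ (hat (2 * Real.pi - t) ⟨by linarith [ht.2], by linarith [ht.1]⟩)
    intro s hs
    rw [mem_preimage, mem_singleton_iff] at hs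
    simp only [φ] at hs
    split_ifs at hs with h
    · linarith [ht.1]
    · rw [mem_singleton_iff]; linarith

/-- the first step: the Caratheodory factor is a Moebius function -/
private theorem extD_mob {F p : ℂ → ℂ} {ν : Measure ℝ} (hF : ExtD F) (hp : IsCara p)
    (hν : IsProbabilityMeasure ν) (hFp : ∀ z ∈ ball (0 : ℂ) 1, F z = p z * Sm ν z) :
    ∃ x : ℂ, ‖x‖ = 1 ∧ ∀ z ∈ ball (0 : ℂ) 1, p z = mob x z := by
  by_contra hcon
  push Not at hcon
  obtain ⟨p1, p2, l, hp1, hp2, h0, h1, hl, z, hz, hne⟩ := nonmob hp hcon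
  apply hne
  have h := hF.2 (fun z => p1 z * Sm ν z) (fun z => p2 z * Sm ν z)
    ⟨p1, ν, hp1, hν, fun z _ => rfl⟩ ⟨p2, ν, hp2, hν, fun z _ => rfl⟩ l h0 h1
    (fun z hz => by rw [hFp z hz, hl z hz]; ring) z hz
  exact mul_right_cancel₀ (Sm_ne_zero ν z) h

private theorem fin_cara_mob {x : ℂ} (hx : ‖x‖ = 1) : IsCara (mob x) := by
  have hb : ∀ z ∈ ball (0 : ℂ) 1, ‖x * z‖ < 1 := by
    intro z hz
    rw [norm_mul, hx, one_mul]; simpa using hz
  have hne : ∀ z ∈ ball (0 : ℂ) 1, 1 - x * z ≠ 0 := by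
    intro z hz h
    have h1 : x * z = 1 := by linear_combination -h
    have := hb z hz
    rw [h1] at this
    simp at this
  refine ⟨?_, by simp [mob], ?_⟩
  · intro z hz
    unfold mob
    refine DifferentiableAt.differentiableWithinAt ?_
    exact DifferentiableAt.div (by fun_prop) (by fun_prop) (hne z hz)
  · intro z hz
    have hz' := hb z hz
    have hn : 0 < Complex.normSq (1 - x * z) := Complex.normSq_pos.mpr (hne z hz)
    have h2 : (mob x z).re = (1 - Complex.normSq (x * z)) / Complex.normSq (1 - x * z) := by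
      unfold mob
      rw [Complex.div_re]
      simp only [Complex.normSq_apply, Complex.add_re, Complex.one_re, Complex.sub_re,
        Complex.add_im, Complex.one_im, Complex.sub_im]
      field_simp
      ring
    rw [h2]
    apply div_pos _ hn
    rw [Complex.normSq_eq_norm_sq]
    nlinarith [norm_nonneg (x * z)]

theorem extD_imp {F : ℂ → ℂ} (hF : ExtD F) :
    ∃ x y : ℂ, ‖x‖ = 1 ∧ ‖y‖ = 1 ∧ 0 ≤ (x * conj y).re ∧
      ∀ z ∈ ball (0 : ℂ) 1, F z = Fxy x y z := by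
  obtain ⟨p, ν, hp, hν, hFp⟩ := hF.1
  obtain ⟨x, hx, hpx⟩ := extD_mob hF hp hν hFp
  -- it suffices to find `y`
  suffices hsuff : ∃ y : ℂ, ‖y‖ = 1 ∧ ∀ z ∈ ball (0 : ℂ) 1, F z = Fxy x y z by
    obtain ⟨y, hy, hFy⟩ := hsuff
    refine ⟨x, y, hx, hy, ?_, hFy⟩
    by_contra hcon
    push Not at hcon
    exact not_ext_Fxy hx hy hcon (ExtD_congr hFy hF)
  have hcx : ‖conj x‖ = 1 := by rw [Complex.norm_conj]; exact hx
  have hxcx : x * conj x = 1 := by
    rw [Complex.mul_conj, Complex.normSq_eq_norm_sq, hx]; norm_num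
  obtain ⟨b, -, hb⟩ := exists_yy hcx
  have := hν
  have : IsProbabilityMeasure (ν.map (fun t => t + b)) :=
    Measure.isProbabilityMeasure_map (by fun_prop)
  obtain ⟨ν', hν', hsupp, hSm⟩ := exists_normal (ν.map (fun t => t + b))
  have := hν'
  have hF' : ExtD (fun z => F (conj x * z)) := ExtD_rot hF hcx
  have hbx : ∀ c : ℂ, ‖c‖ = 1 → ∀ z ∈ ball (0 : ℂ) 1, c * z ∈ ball (0 : ℂ) 1 := by
    intro c hc z hz
    rw [mem_ball_zero_iff] at hz ⊢
    rwa [norm_mul, hc, one_mul]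
  have hFz : ∀ z ∈ ball (0 : ℂ) 1, F (conj x * z) = mob 1 z * Sm ν' z := by
    intro z hz
    have hz' := hbx _ hcx z hz
    rw [hFp _ hz', hpx _ hz', hSm, Sm_rot, hb]
    congr 1
    unfold mob
    rw [← mul_assoc, hxcx]
  have hF1 : ExtD (fun z => mob 1 z * Sm ν' z) := ExtD_congr hFz hF'
  have hone : ‖(1 : ℂ)‖ = 1 := norm_one
  have hcara := fin_cara_mob hone
  -- at most one atom
  have hatom : ∀ s t : ℝ, 0 < ν' {s} → 0 < ν' {t} → s = t := by
    intro s t hs ht
    by_contra hne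
    have hmem : ∀ r : ℝ, 0 < ν' {r} → r ∈ Ico 0 (2 * Real.pi) := by
      intro r hr
      by_contra hc
      have : ν' {r} ≤ ν' (Ico 0 (2 * Real.pi))ᶜ := measure_mono (singleton_subset_iff.mpr hc)
      rw [hsupp] at this
      exact absurd hr (not_lt.mpr this)
    obtain ⟨ν1, ν2, hP1, hP2, hsplit, z, hz, hnez⟩ :=
      split_atoms ν' hsupp (hmem s hs) (hmem t ht) hne hs ht
    apply hnez
    have h := hF1.2 (fun z => mob 1 z * Sm ν1 z) (fun z => mob 1 z * Sm ν2 z)
      ⟨mob 1, ν1, hcara, hP1, fun z _ => rfl⟩ ⟨mob 1, ν2, hcara, hP2, fun z _ => rfl⟩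
      (1 / 2) (by norm_num) (by norm_num)
      (fun z hz => by
        show mob 1 z * Sm ν' z = _
        rw [hsplit z hz]; push_cast; ring) z hz
    exact mul_left_cancel₀ (fin_mob_ne_zero hone hz) h
  rcases arc_or_dirac ν' hsupp hatom with ⟨a, -, hda⟩ | ⟨κ1, κ2, h0, h12, hπ, hpos, hat⟩ |
    ⟨κ1, κ2, hπ, h12, h2, hpos, hat⟩
  · -- a point mass
    refine ⟨yy a * x, by rw [norm_mul, norm_yy, hx, one_mul], ?_⟩
    intro z hz
    have hz' := hbx _ hx z hz
    have h := hFz _ hz'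
    rw [← mul_assoc, mul_comm (conj x), hxcx, one_mul, hda, Sm_dirac a hz'] at h
    rw [h, Fxy_eq]
    unfold mob
    rw [one_mul, mul_assoc (yy a)]
  · -- an arc in the upper half
    exfalso
    obtain ⟨l, G, H, hl0, hl1, hG, hH, hsp, z, hz, hne⟩ :=
      split_diffuse ν' hsupp h0 h12 hπ hpos hat
    exact hne (hF1.2 G H hG hH l hl0 hl1 hsp z hz)
  · -- an arc in the lower half
    exfalso
    obtain ⟨ν'', hν'', hsupp'', hSm'', hpos'', hat''⟩ :=
      reflect_measure ν' hsupp hπ h12 h2 hpos hat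
    have := hν''
    have hpi := Real.pi_pos
    obtain ⟨l, G, H, hl0, hl1, hG, hH, hsp, z, hz, hne⟩ :=
      split_diffuse ν'' hsupp'' (by linarith) (by linarith) (by linarith) hpos'' hat''
    have hF2 : ExtD (fun z => mob 1 z * Sm ν'' z) := by
      refine ExtD_congr ?_ (ExtD_conj hF1)
      intro z hz
      rw [hSm'' z hz]
      simp only [mob, map_mul, map_div₀, map_add, map_sub, map_one, Complex.conj_conj]
    exact hne (hF2.2 G H hG hH l hl0 hl1 hsp z hz)

theorem extD_iff (F : ℂ → ℂ) :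
    ExtD F ↔ ∃ x y : ℂ, ‖x‖ = 1 ∧ ‖y‖ = 1 ∧ 0 ≤ (x * conj y).re ∧
      ∀ z ∈ ball (0 : ℂ) 1, F z = Fxy x y z := by
  constructor
  · exact extD_imp
  · rintro ⟨x, y, hx, hy, h, hF⟩
    exact ExtD_congr (fun z hz => (hF z hz).symm) (ext_Fxy hx hy h)

/-- Extreme points of `B(1)`. -/
theorem main (f : ℂ → ℂ) :
    IsExtremeB1 f ↔ DifferentiableOn ℂ f (ball 0 1) ∧ f 0 = 0 ∧
      ∃ x y : ℂ, ‖x‖ = 1 ∧ ‖y‖ = 1 ∧ 0 ≤ (x * conj y).re ∧
        ∀ z ∈ ball (0 : ℂ) 1, deriv f z = (1 + x * z) / ((1 - x * z) * (1 - y * z) ^ 2) := by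
  rw [extB1_iff, extD_iff]
  rfl

end Baz16
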