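import Pool.Agent.Baz16.Defs

/-! # Maximum principle for bounded harmonic functions with radial limits almost everywhere.

Proof: fix `z` in the disc.  For `0 < R < 1` the function `w ↦ ℓ (R w)` is analytic on a
neighbourhood of the closed unit disc, so by Mathlib's Poisson formula
(`DiffContOnCl.circleAverage_re_herglotzRieszKernel_smul` / `HarmonicContOnCl...poissonKernel`,
`Mathlib/Analysis/Complex/Poisson.lean`, `Mathlib/Analysis/Complex/Harmonic/Poisson.lean`)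
`Im ℓ (R z) = average over theta of P(z, e^{i theta}) * Im ℓ (R e^{i theta})`; the kernel is
nonnegative with average `1`.  Let `R = 1 - 1/n → 1` and use dominated convergence
(`|P * Im ℓ| ≤ const * M`).
-/

namespace Baz16
open Complex Metric MeasureTheory Set Filter Topology

/-- the Poisson kernel -/
private noncomputable def KK (z : ℂ) (θ : ℝ) : ℝ := (1 - ‖z‖ ^ 2) / ‖cexp (θ * I) - z‖ ^ 2

private lemma z_lt {z : ℂ} (hz : z ∈ ball (0 : ℂ) 1) : ‖z‖ < 1 := by simpa using hz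

private lemma den_ge (z : ℂ) (θ : ℝ) : 1 - ‖z‖ ≤ ‖cexp (θ * I) - z‖ := by
  have h1 : ‖cexp (θ * I)‖ = 1 := Complex.norm_exp_ofReal_mul_I θ
  have h2 := norm_sub_norm_le (cexp (θ * I)) z
  rw [h1] at h2
  exact h2

private lemma num_nonneg {z : ℂ} (hz : z ∈ ball (0 : ℂ) 1) : 0 ≤ 1 - ‖z‖ ^ 2 := by
  have := z_lt hz
  nlinarith [norm_nonneg z]

private lemma KK_nonneg {z : ℂ} (hz : z ∈ ball (0 : ℂ) 1) (θ : ℝ) : 0 ≤ KK z θ :=
  div_nonneg (num_nonneg hz) (sq_nonneg _)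

private lemma KK_le {z : ℂ} (hz : z ∈ ball (0 : ℂ) 1) (θ : ℝ) :
    KK z θ ≤ (1 - ‖z‖ ^ 2) / (1 - ‖z‖) ^ 2 := by
  have h1 : 0 < 1 - ‖z‖ := by linarith [z_lt hz]
  exact div_le_div_of_nonneg_left (num_nonneg hz) (by positivity)
    (pow_le_pow_left₀ h1.le (den_ge z θ) 2)

private lemma KK_cont {z : ℂ} (hz : z ∈ ball (0 : ℂ) 1) : Continuous (KK z) := by
  unfold KK
  refine Continuous.div (by fun_prop) (by fun_prop) fun θ => ?_
  have h1 : 0 < 1 - ‖z‖ := by linarith [z_lt hz]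
  have h2 := den_ge z θ
  have h3 : 0 < ‖cexp (θ * I) - z‖ := h1.trans_le h2
  positivity

private lemma pt_cont (R : ℝ) : Continuous (pt R) := by
  unfold pt
  fun_prop

private lemma pt_mem {R : ℝ} (h0 : 0 < R) (h1 : R < 1) (θ : ℝ) : pt R θ ∈ ball (0 : ℂ) 1 := by
  rw [mem_ball_zero_iff]
  unfold pt
  rw [norm_mul, Complex.norm_exp_ofReal_mul_I, Complex.norm_real, Real.norm_eq_abs,
    abs_of_pos h0, mul_one]
  exact h1

private lemma cont_im (ℓ : ℂ → ℂ) (hℓ : DifferentiableOn ℂ ℓ (ball 0 1)) {R : ℝ} (h0 : 0 < R)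
    (h1 : R < 1) : Continuous fun θ : ℝ => ℓ (pt R θ) :=
  hℓ.continuousOn.comp_continuous (pt_cont R) (pt_mem h0 h1)

private instance : IsFiniteMeasure arcM := by
  unfold arcM
  infer_instance

private lemma poisson_R (ℓ : ℂ → ℂ) (hℓ : DifferentiableOn ℂ ℓ (ball 0 1))
    {z : ℂ} (hz : z ∈ ball (0 : ℂ) 1) {R : ℝ} (hR0 : 0 < R) (hR1 : R < 1) :
    (ℓ ((R : ℂ) * z)).im = (2 * Real.pi)⁻¹ * ∫ θ : ℝ, KK z θ * (ℓ (pt R θ)).im ∂arcM := by
  have hmaps : MapsTo (fun w : ℂ => (R : ℂ) * w) (closedBall (0 : ℂ) 1) (ball (0 : ℂ) 1) := by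
    intro w hw
    rw [mem_closedBall_zero_iff] at hw
    rw [mem_ball_zero_iff, norm_mul, Complex.norm_real, Real.norm_eq_abs, abs_of_pos hR0]
    nlinarith [norm_nonneg w]
  have hd : DifferentiableOn ℂ (fun w => ℓ ((R : ℂ) * w)) (closedBall 0 1) :=
    hℓ.comp (by fun_prop) hmaps
  have hdc : DiffContOnCl ℂ (fun w => ℓ ((R : ℂ) * w)) (ball 0 1) :=
    ⟨hd.mono ball_subset_closedBall, by
      rw [closure_ball _ one_ne_zero]
      exact hd.continuousOn⟩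
  have h1 := hdc.circleAverage_poissonKernel_smul hz
  rw [Real.circleAverage_def] at h1
  have h2 : ∀ θ : ℝ, (poissonKernel 0 z • fun w => ℓ ((R : ℂ) * w)) (circleMap 0 1 θ) =
      ((KK z θ : ℝ) : ℂ) * ℓ (pt R θ) := by
    intro θ
    have e1 : circleMap 0 1 θ = cexp (θ * I) := by simp [circleMap]
    have e2 : (poissonKernel 0 z (cexp (θ * I))) = KK z θ := by
      unfold poissonKernel KK
      rw [sub_zero, sub_zero, Complex.norm_exp_ofReal_mul_I, one_pow]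
    rw [e1]
    show poissonKernel 0 z (cexp (θ * I)) • ℓ ((R : ℂ) * cexp (θ * I)) = _
    rw [e2, Complex.real_smul]
    rfl
  simp only [h2] at h1
  have h3 := congrArg Complex.im h1
  rw [Complex.smul_im, smul_eq_mul] at h3
  rw [← h3]
  congr 1
  have hc : Continuous fun θ : ℝ => ((KK z θ : ℝ) : ℂ) * ℓ (pt R θ) :=
    (Complex.continuous_ofReal.comp (KK_cont hz)).mul (cont_im ℓ hℓ hR0 hR1)
  have h4 := Complex.imCLM.intervalIntegral_comp_comm (μ := volume)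
    (hc.intervalIntegrable 0 (2 * Real.pi))
  have h5 : (∫ θ in (0 : ℝ)..2 * Real.pi, ((KK z θ : ℝ) : ℂ) * ℓ (pt R θ)).im =
      ∫ θ in (0 : ℝ)..2 * Real.pi, KK z θ * (ℓ (pt R θ)).im := by
    rw [← Complex.imCLM_apply, ← h4]
    refine intervalIntegral.integral_congr fun θ _ => ?_
    simp
  rw [h5, intervalIntegral.integral_of_le (by positivity), integral_Ioc_eq_integral_Ioo]
  rfl

private lemma seq_tend : Tendsto (fun n : ℕ => 1 - 1 / ((n : ℝ) + 2)) atTop (𝓝[<] 1) := by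
  rw [tendsto_nhdsWithin_iff]
  refine ⟨?_, Eventually.of_forall fun n => ?_⟩
  · have h1 : Tendsto (fun n : ℕ => 1 / ((n : ℝ) + 2)) atTop (𝓝 0) := by
      refine Tendsto.comp (g := fun x : ℝ => 1 / x) (y := atTop) ?_ ?_
      · simpa using tendsto_inv_atTop_zero (𝕜 := ℝ)
      · exact tendsto_atTop_add_const_right _ _ tendsto_natCast_atTop_atTop
    simpa using h1.const_sub 1
  · have : (0 : ℝ) < 1 / ((n : ℝ) + 2) := by positivity
    simp only [mem_Iio]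
    linarith

private lemma seq_pos (n : ℕ) : (0 : ℝ) < 1 - 1 / ((n : ℝ) + 2) ∧ 1 - 1 / ((n : ℝ) + 2) < 1 := by
  have h0 : (0 : ℝ) < (n : ℝ) + 2 := by positivity
  have h1 : (0 : ℝ) < 1 / ((n : ℝ) + 2) := by positivity
  have h2 : 1 / ((n : ℝ) + 2) ≤ 1 / 2 := by
    apply one_div_le_one_div_of_le (by norm_num)
    have : (0 : ℝ) ≤ n := Nat.cast_nonneg n
    linarith
  constructor <;> linarith

/-- the radial limits are measurable and bounded -/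
private lemma b_meas (ℓ : ℂ → ℂ) (hℓ : DifferentiableOn ℂ ℓ (ball 0 1)) (M : ℝ)
    (hM : ∀ z ∈ ball (0 : ℂ) 1, |(ℓ z).im| ≤ M) (b : ℝ → ℝ)
    (hb : RadLim (fun z => (ℓ z).im) b) :
    AEStronglyMeasurable b arcM ∧ ∀ᵐ θ : ℝ ∂arcM, |b θ| ≤ M := by
  constructor
  · refine aestronglyMeasurable_of_tendsto_ae (atTop : Filter ℕ)
      (f := fun n θ => (ℓ (pt (1 - 1 / ((n : ℝ) + 2)) θ)).im) (fun n => ?_) ?_
    · exact (Complex.continuous_im.comp
        (cont_im ℓ hℓ (seq_pos n).1 (seq_pos n).2)).aestronglyMeasurable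
    · filter_upwards [hb] with θ hθ
      exact hθ.comp seq_tend
  · filter_upwards [hb] with θ hθ
    refine le_of_tendsto (hθ.comp seq_tend).abs (Eventually.of_forall fun n => ?_)
    exact hM _ (pt_mem (seq_pos n).1 (seq_pos n).2 θ)

private lemma KK_int {z : ℂ} (hz : z ∈ ball (0 : ℂ) 1) {g : ℝ → ℝ} {M : ℝ}
    (hg : AEStronglyMeasurable g arcM) (hgM : ∀ᵐ θ : ℝ ∂arcM, |g θ| ≤ M) :
    Integrable (fun θ => KK z θ * g θ) arcM := by
  refine Integrable.of_bound ((KK_cont hz).aestronglyMeasurable.mul hg)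
    ((1 - ‖z‖ ^ 2) / (1 - ‖z‖) ^ 2 * M) ?_
  filter_upwards [hgM] with θ hθ
  rw [norm_mul, Real.norm_eq_abs, Real.norm_eq_abs, abs_of_nonneg (KK_nonneg hz θ)]
  exact mul_le_mul (KK_le hz θ) hθ (abs_nonneg _) ((KK_nonneg hz θ).trans (KK_le hz θ))

/-- Poisson representation by the radial limits. -/
theorem im_eq_poisson (ℓ : ℂ → ℂ) (hℓ : DifferentiableOn ℂ ℓ (ball 0 1)) (M : ℝ)
    (hM : ∀ z ∈ ball (0 : ℂ) 1, |(ℓ z).im| ≤ M) (b : ℝ → ℝ)
    (hb : RadLim (fun z => (ℓ z).im) b)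
    {z : ℂ} (hz : z ∈ ball (0 : ℂ) 1) :
    (ℓ z).im = (2 * Real.pi)⁻¹ * ∫ θ : ℝ,
      ((1 - ‖z‖ ^ 2) / ‖cexp (θ * I) - z‖ ^ 2) * b θ ∂arcM := by
  have h1 : Tendsto (fun n : ℕ => (ℓ (((1 - 1 / ((n : ℝ) + 2) : ℝ) : ℂ) * z)).im) atTop
      (𝓝 (ℓ z).im) := by
    have h2 : ContinuousAt ℓ z := (hℓ.differentiableAt (isOpen_ball.mem_nhds hz)).continuousAt
    have h3 : Tendsto (fun n : ℕ => ((1 - 1 / ((n : ℝ) + 2) : ℝ) : ℂ) * z) atTop (𝓝 z) := by
      have h4 := ((Complex.continuous_ofReal.tendsto (1 : ℝ)).comp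
        (tendsto_nhdsWithin_iff.1 seq_tend).1).mul_const z
      simpa using h4
    exact (Complex.continuous_im.tendsto _).comp (h2.tendsto.comp h3)
  have h2 : Tendsto (fun n : ℕ => (2 * Real.pi)⁻¹ * ∫ θ : ℝ,
      KK z θ * (ℓ (pt (1 - 1 / ((n : ℝ) + 2)) θ)).im ∂arcM) atTop
      (𝓝 ((2 * Real.pi)⁻¹ * ∫ θ : ℝ, KK z θ * b θ ∂arcM)) := by
    refine Tendsto.const_mul _ ?_
    refine tendsto_integral_of_dominated_convergence
      (fun _ => (1 - ‖z‖ ^ 2) / (1 - ‖z‖) ^ 2 * M) (fun n => ?_) (integrable_const _)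
      (fun n => Eventually.of_forall fun θ => ?_) ?_
    · exact ((KK_cont hz).mul (Complex.continuous_im.comp
        (cont_im ℓ hℓ (seq_pos n).1 (seq_pos n).2))).aestronglyMeasurable
    · rw [norm_mul, Real.norm_eq_abs, Real.norm_eq_abs, abs_of_nonneg (KK_nonneg hz θ)]
      exact mul_le_mul (KK_le hz θ) (hM _ (pt_mem (seq_pos n).1 (seq_pos n).2 θ))
        (abs_nonneg _) ((KK_nonneg hz θ).trans (KK_le hz θ))
    · filter_upwards [hb] with θ hθ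
      exact (hθ.comp seq_tend).const_mul _
  refine tendsto_nhds_unique h1 ?_
  refine h2.congr fun n => ?_
  exact (poisson_R ℓ hℓ hz (seq_pos n).1 (seq_pos n).2).symm

/-- total mass of the Poisson kernel. -/
theorem integral_poisson_kernel {z : ℂ} (hz : z ∈ ball (0 : ℂ) 1) :
    (2 * Real.pi)⁻¹ * ∫ θ : ℝ,
      ((1 - ‖z‖ ^ 2) / ‖cexp (θ * I) - z‖ ^ 2) ∂arcM = 1 := by
  have h := im_eq_poisson (fun _ => I) (differentiableOn_const I) 1 (fun z _ => by simp)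
    (fun _ => 1) (Eventually.of_forall fun θ => by simp) hz
  rw [Complex.I_im] at h
  simp only [mul_one] at h
  exact h.symm

theorem im_le_of_radial (ℓ : ℂ → ℂ) (hℓ : DifferentiableOn ℂ ℓ (ball 0 1)) (M : ℝ)
    (hM : ∀ z ∈ ball (0 : ℂ) 1, |(ℓ z).im| ≤ M) (b : ℝ → ℝ)
    (hb : RadLim (fun z => (ℓ z).im) b)
    (C : ℝ) (hC : ∀ᵐ θ : ℝ ∂arcM, b θ ≤ C) :
    ∀ z ∈ ball (0 : ℂ) 1, (ℓ z).im ≤ C := by
  intro z hz
  obtain ⟨hb1, hb2⟩ := b_meas ℓ hℓ M hM b hb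
  have h1 := im_eq_poisson ℓ hℓ M hM b hb hz
  have h2 := integral_poisson_kernel hz
  have h3 : ∫ θ : ℝ, KK z θ * b θ ∂arcM ≤ ∫ θ : ℝ, KK z θ * C ∂arcM := by
    refine integral_mono_ae (KK_int hz hb1 hb2)
      (KK_int hz aestronglyMeasurable_const (M := |C|) (Eventually.of_forall fun _ => le_rfl)) ?_
    filter_upwards [hC] with θ hθ
    exact mul_le_mul_of_nonneg_left hθ (KK_nonneg hz θ)
  rw [integral_mul_const] at h3
  have h4 : (2 * Real.pi)⁻¹ * ∫ θ : ℝ, KK z θ ∂arcM = 1 := h2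
  have h5 : (ℓ z).im = (2 * Real.pi)⁻¹ * ∫ θ : ℝ, KK z θ * b θ ∂arcM := h1
  rw [h5]
  calc (2 * Real.pi)⁻¹ * ∫ θ : ℝ, KK z θ * b θ ∂arcM
      ≤ (2 * Real.pi)⁻¹ * ((∫ θ : ℝ, KK z θ ∂arcM) * C) :=
        mul_le_mul_of_nonneg_left h3 (by positivity)
    _ = ((2 * Real.pi)⁻¹ * ∫ θ : ℝ, KK z θ ∂arcM) * C := by ring
    _ = C := by rw [h4, one_mul]

theorem im_ge_of_radial (ℓ : ℂ → ℂ) (hℓ : DifferentiableOn ℂ ℓ (ball 0 1)) (M : ℝ)
    (hM : ∀ z ∈ ball (0 : ℂ) 1, |(ℓ z).im| ≤ M) (b : ℝ → ℝ)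
    (hb : RadLim (fun z => (ℓ z).im) b)
    (C : ℝ) (hC : ∀ᵐ θ : ℝ ∂arcM, C ≤ b θ) :
    ∀ z ∈ ball (0 : ℂ) 1, C ≤ (ℓ z).im := by
  intro z hz
  have h := im_le_of_radial (fun w => -ℓ w) hℓ.neg M (fun w hw => by
    rw [Complex.neg_im, abs_neg]
    exact hM w hw) (fun θ => -b θ) (by
      filter_upwards [hb] with θ hθ
      simpa using hθ.neg) (-C) (by
      filter_upwards [hC] with θ hθ
      exact neg_le_neg hθ) z hz
  rw [Complex.neg_im] at h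
  linarith

/-- mean value property for the radial limits. -/
theorem integral_radial (ℓ : ℂ → ℂ) (hℓ : DifferentiableOn ℂ ℓ (ball 0 1)) (M : ℝ)
    (hM : ∀ z ∈ ball (0 : ℂ) 1, |(ℓ z).im| ≤ M) (b : ℝ → ℝ)
    (hb : RadLim (fun z => (ℓ z).im) b) :
    ∫ θ : ℝ, b θ ∂arcM = 2 * Real.pi * (ℓ 0).im := by
  have h1 := im_eq_poisson ℓ hℓ M hM b hb (z := 0) (by simp)
  have h2 : ∀ θ : ℝ, (1 - ‖(0 : ℂ)‖ ^ 2) / ‖cexp (θ * I) - 0‖ ^ 2 = 1 := by
    intro θ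
    rw [sub_zero, Complex.norm_exp_ofReal_mul_I]
    simp
  simp only [h2, one_mul] at h1
  rw [h1]
  have := Real.pi_pos
  field_simp

end Baz16
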