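import Pool.Agent.Baz16.Crit

/-! # Starlike functions satisfy `Re (z s'/s) > 0`.

For `t ∈ (0,1)` let `w_t = s⁻¹ ∘ (t s)`: it maps the disc into itself (`t s(D) ⊆ s(D)`), is
analytic (inverse of an injective analytic function; `s'` does not vanish), `w_t 0 = 0`, so
`|w_t z| ≤ |z|` (Schwarz).  As `t → 1-`, `w_t z = z + (t - 1) s z/s' z + o(1-t)`, hence
`0 ≤ d/dt |w_t z|^2 at 1 = 2 Re (conj z * s z/s' z)`, so `Re (z s'/s) ≥ 0`.
`q z = z s' z/s z` (`q 0 = 1`) is analytic (removable singularity, `s z = z h z`, `h` without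
zeros), `isCara_of_nonneg` finishes. -/

namespace Baz16
open Complex Metric MeasureTheory Set Filter Topology
open scoped ComplexConjugate

/-- the inverse of a univalent function is analytic. -/
private theorem inv_analytic {s : ℂ → ℂ} (hs : IsSchlicht s) :
    ∃ g : ℂ → ℂ, AnalyticOnNhd ℂ g (s '' ball 0 1) ∧ ∀ z ∈ ball (0 : ℂ) 1, g (s z) = z := by
  obtain ⟨hd, hinj, hs0, -⟩ := hs
  have hα : AnalyticOnNhd ℂ s (ball 0 1) := hd.analyticOnNhd isOpen_ball
  have hnc : ∃ a ∈ ball (0:ℂ) 1, ∃ b ∈ ball (0:ℂ) 1, s a ≠ s b := by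
    refine ⟨0, by simp, (1 / 2 : ℂ), by simp; norm_num, fun h => ?_⟩
    have := hinj (by simp) (by simp; norm_num) h
    norm_num at this
  set D := ball (0:ℂ) 1 with hD
  set g := Function.invFunOn s D with hg
  have hgl : ∀ z ∈ D, g (s z) = z := fun z hz => hinj.leftInvOn_invFunOn hz
  have hDpre : IsPreconnected D := (convex_ball (0:ℂ) 1).isPreconnected
  have hncz : ∀ z ∈ D, ¬ ∀ᶠ x in 𝓝 z, s x = s z := by
    intro z hz hcon
    have heq := hα.eqOn_of_preconnected_of_eventuallyEq (analyticOnNhd_const (v := s z))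
      hDpre hz hcon
    obtain ⟨a, ha, b, hb, hab⟩ := hnc
    exact hab ((heq ha).trans (heq hb).symm)
  have hopen : ∀ z ∈ D, 𝓝 (s z) ≤ map s (𝓝 z) := fun z hz =>
    ((hα z hz).eventually_constant_or_nhds_le_map_nhds).resolve_left (hncz z hz)
  have hGopen : IsOpen (s '' D) := by
    rcases hα.is_constant_or_isOpen hDpre with h | h
    · obtain ⟨w, hw⟩ := h
      obtain ⟨a, ha, b, hb, hab⟩ := hnc
      exact absurd ((hw a ha).trans (hw b hb).symm) hab
    · exact h D subset_rfl isOpen_ball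
  have hgcont : ∀ z ∈ D, ContinuousAt g (s z) := by
    intro z hz
    rw [ContinuousAt, hgl z hz]
    intro U hU
    have hU' : U ∩ D ∈ 𝓝 z := inter_mem hU (isOpen_ball.mem_nhds hz)
    have h1 : s '' (U ∩ D) ∈ 𝓝 (s z) := hopen z hz (image_mem_map hU')
    rw [mem_map]
    filter_upwards [h1] with y hy
    obtain ⟨x, hx, rfl⟩ := hy
    rw [mem_preimage, hgl x hx.2]
    exact hx.1
  have hright : ∀ y ∈ s '' D, s (g y) = y := by
    rintro y ⟨x, hx, rfl⟩
    rw [hgl x hx]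
  have hdiff : ∀ z ∈ D, deriv s z ≠ 0 → DifferentiableAt ℂ g (s z) := by
    intro z hz hd
    have h1 : HasDerivAt s (deriv s z) (g (s z)) := by
      rw [hgl z hz]
      exact (hα z hz).differentiableAt.hasDerivAt
    have h2 : HasDerivAt g (deriv s z)⁻¹ (s z) :=
      HasDerivAt.of_local_left_inverse (hgcont z hz) h1 hd
        (by filter_upwards [hGopen.mem_nhds (mem_image_of_mem s hz)] with y hy using hright y hy)
    exact h2.differentiableAt
  refine ⟨g, ?_, hgl⟩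
  rintro w ⟨z, hz, rfl⟩
  refine Complex.analyticAt_of_differentiable_on_punctured_nhds_of_continuousAt ?_ (hgcont z hz)
  have hderiv : ∀ᶠ x in 𝓝[≠] z, deriv s x ≠ 0 := by
    rcases (hα z hz).deriv.eventually_eq_zero_or_eventually_ne_zero with h | h
    · exfalso
      apply hncz z hz
      have heq := (hα.deriv).eqOn_zero_of_preconnected_of_eventuallyEq_zero hDpre hz h
      filter_upwards [isOpen_ball.mem_nhds hz] with x hx
      exact (convex_ball (0:ℂ) 1).is_const_of_fderivWithin_eq_zero (𝕜 := ℂ)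
        (fun y hy => (hα y hy).differentiableAt.differentiableWithinAt) (by
          intro y hy
          rw [fderivWithin_of_isOpen isOpen_ball hy]
          ext
          simpa using heq hy) hx hz
    · exact h
  have hev : ∀ᶠ x in 𝓝 z, x ∈ D ∧ (x ≠ z → deriv s x ≠ 0) := by
    rw [eventually_nhdsWithin_iff] at hderiv
    filter_upwards [hderiv, isOpen_ball.mem_nhds hz] with x hx hxD using ⟨hxD, hx⟩
  rw [eventually_nhdsWithin_iff]
  have := hopen z hz (image_mem_map hev)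
  filter_upwards [this] with y hy hyne
  obtain ⟨x, ⟨hxD, hx⟩, rfl⟩ := hy
  apply hdiff x hxD
  apply hx
  rintro rfl
  exact hyne rfl

/-- the chain rule for the inverse. -/
private theorem inv_deriv {s g : ℂ → ℂ} (hs : IsSchlicht s)
    (hg : AnalyticOnNhd ℂ g (s '' ball 0 1)) (hgl : ∀ z ∈ ball (0 : ℂ) 1, g (s z) = z) {z : ℂ}
    (hz : z ∈ ball (0 : ℂ) 1) : deriv g (s z) * deriv s z = 1 := by
  have h1 : HasDerivAt g (deriv g (s z)) (s z) :=
    (hg (s z) (mem_image_of_mem s hz)).differentiableAt.hasDerivAt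
  have h2 : HasDerivAt s (deriv s z) z :=
    (hs.1.differentiableAt (isOpen_ball.mem_nhds hz)).hasDerivAt
  have h3 : HasDerivAt (g ∘ s) (deriv g (s z) * deriv s z) z := h1.comp z h2
  have h4 : (g ∘ s) =ᶠ[𝓝 z] id := by
    filter_upwards [isOpen_ball.mem_nhds hz] with x hx using hgl x hx
  exact (h3.congr_of_eventuallyEq h4.symm).unique (hasDerivAt_id z)

/-- the Schwarz lemma for `g (t s)`. -/
private theorem star_schwarz {s g : ℂ → ℂ} (hs : IsStarlike s)
    (hg : AnalyticOnNhd ℂ g (s '' ball 0 1)) (hgl : ∀ z ∈ ball (0 : ℂ) 1, g (s z) = z) {z : ℂ}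
    (hz : z ∈ ball (0 : ℂ) 1) {t : ℝ} (h0 : 0 < t) (h1 : t < 1) :
    ‖g (t * s z)‖ ≤ ‖z‖ ∧ s (g (t * s z)) = t * s z := by
  have hmem : ∀ w ∈ ball (0 : ℂ) 1, (t : ℂ) * s w ∈ s '' ball 0 1 := by
    intro w hw
    have := hs.2 (mem_image_of_mem s hw) (show (0 : ℝ) ≤ 1 - t by linarith) h0.le (by ring)
    simpa using this
  have hgm : ∀ y ∈ s '' ball (0 : ℂ) 1, g y ∈ ball (0 : ℂ) 1 ∧ s (g y) = y := by
    rintro y ⟨x, hx, rfl⟩
    rw [hgl x hx]
    exact ⟨hx, rfl⟩
  refine ⟨?_, (hgm _ (hmem z hz)).2⟩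
  have hd : DifferentiableOn ℂ (fun w => g (t * s w)) (ball 0 1) :=
    hg.differentiableOn.comp (hs.1.1.const_mul (t : ℂ)) hmem
  have hm : MapsTo (fun w => g (t * s w)) (ball 0 1) (ball 0 1) :=
    fun w hw => (hgm _ (hmem w hw)).1
  have h00 : (fun w => g (t * s w)) 0 = 0 := by
    show g (t * s 0) = 0
    rw [hs.1.2.2.1, mul_zero]
    have := hgl 0 (by simp)
    rwa [hs.1.2.2.1] at this
  exact Complex.norm_le_norm_of_mapsTo_ball hd (hm.mono_right ball_subset_closedBall) h00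
    (by simpa using hz)


theorem deriv_ne_zero_of_schlicht {s : ℂ → ℂ} (hs : IsSchlicht s) {z : ℂ}
    (hz : z ∈ ball (0 : ℂ) 1) : deriv s z ≠ 0 := by
  obtain ⟨g, hg, hgl⟩ := inv_analytic hs
  have h := inv_deriv hs hg hgl hz
  intro h0
  rw [h0, mul_zero] at h
  exact zero_ne_one h

theorem ne_zero_of_schlicht {s : ℂ → ℂ} (hs : IsSchlicht s) {z : ℂ}
    (hz : z ∈ ball (0 : ℂ) 1) (h0 : z ≠ 0) : s z ≠ 0 := by
  intro h
  apply h0
  refine hs.2.1 hz (by simp) ?_
  rw [h, hs.2.2.1]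

/-- the Schwarz lemma step: for `0 < t < 1` there is `w`, `|w| ≤ |z|`, with `s w = t s z`. -/
theorem star_preimage {s : ℂ → ℂ} (hs : IsStarlike s) {z : ℂ} (hz : z ∈ ball (0 : ℂ) 1)
    {t : ℝ} (h0 : 0 < t) (h1 : t < 1) : ∃ w : ℂ, ‖w‖ ≤ ‖z‖ ∧ s w = t * s z := by
  obtain ⟨g, hg, hgl⟩ := inv_analytic hs.1
  exact ⟨g (t * s z), star_schwarz hs hg hgl hz h0 h1⟩

theorem star_re {s : ℂ → ℂ} (hs : IsStarlike s) {z : ℂ} (hz : z ∈ ball (0 : ℂ) 1)
    (h0 : z ≠ 0) : 0 ≤ (conj z * (s z / deriv s z)).re := by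
  obtain ⟨g, hg, hgl⟩ := inv_analytic hs.1
  have hd := inv_deriv hs.1 hg hgl hz
  have hne := deriv_ne_zero_of_schlicht hs.1 hz
  have hgd : deriv g (s z) = 1 / deriv s z := by
    rw [eq_div_iff hne, hd]
  have h1 : HasDerivAt g (deriv g (s z)) ((((1 : ℝ) : ℂ)) * s z) := by
    rw [Complex.ofReal_one, one_mul]
    exact (hg (s z) (mem_image_of_mem s hz)).differentiableAt.hasDerivAt
  have h2 : HasDerivAt (fun t : ℝ => (t : ℂ) * s z) (s z) 1 := by
    have := (Complex.ofRealCLM.hasDerivAt (x := (1 : ℝ))).mul_const (s z)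
    simpa using this
  have h3 : HasDerivAt (fun t : ℝ => g ((t : ℂ) * s z)) (deriv g (s z) * s z) 1 :=
    HasDerivAt.comp (1 : ℝ) h1 h2
  have h4 := h3.norm_sq
  have h5 : inner ℝ (g (((1 : ℝ) : ℂ) * s z)) (deriv g (s z) * s z) =
      (conj z * (s z / deriv s z)).re := by
    rw [Complex.inner, Complex.ofReal_one, one_mul, hgl z hz, hgd]
    congr 1
    ring
  rw [h5] at h4
  have h6 := (hasDerivAt_iff_tendsto_slope.1 h4).mono_left
    (nhdsWithin_mono (1 : ℝ) (show Iio (1 : ℝ) ⊆ {1}ᶜ from fun x hx => by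
      simpa using (ne_of_lt hx)))
  have h7 : 0 ≤ 2 * (conj z * (s z / deriv s z)).re := by
    refine ge_of_tendsto h6 ?_
    have : Ioo (0 : ℝ) 1 ∈ 𝓝[<] (1 : ℝ) := Ioo_mem_nhdsLT one_pos
    filter_upwards [this] with t ht
    have h8 := (star_schwarz hs hg hgl hz ht.1 ht.2).1
    rw [slope_def_field]
    refine div_nonneg_of_nonpos ?_ (by linarith [ht.2])
    have h9 : ‖g (((1 : ℝ) : ℂ) * s z)‖ = ‖z‖ := by
      rw [Complex.ofReal_one, one_mul, hgl z hz]
    show ‖g ((t : ℂ) * s z)‖ ^ 2 - ‖g (((1 : ℝ) : ℂ) * s z)‖ ^ 2 ≤ 0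
    rw [h9]
    have := pow_le_pow_left₀ (norm_nonneg _) h8 2
    linarith
  linarith

theorem star_q {s : ℂ → ℂ} (hs : IsStarlike s) :
    ∃ q : ℂ → ℂ, IsCara q ∧ ∀ z ∈ ball (0 : ℂ) 1, z * deriv s z = q z * s z := by
  obtain ⟨hsd, hinj, hs0, hs1⟩ := hs.1
  set h : ℂ → ℂ := dslope s 0 with hh
  have hhd : DifferentiableOn ℂ h (ball 0 1) :=
    (Complex.differentiableOn_dslope (isOpen_ball.mem_nhds (by simp))).2 hsd
  have hh0 : h 0 = 1 := by
    rw [hh, dslope_same, hs1]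
  have hsz : ∀ z : ℂ, s z = z * h z := by
    intro z
    have := sub_smul_dslope s 0 z
    rw [hs0, sub_zero, sub_zero, smul_eq_mul] at this
    exact this.symm
  have hhne : ∀ z ∈ ball (0 : ℂ) 1, h z ≠ 0 := by
    intro z hz
    by_cases h0 : z = 0
    · rw [h0, hh0]
      exact one_ne_zero
    · intro hc
      apply ne_zero_of_schlicht hs.1 hz h0
      rw [hsz, hc, mul_zero]
  have hdd : DifferentiableOn ℂ (deriv s) (ball 0 1) := hsd.deriv isOpen_ball
  refine ⟨fun z => deriv s z / h z, isCara_of_nonneg (hdd.div hhd hhne) ?_ ?_, ?_⟩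
  · show deriv s 0 / h 0 = 1
    rw [hs1, hh0, div_one]
  · intro z hz
    show 0 ≤ (deriv s z / h z).re
    by_cases h0 : z = 0
    · rw [h0, hs1, hh0]
      simp
    · have hp := star_re hs hz h0
      have hne := deriv_ne_zero_of_schlicht hs.1 hz
      have hn := hhne z hz
      have e : deriv s z / h z =
          (conj z * (s z / deriv s z))⁻¹ * ((Complex.normSq z : ℝ) : ℂ) := by
        rw [Complex.normSq_eq_conj_mul_self, hsz z]
        have hcz : conj z ≠ 0 := by simpa using h0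
        field_simp
      rw [e, Complex.re_mul_ofReal, Complex.inv_re]
      exact mul_nonneg (div_nonneg hp (Complex.normSq_nonneg _)) (Complex.normSq_nonneg _)
  · intro z hz
    show z * deriv s z = deriv s z / h z * s z
    have hn := hhne z hz
    rw [hsz z]
    field_simp

end Baz16
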